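import Pool.Agent.H14.GP.Mob

set_option autoImplicit false

open Complex Metric Set Filter Topology ComplexConjugate MeasureTheory

namespace Pool.Agent.H14.GP

/-! ## Module B: `Bl.lean`, Blaschke products -/
section B
variable {s : ℕ → ℂ} {N M : ℕ → ℕ} {z : ℂ}

private lemma norm_bf_sub_one_le {a : ℂ} {r : ℝ} (ha : ‖a‖ < 1) (hr : r < 1) (hz : ‖z‖ ≤ r) :
    ‖bf a z - 1‖ ≤ (1 + r) / (1 - r) * (1 - ‖a‖) := by
  have hz1 : ‖z‖ < 1 := lt_of_le_of_lt hz hr
  have hr0 : 0 ≤ r := (norm_nonneg z).trans hz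
  have h1r : 0 < 1 - r := by linarith
  unfold bf
  split_ifs with h
  · subst h
    simp only [norm_zero, sub_zero, mul_one]
    calc ‖z - 1‖ ≤ ‖z‖ + ‖(1:ℂ)‖ := norm_sub_le _ _
      _ ≤ 1 + r := by rw [norm_one]; linarith
      _ ≤ (1 + r) / (1 - r) := by
        rw [le_div_iff₀ h1r]; nlinarith
  · have hne := one_sub_conj_mul_ne hz1 ha
    have hn : (‖a‖ : ℂ) ^ 2 = a * conj a := by
      rw [Complex.mul_conj, Complex.normSq_eq_norm_sq]; push_cast; rfl
    have e : ((‖a‖ : ℂ) / a) * ((a - z) / (1 - conj a * z)) - 1 =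
        - ((1 - ‖a‖ : ℂ) * (a + ‖a‖ * z)) / (a * (1 - conj a * z)) := by
      rw [div_mul_div_comm, div_sub_one (mul_ne_zero h hne)]
      congr 1
      linear_combination (-z) * hn
    have ha0 : 0 < ‖a‖ := norm_pos_iff.2 h
    have hlow : 1 - r ≤ ‖1 - conj a * z‖ := by
      calc 1 - r ≤ 1 - ‖a‖ * ‖z‖ := by nlinarith [norm_nonneg z]
        _ = ‖(1:ℂ)‖ - ‖conj a * z‖ := by rw [norm_mul, RCLike.norm_conj, norm_one]
        _ ≤ ‖1 - conj a * z‖ := norm_sub_norm_le _ _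
    have hup : ‖a + ‖a‖ * z‖ ≤ ‖a‖ * (1 + r) := by
      calc ‖a + ‖a‖ * z‖ ≤ ‖a‖ + ‖(‖a‖ : ℂ) * z‖ := norm_add_le _ _
        _ = ‖a‖ * (1 + ‖z‖) := by rw [norm_mul, Complex.norm_real, norm_norm]; ring
        _ ≤ ‖a‖ * (1 + r) := by gcongr
    have h1a : ‖(1 - ‖a‖ : ℂ)‖ = 1 - ‖a‖ := by
      have : (1 - ‖a‖ : ℂ) = ((1 - ‖a‖ : ℝ) : ℂ) := by push_cast; rfl
      rw [this, Complex.norm_real, Real.norm_eq_abs, abs_of_pos (by linarith)]
    rw [e, norm_div, norm_neg, norm_mul, norm_mul, h1a]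
    have hpos : 0 < ‖1 - conj a * z‖ := lt_of_lt_of_le h1r hlow
    rw [div_le_iff₀ (by positivity)]
    have h1a0 : 0 < 1 - ‖a‖ := by linarith
    calc (1 - ‖a‖) * ‖a + ‖a‖ * z‖ ≤ (1 - ‖a‖) * (‖a‖ * (1 + r)) := by gcongr
      _ = (1 + r) / (1 - r) * (1 - ‖a‖) * (‖a‖ * (1 - r)) := by field_simp
      _ ≤ (1 + r) / (1 - r) * (1 - ‖a‖) * (‖a‖ * ‖1 - conj a * z‖) := by gcongr

private lemma norm_bf_le_one {a : ℂ} (hz : ‖z‖ < 1) (ha : ‖a‖ < 1) : ‖bf a z‖ ≤ 1 := by
  rw [norm_bf hz ha]; exact (rho_lt_one hz ha).le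

private lemma norm_pow_sub_one_le (w : ℂ) (hw : ‖w‖ ≤ 1) (n : ℕ) :
    ‖w ^ n - 1‖ ≤ n * ‖w - 1‖ := by
  induction n with
  | zero => simp
  | succ n ih =>
    have e : w ^ (n + 1) - 1 = w ^ n * (w - 1) + (w ^ n - 1) := by ring
    rw [e]
    calc ‖w ^ n * (w - 1) + (w ^ n - 1)‖ ≤ ‖w ^ n * (w - 1)‖ + ‖w ^ n - 1‖ := norm_add_le _ _
      _ ≤ 1 * ‖w - 1‖ + n * ‖w - 1‖ := by
          rw [norm_mul, norm_pow]
          gcongr
          exact pow_le_one₀ (norm_nonneg _) hw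
      _ = ((n + 1 : ℕ) : ℝ) * ‖w - 1‖ := by push_cast; ring

private lemma term_bound (h : BlData s N) {r : ℝ} (hr : r < 1) (hz : ‖z‖ ≤ r) (i : ℕ) :
    ‖bf (s i) z ^ N i - 1‖ ≤ (1 + r) / (1 - r) * ((N i : ℝ) * (1 - ‖s i‖)) := by
  have h1 := norm_pow_sub_one_le _ (norm_bf_le_one (lt_of_le_of_lt hz hr) (h.1 i)) (N i)
  have h2 := norm_bf_sub_one_le (h.1 i) hr hz
  calc ‖bf (s i) z ^ N i - 1‖ ≤ N i * ‖bf (s i) z - 1‖ := h1
    _ ≤ N i * ((1 + r) / (1 - r) * (1 - ‖s i‖)) := by gcongr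
    _ = _ := by ring

private lemma summable_norm_term (h : BlData s N) (hz : ‖z‖ < 1) :
    Summable fun i => ‖bf (s i) z ^ N i - 1‖ :=
  Summable.of_nonneg_of_le (fun _ => norm_nonneg _) (fun i => term_bound h hz le_rfl i)
    (h.2.mul_left _)

private lemma multipliable_bf (h : BlData s N) (hz : ‖z‖ < 1) :
    Multipliable fun i => bf (s i) z ^ N i := by
  have := multipliable_one_add_of_summable (summable_norm_term h hz)
  simpa using this

private lemma multipliable_rho (h : BlData s N) (hz : ‖z‖ < 1) :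
    Multipliable fun i => rho z (s i) ^ N i := by
  have := (multipliable_bf h hz).norm
  simpa [norm_pow, norm_bf hz (h.1 _)] using this

private lemma norm_Bl (h : BlData s N) (hz : ‖z‖ < 1) :
    ‖Bl s N z‖ = ∏' i, rho z (s i) ^ N i := by
  unfold Bl
  rw [(multipliable_bf h hz).norm_tprod]
  simp [norm_pow, norm_bf hz (h.1 _)]

theorem summable_Ke (h : BlData s N) (hz : ‖z‖ < 1) :
    Summable fun i => (N i : ℝ) * Ke z (s i) := by
  have h1 : 0 < 1 - ‖z‖ := by linarith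
  refine Summable.of_nonneg_of_le (fun i => ?_) (fun i => ?_) (h.2.mul_left (4 / (1 - ‖z‖)))
  · exact mul_nonneg (Nat.cast_nonneg _) (Ke_pos hz (h.1 i)).le
  · calc (N i : ℝ) * Ke z (s i) ≤ N i * (4 * (1 - ‖s i‖) / (1 - ‖z‖)) := by
          gcongr; exact Ke_le_right hz (h.1 i)
      _ = _ := by ring

private lemma norm_Bl_le_finset (h : BlData s N) (hz : ‖z‖ < 1) (F : Finset ℕ) :
    ‖Bl s N z‖ ≤ ∏ i ∈ F, rho z (s i) ^ N i := by
  rw [norm_Bl h hz]
  have hm := (multipliable_rho h hz).hasProd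
  refine le_of_tendsto hm ?_
  filter_upwards [eventually_ge_atTop F] with G hG
  rw [← Finset.prod_sdiff hG]
  have h1 : ∏ i ∈ G \ F, rho z (s i) ^ N i ≤ 1 :=
    Finset.prod_le_one (fun i _ => pow_nonneg (rho_nonneg _ _) _)
      (fun i _ => pow_le_one₀ (rho_nonneg _ _) (rho_lt_one hz (h.1 i)).le)
  have h2 : 0 ≤ ∏ i ∈ F, rho z (s i) ^ N i :=
    Finset.prod_nonneg fun i _ => pow_nonneg (rho_nonneg _ _) _
  calc _ ≤ 1 * ∏ i ∈ F, rho z (s i) ^ N i := by gcongr
    _ = _ := one_mul _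

private lemma norm_Bl_le_one (h : BlData s N) (hz : ‖z‖ < 1) : ‖Bl s N z‖ ≤ 1 := by
  have := norm_Bl_le_finset h hz ∅
  simpa using this

private lemma differentiableAt_bf {a : ℂ} (hz : ‖z‖ < 1) (ha : ‖a‖ < 1) :
    DifferentiableAt ℂ (bf a) z := by
  unfold bf
  split_ifs with h
  · exact differentiableAt_id
  · have h1 := one_sub_conj_mul_ne hz ha
    have d1 : DifferentiableAt ℂ (fun w : ℂ => a - w) z := by fun_prop
    have d2 : DifferentiableAt ℂ (fun w : ℂ => 1 - conj a * w) z := by fun_prop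
    exact (d1.div d2 h1).const_mul _

theorem Bl_mem_Ub (h : BlData s N) : Bl s N ∈ Ub := by
  refine ⟨?_, fun z hz => norm_Bl_le_one h (by simpa using hz)⟩
  intro z hz
  have hz1 : ‖z‖ < 1 := by simpa using hz
  obtain ⟨r, hzr, hr⟩ := exists_between hz1
  have hu : Summable fun i => (1 + r) / (1 - r) * ((N i : ℝ) * (1 - ‖s i‖)) := h.2.mul_left _
  have hl := Summable.hasProdLocallyUniformlyOn_one_add (K := ball (0:ℂ) r)
    (f := fun i w => bf (s i) w ^ N i - 1) isOpen_ball hu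
    (Eventually.of_forall fun i w hw => term_bound h hr (by simpa using (mem_ball_zero_iff.1 hw).le) i)
    (fun i => by
      intro w hw
      have hw1 : ‖w‖ < 1 := (mem_ball_zero_iff.1 hw).trans hr
      exact (((differentiableAt_bf hw1 (h.1 i)).pow _).sub_const _).continuousAt.continuousWithinAt)
  have hd : DifferentiableOn ℂ (fun w => ∏' i, (1 + (bf (s i) w ^ N i - 1))) (ball (0:ℂ) r) := by
    refine (hasProdLocallyUniformlyOn_iff_tendstoLocallyUniformlyOn.1 hl).differentiableOn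
      (Eventually.of_forall fun F => ?_) isOpen_ball
    intro w hw
    have hw1 : ‖w‖ < 1 := (mem_ball_zero_iff.1 hw).trans hr
    refine DifferentiableAt.differentiableWithinAt ?_
    refine DifferentiableAt.fun_finsetProd fun i _ => ?_
    exact (((differentiableAt_bf hw1 (h.1 i)).pow _).sub_const _).const_add _
  have he : (fun w => ∏' i, (1 + (bf (s i) w ^ N i - 1))) = Bl s N := by
    funext w
    unfold Bl
    congr 1
    funext i
    ring
  rw [he] at hd
  exact (hd.differentiableAt (isOpen_ball.mem_nhds (by simpa using hzr))).differentiableWithinAt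

theorem Bl_add (hN : BlData s N) (hM : BlData s M) :
    EqOn (Bl s (N + M)) (Bl s N * Bl s M) (ball 0 1) := by
  intro z hz
  have hz1 : ‖z‖ < 1 := by simpa using hz
  simp only [Pi.mul_apply]
  unfold Bl
  rw [← (multipliable_bf hN hz1).tprod_mul (multipliable_bf hM hz1)]
  simp only [Pi.add_apply, pow_add]

theorem Bl_pow (h : BlData s N) (q : ℕ) :
    EqOn (Bl s (fun i => q * N i)) (fun z => Bl s N z ^ q) (ball 0 1) := by
  intro z hz
  have hz1 : ‖z‖ < 1 := by simpa using hz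
  have hm := multipliable_bf h hz1
  have hc : Tendsto (fun w : ℂ => w ^ q) (𝓝 (Bl s N z)) (𝓝 (Bl s N z ^ q)) :=
    (continuous_pow q).continuousAt
  have h2 : HasProd (fun i => bf (s i) z ^ (q * N i)) (Bl s N z ^ q) := by
    have := hc.comp hm.hasProd
    unfold HasProd
    refine this.congr fun F => ?_
    simp only [Function.comp]
    rw [← Finset.prod_pow]
    refine Finset.prod_congr rfl fun i _ => ?_
    rw [← pow_mul, mul_comm]
  exact h2.tprod_eq

theorem norm_Bl_le_pow (h : BlData s N) (hz : ‖z‖ < 1) (i : ℕ) :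
    ‖Bl s N z‖ ≤ rho z (s i) ^ N i := by
  have := norm_Bl_le_finset h hz {i}
  simpa using this

theorem Bl_zero_of (h : BlData s N) {i : ℕ} (hi : N i ≠ 0) : Bl s N (s i) = 0 := by
  have := norm_Bl_le_pow h (h.1 i) i
  rw [rho_self, zero_pow hi] at this
  exact norm_le_zero_iff.1 this

theorem Bl_ne_zero (h : BlData s N) (hz : ‖z‖ < 1) (hne : ∀ i, N i ≠ 0 → z ≠ s i) :
    Bl s N z ≠ 0 := by
  have h1 : ∀ i, 1 + (bf (s i) z ^ N i - 1) ≠ 0 := by
    intro i
    rw [add_sub_cancel]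
    by_cases h0 : N i = 0
    · rw [h0]; simp
    · refine pow_ne_zero _ ?_
      rw [← norm_ne_zero_iff, norm_bf hz (h.1 i)]
      exact (rho_pos_of_ne hz (h.1 i) (hne i h0)).ne'
  have := tprod_one_add_ne_zero_of_summable h1 (summable_norm_term h hz)
  simpa [Bl] using this

theorem norm_Bl_le_exp (h : BlData s N) (hz : ‖z‖ < 1) :
    ‖Bl s N z‖ ≤ Real.exp (-(1 / 2) * ∑' i, (N i : ℝ) * Ke z (s i)) := by
  have hs := (summable_Ke h hz).hasSum
  have ht : Tendsto (fun F : Finset ℕ => Real.exp (-(1 / 2) * ∑ i ∈ F, (N i : ℝ) * Ke z (s i)))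
      atTop (𝓝 (Real.exp (-(1 / 2) * ∑' i, (N i : ℝ) * Ke z (s i)))) :=
    (Real.continuous_exp.tendsto _).comp (hs.const_mul _)
  refine ge_of_tendsto' ht fun F => ?_
  refine (norm_Bl_le_finset h hz F).trans ?_
  rw [Finset.mul_sum, Real.exp_sum]
  refine Finset.prod_le_prod (fun i _ => pow_nonneg (rho_nonneg _ _) _) fun i _ => ?_
  have h1 : rho z (s i) ≤ Real.exp (-(Ke z (s i) / 2)) := by
    by_cases hne : z = s i
    · rw [hne, rho_self]; exact (Real.exp_pos _).le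
    · have hp := rho_pos_of_ne hz (h.1 i) hne
      have := half_Ke_le hz (h.1 i) hne
      rw [← Real.log_le_iff_le_exp hp]
      linarith
  calc rho z (s i) ^ N i ≤ Real.exp (-(Ke z (s i) / 2)) ^ N i :=
        pow_le_pow_left₀ (rho_nonneg _ _) h1 _
    _ = Real.exp (-(1 / 2) * ((N i : ℝ) * Ke z (s i))) := by
        rw [← Real.exp_nat_mul]; congr 1; ring

theorem exp_le_norm_Bl (h : BlData s N) (hz : ‖z‖ < 1) {c : ℝ} (hc : 0 < c)
    (hsep : ∀ i, N i ≠ 0 → c ≤ rho z (s i)) :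
    Real.exp (-(1 / (2 * c ^ 2)) * ∑' i, (N i : ℝ) * Ke z (s i)) ≤ ‖Bl s N z‖ := by
  rw [norm_Bl h hz]
  have hs := (summable_Ke h hz).hasSum
  have ht : Tendsto (fun F : Finset ℕ =>
      Real.exp (-(1 / (2 * c ^ 2)) * ∑ i ∈ F, (N i : ℝ) * Ke z (s i)))
      atTop (𝓝 (Real.exp (-(1 / (2 * c ^ 2)) * ∑' i, (N i : ℝ) * Ke z (s i)))) :=
    (Real.continuous_exp.tendsto _).comp (hs.const_mul _)
  refine le_of_tendsto_of_tendsto' ht (multipliable_rho h hz).hasProd fun F => ?_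
  rw [Finset.mul_sum, Real.exp_sum]
  refine Finset.prod_le_prod (fun i _ => (Real.exp_pos _).le) fun i _ => ?_
  by_cases h0 : N i = 0
  · rw [h0]; simp
  · have h1 : Real.exp (-(Ke z (s i) / (2 * c ^ 2))) ≤ rho z (s i) := by
      have hp : 0 < rho z (s i) := lt_of_lt_of_le hc (hsep i h0)
      have := neg_log_rho_le hc hz (h.1 i) (hsep i h0)
      rw [← Real.le_log_iff_exp_le hp]
      linarith
    calc Real.exp (-(1 / (2 * c ^ 2)) * ((N i : ℝ) * Ke z (s i)))
        = Real.exp (-(Ke z (s i) / (2 * c ^ 2))) ^ N i := by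
          rw [← Real.exp_nat_mul]; congr 1; ring
      _ ≤ rho z (s i) ^ N i := pow_le_pow_left₀ (Real.exp_pos _).le h1 _

private lemma BlData_remove (h : BlData s N) (F : Finset ℕ) :
    BlData s (fun i => if i ∈ F then 0 else N i) := by
  refine ⟨h.1, ?_⟩
  refine Summable.of_nonneg_of_le (fun i => ?_) (fun i => ?_) h.2
  · exact mul_nonneg (Nat.cast_nonneg _) (by linarith [h.1 i])
  · have : 0 ≤ 1 - ‖s i‖ := by linarith [h.1 i]
    gcongr
    show (if i ∈ F then 0 else N i) ≤ N i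
    split_ifs <;> simp

/-- the modulus as a finite product times the rest -/
theorem norm_Bl_eq_prod_mul (h : BlData s N) (hz : ‖z‖ < 1) (F : Finset ℕ) :
    ‖Bl s N z‖ = (∏ i ∈ F, rho z (s i) ^ N i) *
      ‖Bl s (fun i => if i ∈ F then 0 else N i) z‖ := by
  have h1 : BlData s (fun i => if i ∈ F then 0 else N i) := BlData_remove h F
  have h2 : HasProd (fun i => if i ∈ F then bf (s i) z ^ N i else 1)
      (∏ i ∈ F, bf (s i) z ^ N i) := by
    have := hasProd_prod_of_ne_finset_one (f := fun i => if i ∈ F then bf (s i) z ^ N i else 1)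
      (s := F) (L := SummationFilter.unconditional ℕ) (fun b hb => by simp [hb])
    rwa [Finset.prod_congr rfl (fun i hi => by simp [hi] :
      ∀ i ∈ F, (if i ∈ F then bf (s i) z ^ N i else 1) = bf (s i) z ^ N i)] at this
  have h3 := h2.mul (multipliable_bf h1 hz).hasProd
  have h4 : Bl s N z = (∏ i ∈ F, bf (s i) z ^ N i) *
      Bl s (fun i => if i ∈ F then 0 else N i) z := by
    unfold Bl
    rw [← h3.tprod_eq]
    congr 1
    funext i
    split_ifs <;> simp
  rw [h4, norm_mul, norm_prod]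
  congr 1
  refine Finset.prod_congr rfl fun i _ => ?_
  rw [norm_pow, norm_bf hz (h.1 i)]

end B

end Pool.Agent.H14.GP
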