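import Pool.Agent.H14.GP.Bl

set_option autoImplicit false

open Complex Metric Set Filter Topology ComplexConjugate MeasureTheory

namespace Pool.Agent.H14.GP

section B
variable {s : ℕ → ℂ} {N M : ℕ → ℕ} {z : ℂ}

private lemma rest_data (h : BlData s N) (F : Finset ℕ) :
    BlData s (fun i => if i ∈ F then 0 else N i) := by
  refine ⟨h.1, ?_⟩
  refine Summable.of_nonneg_of_le (fun i => ?_) (fun i => ?_) h.2
  · exact mul_nonneg (Nat.cast_nonneg _) (by linarith [h.1 i])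
  · have : 0 ≤ 1 - ‖s i‖ := by linarith [h.1 i]
    gcongr
    show (if i ∈ F then 0 else N i) ≤ N i
    split_ifs <;> simp

/-- dividing by a finite Blaschke product -/
private lemma div_finite (h : BlData s N) {f : ℂ → ℂ} (hf : f ∈ Hinf) {c : ℝ}
    (hc : ∀ z ∈ ball (0:ℂ) 1, ‖f z * Bl s N z‖ ≤ c) (F : Finset ℕ) (hz : ‖z‖ < 1) :
    ‖f z‖ * ‖Bl s (fun i => if i ∈ F then 0 else N i) z‖ ≤ c := by
  set B' := Bl s (fun i => if i ∈ F then 0 else N i) with hB'
  have hB'U : B' ∈ Ub := Bl_mem_Ub (rest_data h F)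
  let M : ℝ → ℝ := fun r => ∏ i ∈ F, Real.sqrt (1 - 4 * (1 - r) / (1 - ‖s i‖)) ^ N i
  have hMc : Continuous M := by
    refine continuous_finsetProd _ fun i _ => ?_
    exact (Real.continuous_sqrt.comp (by fun_prop)).pow _
  have hM1 : M 1 = 1 := by simp [M]
  have hMt : Tendsto M (𝓝[<] 1) (𝓝 1) := by
    have := hMc.tendsto 1
    rw [hM1] at this
    exact this.mono_left nhdsWithin_le_nhds
  have hlim : Tendsto (fun r => ‖f z‖ * ‖B' z‖ * M r) (𝓝[<] 1) (𝓝 (‖f z‖ * ‖B' z‖)) := by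
    simpa using hMt.const_mul (‖f z‖ * ‖B' z‖)
  refine le_of_tendsto hlim ?_
  have e1 : ∀ᶠ r in 𝓝[<] (1:ℝ), 0 < M r := hMt.eventually (lt_mem_nhds one_pos)
  have e2 : ∀ᶠ r in 𝓝[<] (1:ℝ), ‖z‖ < r := (eventually_gt_nhds hz).filter_mono nhdsWithin_le_nhds
  filter_upwards [e1, e2, self_mem_nhdsWithin] with r hr1 hr2 hr3
  have hr0 : 0 < r := lt_of_le_of_lt (norm_nonneg _) hr2
  have hr3' : r < 1 := hr3
  have hsub : closedBall (0:ℂ) r ⊆ ball (0:ℂ) 1 := closedBall_subset_ball hr3'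
  have hd : DifferentiableOn ℂ (fun w => f w * B' w) (ball (0:ℂ) 1) := hf.1.mul hB'U.1
  have hdc : DiffContOnCl ℂ (fun w => f w * B' w) (ball (0:ℂ) r) :=
    (hd.mono hsub).diffContOnCl_ball subset_rfl
  have hbd : ∀ w ∈ frontier (ball (0:ℂ) r), ‖f w * B' w‖ ≤ c / M r := by
    intro w hw
    rw [frontier_ball _ hr0.ne'] at hw
    have hwr : ‖w‖ = r := by simpa using hw
    have hw1 : ‖w‖ < 1 := by rw [hwr]; exact hr3'
    rw [le_div_iff₀ hr1]
    have hMle : M r ≤ ∏ i ∈ F, rho w (s i) ^ N i := by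
      refine Finset.prod_le_prod (fun i _ => pow_nonneg (Real.sqrt_nonneg _) _) fun i _ => ?_
      refine pow_le_pow_left₀ (Real.sqrt_nonneg _) ?_ _
      rw [Real.sqrt_le_left (rho_nonneg _ _)]
      have h1 := Ke_le_left hw1 (h.1 i)
      rw [Ke_eq hw1 (h.1 i), hwr] at h1
      linarith
    have := hc w (by simpa using hw1)
    rw [norm_mul, norm_Bl_eq_prod_mul h hw1 F] at this
    calc ‖f w * B' w‖ * M r ≤ ‖f w * B' w‖ * ∏ i ∈ F, rho w (s i) ^ N i := by gcongr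
      _ = ‖f w‖ * ((∏ i ∈ F, rho w (s i) ^ N i) * ‖B' w‖) := by rw [norm_mul]; ring
      _ ≤ c := this
  have hmax := Complex.norm_le_of_forall_mem_frontier_norm_le isBounded_ball hdc hbd
    (z := z) (subset_closure (by simpa using hr2))
  rw [le_div_iff₀ hr1, norm_mul] at hmax
  exact hmax

/-- dividing by a Blaschke product does not increase the norm -/
theorem Bl_div_bound (h : BlData s N) {f : ℂ → ℂ} (hf : f ∈ Hinf) {c : ℝ}
    (hc : ∀ z ∈ ball (0:ℂ) 1, ‖f z * Bl s N z‖ ≤ c) : ∀ z ∈ ball (0:ℂ) 1, ‖f z‖ ≤ c := by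
  intro z hz
  have hz1 : ‖z‖ < 1 := by simpa using hz
  set S : ℝ := ∑' i, (N i : ℝ) * Ke z (s i) with hS
  have hsum : HasSum (fun i => (N i : ℝ) * Ke z (s i)) S := (summable_Ke h hz1).hasSum
  have htail : ∀ F : Finset ℕ, ∑' i, ((if i ∈ F then 0 else N i : ℕ) : ℝ) * Ke z (s i) =
      S - ∑ i ∈ F, (N i : ℝ) * Ke z (s i) := by
    intro F
    have h2 : HasSum (fun i => if i ∈ F then (N i : ℝ) * Ke z (s i) else 0)
        (∑ i ∈ F, (N i : ℝ) * Ke z (s i)) := by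
      have := hasSum_sum_of_ne_finset_zero
        (f := fun i => if i ∈ F then (N i : ℝ) * Ke z (s i) else 0)
        (s := F) (L := SummationFilter.unconditional ℕ) (fun b hb => by simp [hb])
      rwa [Finset.sum_congr rfl (fun i hi => by simp [hi] :
        ∀ i ∈ F, (if i ∈ F then (N i : ℝ) * Ke z (s i) else 0) = (N i : ℝ) * Ke z (s i))] at this
    rw [← (hsum.sub h2).tsum_eq]
    congr 1
    funext i
    split_ifs <;> simp
  have ht0 : Tendsto (fun F : Finset ℕ => ∑ i ∈ F, (N i : ℝ) * Ke z (s i)) atTop (𝓝 S) := hsum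
  have ht1 : Tendsto (fun F : Finset ℕ => Real.exp (-(1 / (2 * (1 / 2 : ℝ) ^ 2)) *
      (S - ∑ i ∈ F, (N i : ℝ) * Ke z (s i)))) atTop (𝓝 1) := by
    have := (Real.continuous_exp.tendsto _).comp
      ((ht0.const_sub S).const_mul (-(1 / (2 * (1 / 2 : ℝ) ^ 2))))
    simpa [Function.comp_def] using this
  have hlim : Tendsto (fun F : Finset ℕ => ‖f z‖ * Real.exp (-(1 / (2 * (1 / 2 : ℝ) ^ 2)) *
      (S - ∑ i ∈ F, (N i : ℝ) * Ke z (s i)))) atTop (𝓝 ‖f z‖) := by
    simpa using ht1.const_mul ‖f z‖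
  -- the finitely many near zeros
  have hnear : ∀ᶠ i in cofinite, (N i : ℝ) * Ke z (s i) < 3 / 4 :=
    (summable_Ke h hz1).tendsto_cofinite_zero.eventually (gt_mem_nhds (by norm_num))
  have hfin : {i | ¬ (N i : ℝ) * Ke z (s i) < 3 / 4}.Finite := hnear
  refine le_of_tendsto hlim ?_
  filter_upwards [eventually_ge_atTop hfin.toFinset] with F hF
  refine le_trans ?_ (div_finite h hf hc F hz1)
  have hexp := exp_le_norm_Bl (rest_data h F) hz1 (c := 1 / 2) (by norm_num) (by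
    intro i hi
    have hiF : i ∉ F := fun hiF => hi (by simp [hiF])
    have hNi : N i ≠ 0 := by simpa [hiF] using hi
    have hlt : (N i : ℝ) * Ke z (s i) < 3 / 4 := by
      by_contra hcon
      exact hiF (hF (hfin.mem_toFinset.2 hcon))
    have hN1 : (1:ℝ) ≤ N i := by exact_mod_cast Nat.one_le_iff_ne_zero.2 hNi
    have hK := Ke_pos hz1 (h.1 i)
    have hK2 : Ke z (s i) < 3 / 4 := by nlinarith
    rw [Ke_eq hz1 (h.1 i)] at hK2
    nlinarith [rho_nonneg z (s i)])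
  rw [htail F] at hexp
  gcongr
end B

end Pool.Agent.H14.GP
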