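import Pool.Agent.H14.GP.Corona

set_option autoImplicit false

open Complex Metric Set Filter Topology ComplexConjugate MeasureTheory

namespace Pool.Agent.H14.GP

private lemma const_mem (c : ℂ) : (fun _ : ℂ => c) ∈ Hinf :=
  ⟨differentiableOn_const c, ‖c‖, fun _ _ => le_rfl⟩

private lemma one_mem : (1 : ℂ → ℂ) ∈ Hinf := const_mem 1

private lemma add_mem {f g : ℂ → ℂ} (hf : f ∈ Hinf) (hg : g ∈ Hinf) : f + g ∈ Hinf := by
  obtain ⟨hf1, C, hC⟩ := hf
  obtain ⟨hg1, D, hD⟩ := hg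
  refine ⟨hf1.add hg1, C + D, fun z hz => ?_⟩
  exact (norm_add_le _ _).trans (add_le_add (hC z hz) (hD z hz))

private lemma mul_mem {f g : ℂ → ℂ} (hf : f ∈ Hinf) (hg : g ∈ Hinf) : f * g ∈ Hinf := by
  obtain ⟨hf1, C, hC⟩ := hf
  obtain ⟨hg1, D, hD⟩ := hg
  refine ⟨hf1.mul hg1, C * D, fun z hz => ?_⟩
  rw [Pi.mul_apply, norm_mul]
  exact mul_le_mul (hC z hz) (hD z hz) (norm_nonneg _) ((norm_nonneg _).trans (hC z hz))

private lemma smul_mem (c : ℂ) {f : ℂ → ℂ} (hf : f ∈ Hinf) : c • f ∈ Hinf := by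
  have h : c • f = (fun _ : ℂ => c) * f := by
    funext z; simp
  rw [h]
  exact mul_mem (const_mem c) hf

private lemma Ub_sub {f : ℂ → ℂ} (hf : f ∈ Ub) : f ∈ Hinf := ⟨hf.1, 1, hf.2⟩

private lemma char_const {φ : (ℂ → ℂ) → ℂ} (h : IsChar φ) (c : ℂ) : φ (c • (1 : ℂ → ℂ)) = c := by
  rw [h.2.2.1 c 1 one_mem, h.1, mul_one]

/-! ## Module G: `Char.lean`, characters -/
section G
theorem IsChar.norm_le {φ : (ℂ → ℂ) → ℂ} (h : IsChar φ) {f : ℂ → ℂ} (hf : f ∈ Ub) : ‖φ f‖ ≤ 1 := by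
  by_contra hcon
  push Not at hcon
  set c : ℂ := φ f with hc
  have hfH := Ub_sub hf
  have hb : ∀ z ∈ ball (0:ℂ) 1, ‖c‖ - 1 ≤ ‖c - f z‖ := fun z hz => by
    have h1 := norm_sub_norm_le c (f z)
    have h2 := hf.2 z hz
    linarith
  have hne : ∀ z ∈ ball (0:ℂ) 1, c - f z ≠ 0 := fun z hz h0 => by
    have := hb z hz
    rw [h0, norm_zero] at this
    linarith
  let g : ℂ → ℂ := c • (1 : ℂ → ℂ) + (-1 : ℂ) • f
  have hg : ∀ z, g z = c - f z := fun z => by simp [g, sub_eq_add_neg]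
  have hgH : g ∈ Hinf := add_mem (smul_mem c one_mem) (smul_mem (-1) hfH)
  let k : ℂ → ℂ := fun z => (c - f z)⁻¹
  have hkH : k ∈ Hinf := by
    refine ⟨?_, (‖c‖ - 1)⁻¹, fun z hz => ?_⟩
    · exact ((differentiableOn_const c).sub hf.1).inv hne
    · show ‖(c - f z)⁻¹‖ ≤ _
      rw [norm_inv]
      exact inv_anti₀ (by linarith) (hb z hz)
  have h1 : φ (g * k) = 1 := by
    rw [← h.1]
    refine (h.2.1 (g * k) (mul_mem hgH hkH) 1 one_mem).2.2 fun z hz => ?_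
    show g z * k z = 1
    rw [hg]
    exact mul_inv_cancel₀ (hne z hz)
  have h2 : φ g = 0 := by
    rw [(h.2.1 _ (smul_mem c one_mem) _ (smul_mem (-1) hfH)).1, char_const h,
      h.2.2.1 (-1) f hfH, ← hc]
    ring
  rw [(h.2.1 g hgH k hkH).2.1, h2, zero_mul] at h1
  exact zero_ne_one h1

/-- every ultrafilter on the disc defines a character -/
theorem exists_char_of_ultrafilter (W : Ultrafilter ℂ) (hW : ball (0:ℂ) 1 ∈ W) :
    ∃ m, IsChar m ∧ ∀ f ∈ Hinf, Tendsto f W (𝓝 (m f)) := by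
  classical
  have hex : ∀ f ∈ Hinf, ∃ c : ℂ, Tendsto f W (𝓝 c) := by
    intro f hf
    obtain ⟨-, C, hC⟩ := hf
    have h1 : closedBall (0 : ℂ) C ∈ W.map f := by
      rw [Ultrafilter.mem_map]
      refine Filter.mem_of_superset hW fun z hz => ?_
      rw [mem_preimage, mem_closedBall_zero_iff]
      exact hC z hz
    obtain ⟨c, -, hc⟩ := (isCompact_closedBall (0 : ℂ) C).ultrafilter_le_nhds (W.map f)
      (le_principal_iff.2 h1)
    exact ⟨c, hc⟩
  let m : (ℂ → ℂ) → ℂ := fun f => if h : f ∈ Hinf then (hex f h).choose else 0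
  have hm : ∀ f ∈ Hinf, Tendsto f W (𝓝 (m f)) := fun f hf => by
    simp only [m, dif_pos hf]
    exact (hex f hf).choose_spec
  refine ⟨m, ⟨?_, fun f hf g hg => ⟨?_, ?_, fun he => ?_⟩, fun c f hf => ?_, fun f hf => ?_⟩, hm⟩
  · exact tendsto_nhds_unique (hm 1 one_mem) tendsto_const_nhds
  · exact tendsto_nhds_unique (hm _ (add_mem hf hg)) ((hm f hf).add (hm g hg))
  · exact tendsto_nhds_unique (hm _ (mul_mem hf hg)) ((hm f hf).mul (hm g hg))
  · refine tendsto_nhds_unique (hm f hf) ((hm g hg).congr' ?_)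
    exact Filter.mem_of_superset hW fun z hz => (he hz).symm
  · exact tendsto_nhds_unique (hm _ (smul_mem c hf)) ((hm f hf).const_mul c)
  · simp only [m, dif_neg hf]

/-- (uses `corona`) -/
theorem exists_ultrafilter_of_char {φ : (ℂ → ℂ) → ℂ} (h : IsChar φ) :
    ∃ W : Ultrafilter ℂ, ball (0:ℂ) 1 ∈ W ∧ ∀ f ∈ Hinf, Tendsto f W (𝓝 (φ f)) := by
  let 𝒮 : Set (Set ℂ) := {S | ∃ f ∈ Hinf, ∃ ε > (0 : ℝ), S = {z ∈ ball (0:ℂ) 1 | ‖f z - φ f‖ < ε}}
  have hne : (Filter.generate 𝒮).NeBot := by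
    rw [Filter.generate_neBot_iff]
    intro t ht htf
    obtain ⟨n, S, -, hS⟩ := htf.fin_param
    have hS' : ∀ i, S i ∈ 𝒮 := fun i => ht (hS ▸ mem_range_self i)
    choose f hf ε hε hSe using hS'
    by_contra hcon
    rw [Set.not_nonempty_iff_eq_empty] at hcon
    have hcon' : ∀ z ∈ ball (0:ℂ) 1, ∃ i, ε i ≤ ‖f i z - φ (f i)‖ := by
      intro z hz
      by_contra h1
      push Not at h1
      have : z ∈ ⋂₀ t := by
        intro A hA
        rw [← hS] at hA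
        obtain ⟨i, rfl⟩ := hA
        rw [hSe]
        exact ⟨hz, h1 i⟩
      rw [hcon] at this
      exact this
    let g : Fin n → ℂ → ℂ := fun i => ((ε i)⁻¹ : ℂ) • (f i + (-φ (f i)) • (1 : ℂ → ℂ))
    have hg0 : ∀ i, f i + (-φ (f i)) • (1 : ℂ → ℂ) ∈ Hinf := fun i =>
      add_mem (hf i) (smul_mem _ one_mem)
    have hgH : ∀ i, g i ∈ Hinf := fun i => smul_mem _ (hg0 i)
    have hgφ : ∀ i, φ (g i) = 0 := fun i => by
      show φ (((ε i)⁻¹ : ℂ) • (f i + (-φ (f i)) • (1 : ℂ → ℂ))) = 0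
      rw [h.2.2.1 _ _ (hg0 i), (h.2.1 _ (hf i) _ (smul_mem _ one_mem)).1, char_const h]
      ring
    obtain ⟨k, hk, hsum⟩ := corona n g hgH 1 one_pos fun z hz => by
      obtain ⟨i, hi⟩ := hcon' z hz
      refine ⟨i, ?_⟩
      have h2 : g i z = ((ε i)⁻¹ : ℂ) * (f i z - φ (f i)) := by
        simp only [g, sub_eq_add_neg, Pi.smul_apply, Pi.add_apply, Pi.one_apply, smul_eq_mul,
          mul_one]
      rw [h2, norm_mul, norm_inv, Complex.norm_real, Real.norm_of_nonneg (hε i).le,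
        le_inv_mul_iff₀ (hε i), mul_one]
      exact hi
    have hsumH : ∀ s : Finset (Fin n), (∑ i ∈ s, g i * k i) ∈ Hinf ∧ φ (∑ i ∈ s, g i * k i) = 0 := by
      intro s
      induction s using Finset.induction_on with
      | empty =>
        rw [Finset.sum_empty]
        have h3 : (0 : ℂ → ℂ) = (0 : ℂ) • (1 : ℂ → ℂ) := by simp
        refine ⟨?_, ?_⟩
        · rw [h3]; exact smul_mem 0 one_mem
        · rw [h3, char_const h]
      | insert a s ha ih =>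
        rw [Finset.sum_insert ha]
        refine ⟨add_mem (mul_mem (hgH a) (hk a)) ih.1, ?_⟩
        rw [(h.2.1 _ (mul_mem (hgH a) (hk a)) _ ih.1).1, (h.2.1 _ (hgH a) _ (hk a)).2.1, hgφ,
          ih.2, zero_mul, add_zero]
    have h4 : φ (∑ i, g i * k i) = φ 1 := by
      refine (h.2.1 _ (hsumH Finset.univ).1 1 one_mem).2.2 fun z hz => ?_
      rw [Finset.sum_apply]
      exact hsum z hz
    rw [(hsumH Finset.univ).2, h.1] at h4
    exact zero_ne_one h4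
  have hmem : ∀ f ∈ Hinf, ∀ ε > (0 : ℝ),
      {z ∈ ball (0:ℂ) 1 | ‖f z - φ f‖ < ε} ∈ Ultrafilter.of (Filter.generate 𝒮) := by
    intro f hf ε hε
    exact Ultrafilter.of_le _ (Filter.mem_generate_of_mem ⟨f, hf, ε, hε, rfl⟩)
  refine ⟨Ultrafilter.of (Filter.generate 𝒮), ?_, fun f hf => ?_⟩
  · exact Filter.mem_of_superset (hmem 1 one_mem 1 one_pos) fun z hz => hz.1
  · rw [Metric.tendsto_nhds]
    intro ε hε
    refine Filter.mem_of_superset (hmem f hf ε hε) fun z hz => ?_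
    rw [mem_ofPred_eq, dist_eq_norm]
    exact hz.2
end G

end Pool.Agent.H14.GP
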