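import Pool.Agent.H14.GP.Mob
import Pool.Agent.H63.GP.Split

/-! Re-export of `Pool.Agent.H14.GP.split`, proved by helper63. -/
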