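import Pool.Agent.H14.GP.Bl
import Pool.Agent.H14.GP.Split

/-! Auxiliary lemmas for `Cluster.lean` and `Thin.lean` (helper35). -/

set_option autoImplicit false

open Complex Metric Set Filter Topology ComplexConjugate MeasureTheory

namespace Pool.Agent.H14.GP

lemma clAux_ind_of_mem {A : Set ℕ} {i : ℕ} (h : i ∈ A) : ind A i = 1 := by
  unfold ind; simp [Set.indicator_of_mem h]

lemma clAux_ind_of_not_mem {A : Set ℕ} {i : ℕ} (h : i ∉ A) : ind A i = 0 := by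
  unfold ind; simp [Set.indicator_of_notMem h]

lemma clAux_mem_of_ind {A : Set ℕ} {i : ℕ} (h : ind A i ≠ 0) : i ∈ A := by
  by_contra hi
  exact h (clAux_ind_of_not_mem hi)

lemma clAux_ind_mono {A A' : Set ℕ} (hA : A' ⊆ A) (i : ℕ) : (ind A' i : ℝ) ≤ ind A i := by
  by_cases h : i ∈ A'
  · rw [clAux_ind_of_mem h, clAux_ind_of_mem (hA h)]
  · rw [clAux_ind_of_not_mem h]; simp

lemma clAux_blData_mono {s : ℕ → ℂ} {A A' : Set ℕ} (h : BlData s (ind A)) (hA : A' ⊆ A) :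
    BlData s (ind A') := by
  refine ⟨h.1, Summable.of_nonneg_of_le (fun i => ?_) (fun i => ?_) h.2⟩
  · have := h.1 i
    have : 0 ≤ 1 - ‖s i‖ := by linarith
    positivity
  · have h1 := h.1 i
    exact mul_le_mul_of_nonneg_right (clAux_ind_mono hA i) (by linarith)

lemma clAux_mem_Hinf {s : ℕ → ℂ} {N : ℕ → ℕ} (h : BlData s N) : Bl s N ∈ Hinf :=
  ⟨(Bl_mem_Ub h).1, 1, (Bl_mem_Ub h).2⟩

/-- a Blaschke product whose `Ke`-sum tends to infinity vanishes at the limit -/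
lemma clAux_zero_of_tendsto {ι : Type*} {l : Filter ι} [l.NeBot] {z : ι → ℂ}
    {φ : (ℂ → ℂ) → ℂ} {s : ℕ → ℂ} {N : ℕ → ℕ}
    (hz : ∀ᶠ i in l, ‖z i‖ < 1) (hl : ∀ f ∈ Hinf, Tendsto (fun i => f (z i)) l (𝓝 (φ f)))
    (h : BlData s N) (hS : Tendsto (fun i => ∑' k, (N k : ℝ) * Ke (z i) (s k)) l atTop) :
    φ (Bl s N) = 0 := by
  have h1 := hl _ (clAux_mem_Hinf h)
  refine tendsto_nhds_unique h1 ?_
  rw [tendsto_zero_iff_norm_tendsto_zero]
  have h2 : Tendsto (fun i => Real.exp (-(1 / 2) * ∑' k, (N k : ℝ) * Ke (z i) (s k))) l (𝓝 0) := by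
    refine Real.tendsto_exp_atBot.comp ?_
    exact Tendsto.const_mul_atTop_of_neg (by norm_num) hS
  refine squeeze_zero' (Eventually.of_forall fun i => norm_nonneg _) ?_ h2
  filter_upwards [hz] with i hi
  exact norm_Bl_le_exp h hi

lemma clAux_split_contra {ι : Type*} {l : Filter ι} [l.NeBot] {z : ι → ℂ}
    {φ : (ℂ → ℂ) → ℂ} {s : ℕ → ℂ} {A : Set ℕ}
    (hz : ∀ᶠ i in l, ‖z i‖ < 1) (hl : ∀ f ∈ Hinf, Tendsto (fun i => f (z i)) l (𝓝 (φ f)))
    (h : BlData s (ind A))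
    (hp : ∀ A' ⊆ A, ¬ (φ (Bl s (ind A')) = 0 ∧ φ (Bl s (ind (A \ A'))) = 0))
    (hS : Tendsto (fun i => ∑' k, (ind A k : ℝ) * Ke (z i) (s k)) l atTop) : False := by
  obtain ⟨A', hA', c, hc, C, hsp⟩ := split h
  refine hp A' hA' ⟨?_, ?_⟩
  · refine clAux_zero_of_tendsto hz hl (clAux_blData_mono h hA') ?_
    have h1 : Tendsto (fun i => c * (∑' k, (ind A k : ℝ) * Ke (z i) (s k)) - C) l atTop :=
      tendsto_atTop_add_const_right _ (-C) (Tendsto.const_mul_atTop hc hS)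
    refine tendsto_atTop_mono' _ ?_ h1
    filter_upwards [hz] with i hi
    exact (hsp _ hi).1
  · refine clAux_zero_of_tendsto hz hl (clAux_blData_mono h sdiff_subset) ?_
    have h1 : Tendsto (fun i => c * (∑' k, (ind A k : ℝ) * Ke (z i) (s k)) - C) l atTop :=
      tendsto_atTop_add_const_right _ (-C) (Tendsto.const_mul_atTop hc hS)
    refine tendsto_atTop_mono' _ ?_ h1
    filter_upwards [hz] with i hi
    exact (hsp _ hi).2

end Pool.Agent.H14.GP
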