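import Pool.Agent.H14.GP.Bl
import Pool.Agent.H14.GP.Split
import Pool.Agent.H14.GP.Char
import Pool.Agent.H14.GP.ClAux

set_option autoImplicit false

open Complex Metric Set Filter Topology ComplexConjugate MeasureTheory

namespace Pool.Agent.H14.GP

/-- most points of `W` are close to the zeros -/
lemma cluster_aux {φ : (ℂ → ℂ) → ℂ} {s : ℕ → ℂ} {A : Set ℕ}
    (h : BlData s (ind A)) (h0 : φ (Bl s (ind A)) = 0)
    (hp : ∀ A' ⊆ A, ¬ (φ (Bl s (ind A')) = 0 ∧ φ (Bl s (ind (A \ A'))) = 0))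
    {W : Ultrafilter ℂ} (hW : ball (0:ℂ) 1 ∈ W) (hl : ∀ f ∈ Hinf, Tendsto f W (𝓝 (φ f)))
    {c : ℝ} (hc : 0 < c) : ∀ᶠ z in (W : Filter ℂ), ∃ i ∈ A, rho z (s i) < c := by
  by_contra hcon
  rw [← Ultrafilter.eventually_not] at hcon
  have hz : ∀ᶠ z in (W : Filter ℂ), ‖z‖ < 1 := by
    filter_upwards [hW] with z hz
    simpa using hz
  refine clAux_split_contra (l := (W : Filter ℂ)) (z := fun z => z) hz hl h hp ?_
  have h1 : Tendsto (fun z => ‖Bl s (ind A) z‖) W (𝓝 0) := by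
    have := hl _ (clAux_mem_Hinf h)
    rw [h0] at this
    exact tendsto_zero_iff_norm_tendsto_zero.1 this
  rw [Filter.tendsto_atTop]
  intro K
  have h2 : ∀ᶠ z in (W : Filter ℂ), ‖Bl s (ind A) z‖ < Real.exp (-(1 / (2 * c ^ 2)) * K) :=
    h1.eventually_lt_const (Real.exp_pos _)
  filter_upwards [hz, hcon, h2] with z hz1 hz2 hz3
  push Not at hz2
  have h3 := exp_le_norm_Bl h hz1 hc (fun i hi => hz2 i (clAux_mem_of_ind hi))
  have h4 := Real.exp_lt_exp.1 (lt_of_le_of_lt h3 hz3)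
  have h5 : 0 < 1 / (2 * c ^ 2) := by positivity
  nlinarith

/-- H2: `φ` is in the closure of the zeros -/
theorem cluster {φ : (ℂ → ℂ) → ℂ} (hφ : IsChar φ) {s : ℕ → ℂ} {A : Set ℕ}
    (h : BlData s (ind A)) (h0 : φ (Bl s (ind A)) = 0)
    (hp : ∀ A' ⊆ A, ¬ (φ (Bl s (ind A')) = 0 ∧ φ (Bl s (ind (A \ A'))) = 0)) :
    ∃ ω : Ultrafilter ℕ, A ∈ ω ∧ ∀ f ∈ Hinf, Tendsto (fun i => f (s i)) ω (𝓝 (φ f)) := by
  obtain ⟨W, hW, hl⟩ := exists_ultrafilter_of_char hφ
  have hz : ∀ᶠ z in (W : Filter ℂ), ‖z‖ < 1 := by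
    filter_upwards [hW] with z hz
    simpa using hz
  -- choice of a close zero
  have hch : ∀ n : ℕ, ∃ k : ℂ → ℕ, ∀ z, (∃ i ∈ A, rho z (s i) < 1 / ((n : ℝ) + 1)) →
      k z ∈ A ∧ rho z (s (k z)) < 1 / ((n : ℝ) + 1) := by
    intro n
    classical
    refine ⟨fun z => if hz : ∃ i ∈ A, rho z (s i) < 1 / ((n : ℝ) + 1) then hz.choose else 0, ?_⟩
    intro z hz
    simp only [dif_pos hz]
    exact hz.choose_spec
  choose k hk using hch
  let ω : Ultrafilter ℕ := Ultrafilter.bind (hyperfilter ℕ) (fun n => Ultrafilter.map (k n) W)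
  have hmem : ∀ S : Set ℕ, (∀ᶠ n in (hyperfilter ℕ : Filter ℕ), ∀ᶠ z in (W : Filter ℂ), k n z ∈ S) →
      S ∈ ω := by
    intro S hS
    have : S ∈ (ω : Filter ℕ) := by
      change S ∈ Filter.bind (hyperfilter ℕ : Filter ℕ) _
      rw [Filter.mem_bind']
      exact hS
    exact this
  have hev : ∀ n : ℕ, ∀ᶠ z in (W : Filter ℂ), k n z ∈ A ∧
      rho z (s (k n z)) < 1 / ((n : ℝ) + 1) := by
    intro n
    have := cluster_aux h h0 hp hW hl (c := 1 / ((n : ℝ) + 1)) (by positivity)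
    filter_upwards [this] with z hz
    exact hk n z hz
  refine ⟨ω, hmem A ?_, ?_⟩
  · refine Eventually.of_forall fun n => ?_
    filter_upwards [hev n] with z hz
    exact hz.1
  · intro f hf
    obtain ⟨hfd, C, hC⟩ := hf
    set C' : ℝ := max C 1 with hC'
    have hC'1 : 1 ≤ C' := le_max_right _ _
    have hC'0 : 0 < C' := by linarith
    -- normalized function
    have hg : (fun z => f z / C') ∈ Ub := by
      refine ⟨?_, ?_⟩
      · exact hfd.div_const _
      · intro z hz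
        rw [norm_div, Complex.norm_real, Real.norm_of_nonneg hC'0.le, div_le_one hC'0]
        exact (hC z hz).trans (le_max_left _ _)
    have hlf := hl f ⟨hfd, C, hC⟩
    rw [Metric.tendsto_nhds]
    intro ε hε
    refine hmem _ ?_
    have hlarge : ∀ᶠ n : ℕ in (hyperfilter ℕ : Filter ℕ), 2 * C' * (1 / ((n : ℝ) + 1)) < ε / 2 := by
      have h1 : Tendsto (fun n : ℕ => 2 * C' * (1 / ((n : ℝ) + 1))) atTop (𝓝 (2 * C' * 0)) :=
        (tendsto_one_div_add_atTop_nhds_zero_nat).const_mul _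
      rw [mul_zero] at h1
      have h2 := h1.eventually_lt_const (half_pos hε)
      have h3 : (hyperfilter ℕ : Filter ℕ) ≤ atTop := by
        rw [← Nat.cofinite_eq_atTop]; exact hyperfilter_le_cofinite
      exact h3 h2
    filter_upwards [hlarge] with n hn
    have h4 := (Metric.tendsto_nhds.1 hlf) (ε / 2) (half_pos hε)
    filter_upwards [hz, hev n, h4] with z hz1 hz2 hz3
    have h5 := schwarz_pick hg hz1 (h.1 (k n z))
    have h6 : ‖f z - f (s (k n z))‖ ≤ 2 * C' * rho z (s (k n z)) := by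
      have e : f z / C' - f (s (k n z)) / C' = (f z - f (s (k n z))) / C' := by ring
      rw [e, norm_div, Complex.norm_real, Real.norm_of_nonneg hC'0.le, div_le_iff₀ hC'0] at h5
      linarith
    have h7 : 2 * C' * rho z (s (k n z)) ≤ 2 * C' * (1 / ((n : ℝ) + 1)) :=
      mul_le_mul_of_nonneg_left hz2.2.le (by positivity)
    show dist (f (s (k n z))) (φ f) < ε
    calc dist (f (s (k n z))) (φ f) ≤ dist (f (s (k n z))) (f z) + dist (f z) (φ f) :=
          dist_triangle _ _ _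
      _ < ε / 2 + ε / 2 := by
          refine add_lt_add ?_ hz3
          rw [dist_comm, dist_eq_norm]
          linarith
      _ = ε := by ring

end Pool.Agent.H14.GP
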