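import Pool.Agent.H14.GP.Defs2

set_option autoImplicit false

open Complex Metric Set Filter Topology ComplexConjugate MeasureTheory

namespace Pool.Agent.H14.GP

/-! ### Real derivatives in terms of Wirtinger derivatives -/

theorem fderiv_apply_eq_dz_dzb (w : ℂ → ℂ) (z v : ℂ) :
    fderiv ℝ w z v = dz w z * v + dzb w z * conj v := by
  have hv : v = v.re • (1:ℂ) + v.im • I := by
    simp
  have h1 : fderiv ℝ w z v = v.re • fderiv ℝ w z 1 + v.im • fderiv ℝ w z I := by
    conv_lhs => rw [hv]
    rw [map_add, map_smul, map_smul]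
  have h2 : (conj v : ℂ) = v.re - v.im * I := by
    apply Complex.ext <;> simp
  have h3 : v = v.re + v.im * I := by simp
  rw [h1, dz, dzb, h2]
  nth_rewrite 3 [h3]
  simp only [real_smul]
  have hI : I * I = -1 := I_mul_I
  linear_combination ((v.im:ℂ) * fderiv ℝ w z I) * hI

theorem continuous_fderiv_comp_circle {w : ℂ → ℂ} (hw : ContDiff ℝ 1 w) {g h : ℝ × ℝ → ℂ}
    (hg : Continuous g) (hh : Continuous h) :
    Continuous fun x : ℝ × ℝ => fderiv ℝ w (g x) (h x) := by
  have h1 : Continuous (fderiv ℝ w) := hw.continuous_fderiv (by norm_num)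
  exact (h1.comp hg).clm_apply hh

theorem hasDerivAt_circleMap_radius (r θ : ℝ) :
    HasDerivAt (fun r : ℝ => circleMap 0 r θ) (exp (θ * I)) r := by
  have h : HasDerivAt (fun r : ℝ => ((r : ℝ) : ℂ)) 1 r := ofRealCLM.hasDerivAt
  have h2 := h.mul_const (exp (θ * I))
  simpa [circleMap] using h2

theorem hasDerivAt_circleAverage_aux {w : ℂ → ℂ} (hw : ContDiff ℝ 1 w) (r : ℝ) :
    HasDerivAt (fun r : ℝ => ∫ θ in (0:ℝ)..2 * Real.pi, w (circleMap 0 r θ))
      (∫ θ in (0:ℝ)..2 * Real.pi, fderiv ℝ w (circleMap 0 r θ) (exp (θ * I))) r := by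
  have hcm : Continuous fun x : ℝ × ℝ => circleMap 0 x.1 x.2 := by fun_prop [circleMap]
  have hF' : Continuous fun x : ℝ × ℝ => fderiv ℝ w (circleMap 0 x.1 x.2) (exp (x.2 * I)) := by
    apply continuous_fderiv_comp_circle hw hcm
    fun_prop
  obtain ⟨C, hC⟩ := ((isCompact_closedBall r 1).prod
    (isCompact_uIcc (a := (0:ℝ)) (b := 2 * Real.pi))).exists_bound_of_continuousOn hF'.continuousOn
  refine (intervalIntegral.hasDerivAt_integral_of_dominated_loc_of_deriv_le
    (F := fun r θ => w (circleMap 0 r θ))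
    (F' := fun r θ => fderiv ℝ w (circleMap 0 r θ) (exp (θ * I)))
    (s := closedBall r 1) (bound := fun _ => C) (closedBall_mem_nhds r one_pos) ?_ ?_ ?_ ?_ ?_ ?_).2
  · refine Eventually.of_forall fun x => ?_
    exact (hw.continuous.comp (continuous_circleMap 0 x)).aestronglyMeasurable
  · exact (hw.continuous.comp (continuous_circleMap 0 r)).intervalIntegrable _ _
  · exact (hF'.comp (by fun_prop : Continuous fun θ : ℝ => ((r, θ) : ℝ × ℝ))).aestronglyMeasurable
  · refine Eventually.of_forall fun θ hθ x hx => ?_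
    exact hC (x, θ) ⟨hx, uIoc_subset_uIcc hθ⟩
  · exact intervalIntegrable_const
  · refine Eventually.of_forall fun θ hθ x hx => ?_
    have h1 : HasFDerivAt w (fderiv ℝ w (circleMap 0 x θ)) (circleMap 0 x θ) :=
      (hw.differentiable (by norm_num) _).hasFDerivAt
    exact h1.comp_hasDerivAt x (hasDerivAt_circleMap_radius x θ)

theorem integral_fderiv_tangent {w : ℂ → ℂ} (hw : ContDiff ℝ 1 w) (r : ℝ) :
    ∫ θ in (0:ℝ)..2 * Real.pi, fderiv ℝ w (circleMap 0 r θ) (circleMap 0 r θ * I) = 0 := by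
  have h : ∀ θ ∈ uIcc (0:ℝ) (2 * Real.pi),
      HasDerivAt (fun θ : ℝ => w (circleMap 0 r θ))
        (fderiv ℝ w (circleMap 0 r θ) (circleMap 0 r θ * I)) θ := by
    intro θ _
    have h1 : HasFDerivAt w (fderiv ℝ w (circleMap 0 r θ)) (circleMap 0 r θ) :=
      (hw.differentiable (by norm_num) _).hasFDerivAt
    exact h1.comp_hasDerivAt θ (hasDerivAt_circleMap 0 r θ)
  have hcm : Continuous fun x : ℝ × ℝ => circleMap 0 x.1 x.2 := by fun_prop [circleMap]
  have hF' : Continuous fun x : ℝ × ℝ =>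
      fderiv ℝ w (circleMap 0 x.1 x.2) (circleMap 0 x.1 x.2 * I) :=
    continuous_fderiv_comp_circle hw hcm (hcm.mul continuous_const)
  rw [intervalIntegral.integral_eq_sub_of_hasDerivAt h
    ((hF'.comp (by fun_prop : Continuous fun θ : ℝ => ((r, θ) : ℝ × ℝ))).intervalIntegrable _ _)]
  have : circleMap 0 r (2 * Real.pi) = circleMap 0 r 0 := by
    simp [circleMap]
  rw [this, sub_self]

theorem continuous_dz {w : ℂ → ℂ} (hw : ContDiff ℝ 1 w) : Continuous (dz w) := by
  have h1 : Continuous (fderiv ℝ w) := hw.continuous_fderiv (by norm_num)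
  have h2 : ∀ v : ℂ, Continuous fun z => fderiv ℝ w z v := fun v => h1.clm_apply continuous_const
  unfold dz
  have := h2 1
  have := h2 I
  fun_prop

theorem continuous_dzb {w : ℂ → ℂ} (hw : ContDiff ℝ 1 w) : Continuous (dzb w) := by
  have h1 : Continuous (fderiv ℝ w) := hw.continuous_fderiv (by norm_num)
  have h2 : ∀ v : ℂ, Continuous fun z => fderiv ℝ w z v := fun v => h1.clm_apply continuous_const
  unfold dzb
  have := h2 1
  have := h2 I
  fun_prop

theorem contDiff_dzb {w : ℂ → ℂ} (hw : ContDiff ℝ 2 w) : ContDiff ℝ 1 (dzb w) := by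
  have h1 : ContDiff ℝ 1 (fderiv ℝ w) := hw.fderiv_right (by norm_num)
  have h2 : ∀ v : ℂ, ContDiff ℝ 1 fun z => fderiv ℝ w z v := fun v => h1.clm_apply contDiff_const
  unfold dzb
  have h3 := h2 1
  have h4 := h2 I
  exact (h3.add (contDiff_const.mul h4)).div_const _

theorem contDiff_dz {w : ℂ → ℂ} (hw : ContDiff ℝ 2 w) : ContDiff ℝ 1 (dz w) := by
  have h1 : ContDiff ℝ 1 (fderiv ℝ w) := hw.fderiv_right (by norm_num)
  have h2 : ∀ v : ℂ, ContDiff ℝ 1 fun z => fderiv ℝ w z v := fun v => h1.clm_apply contDiff_const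
  unfold dz
  have h3 := h2 1
  have h4 := h2 I
  exact (h3.sub (contDiff_const.mul h4)).div_const _

/-- tangential identity -/
theorem circleAverage_dz_eq_dzb {w : ℂ → ℂ} (hw : ContDiff ℝ 1 w) (r : ℝ) :
    Real.circleAverage (fun z => z * dz w z) 0 r =
      Real.circleAverage (fun z => conj z * dzb w z) 0 r := by
  have h := integral_fderiv_tangent hw r
  have hcm : Continuous fun θ : ℝ => circleMap 0 r θ := by fun_prop [circleMap]
  have h1 := continuous_dz hw
  have h2 := continuous_dzb hw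
  have h3 : ∀ θ : ℝ, fderiv ℝ w (circleMap 0 r θ) (circleMap 0 r θ * I) =
      I * (circleMap 0 r θ * dz w (circleMap 0 r θ)) -
        I * (conj (circleMap 0 r θ) * dzb w (circleMap 0 r θ)) := by
    intro θ
    rw [fderiv_apply_eq_dz_dzb, map_mul, conj_I]
    ring
  simp_rw [h3] at h
  rw [intervalIntegral.integral_sub, intervalIntegral.integral_const_mul,
    intervalIntegral.integral_const_mul] at h
  · have h4 := mul_left_cancel₀ I_ne_zero (sub_eq_zero.mp h)
    unfold Real.circleAverage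
    rw [h4]
  · apply Continuous.intervalIntegrable
    exact continuous_const.mul (hcm.mul (h1.comp hcm))
  · apply Continuous.intervalIntegrable
    exact continuous_const.mul ((continuous_conj.comp hcm).mul (h2.comp hcm))

theorem mul_deriv_circleAverage {w : ℂ → ℂ} (hw : ContDiff ℝ 1 w) {r : ℝ} (hr : r ≠ 0) :
    HasDerivAt (fun r : ℝ => Real.circleAverage w 0 r)
      ((2 / r : ℝ) * Real.circleAverage (fun z => z * dz w z) 0 r) r := by
  have h := (hasDerivAt_circleAverage_aux hw r).const_smul ((2 * Real.pi)⁻¹)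
  have hcm : Continuous fun θ : ℝ => circleMap 0 r θ := by fun_prop [circleMap]
  have h1 := continuous_dz hw
  have h2 := continuous_dzb hw
  refine h.congr_deriv ?_
  symm
  have h3 : ∀ θ : ℝ, fderiv ℝ w (circleMap 0 r θ) (exp (θ * I)) =
      (1 / r : ℝ) * (circleMap 0 r θ * dz w (circleMap 0 r θ)) +
        (1 / r : ℝ) * (conj (circleMap 0 r θ) * dzb w (circleMap 0 r θ)) := by
    intro θ
    have h4 : exp (θ * I) = (1 / r : ℝ) * circleMap 0 r θ := by
      have : (r : ℂ) ≠ 0 := by exact_mod_cast hr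
      simp only [circleMap, zero_add]
      push_cast
      field_simp
    rw [h4, fderiv_apply_eq_dz_dzb, map_mul, conj_ofReal]
    ring
  simp_rw [h3]
  rw [intervalIntegral.integral_add, intervalIntegral.integral_const_mul,
    intervalIntegral.integral_const_mul]
  · have h5 := circleAverage_dz_eq_dzb hw r
    unfold Real.circleAverage at h5
    rw [smul_add, Complex.real_smul, Complex.real_smul]
    rw [Complex.real_smul, Complex.real_smul] at h5
    unfold Real.circleAverage
    rw [Complex.real_smul]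
    push_cast
    push_cast at h5
    linear_combination (1 / (r:ℂ)) * h5
  · apply Continuous.intervalIntegrable
    exact continuous_const.mul (hcm.mul (h1.comp hcm))
  · apply Continuous.intervalIntegrable
    exact continuous_const.mul ((continuous_conj.comp hcm).mul (h2.comp hcm))

theorem dz_conj_mul {v : ℂ → ℂ} {z : ℂ} (hv : DifferentiableAt ℝ v z) :
    dz (fun z => conj z * v z) z = conj z * dz v z := by
  have h : HasFDerivAt (fun z : ℂ => conj z * v z)
      (conj z • fderiv ℝ v z + v z • (conjCLE : ℂ ≃L[ℝ] ℂ).toContinuousLinearMap) z := by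
    have h1 : HasFDerivAt (fun z : ℂ => conj z) (conjCLE : ℂ ≃L[ℝ] ℂ).toContinuousLinearMap z :=
      (conjCLE : ℂ ≃L[ℝ] ℂ).toContinuousLinearMap.hasFDerivAt
    exact h1.mul hv.hasFDerivAt
  unfold dz
  rw [h.fderiv]
  simp only [add_apply, smul_apply, smul_eq_mul,
    ContinuousLinearEquiv.coe_coe, conjCLE_apply, map_one, conj_I]
  have hI : I * I = -1 := I_mul_I
  linear_combination (v z / 2) * hI

/-- F1 Green -/
theorem green {u : ℂ → ℂ} (hu : ContDiff ℝ 2 u) :
    Real.circleAverage u 0 1 - u 0 = 4 * LL (fun z => dz (dzb u) z) := by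
  set v : ℂ → ℂ := dzb u with hv
  have hv1 : ContDiff ℝ 1 v := contDiff_dzb hu
  have hu1 : ContDiff ℝ 1 u := hu.of_le (by norm_num)
  have hcm : Continuous fun x : ℝ × ℝ => circleMap 0 x.1 x.2 := by fun_prop [circleMap]
  -- Q
  set Q : ℝ → ℂ := fun r => 2 * ((2 * Real.pi)⁻¹ • ∫ θ in (0:ℝ)..2 * Real.pi,
    exp (-(θ * I)) * v (circleMap 0 r θ)) with hQ
  have hQc : Continuous Q := by
    rw [hQ]
    apply Continuous.mul continuous_const
    refine Continuous.fun_const_smul ?_ _
    apply intervalIntegral.continuous_parametric_intervalIntegral_of_continuous'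
    have h1 : Continuous fun x : ℝ × ℝ => v (circleMap 0 x.1 x.2) := hv1.continuous.comp hcm
    have h2 : Continuous fun x : ℝ × ℝ => exp (-((x.2 : ℂ) * I)) := by fun_prop
    exact h2.mul h1
  set P : ℝ → ℂ := fun r => 2 * Real.circleAverage (fun z => conj z * v z) 0 r with hP
  have hPQ : ∀ r : ℝ, P r = r * Q r := by
    intro r
    simp only [hP, hQ, Real.circleAverage, real_smul]
    have h1 : ∀ θ : ℝ, conj (circleMap 0 r θ) * v (circleMap 0 r θ) =
        r * (exp (-(θ * I)) * v (circleMap 0 r θ)) := by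
      intro θ
      have : conj (circleMap 0 r θ) = r * exp (-(θ * I)) := by
        simp [circleMap, ← exp_conj]
      rw [this]; ring
    simp_rw [h1]
    rw [intervalIntegral.integral_const_mul]
    ring
  have hcv : ContDiff ℝ 1 (fun z => conj z * v z) :=
    (conjCLE : ℂ ≃L[ℝ] ℂ).contDiff.mul hv1
  have hP' : ∀ r : ℝ, r ≠ 0 →
      HasDerivAt P (4 * r * Real.circleAverage (fun z => dz v z) 0 r) r := by
    intro r hr
    have h := (mul_deriv_circleAverage hcv hr).const_mul (2:ℂ)
    refine h.congr_deriv ?_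
    have h1 : Real.circleAverage (fun z => z * dz (fun z => conj z * v z) z) 0 r =
        Real.circleAverage (fun z => ((r ^ 2 : ℝ) : ℂ) • dz v z) 0 r := by
      apply Real.circleAverage_congr_sphere
      intro z hz
      simp only
      rw [dz_conj_mul (hv1.differentiable (by norm_num) z)]
      have : ‖z‖ = |r| := by simpa using hz
      have h3 : z * conj z = ((r ^ 2 : ℝ) : ℂ) := by
        rw [mul_conj, normSq_eq_norm_sq, this, sq_abs]
      rw [smul_eq_mul, ← h3]; ring
    rw [h1, Real.circleAverage_fun_smul, smul_eq_mul]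
    have : (r : ℂ) ≠ 0 := by exact_mod_cast hr
    push_cast
    field_simp
    ring
  have hM' : ∀ r : ℝ, r ≠ 0 →
      HasDerivAt (fun r => Real.circleAverage u 0 r) ((1 / r : ℝ) * P r) r := by
    intro r hr
    have h := mul_deriv_circleAverage hu1 hr
    rw [circleAverage_dz_eq_dzb hu1] at h
    refine h.congr_deriv ?_
    simp only [hP]
    push_cast
    ring
  set H : ℝ → ℂ := fun r => Real.circleAverage u 0 r - ((r * Real.log r : ℝ) : ℂ) * Q r with hH
  have hHc : Continuous H := by
    have h1 : Continuous fun r : ℝ => ((r * Real.log r : ℝ) : ℂ) :=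
      continuous_ofReal.comp Real.continuous_mul_log
    have h2 : Continuous fun r : ℝ => Real.circleAverage u 0 r := Real.Continuous.circleAverage hu.continuous
    exact h2.sub (h1.mul hQc)
  have hH' : ∀ r ∈ Ioo (0:ℝ) 1, HasDerivAt H
      (4 * (((r * Real.log (1 / r) : ℝ) : ℂ) * Real.circleAverage (fun z => dz v z) 0 r)) r := by
    intro r hr
    have hr0 : r ≠ 0 := hr.1.ne'
    have hlog : HasDerivAt (fun r : ℝ => ((Real.log r : ℝ) : ℂ)) ((1 / r : ℝ) : ℂ) r := by
      have := (Real.hasDerivAt_log hr0).ofReal_comp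
      simpa using this
    have h1 := (hM' r hr0).sub (hlog.mul (hP' r hr0))
    have h2 : H = fun r => Real.circleAverage u 0 r - ((Real.log r : ℝ) : ℂ) * P r := by
      funext r
      simp only [hH]
      rw [hPQ]
      push_cast
      ring
    rw [h2]
    refine h1.congr_deriv ?_
    rw [one_div, Real.log_inv]
    push_cast
    ring
  have hint : IntervalIntegrable (fun r : ℝ =>
      4 * (((r * Real.log (1 / r) : ℝ) : ℂ) * Real.circleAverage (fun z => dz v z) 0 r))
      volume 0 1 := by
    apply Continuous.intervalIntegrable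
    have h1 : Continuous fun r : ℝ => ((r * Real.log (1 / r) : ℝ) : ℂ) := by
      have : (fun r : ℝ => ((r * Real.log (1 / r) : ℝ) : ℂ)) =
          fun r : ℝ => -((r * Real.log r : ℝ) : ℂ) := by
        funext r
        rw [one_div, Real.log_inv]
        push_cast
        ring
      rw [this]
      exact (continuous_ofReal.comp Real.continuous_mul_log).neg
    have h2 : Continuous fun r : ℝ => Real.circleAverage (fun z => dz v z) 0 r :=
      Real.Continuous.circleAverage (continuous_dz hv1)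
    exact continuous_const.mul (h1.mul h2)
  have key := intervalIntegral.integral_eq_sub_of_hasDerivAt_of_le zero_le_one
    hHc.continuousOn hH' hint
  rw [intervalIntegral.integral_const_mul] at key
  unfold LL
  rw [key]
  simp [hH]

/-! ### Wirtinger calculus -/

theorem dz_congr {f g : ℂ → ℂ} {z : ℂ} (h : f =ᶠ[𝓝 z] g) : dz f z = dz g z := by
  unfold dz
  rw [h.fderiv_eq]

theorem dzb_congr {f g : ℂ → ℂ} {z : ℂ} (h : f =ᶠ[𝓝 z] g) : dzb f z = dzb g z := by
  unfold dzb
  rw [h.fderiv_eq]

theorem dzb_congr' {f g : ℂ → ℂ} {z : ℂ} (h : f =ᶠ[𝓝 z] g) : dzb f =ᶠ[𝓝 z] dzb g := by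
  filter_upwards [h.eventually_nhds] with w hw
  exact dzb_congr hw

theorem dz_congr' {f g : ℂ → ℂ} {z : ℂ} (h : f =ᶠ[𝓝 z] g) : dz f =ᶠ[𝓝 z] dz g := by
  filter_upwards [h.eventually_nhds] with w hw
  exact dz_congr hw

theorem dz_mul {f g : ℂ → ℂ} {z : ℂ} (hf : DifferentiableAt ℝ f z) (hg : DifferentiableAt ℝ g z) :
    dz (fun z => f z * g z) z = dz f z * g z + f z * dz g z := by
  unfold dz
  rw [(hf.hasFDerivAt.fun_mul hg.hasFDerivAt).fderiv]
  simp only [add_apply, smul_apply, smul_eq_mul]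
  ring

theorem dzb_mul {f g : ℂ → ℂ} {z : ℂ} (hf : DifferentiableAt ℝ f z) (hg : DifferentiableAt ℝ g z) :
    dzb (fun z => f z * g z) z = dzb f z * g z + f z * dzb g z := by
  unfold dzb
  rw [(hf.hasFDerivAt.fun_mul hg.hasFDerivAt).fderiv]
  simp only [add_apply, smul_apply, smul_eq_mul]
  ring

theorem fderiv_real_of_complex {g : ℂ → ℂ} {z : ℂ} (hg : DifferentiableAt ℂ g z) (v : ℂ) :
    fderiv ℝ g z v = deriv g z * v := by
  have h := hg.hasDerivAt.complexToReal_fderiv
  rw [h.fderiv]
  simp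

theorem dz_of_complex {g : ℂ → ℂ} {z : ℂ} (hg : DifferentiableAt ℂ g z) : dz g z = deriv g z := by
  unfold dz
  rw [fderiv_real_of_complex hg, fderiv_real_of_complex hg]
  have hI : I * I = -1 := I_mul_I
  linear_combination (-deriv g z / 2) * hI

theorem dzb_of_complex {g : ℂ → ℂ} {z : ℂ} (hg : DifferentiableAt ℂ g z) : dzb g z = 0 := by
  unfold dzb
  rw [fderiv_real_of_complex hg, fderiv_real_of_complex hg]
  have hI : I * I = -1 := I_mul_I
  linear_combination (deriv g z / 2) * hI

theorem hasFDerivAt_conj_comp {g : ℂ → ℂ} {z : ℂ} (hg : DifferentiableAt ℝ g z) :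
    HasFDerivAt (fun z => conj (g z))
      ((conjCLE : ℂ ≃L[ℝ] ℂ).toContinuousLinearMap.comp (fderiv ℝ g z)) z :=
  ((conjCLE : ℂ ≃L[ℝ] ℂ).toContinuousLinearMap.hasFDerivAt).comp z hg.hasFDerivAt

theorem dz_conj {g : ℂ → ℂ} {z : ℂ} (hg : DifferentiableAt ℝ g z) :
    dz (fun z => conj (g z)) z = conj (dzb g z) := by
  unfold dz dzb
  rw [(hasFDerivAt_conj_comp hg).fderiv]
  simp only [ContinuousLinearMap.comp_apply, ContinuousLinearEquiv.coe_coe, conjCLE_apply,
    map_add, map_div₀, map_mul, conj_I, map_ofNat]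
  ring

theorem dzb_conj {g : ℂ → ℂ} {z : ℂ} (hg : DifferentiableAt ℝ g z) :
    dzb (fun z => conj (g z)) z = conj (dz g z) := by
  unfold dz dzb
  rw [(hasFDerivAt_conj_comp hg).fderiv]
  simp only [ContinuousLinearMap.comp_apply, ContinuousLinearEquiv.coe_coe, conjCLE_apply,
    map_sub, map_div₀, map_mul, conj_I, map_ofNat]
  ring

/-- a function of class `C^2` near the closed disc can be changed off the closed disc to a
function of class `C^2` -/
theorem exists_contDiff_extension {u : ℂ → ℂ} {U : Set ℂ} (hU : IsOpen U)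
    (hsub : closedBall (0:ℂ) 1 ⊆ U) {n : ℕ∞} (hu : ContDiffOn ℝ n u U) :
    ∃ u' : ℂ → ℂ, ContDiff ℝ n u' ∧ HasCompactSupport u' ∧
      ∀ z ∈ closedBall (0:ℂ) 1, u' =ᶠ[𝓝 z] u := by
  obtain ⟨δ, hδ, hsub'⟩ := (isCompact_closedBall (0:ℂ) 1).exists_cthickening_subset_open hU hsub
  rw [cthickening_closedBall hδ.le zero_le_one] at hsub'
  let χ : ContDiffBump (0:ℂ) := ⟨1 + δ / 3, 1 + 2 * δ / 3, by positivity, by linarith⟩
  have hrIn : χ.rIn = 1 + δ / 3 := rfl
  have hrOut : χ.rOut = 1 + 2 * δ / 3 := rfl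
  refine ⟨fun z => χ z • u z, ?_, ?_, ?_⟩
  · rw [contDiff_iff_contDiffAt]
    intro z
    by_cases hz : dist z 0 < δ + 1
    · have hzU : U ∈ 𝓝 z := hU.mem_nhds (hsub' (mem_closedBall.mpr hz.le))
      exact (χ.contDiff.contDiffAt).smul (hu.contDiffAt hzU)
    · have h1 : {w : ℂ | χ.rOut < dist w 0} ∈ 𝓝 z := by
        apply (isOpen_lt continuous_const (continuous_id.dist continuous_const)).mem_nhds
        simp only [mem_ofPred_eq, id]
        rw [hrOut]; push Not at hz; linarith
      have h2 : (fun z => χ z • u z) =ᶠ[𝓝 z] fun _ => (0:ℂ) := by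
        filter_upwards [h1] with w hw
        rw [χ.zero_of_le_dist (le_of_lt hw), zero_smul]
      exact contDiffAt_const.congr_of_eventuallyEq h2
  · exact χ.hasCompactSupport.smul_right
  · intro z hz
    have h1 : {w : ℂ | dist w 0 < χ.rIn} ∈ 𝓝 z := by
      apply (isOpen_lt (continuous_id.dist continuous_const) continuous_const).mem_nhds
      simp only [mem_ofPred_eq, id]
      have := mem_closedBall.mp hz
      rw [hrIn]; linarith
    filter_upwards [h1] with w hw
    rw [χ.one_of_mem_closedBall (mem_closedBall.mpr (le_of_lt hw)), one_smul]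

theorem circleAverage_congr_of_le {E : Type*} [NormedAddCommGroup E] [NormedSpace ℝ E]
    {F G : ℂ → E} (h : ∀ z ∈ closedBall (0:ℂ) 1, F z = G z)
    {r : ℝ} (hr : 0 ≤ r) (hr1 : r ≤ 1) : Real.circleAverage F 0 r = Real.circleAverage G 0 r := by
  apply Real.circleAverage_congr_sphere
  intro z hz
  apply h
  rw [mem_sphere, abs_of_nonneg hr] at hz
  rw [mem_closedBall, hz]
  exact hr1

theorem LL_congr {F G : ℂ → ℂ} (h : ∀ z ∈ closedBall (0:ℂ) 1, F z = G z) : LL F = LL G := by
  unfold LL
  apply intervalIntegral.integral_congr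
  intro r hr
  rw [uIcc_of_le zero_le_one] at hr
  simp only
  rw [circleAverage_congr_of_le h hr.1 hr.2]

theorem LR_congr {F G : ℂ → ℝ} (h : ∀ z ∈ closedBall (0:ℂ) 1, F z = G z) : LR F = LR G := by
  unfold LR
  apply intervalIntegral.integral_congr
  intro r hr
  rw [uIcc_of_le zero_le_one] at hr
  simp only
  rw [circleAverage_congr_of_le h hr.1 hr.2]

/-- Green's formula for a function of class `C^2` near the closed disc -/
theorem green_nhd {u : ℂ → ℂ} {U : Set ℂ} (hU : IsOpen U) (hsub : closedBall (0:ℂ) 1 ⊆ U)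
    (hu : ContDiffOn ℝ 2 u U) :
    Real.circleAverage u 0 1 - u 0 = 4 * LL (fun z => dz (dzb u) z) := by
  obtain ⟨u', hu', -, h⟩ := exists_contDiff_extension (n := 2) hU hsub hu
  have h1 := green hu'
  rw [circleAverage_congr_of_le (fun z hz => (h z hz).eq_of_nhds) zero_le_one le_rfl,
    (h 0 (by simp)).eq_of_nhds,
    LL_congr (fun z hz => dz_congr (dzb_congr' (h z hz)))] at h1
  exact h1

end Pool.Agent.H14.GP
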