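import Pool.Agent.H14.GP.Defs2
import Pool.Agent.H14.GP.Green

set_option autoImplicit false

open Complex Metric Set Filter Topology ComplexConjugate MeasureTheory

namespace Pool.Agent.H14.GP

/-! ### Calculus of `LR` and `LL` -/

theorem continuousOn_circleAverage_of_closedBall {E : Type*} [NormedAddCommGroup E]
    [NormedSpace ℝ E] {F : ℂ → E} (hF : ContinuousOn F (closedBall (0:ℂ) 1)) :
    ContinuousOn (Real.circleAverage F 0) (Icc (0:ℝ) 1) := by
  apply Real.ContinuousOn.circleAverage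
  · apply hF.mono
    intro z hz
    have : ‖z - 0‖ ∈ Icc (0:ℝ) 1 := hz
    rw [mem_closedBall, dist_eq_norm]
    exact this.2
  · intro r hr
    exact hr.1

theorem continuous_rlog : Continuous fun r : ℝ => r * Real.log (1 / r) := by
  have : (fun r : ℝ => r * Real.log (1 / r)) = fun r : ℝ => -(r * Real.log r) := by
    funext r
    rw [one_div, Real.log_inv]
    ring
  rw [this]
  exact Real.continuous_mul_log.neg

theorem rlog_nonneg {r : ℝ} (h0 : 0 ≤ r) (h1 : r ≤ 1) : 0 ≤ r * Real.log (1 / r) := by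
  apply mul_nonneg h0
  rw [one_div, Real.log_inv, Left.nonneg_neg_iff]
  exact Real.log_nonpos h0 h1

theorem LR_intervalIntegrable {F : ℂ → ℝ} (hF : ContinuousOn F (closedBall (0:ℂ) 1)) :
    IntervalIntegrable (fun r : ℝ => (r * Real.log (1 / r)) * Real.circleAverage F 0 r)
      volume 0 1 := by
  apply ContinuousOn.intervalIntegrable
  rw [uIcc_of_le zero_le_one]
  exact continuous_rlog.continuousOn.mul (continuousOn_circleAverage_of_closedBall hF)

theorem LL_intervalIntegrable {F : ℂ → ℂ} (hF : ContinuousOn F (closedBall (0:ℂ) 1)) :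
    IntervalIntegrable
      (fun r : ℝ => ((r * Real.log (1 / r) : ℝ) : ℂ) * Real.circleAverage F 0 r)
      volume 0 1 := by
  apply ContinuousOn.intervalIntegrable
  rw [uIcc_of_le zero_le_one]
  exact (continuous_ofReal.comp continuous_rlog).continuousOn.mul
    (continuousOn_circleAverage_of_closedBall hF)

theorem circleIntegrable_of_closedBall {E : Type*} [NormedAddCommGroup E] [NormedSpace ℝ E]
    {F : ℂ → E} (hF : ContinuousOn F (closedBall (0:ℂ) 1)) {r : ℝ} (h0 : 0 ≤ r) (h1 : r ≤ 1) :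
    CircleIntegrable F 0 r := by
  apply ContinuousOn.circleIntegrable h0
  apply hF.mono
  intro z hz
  rw [mem_sphere] at hz
  rw [mem_closedBall, hz]
  exact h1

theorem LR_mono {F G : ℂ → ℝ} (hF : ContinuousOn F (closedBall (0:ℂ) 1))
    (hG : ContinuousOn G (closedBall (0:ℂ) 1)) (h : ∀ z ∈ closedBall (0:ℂ) 1, F z ≤ G z) :
    LR F ≤ LR G := by
  unfold LR
  apply intervalIntegral.integral_mono_on zero_le_one (LR_intervalIntegrable hF)
    (LR_intervalIntegrable hG)
  intro r hr
  apply mul_le_mul_of_nonneg_left _ (rlog_nonneg hr.1 hr.2)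
  apply Real.circleAverage_mono (circleIntegrable_of_closedBall hF hr.1 hr.2)
    (circleIntegrable_of_closedBall hG hr.1 hr.2)
  intro z hz
  apply h
  rw [mem_sphere, abs_of_nonneg hr.1] at hz
  rw [mem_closedBall, hz]
  exact hr.2

theorem LR_nonneg {F : ℂ → ℝ} (h : ∀ z ∈ closedBall (0:ℂ) 1, 0 ≤ F z) : 0 ≤ LR F := by
  unfold LR
  apply intervalIntegral.integral_nonneg zero_le_one
  intro r hr
  apply mul_nonneg (rlog_nonneg hr.1 hr.2)
  apply Real.circleAverage_nonneg_of_nonneg
  intro z hz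
  apply h
  rw [mem_sphere, abs_of_nonneg hr.1] at hz
  rw [mem_closedBall, hz]
  exact hr.2

theorem LR_add {F G : ℂ → ℝ} (hF : ContinuousOn F (closedBall (0:ℂ) 1))
    (hG : ContinuousOn G (closedBall (0:ℂ) 1)) :
    LR (fun z => F z + G z) = LR F + LR G := by
  unfold LR
  rw [← intervalIntegral.integral_add (LR_intervalIntegrable hF) (LR_intervalIntegrable hG)]
  apply intervalIntegral.integral_congr
  intro r hr
  rw [uIcc_of_le zero_le_one] at hr
  simp only
  rw [Real.circleAverage_fun_add (circleIntegrable_of_closedBall hF hr.1 hr.2)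
    (circleIntegrable_of_closedBall hG hr.1 hr.2)]
  ring

theorem LR_const_mul (c : ℝ) (F : ℂ → ℝ) : LR (fun z => c * F z) = c * LR F := by
  unfold LR
  rw [← intervalIntegral.integral_const_mul]
  apply intervalIntegral.integral_congr
  intro r _
  simp only
  have : Real.circleAverage (fun z => c * F z) 0 r = c * Real.circleAverage F 0 r := by
    have := Real.circleAverage_fun_smul (𝕜 := ℝ) (a := c) (f := F) (c := 0) (R := r)
    simpa [smul_eq_mul] using this
  rw [this]
  ring

theorem LL_add {F G : ℂ → ℂ} (hF : ContinuousOn F (closedBall (0:ℂ) 1))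
    (hG : ContinuousOn G (closedBall (0:ℂ) 1)) :
    LL (fun z => F z + G z) = LL F + LL G := by
  unfold LL
  rw [← intervalIntegral.integral_add (LL_intervalIntegrable hF) (LL_intervalIntegrable hG)]
  apply intervalIntegral.integral_congr
  intro r hr
  rw [uIcc_of_le zero_le_one] at hr
  simp only
  rw [Real.circleAverage_fun_add (circleIntegrable_of_closedBall hF hr.1 hr.2)
    (circleIntegrable_of_closedBall hG hr.1 hr.2)]
  ring

theorem circleAverage_ofReal (F : ℂ → ℝ) (r : ℝ) :
    Real.circleAverage (fun z => ((F z : ℝ) : ℂ)) 0 r = ((Real.circleAverage F 0 r : ℝ) : ℂ) := by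
  unfold Real.circleAverage
  rw [intervalIntegral.integral_ofReal, real_smul, smul_eq_mul]
  push_cast
  ring

theorem LL_ofReal (F : ℂ → ℝ) : LL (fun z => ((F z : ℝ) : ℂ)) = ((LR F : ℝ) : ℂ) := by
  unfold LL LR
  rw [← intervalIntegral.integral_ofReal]
  apply intervalIntegral.integral_congr
  intro r _
  simp only
  rw [circleAverage_ofReal]
  push_cast
  ring

theorem norm_circleAverage_le {F : ℂ → ℂ} {r : ℝ} :
    ‖Real.circleAverage F 0 r‖ ≤ Real.circleAverage (fun z => ‖F z‖) 0 r := by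
  unfold Real.circleAverage
  rw [norm_smul, Real.norm_of_nonneg (by positivity), smul_eq_mul]
  apply mul_le_mul_of_nonneg_left _ (by positivity)
  exact intervalIntegral.norm_integral_le_integral_norm (by positivity)

theorem norm_LL_le {F : ℂ → ℂ} (hF : ContinuousOn F (closedBall (0:ℂ) 1)) :
    ‖LL F‖ ≤ LR (fun z => ‖F z‖) := by
  unfold LL LR
  refine (intervalIntegral.norm_integral_le_integral_norm zero_le_one).trans ?_
  apply intervalIntegral.integral_mono_on zero_le_one (LL_intervalIntegrable hF).norm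
    (LR_intervalIntegrable hF.norm)
  intro r hr
  rw [norm_mul, norm_real, Real.norm_of_nonneg (rlog_nonneg hr.1 hr.2)]
  exact mul_le_mul_of_nonneg_left norm_circleAverage_le (rlog_nonneg hr.1 hr.2)

/-- Cauchy-Schwarz for `LR`. -/
theorem LR_mul_le {F G : ℂ → ℝ} (hF : ContinuousOn F (closedBall (0:ℂ) 1))
    (hG : ContinuousOn G (closedBall (0:ℂ) 1)) {A B : ℝ} (hA : 0 ≤ A) (hB : 0 ≤ B)
    (h1 : LR (fun z => F z ^ 2) ≤ A ^ 2) (h2 : LR (fun z => G z ^ 2) ≤ B ^ 2) :
    LR (fun z => F z * G z) ≤ A * B := by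
  -- for every t > 0: 2 F G ≤ t F^2 + G^2 / t
  have hF2 : ContinuousOn (fun z => F z ^ 2) (closedBall (0:ℂ) 1) := hF.pow 2
  have hG2 : ContinuousOn (fun z => G z ^ 2) (closedBall (0:ℂ) 1) := hG.pow 2
  have hFG : ContinuousOn (fun z => F z * G z) (closedBall (0:ℂ) 1) := hF.mul hG
  have key : ∀ s t : ℝ, 0 < s → 0 < t → 2 * s * t * LR (fun z => F z * G z) ≤
      t ^ 2 * LR (fun z => F z ^ 2) + s ^ 2 * LR (fun z => G z ^ 2) := by
    intro s t hs ht
    rw [← LR_const_mul, ← LR_const_mul, ← LR_const_mul, ← LR_add]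
    · apply LR_mono
      · exact continuousOn_const.mul hFG
      · exact (continuousOn_const.mul hF2).add (continuousOn_const.mul hG2)
      · intro z _
        nlinarith [sq_nonneg (t * F z - s * G z)]
    · exact continuousOn_const.mul hF2
    · exact continuousOn_const.mul hG2
  -- limit argument: for all s > A, t > B
  have h3 : ∀ ε : ℝ, 0 < ε → LR (fun z => F z * G z) ≤ (A + ε) * (B + ε) := by
    intro ε hε
    have hs : 0 < A + ε := by linarith
    have ht : 0 < B + ε := by linarith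
    have h4 := key (A + ε) (B + ε) hs ht
    have h5 : LR (fun z => F z ^ 2) ≤ (A + ε) ^ 2 := h1.trans (by nlinarith)
    have h6 : LR (fun z => G z ^ 2) ≤ (B + ε) ^ 2 := h2.trans (by nlinarith)
    have h7 : 0 < (A + ε) * (B + ε) := mul_pos hs ht
    have h8 : 2 * ((A + ε) * (B + ε)) * LR (fun z => F z * G z) ≤
        2 * ((A + ε) * (B + ε)) * ((A + ε) * (B + ε)) := by
      have h9 : (B + ε) ^ 2 * LR (fun z => F z ^ 2) ≤ (B + ε) ^ 2 * (A + ε) ^ 2 :=
        mul_le_mul_of_nonneg_left h5 (by positivity)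
      have h10 : (A + ε) ^ 2 * LR (fun z => G z ^ 2) ≤ (A + ε) ^ 2 * (B + ε) ^ 2 :=
        mul_le_mul_of_nonneg_left h6 (by positivity)
      nlinarith
    exact le_of_mul_le_mul_left h8 (by linarith)
  have h4 : Tendsto (fun ε : ℝ => (A + ε) * (B + ε)) (𝓝[>] 0) (𝓝 ((A + 0) * (B + 0))) := by
    apply Tendsto.mono_left _ nhdsWithin_le_nhds
    have : Continuous fun ε : ℝ => (A + ε) * (B + ε) := by fun_prop
    exact this.tendsto 0
  rw [add_zero, add_zero] at h4
  apply ge_of_tendsto h4
  filter_upwards [self_mem_nhdsWithin] with ε hε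
  exact h3 ε hε

/-- F2 Littlewood-Paley -/
theorem littlewood_paley {g : ℂ → ℂ} (hg : AnalyticOnNhd ℂ g (closedBall 0 1)) :
    LR (fun z => ‖deriv g z‖ ^ 2) = (Real.circleAverage (fun z => ‖g z‖ ^ 2) 0 1 - ‖g 0‖ ^ 2) / 4 := by
  set U : Set ℂ := {z | AnalyticAt ℂ g z} with hU
  have hUo : IsOpen U := isOpen_analyticAt ℂ g
  have hsub : closedBall (0:ℂ) 1 ⊆ U := hg
  have hgR : ∀ z ∈ U, ContDiffAt ℝ 2 g z := fun z hz => by
    have : ContDiffAt ℂ 2 g z := AnalyticAt.contDiffAt hz
    exact this.restrict_scalars ℝ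
  have hu : ContDiffOn ℝ 2 (fun z => g z * conj (g z)) U := by
    intro z hz
    apply ContDiffAt.contDiffWithinAt
    exact (hgR z hz).mul ((conjCLE : ℂ ≃L[ℝ] ℂ).contDiff.contDiffAt.comp z (hgR z hz))
  have h1 := green_nhd hUo hsub hu
  have h2 : ∀ z ∈ U, dzb (fun z => g z * conj (g z)) z = g z * conj (deriv g z) := by
    intro z hz
    have hd : DifferentiableAt ℂ g z := AnalyticAt.differentiableAt hz
    have hdR : DifferentiableAt ℝ g z := hd.restrictScalars ℝ
    have hdc : DifferentiableAt ℝ (fun z => conj (g z)) z :=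
      (hasFDerivAt_conj_comp hdR).differentiableAt
    rw [dzb_mul hdR hdc, dzb_conj hdR, dzb_of_complex hd, dz_of_complex hd]
    ring
  have h3 : ∀ z ∈ closedBall (0:ℂ) 1, dz (dzb (fun z => g z * conj (g z))) z =
      ((‖deriv g z‖ ^ 2 : ℝ) : ℂ) := by
    intro z hz
    have hzU : U ∈ 𝓝 z := hUo.mem_nhds (hsub hz)
    have h4 : dzb (fun z => g z * conj (g z)) =ᶠ[𝓝 z] fun z => g z * conj (deriv g z) := by
      filter_upwards [hzU] with w hw using h2 w hw
    rw [dz_congr h4]
    have hd : DifferentiableAt ℂ g z := (hg z hz).differentiableAt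
    have hd' : DifferentiableAt ℂ (deriv g) z := (hg z hz).deriv.differentiableAt
    have hdR : DifferentiableAt ℝ g z := hd.restrictScalars ℝ
    have hdR' : DifferentiableAt ℝ (deriv g) z := hd'.restrictScalars ℝ
    have hdc : DifferentiableAt ℝ (fun z => conj (deriv g z)) z :=
      (hasFDerivAt_conj_comp hdR').differentiableAt
    rw [dz_mul hdR hdc, dz_conj hdR', dzb_of_complex hd', dz_of_complex hd, map_zero, mul_zero,
      add_zero, mul_conj, normSq_eq_norm_sq]
  rw [LL_congr h3, LL_ofReal] at h1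
  have h5 : (fun z => g z * conj (g z)) = fun z => ((‖g z‖ ^ 2 : ℝ) : ℂ) := by
    funext z
    rw [mul_conj, normSq_eq_norm_sq]
  rw [h5, circleAverage_ofReal] at h1
  rw [mul_conj, normSq_eq_norm_sq] at h1
  have h6 : Real.circleAverage (fun z => ‖g z‖ ^ 2) 0 1 - ‖g 0‖ ^ 2 =
      4 * LR (fun z => ‖deriv g z‖ ^ 2) := by exact_mod_cast h1
  rw [h6]
  ring

/-- F3 -/
theorem carleson_est {f h : ℂ → ℂ} (hf : AnalyticOnNhd ℂ f (closedBall 0 1))
    (hf1 : ∀ z ∈ closedBall (0:ℂ) 1, ‖f z‖ ≤ 1) (hh : AnalyticOnNhd ℂ h (closedBall 0 1)) :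
    LR (fun z => ‖deriv f z‖ ^ 2 * ‖h z‖ ^ 2) ≤ Real.circleAverage (fun z => ‖h z‖ ^ 2) 0 1 := by
  have hfh : AnalyticOnNhd ℂ (fun z => f z * h z) (closedBall 0 1) := hf.mul hh
  have cf := hf.continuousOn
  have ch := hh.continuousOn
  have cf' := hf.deriv.continuousOn
  have ch' := hh.deriv.continuousOn
  have cfh' := hfh.deriv.continuousOn
  have c1 : ContinuousOn (fun z => ‖deriv (fun z => f z * h z) z‖ ^ 2) (closedBall (0:ℂ) 1) :=
    cfh'.norm.pow 2
  have c2 : ContinuousOn (fun z => ‖deriv h z‖ ^ 2) (closedBall (0:ℂ) 1) := ch'.norm.pow 2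
  have c3 : ContinuousOn (fun z => ‖deriv f z‖ ^ 2 * ‖h z‖ ^ 2) (closedBall (0:ℂ) 1) :=
    (cf'.norm.pow 2).mul (ch.norm.pow 2)
  have h1 : LR (fun z => ‖deriv f z‖ ^ 2 * ‖h z‖ ^ 2) ≤
      LR (fun z => 2 * ‖deriv (fun z => f z * h z) z‖ ^ 2 + 2 * ‖deriv h z‖ ^ 2) := by
    apply LR_mono c3
    · exact (continuousOn_const.mul c1).add (continuousOn_const.mul c2)
    · intro z hz
      have hd : deriv (fun z => f z * h z) z = deriv f z * h z + f z * deriv h z :=
        deriv_fun_mul (hf z hz).differentiableAt (hh z hz).differentiableAt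
      have h2 : ‖deriv f z * h z‖ ≤ ‖deriv (fun z => f z * h z) z‖ + ‖deriv h z‖ := by
        have : deriv f z * h z = deriv (fun z => f z * h z) z - f z * deriv h z := by
          rw [hd]; ring
        rw [this]
        refine (norm_sub_le _ _).trans ?_
        gcongr
        rw [norm_mul]
        exact mul_le_of_le_one_left (norm_nonneg _) (hf1 z hz)
      rw [norm_mul] at h2
      have h3 : 0 ≤ ‖deriv f z‖ * ‖h z‖ := by positivity
      rw [← mul_pow]
      nlinarith [sq_nonneg (‖deriv (fun z => f z * h z) z‖ - ‖deriv h z‖), pow_le_pow_left₀ h3 h2 2]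
  rw [LR_add (F := fun z => 2 * ‖deriv (fun z => f z * h z) z‖ ^ 2)
    (G := fun z => 2 * ‖deriv h z‖ ^ 2) (continuousOn_const.mul c1) (continuousOn_const.mul c2),
    LR_const_mul, LR_const_mul, littlewood_paley hfh, littlewood_paley hh] at h1
  have h4 : Real.circleAverage (fun z => ‖f z * h z‖ ^ 2) 0 1 ≤
      Real.circleAverage (fun z => ‖h z‖ ^ 2) 0 1 := by
    apply Real.circleAverage_mono
    · exact circleIntegrable_of_closedBall ((cf.mul ch).norm.pow 2) zero_le_one le_rfl
    · exact circleIntegrable_of_closedBall (ch.norm.pow 2) zero_le_one le_rfl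
    · intro z hz
      rw [abs_one] at hz
      have := hf1 z (sphere_subset_closedBall hz)
      rw [norm_mul]
      apply pow_le_pow_left₀ (by positivity)
      exact mul_le_of_le_one_left (norm_nonneg _) this
  have h5 : 0 ≤ ‖f 0 * h 0‖ ^ 2 := by positivity
  have h6 : 0 ≤ ‖h 0‖ ^ 2 := by positivity
  linarith

end Pool.Agent.H14.GP
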