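import Pool.Agent.H14.GP.Defs2

set_option autoImplicit false

open Complex Metric Set Filter Topology ComplexConjugate MeasureTheory

namespace Pool.Agent.H14.GP

open scoped Convolution

/-- the Cauchy kernel `1 / (π w)` -/
private noncomputable def ck (w : ℂ) : ℂ := ((Real.pi : ℂ) * w)⁻¹

private lemma locInt_ck : LocallyIntegrable ck volume := by
  have key : ∀ R : ℝ, IntegrableOn ck (ball (0:ℂ) R) volume := by
    intro R
    have h1 : IntegrableOn (fun x : ℂ => (fun y : ℝ => y⁻¹) ‖x‖) (ball (0 : ℂ) R) volume := by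
      rw [integrableOn_fun_norm_addHaar (μ := (volume : Measure ℂ)) (f := fun y : ℝ => y⁻¹)]
      rw [Complex.finrank_real_complex]
      have : IntegrableOn (fun _ : ℝ => (1:ℝ)) (Ioo 0 R) volume := by
        rw [integrableOn_const_iff]
        right
        rw [Real.volume_Ioo]
        exact ENNReal.ofReal_lt_top
      refine this.congr_fun ?_ measurableSet_Ioo
      intro y hy
      have hy0 : y ≠ 0 := hy.1.ne'
      simp [hy0]
    have h2 : IntegrableOn (fun x : ℂ => Real.pi⁻¹ * ‖x‖⁻¹) (ball (0 : ℂ) R) volume :=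
      h1.const_mul _
    refine Integrable.mono' h2 ?_ ?_
    · apply Measurable.aestronglyMeasurable
      unfold ck
      fun_prop
    · refine Eventually.of_forall fun x => ?_
      unfold ck
      rw [norm_inv, norm_mul, Complex.norm_real, Real.norm_of_nonneg Real.pi_pos.le, mul_inv]
  rw [locallyIntegrable_iff]
  intro K hK
  obtain ⟨R, hR⟩ := hK.isBounded.subset_ball (0:ℂ)
  exact (key R).mono_set hR

/-- the polar-coordinate computation -/
private lemma polar_dzb {G : ℂ → ℂ} (hG : ContDiff ℝ 2 G) (hc : HasCompactSupport G) (z : ℂ) :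
    ∫ t : ℂ, ck t * dzb G (z - t) = G z := by
  have hGd : Differentiable ℝ G := hG.differentiable (by norm_num)
  have hG1 : ContDiff ℝ 1 G := hG.of_le (by norm_num)
  have hfc : Continuous (fderiv ℝ G) := hG.continuous_fderiv (by norm_num)
  set e : ℝ → ℂ := fun θ => Complex.exp (θ * I) with he
  have hec : Continuous e := by fun_prop
  -- the two partial derivatives
  set h1 : ℝ → ℝ → ℂ := fun r θ => fderiv ℝ G (z - r * e θ) (-(e θ)) with hh1
  set h2 : ℝ → ℝ → ℂ := fun r θ => fderiv ℝ G (z - r * e θ) (-(I * e θ)) with hh2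
  have hc1 : Continuous fun p : ℝ × ℝ => h1 p.1 p.2 := by
    simp only [hh1]
    fun_prop
  have hc2 : Continuous fun p : ℝ × ℝ => h2 p.1 p.2 := by
    simp only [hh2]
    fun_prop
  -- bounded support
  obtain ⟨R, hR0, hR⟩ : ∃ R : ℝ, 0 < R ∧ ∀ w : ℂ, R ≤ ‖w‖ → G (z - w) = 0 ∧
      fderiv ℝ G (z - w) = 0 := by
    obtain ⟨R, hR⟩ := hc.isCompact.isBounded.subset_ball (z:ℂ)
    refine ⟨max R 1, by positivity, ?_⟩
    intro w hw
    have : z - w ∉ tsupport G := by
      intro h
      have := hR h
      rw [mem_ball, dist_eq_norm] at this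
      have h3 : ‖z - w - z‖ = ‖w‖ := by
        rw [show z - w - z = -w by ring, norm_neg]
      rw [h3] at this
      have := le_max_left R 1
      linarith
    refine ⟨image_eq_zero_of_notMem_tsupport this, ?_⟩
    exact image_eq_zero_of_notMem_tsupport (fun h => this (tsupport_fderiv_subset ℝ h))
  have hen : ∀ θ, ‖e θ‖ = 1 := fun θ => Complex.norm_exp_ofReal_mul_I θ
  have hz1 : ∀ r θ, R ≤ r → h1 r θ = 0 := by
    intro r θ hr
    simp only [hh1]
    rw [(hR (r * e θ) ?_).2]
    · simp
    · rw [norm_mul, hen, mul_one, Complex.norm_real, Real.norm_of_nonneg (by linarith)]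
      exact hr
  have hz2 : ∀ r θ, R ≤ r → h2 r θ = 0 := by
    intro r θ hr
    simp only [hh2]
    rw [(hR (r * e θ) ?_).2]
    · simp
    · rw [norm_mul, hen, mul_one, Complex.norm_real, Real.norm_of_nonneg (by linarith)]
      exact hr
  -- integrability on the strip
  have hint : ∀ h : ℝ → ℝ → ℂ, Continuous (fun p : ℝ × ℝ => h p.1 p.2) →
      (∀ r θ, R ≤ r → h r θ = 0) →
      IntegrableOn (fun p : ℝ × ℝ => h p.1 p.2) (Ioi (0:ℝ) ×ˢ Ioo (-Real.pi) Real.pi) volume := by
    intro h hh hz
    have hcpt : IsCompact (Icc (0:ℝ) R ×ˢ Icc (-Real.pi) Real.pi) :=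
      isCompact_Icc.prod isCompact_Icc
    have i1 : IntegrableOn (fun p : ℝ × ℝ => h p.1 p.2) (Icc (0:ℝ) R ×ˢ Icc (-Real.pi) Real.pi)
        volume := hh.continuousOn.integrableOn_compact hcpt
    have i2 : IntegrableOn (fun p : ℝ × ℝ => h p.1 p.2) (Ioi R ×ˢ Icc (-Real.pi) Real.pi)
        volume := by
      refine (integrableOn_zero (μ := volume)).congr_fun ?_ (measurableSet_Ioi.prod measurableSet_Icc)
      intro p hp
      exact (hz p.1 p.2 (le_of_lt hp.1)).symm
    refine (i1.union i2).mono_set ?_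
    rintro ⟨r, θ⟩ ⟨hr, hθ⟩
    by_cases hrR : r ≤ R
    · left
      exact ⟨⟨le_of_lt hr, hrR⟩, ⟨hθ.1.le, hθ.2.le⟩⟩
    · right
      exact ⟨not_le.mp hrR, ⟨hθ.1.le, hθ.2.le⟩⟩
  have hI1 := hint h1 hc1 hz1
  have hI2 := hint h2 hc2 hz2
  -- change of variables
  rw [← Complex.integral_comp_polarCoord_symm]
  have hcong : ∫ p in polarCoord.target, p.1 • (ck (Complex.polarCoord.symm p) *
      dzb G (z - Complex.polarCoord.symm p)) =
      ∫ p in (Ioi (0:ℝ) ×ˢ Ioo (-Real.pi) Real.pi),
        (-((2:ℂ) * Real.pi)⁻¹ * h1 p.1 p.2 + (-((2:ℂ) * Real.pi)⁻¹ * I) * h2 p.1 p.2) := by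
    refine setIntegral_congr_fun (measurableSet_Ioi.prod measurableSet_Ioo) ?_
    rintro ⟨r, θ⟩ ⟨hr, hθ⟩
    have hr0 : (r:ℂ) ≠ 0 := by
      exact_mod_cast (ne_of_gt hr)
    have hps : Complex.polarCoord.symm (r, θ) = r * e θ := by
      rw [Complex.polarCoord_symm_apply, he]
      simp only
      rw [Complex.exp_mul_I, Complex.ofReal_cos, Complex.ofReal_sin]
    simp only
    rw [hps]
    set A := fderiv ℝ G (z - r * e θ) with hA
    have hlin : ∀ v : ℂ, A v = v.re * A 1 + v.im * A I := by
      intro v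
      have : v = v.re • (1:ℂ) + v.im • I := by
        apply Complex.ext <;> simp
      conv_lhs => rw [this]
      rw [map_add, map_smul, map_smul]
      simp
    have e1 : h1 r θ = A (-(e θ)) := rfl
    have e2 : h2 r θ = A (-(I * e θ)) := rfl
    have eθ : e θ ≠ 0 := Complex.exp_ne_zero _
    have hd : dzb G (z - r * e θ) = (A 1 + I * A I) / 2 := rfl
    rw [e1, e2, hd, hlin (-(e θ)), hlin (-(I * e θ))]
    have hre : (e θ).re = Real.cos θ := by simp [he, Complex.exp_re]
    have him : (e θ).im = Real.sin θ := by simp [he, Complex.exp_im]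
    have hee : e θ = Real.cos θ + Real.sin θ * I := by
      simp only [he]
      rw [Complex.exp_mul_I, Complex.ofReal_cos, Complex.ofReal_sin]
    have hinv : (e θ)⁻¹ = Real.cos θ - Real.sin θ * I := by
      rw [hee]
      apply inv_eq_of_mul_eq_one_right
      have : ((Real.cos θ : ℂ))^2 + ((Real.sin θ : ℂ))^2 = 1 := by
        norm_cast
        rw [← Real.cos_sq_add_sin_sq θ]
      ring_nf
      rw [I_sq]
      linear_combination this
    have hck : r • (ck (r * e θ) * ((A 1 + I * A I) / 2)) =
        (Real.pi:ℂ)⁻¹ * (e θ)⁻¹ * ((A 1 + I * A I) / 2) := by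
      unfold ck
      rw [Complex.real_smul]
      have hpi : (Real.pi:ℂ) ≠ 0 := by exact_mod_cast Real.pi_ne_zero
      field_simp
    rw [hck, hinv]
    simp only [neg_re, neg_im, hre, him, mul_re, mul_im, I_re, I_im, ofReal_neg, zero_mul, one_mul,
      zero_sub, neg_neg, zero_add, ofReal_zero]
    have hpi : (Real.pi:ℂ) ≠ 0 := by exact_mod_cast Real.pi_ne_zero
    field_simp
    ring_nf
    simp only [I_sq]
    ring
  rw [hcong]
  rw [integral_add (hI1.const_mul _) (hI2.const_mul _), integral_const_mul, integral_const_mul]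
  -- second integral vanishes
  have hv2 : ∫ p in (Ioi (0:ℝ) ×ˢ Ioo (-Real.pi) Real.pi), h2 p.1 p.2 = 0 := by
    rw [Measure.volume_eq_prod, setIntegral_prod _ (by rw [← Measure.volume_eq_prod]; exact hI2)]
    rw [← integral_zero (μ := volume.restrict (Ioi (0:ℝ))) (α := ℝ) (G := ℂ)]
    refine setIntegral_congr_fun measurableSet_Ioi ?_
    intro r hr
    simp only
    rw [← integral_Ioc_eq_integral_Ioo, ← intervalIntegral.integral_of_le (by linarith [Real.pi_pos])]
    have hd : ∀ θ ∈ uIcc (-Real.pi) Real.pi,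
        HasDerivAt (fun θ : ℝ => G (z - r * e θ)) (r * h2 r θ) θ := by
      intro θ _
      have d1 : HasDerivAt (fun θ : ℝ => z - r * e θ) (-(r * (I * e θ))) θ := by
        have d2 : HasDerivAt (fun θ : ℝ => e θ) (I * e θ) θ := by
          have d3 : HasDerivAt (fun θ : ℝ => (θ : ℂ) * I) I θ := by
            simpa using (Complex.ofRealCLM.hasDerivAt (x := θ)).mul_const I
          have := d3.cexp
          rw [mul_comm] at this
          exact this
        exact (d2.const_mul (r:ℂ)).const_sub z
      have d4 := (hGd (z - r * e θ)).hasFDerivAt.comp_hasDerivAt θ d1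
      have : fderiv ℝ G (z - r * e θ) (-(r * (I * e θ))) = r * h2 r θ := by
        simp only [hh2]
        rw [show -((r:ℂ) * (I * e θ)) = r • (-(I * e θ)) by
          rw [Complex.real_smul]; ring, map_smul, Complex.real_smul]
      rw [← this]
      exact d4
    have hcr : Continuous fun θ : ℝ => (r:ℂ) * h2 r θ := by
      have := hc2.comp (f := fun θ : ℝ => (r, θ)) (by fun_prop)
      exact continuous_const.mul this
    have := intervalIntegral.integral_eq_sub_of_hasDerivAt hd (hcr.intervalIntegrable _ _)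
    rw [intervalIntegral.integral_const_mul] at this
    have heq : e Real.pi = e (-Real.pi) := by
      simp [he, Complex.exp_pi_mul_I, Complex.exp_neg]
    rw [heq, sub_self] at this
    have hr0 : (r:ℂ) ≠ 0 := by
      exact_mod_cast (ne_of_gt hr)
    rcases mul_eq_zero.mp this with h | h
    · exact absurd h hr0
    · exact h
  -- first integral
  have hv1 : ∫ p in (Ioi (0:ℝ) ×ˢ Ioo (-Real.pi) Real.pi), h1 p.1 p.2 = -(2 * Real.pi * G z) := by
    have hsw := setIntegral_prod_swap (μ := (volume : Measure ℝ)) (ν := (volume : Measure ℝ))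
      (Ioi (0:ℝ)) (Ioo (-Real.pi) Real.pi) (fun p : ℝ × ℝ => h1 p.1 p.2)
    rw [Measure.volume_eq_prod, ← hsw]
    rw [setIntegral_prod]
    swap
    · have := hI1
      rw [Measure.volume_eq_prod] at this
      exact this.swap
    have : ∀ θ ∈ Ioo (-Real.pi) Real.pi, ∫ r in Ioi (0:ℝ), h1 r θ = - G z := by
      intro θ _
      have hd : ∀ r : ℝ, HasDerivAt (fun r : ℝ => G (z - r * e θ)) (h1 r θ) r := by
        intro r
        have d1 : HasDerivAt (fun r : ℝ => z - r * e θ) (-(e θ)) r := by
          have d3 : HasDerivAt (fun r : ℝ => (r : ℂ) * e θ) (1 * e θ) r := 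
            (Complex.ofRealCLM.hasDerivAt (x := r)).mul_const (e θ)
          rw [one_mul] at d3
          exact d3.const_sub z
        exact (hGd (z - r * e θ)).hasFDerivAt.comp_hasDerivAt r d1
      have hcr : Continuous fun r : ℝ => h1 r θ :=
        hc1.comp (f := fun r : ℝ => (r, θ)) (by fun_prop)
      have hs : ∫ r in Ioi (0:ℝ), h1 r θ = ∫ r in (0:ℝ)..R, h1 r θ := by
        rw [intervalIntegral.integral_of_le hR0.le]
        refine (setIntegral_eq_of_subset_of_forall_sdiff_eq_zero measurableSet_Ioi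
          (fun x hx => hx.1) ?_)
        intro x hx
        apply hz1
        by_contra hlt
        exact hx.2 ⟨hx.1, (not_le.mp hlt).le⟩
      rw [hs, intervalIntegral.integral_eq_sub_of_hasDerivAt (fun r _ => hd r)
        (hcr.intervalIntegrable _ _)]
      rw [(hR (R * e θ) ?_).1]
      · simp
      · rw [norm_mul, hen, mul_one, Complex.norm_real, Real.norm_of_nonneg hR0.le]
    simp only [Prod.fst_swap, Prod.snd_swap]
    rw [setIntegral_congr_fun measurableSet_Ioo this]
    rw [setIntegral_const]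
    rw [Measure.real, Real.volume_Ioo]
    rw [ENNReal.toReal_ofReal (by linarith [Real.pi_pos])]
    rw [Complex.real_smul]
    push_cast
    ring
  rw [hv1, hv2]
  have hpi : (Real.pi:ℂ) ≠ 0 := by exact_mod_cast Real.pi_ne_zero
  field_simp
  ring

/-- F4 -/
theorem exists_dbar {G : ℂ → ℂ} (hG : ContDiff ℝ 2 G) (hc : HasCompactSupport G) :
    ∃ b : ℂ → ℂ, ContDiff ℝ 2 b ∧ ∀ z, dzb b z = G z := by
  refine ⟨ck ⋆[ContinuousLinearMap.mul ℝ ℂ, volume] G, ?_, ?_⟩
  · exact hc.contDiff_convolution_right (ContinuousLinearMap.mul ℝ ℂ) locInt_ck (n := 2) hG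
  · intro z
    have hfd := (hc.hasFDerivAt_convolution_right (ContinuousLinearMap.mul ℝ ℂ) locInt_ck
      (hG.of_le (by norm_num)) z).fderiv
    have hfc : Continuous (fderiv ℝ G) := hG.continuous_fderiv (by norm_num)
    unfold dzb
    rw [hfd]
    rw [convolution_precompR_apply (ContinuousLinearMap.mul ℝ ℂ) locInt_ck (hc.fderiv ℝ) hfc,
      convolution_precompR_apply (ContinuousLinearMap.mul ℝ ℂ) locInt_ck (hc.fderiv ℝ) hfc]
    simp only [convolution_def, ContinuousLinearMap.mul_apply']
    have hint : ∀ v : ℂ, Integrable (fun t => ck t * fderiv ℝ G (z - t) v) volume := by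
      intro v
      have hcs : HasCompactSupport (fun a => fderiv ℝ G a v) := by
        refine (hc.fderiv ℝ).mono ?_
        intro a ha h0
        apply ha
        simp [h0]
      have hcc : Continuous (fun a => fderiv ℝ G a v) := by fun_prop
      exact hcs.convolutionExists_right (ContinuousLinearMap.mul ℝ ℂ) locInt_ck hcc z
    rw [← polar_dzb hG hc z]
    unfold dzb
    rw [← integral_const_mul, ← integral_add (hint 1) ((hint I).const_mul I), ← integral_div]
    congr 1
    ext t
    ring

end Pool.Agent.H14.GP
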