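import Pool.Agent.H14.GP.Defs2

set_option autoImplicit false

open Complex Metric Set Filter Topology ComplexConjugate MeasureTheory

namespace Pool.Agent.H14.GP

namespace Du

instance factTwoPi : Fact (0 < 2 * Real.pi) := ⟨by positivity⟩

/-- the circle of length `2π` -/
abbrev A2 := AddCircle (2 * Real.pi)

/-- continuous functions on the circle -/
abbrev CC := C(A2, ℂ)

/-- the point of the unit circle -/
noncomputable def ee (x : A2) : ℂ := (AddCircle.toCircle x : ℂ)

theorem ee_coe (θ : ℝ) : ee (θ : A2) = Complex.exp (θ * I) := by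
  unfold ee
  rw [AddCircle.toCircle_apply_mk, Circle.coe_exp]
  congr 2
  have := Real.pi_pos
  push_cast
  field_simp

theorem norm_ee (x : A2) : ‖ee x‖ = 1 := Circle.norm_coe _

theorem continuous_ee : Continuous ee :=
  continuous_induced_dom.comp AddCircle.continuous_toCircle

theorem circleAverage_eq {E : Type*} [NormedAddCommGroup E] [NormedSpace ℝ E] (f : ℂ → E) :
    Real.circleAverage f 0 1 = ∫ t : A2, f (ee t) ∂AddCircle.haarAddCircle := by
  rw [AddCircle.integral_haarAddCircle, Real.circleAverage_def,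
    ← AddCircle.intervalIntegral_preimage (2 * Real.pi) 0 (fun t => f (ee t))]
  congr 1
  rw [zero_add]
  apply intervalIntegral.integral_congr
  intro θ _
  simp only
  rw [ee_coe]
  simp [circleMap]

theorem fourier_nat (n : ℕ) (x : A2) : fourier (n : ℤ) x = ee x ^ n := by
  rw [fourier_apply, AddCircle.toCircle_zsmul]
  simp [ee]

theorem integral_fourier (n : ℤ) :
    ∫ t : A2, fourier n t ∂AddCircle.haarAddCircle = if n = 0 then 1 else 0 := by
  have h := congrFun (fourierCoeff_fourier (T := 2 * Real.pi) n) 0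
  unfold fourierCoeff at h
  have h1 : ∀ t : A2, (fourier (-0) t : ℂ) • (fourier n t : ℂ) = fourier n t := by
    intro t
    simp
  simp only [h1] at h
  rw [h]
  by_cases hn : n = 0
  · subst hn
    simp
  · rw [Pi.single_eq_of_ne (Ne.symm hn), if_neg hn]

theorem integrable_of_continuous {E : Type*} [NormedAddCommGroup E] {f : A2 → E}
    (hf : Continuous f) : Integrable f AddCircle.haarAddCircle :=
  hf.integrable_of_hasCompactSupport (HasCompactSupport.of_compactSpace f)

/-- Fejér means -/
noncomputable def Tn (N : ℕ) (g : CC) : CC :=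
  ((N + 1 : ℂ)⁻¹) • ∑ j ∈ Finset.range (N + 1), ∑ k ∈ Finset.range (N + 1),
    fourierCoeff g ((j : ℤ) - k) • (fourier ((j : ℤ) - k) : CC)

theorem fourierCoeff_sub' (g h : CC) (n : ℤ) :
    fourierCoeff (⇑(g - h)) n = fourierCoeff g n - fourierCoeff h n := by
  unfold fourierCoeff
  rw [← integral_sub]
  · congr 1
    ext t
    simp [mul_sub]
  · exact (integrable_of_continuous g.continuous).fourier_smul _
  · exact (integrable_of_continuous h.continuous).fourier_smul _

theorem fourierCoeff_add' (g h : CC) (n : ℤ) :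
    fourierCoeff (⇑(g + h)) n = fourierCoeff g n + fourierCoeff h n := by
  unfold fourierCoeff
  rw [← integral_add]
  · congr 1
    ext t
    simp [mul_add]
  · exact (integrable_of_continuous g.continuous).fourier_smul _
  · exact (integrable_of_continuous h.continuous).fourier_smul _

theorem Tn_sub (N : ℕ) (g h : CC) : Tn N (g - h) = Tn N g - Tn N h := by
  unfold Tn
  rw [← smul_sub, ← Finset.sum_sub_distrib]
  congr 1
  apply Finset.sum_congr rfl
  intro j _
  rw [← Finset.sum_sub_distrib]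
  apply Finset.sum_congr rfl
  intro k _
  rw [fourierCoeff_sub', sub_smul]

theorem Tn_add (N : ℕ) (g h : CC) : Tn N (g + h) = Tn N g + Tn N h := by
  unfold Tn
  rw [← smul_add, ← Finset.sum_add_distrib]
  congr 1
  apply Finset.sum_congr rfl
  intro j _
  rw [← Finset.sum_add_distrib]
  apply Finset.sum_congr rfl
  intro k _
  rw [fourierCoeff_add', add_smul]

theorem Tn_smul (N : ℕ) (c : ℂ) (g : CC) : Tn N (c • g) = c • Tn N g := by
  unfold Tn
  rw [smul_comm c ((N + 1 : ℂ)⁻¹) (∑ j ∈ Finset.range (N + 1), ∑ k ∈ Finset.range (N + 1),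
    fourierCoeff g ((j : ℤ) - k) • (fourier ((j : ℤ) - k) : CC))]
  congr 1
  rw [Finset.smul_sum]
  apply Finset.sum_congr rfl
  intro j _
  rw [Finset.smul_sum]
  apply Finset.sum_congr rfl
  intro k _
  have : fourierCoeff (⇑(c • g)) ((j : ℤ) - k) = c * fourierCoeff g ((j : ℤ) - k) := by
    unfold fourierCoeff
    rw [← integral_const_mul]
    congr 1
    ext t
    simp
    ring
  rw [this, mul_smul]

/-- the Dirichlet type kernel -/
noncomputable def Sk (N : ℕ) (x t : A2) : ℂ :=
  ∑ j ∈ Finset.range (N + 1), fourier (j : ℤ) x * conj (fourier (j : ℤ) t)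

theorem continuous_Sk (N : ℕ) (x : A2) : Continuous (Sk N x) := by
  unfold Sk
  apply continuous_finsetSum
  intro j _
  exact continuous_const.mul (Complex.continuous_conj.comp (fourier (j : ℤ)).continuous)

theorem Sk_mul_conj (N : ℕ) (x t : A2) : Sk N x t * conj (Sk N x t) =
    ∑ j ∈ Finset.range (N + 1), ∑ k ∈ Finset.range (N + 1),
      fourier (-((j : ℤ) - k)) t * fourier ((j : ℤ) - k) x := by
  unfold Sk
  rw [map_sum, Finset.sum_mul_sum]
  apply Finset.sum_congr rfl
  intro j _
  apply Finset.sum_congr rfl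
  intro k _
  have h1 : fourier (-((j : ℤ) - k)) t = fourier (k : ℤ) t * conj (fourier (j : ℤ) t) := by
    rw [← fourier_neg, ← fourier_add]
    congr 2
    ring
  have h2 : fourier ((j : ℤ) - k) x = fourier (j : ℤ) x * conj (fourier (k : ℤ) x) := by
    rw [← fourier_neg, ← fourier_add]
    congr 2
  rw [h1, h2, map_mul, Complex.conj_conj]
  ring

theorem Tn_apply (N : ℕ) (g : CC) (x : A2) :
    Tn N g x = ∫ t : A2, (N + 1 : ℂ)⁻¹ * (Sk N x t * conj (Sk N x t)) * g t
      ∂AddCircle.haarAddCircle := by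
  have h1 : ∀ t : A2, (N + 1 : ℂ)⁻¹ * (Sk N x t * conj (Sk N x t)) * g t =
      (N + 1 : ℂ)⁻¹ * ∑ j ∈ Finset.range (N + 1), ∑ k ∈ Finset.range (N + 1),
        (fourier (-((j : ℤ) - k)) t • g t) * fourier ((j : ℤ) - k) x := by
    intro t
    rw [Sk_mul_conj, mul_assoc, Finset.sum_mul]
    congr 1
    apply Finset.sum_congr rfl
    intro j _
    rw [Finset.sum_mul]
    apply Finset.sum_congr rfl
    intro k _
    rw [smul_eq_mul]
    ring
  simp only [h1]
  rw [integral_const_mul, integral_finsetSum]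
  · unfold Tn
    rw [ContinuousMap.smul_apply, ContinuousMap.sum_apply, smul_eq_mul]
    congr 1
    apply Finset.sum_congr rfl
    intro j _
    rw [integral_finsetSum, ContinuousMap.sum_apply]
    · apply Finset.sum_congr rfl
      intro k _
      rw [integral_mul_const]
      rfl
    · intro k _
      exact ((integrable_of_continuous g.continuous).fourier_smul _).mul_const _
  · intro j _
    apply integrable_finsetSum
    intro k _
    exact ((integrable_of_continuous g.continuous).fourier_smul _).mul_const _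

theorem integral_Sk (N : ℕ) (x : A2) :
    ∫ t : A2, (N + 1 : ℂ)⁻¹ * (Sk N x t * conj (Sk N x t)) ∂AddCircle.haarAddCircle = 1 := by
  simp only [Sk_mul_conj]
  rw [integral_const_mul, integral_finsetSum]
  · have h1 : ∀ j ∈ Finset.range (N + 1), ∫ t : A2, ∑ k ∈ Finset.range (N + 1),
        fourier (-((j : ℤ) - k)) t * fourier ((j : ℤ) - k) x ∂AddCircle.haarAddCircle = 1 := by
      intro j hj
      rw [integral_finsetSum]
      · rw [Finset.sum_eq_single j]
        · rw [integral_mul_const, integral_fourier]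
          simp
        · intro k _ hk
          rw [integral_mul_const, integral_fourier, if_neg, zero_mul]
          intro h
          apply hk
          omega
        · intro h
          exact absurd hj h
      · intro k _
        exact (integrable_of_continuous (fourier _).continuous).mul_const _
    rw [Finset.sum_congr rfl h1]
    simp
    have : (N + 1 : ℂ) ≠ 0 := by exact_mod_cast Nat.succ_ne_zero N
    field_simp
  · intro j _
    apply integrable_finsetSum
    intro k _
    exact (integrable_of_continuous (fourier _).continuous).mul_const _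

theorem norm_Tn_le (N : ℕ) (g : CC) : ‖Tn N g‖ ≤ ‖g‖ := by
  rw [ContinuousMap.norm_le _ (norm_nonneg _)]
  intro x
  rw [Tn_apply]
  have hreal : ∀ t : A2, (N + 1 : ℂ)⁻¹ * (Sk N x t * conj (Sk N x t)) =
      (((N + 1 : ℝ)⁻¹ * ‖Sk N x t‖ ^ 2 : ℝ) : ℂ) := by
    intro t
    rw [Complex.mul_conj, Complex.normSq_eq_norm_sq]
    push_cast
    ring
  have hint : ∫ t : A2, ((N + 1 : ℝ)⁻¹ * ‖Sk N x t‖ ^ 2) ∂AddCircle.haarAddCircle = 1 := by
    have h := integral_Sk N x
    simp only [hreal] at h
    rw [integral_complex_ofReal] at h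
    exact_mod_cast h
  have hcont : Continuous (fun t : A2 => (N + 1 : ℝ)⁻¹ * ‖Sk N x t‖ ^ 2) :=
    continuous_const.mul ((continuous_Sk N x).norm.pow 2)
  calc ‖∫ t : A2, (N + 1 : ℂ)⁻¹ * (Sk N x t * conj (Sk N x t)) * g t ∂AddCircle.haarAddCircle‖
      ≤ ∫ t : A2, ((N + 1 : ℝ)⁻¹ * ‖Sk N x t‖ ^ 2) * ‖g‖ ∂AddCircle.haarAddCircle := by
        apply norm_integral_le_of_norm_le
        · exact integrable_of_continuous (hcont.mul continuous_const)
        · apply Filter.Eventually.of_forall
          intro t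
          rw [hreal, norm_mul, Complex.norm_real, Real.norm_of_nonneg (by positivity)]
          exact mul_le_mul_of_nonneg_left (g.norm_coe_le_norm t) (by positivity)
    _ = ‖g‖ := by rw [integral_mul_const, hint, one_mul]

theorem count_aux (N m : ℕ) :
    ∑ k ∈ Finset.range (N + 1), (if k + m < N + 1 then (1 : ℂ) else 0) = ((N + 1 - m : ℕ) : ℂ) := by
  rw [← Finset.sum_filter]
  have h : (Finset.range (N + 1)).filter (fun k => k + m < N + 1) = Finset.range (N + 1 - m) := by
    ext k
    simp only [Finset.mem_filter, Finset.mem_range]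
    omega
  rw [h]
  simp

theorem count_eq (N : ℕ) (n : ℤ) :
    ∑ j ∈ Finset.range (N + 1), ∑ k ∈ Finset.range (N + 1),
      (if (j : ℤ) - k = n then (1 : ℂ) else 0) = ((N + 1 - n.natAbs : ℕ) : ℂ) := by
  rcases le_total 0 n with hn | hn
  · obtain ⟨m, rfl⟩ := Int.eq_ofNat_of_zero_le hn
    rw [Finset.sum_comm, Int.natAbs_natCast, ← count_aux]
    apply Finset.sum_congr rfl
    intro k _
    by_cases hk : k + m < N + 1
    · rw [if_pos hk, Finset.sum_eq_single (k + m)]
      · rw [if_pos (by push_cast; ring)]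
      · intro j _ hj
        rw [if_neg]
        intro h
        apply hj
        omega
      · intro h
        exact absurd (Finset.mem_range.mpr hk) h
    · rw [if_neg hk]
      apply Finset.sum_eq_zero
      intro j hj
      rw [if_neg]
      intro h
      have := Finset.mem_range.mp hj
      omega
  · obtain ⟨m, hm⟩ := Int.eq_ofNat_of_zero_le (neg_nonneg.mpr hn)
    have hn' : n = -(m : ℤ) := by omega
    subst hn'
    rw [Int.natAbs_neg, Int.natAbs_natCast, ← count_aux]
    apply Finset.sum_congr rfl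
    intro k _
    by_cases hk : k + m < N + 1
    · rw [if_pos hk, Finset.sum_eq_single (k + m)]
      · rw [if_pos (by push_cast; ring)]
      · intro j _ hj
        rw [if_neg]
        intro h
        apply hj
        omega
      · intro h
        exact absurd (Finset.mem_range.mpr hk) h
    · rw [if_neg hk]
      apply Finset.sum_eq_zero
      intro j hj
      rw [if_neg]
      intro h
      have := Finset.mem_range.mp hj
      omega

theorem Tn_fourier (N : ℕ) (n : ℤ) :
    Tn N (fourier n) = (((N + 1 : ℂ)⁻¹) * ((N + 1 - n.natAbs : ℕ) : ℂ)) • (fourier n : CC) := by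
  unfold Tn
  rw [← count_eq, mul_smul]
  congr 1
  rw [Finset.sum_smul]
  apply Finset.sum_congr rfl
  intro j _
  rw [Finset.sum_smul]
  apply Finset.sum_congr rfl
  intro k _
  rw [fourierCoeff_fourier]
  by_cases h : (j : ℤ) - k = n
  · rw [h, if_pos rfl, Pi.single_eq_same]
  · rw [Pi.single_eq_of_ne h, if_neg h, zero_smul, zero_smul]

theorem Tn_fourier_sub (N : ℕ) (n : ℤ) :
    ‖Tn N (fourier n) - (fourier n : CC)‖ ≤ |(n : ℝ)| / (N + 1) := by
  rw [Tn_fourier]
  have h1 : (((N + 1 : ℂ)⁻¹) * ((N + 1 - n.natAbs : ℕ) : ℂ)) • (fourier n : CC) - fourier n =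
      ((((N + 1 - n.natAbs : ℕ) : ℝ) - (N + 1)) / (N + 1) : ℝ) • (fourier n : CC) := by
    have hN : (N + 1 : ℂ) ≠ 0 := by exact_mod_cast Nat.succ_ne_zero N
    ext x
    simp only [ContinuousMap.sub_apply, ContinuousMap.smul_apply, smul_eq_mul, Complex.real_smul]
    push_cast
    field_simp
  rw [h1, norm_smul, fourier_norm, mul_one, Real.norm_eq_abs, abs_div]
  have hN : (0 : ℝ) < N + 1 := by positivity
  rw [abs_of_pos hN]
  apply div_le_div_of_nonneg_right _ hN.le
  have h2 : |(n : ℝ)| = (n.natAbs : ℝ) := by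
    rw [← Int.cast_abs, Nat.cast_natAbs]
  rw [h2, abs_le]
  rcases le_total n.natAbs (N + 1) with h | h
  · rw [Nat.cast_sub h]
    push_cast
    have : (0 : ℝ) ≤ n.natAbs := Nat.cast_nonneg _
    constructor <;> linarith
  · rw [Nat.sub_eq_zero_of_le h]
    have : ((N : ℝ) + 1) ≤ n.natAbs := by exact_mod_cast h
    constructor <;> push_cast <;> linarith

theorem tendsto_Tn_span (g : CC) (hg : g ∈ Submodule.span ℂ (range (@fourier (2 * Real.pi)))) :
    Tendsto (fun N => Tn N g) atTop (𝓝 g) := by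
  induction hg using Submodule.span_induction with
  | mem x hx =>
    obtain ⟨n, rfl⟩ := hx
    rw [tendsto_iff_norm_sub_tendsto_zero]
    have h1 : Tendsto (fun N : ℕ => |(n : ℝ)| / ((N : ℝ) + 1)) atTop (𝓝 0) :=
      tendsto_const_nhds.div_atTop
        (tendsto_atTop_add_const_right _ _ tendsto_natCast_atTop_atTop)
    exact squeeze_zero (fun _ => norm_nonneg _) (fun N => Tn_fourier_sub N n) h1
  | zero =>
    have : ∀ N, Tn N (0 : CC) = 0 := by
      intro N
      have := Tn_smul N 0 (0 : CC)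
      simpa using this
    simp [this]
  | add x y _ _ hx hy =>
    simp only [Tn_add]
    exact hx.add hy
  | smul a x _ hx =>
    simp only [Tn_smul]
    exact hx.const_smul a

theorem tendsto_Tn (g : CC) : Tendsto (fun N => Tn N g) atTop (𝓝 g) := by
  rw [Metric.tendsto_atTop]
  intro ε hε
  have hg : g ∈ (Submodule.span ℂ (range (@fourier (2 * Real.pi)))).topologicalClosure := by
    rw [span_fourier_closure_eq_top]
    trivial
  obtain ⟨q, hq, hgq⟩ := Metric.mem_closure_iff.mp hg (ε / 3) (by positivity)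
  obtain ⟨N0, hN0⟩ := Metric.tendsto_atTop.mp (tendsto_Tn_span q hq) (ε / 3) (by positivity)
  refine ⟨N0, fun N hN => ?_⟩
  have h1 : dist (Tn N g) (Tn N q) ≤ dist g q := by
    rw [dist_eq_norm, dist_eq_norm, ← Tn_sub]
    exact norm_Tn_le N _
  calc dist (Tn N g) g ≤ dist (Tn N g) (Tn N q) + dist (Tn N q) q + dist q g :=
        dist_triangle4 _ _ _ _
    _ < ε / 3 + ε / 3 + ε / 3 := by
        have := hN0 N hN
        have h2 : dist q g = dist g q := dist_comm _ _
        linarith
    _ = ε := by ring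

/-- the polynomial representing `l ∘ Tn N` -/
noncomputable def Kp (l : CC →ₗ[ℂ] ℂ) (N : ℕ) : Polynomial ℂ :=
  ∑ j ∈ Finset.range (N + 1), ∑ k ∈ Finset.range (N + 1),
    if j < k then Polynomial.C ((N + 1 : ℂ)⁻¹ * l (fourier ((j : ℤ) - k))) *
      Polynomial.X ^ (k - j) else 0

theorem Kp_zero (l : CC →ₗ[ℂ] ℂ) (N : ℕ) : (Kp l N).eval 0 = 0 := by
  unfold Kp
  simp only [Polynomial.eval_finsetSum]
  apply Finset.sum_eq_zero
  intro j _
  apply Finset.sum_eq_zero
  intro k _
  by_cases h : j < k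
  · rw [if_pos h]
    have : k - j ≠ 0 := by omega
    simp [this]
  · rw [if_neg h]
    simp

theorem continuous_Kp (K : Polynomial ℂ) : Continuous (fun t : A2 => K.eval (ee t)) :=
  K.continuous.comp continuous_ee

theorem l_Tn (l : CC →ₗ[ℂ] ℂ) (hl : ∀ n : ℕ, l (fourier (n : ℤ)) = 0) (N : ℕ) (g : CC) :
    l (Tn N g) = ∫ t : A2, g t * (Kp l N).eval (ee t) ∂AddCircle.haarAddCircle := by
  have h1 : ∀ t : A2, g t * (Kp l N).eval (ee t) =
      ∑ j ∈ Finset.range (N + 1), ∑ k ∈ Finset.range (N + 1),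
        (if j < k then (fourier (-((j : ℤ) - k)) t • g t) *
          ((N + 1 : ℂ)⁻¹ * l (fourier ((j : ℤ) - k))) else 0) := by
    intro t
    unfold Kp
    simp only [Polynomial.eval_finsetSum]
    rw [Finset.mul_sum]
    apply Finset.sum_congr rfl
    intro j _
    rw [Finset.mul_sum]
    apply Finset.sum_congr rfl
    intro k _
    by_cases h : j < k
    · rw [if_pos h, if_pos h]
      have h2 : -((j : ℤ) - k) = ((k - j : ℕ) : ℤ) := by
        rw [Nat.cast_sub h.le]
        ring
      rw [h2, fourier_nat]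
      simp
      ring
    · rw [if_neg h, if_neg h]
      simp
  simp only [h1]
  rw [integral_finsetSum]
  · unfold Tn
    rw [map_smul, map_sum, smul_eq_mul, Finset.mul_sum]
    apply Finset.sum_congr rfl
    intro j _
    rw [map_sum, Finset.mul_sum, integral_finsetSum]
    · apply Finset.sum_congr rfl
      intro k _
      by_cases h : j < k
      · simp only [if_pos h]
        rw [integral_mul_const, map_smul, smul_eq_mul]
        unfold fourierCoeff
        ring
      · simp only [if_neg h]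
        have h3 : (j : ℤ) - k = ((j - k : ℕ) : ℤ) := by
          rw [Nat.cast_sub (by omega)]
        rw [map_smul, h3, hl]
        simp
    · intro k _
      by_cases h : j < k
      · simp only [if_pos h]
        exact ((integrable_of_continuous g.continuous).fourier_smul _).mul_const _
      · simp only [if_neg h]
        exact integrable_zero _ _ _
  · intro j _
    apply integrable_finsetSum
    intro k _
    by_cases h : j < k
    · simp only [if_pos h]
      exact ((integrable_of_continuous g.continuous).fourier_smul _).mul_const _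
    · simp only [if_neg h]
      exact integrable_zero _ _ _

theorem integral_norm_Kp (l : CC →ₗ[ℂ] ℂ) (hl : ∀ n : ℕ, l (fourier (n : ℤ)) = 0)
    (hl1 : ∀ g : CC, ‖l g‖ ≤ ‖g‖) (N : ℕ) :
    ∫ t : A2, ‖(Kp l N).eval (ee t)‖ ∂AddCircle.haarAddCircle ≤ 1 := by
  apply le_of_forall_pos_le_add
  intro ε hε
  set K : A2 → ℂ := fun t => (Kp l N).eval (ee t) with hK
  have hKc : Continuous K := continuous_Kp _
  have hden : ∀ t, (0 : ℝ) < ‖K t‖ + ε := fun t => by positivity
  let g : CC := ⟨fun t => conj (K t) * (((‖K t‖ + ε)⁻¹ : ℝ) : ℂ), by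
    apply (Complex.continuous_conj.comp hKc).mul
    apply Complex.continuous_ofReal.comp
    exact (hKc.norm.add continuous_const).inv₀ (fun t => (hden t).ne')⟩
  have hg : ‖g‖ ≤ 1 := by
    rw [ContinuousMap.norm_le _ zero_le_one]
    intro t
    change ‖conj (K t) * (((‖K t‖ + ε)⁻¹ : ℝ) : ℂ)‖ ≤ 1
    rw [norm_mul, RCLike.norm_conj, Complex.norm_real, Real.norm_of_nonneg
      (inv_nonneg.mpr (hden t).le), mul_inv_le_iff₀ (hden t)]
    linarith [norm_nonneg (K t)]
  have h1 := l_Tn l hl N g
  have h2 : ∀ t : A2, g t * (Kp l N).eval (ee t) = ((‖K t‖ ^ 2 * (‖K t‖ + ε)⁻¹ : ℝ) : ℂ) := by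
    intro t
    change conj (K t) * (((‖K t‖ + ε)⁻¹ : ℝ) : ℂ) * K t = _
    have : conj (K t) * K t = ((‖K t‖ ^ 2 : ℝ) : ℂ) := by
      rw [mul_comm, Complex.mul_conj, Complex.normSq_eq_norm_sq]
    calc conj (K t) * (((‖K t‖ + ε)⁻¹ : ℝ) : ℂ) * K t =
          (conj (K t) * K t) * (((‖K t‖ + ε)⁻¹ : ℝ) : ℂ) := by ring
      _ = _ := by rw [this]; push_cast; ring
  simp only [h2] at h1
  rw [integral_complex_ofReal] at h1
  have h3 : ‖l (Tn N g)‖ ≤ 1 := (hl1 _).trans ((norm_Tn_le N g).trans hg)
  have hc2 : Continuous (fun t : A2 => ‖K t‖ ^ 2 * (‖K t‖ + ε)⁻¹) :=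
    (hKc.norm.pow 2).mul ((hKc.norm.add continuous_const).inv₀ (fun t => (hden t).ne'))
  have h4 : ∫ t : A2, ‖K t‖ ^ 2 * (‖K t‖ + ε)⁻¹ ∂AddCircle.haarAddCircle ≤ 1 := by
    rw [h1, Complex.norm_real] at h3
    exact (le_abs_self _).trans h3
  have h5 : ∫ t : A2, (‖K t‖ - ε) ∂AddCircle.haarAddCircle ≤
      ∫ t : A2, ‖K t‖ ^ 2 * (‖K t‖ + ε)⁻¹ ∂AddCircle.haarAddCircle := by
    apply integral_mono
    · exact integrable_of_continuous (hKc.norm.sub continuous_const)
    · exact integrable_of_continuous hc2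
    · intro t
      simp only
      rw [← div_eq_mul_inv, le_div_iff₀ (hden t)]
      nlinarith [norm_nonneg (K t)]
  rw [integral_sub (integrable_of_continuous hKc.norm) (integrable_const _)] at h5
  simp at h5
  linarith

theorem radial {b0 : ℂ → ℂ} (hb0 : Continuous b0) {c : ℝ}
    (h : ∀ k : ℂ → ℂ, AnalyticOnNhd ℂ k (closedBall 0 1) → k 0 = 0 →
      (∀ z ∈ sphere (0:ℂ) 1, k z ≠ 0) →
      ‖Real.circleAverage (fun z => b0 z * k z) 0 1‖ ≤
        c * Real.circleAverage (fun z => ‖k z‖) 0 1) (K : Polynomial ℂ) (hK0 : K.eval 0 = 0) :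
    ‖Real.circleAverage (fun z => b0 z * K.eval z) 0 1‖ ≤
        c * Real.circleAverage (fun z => ‖K.eval z‖) 0 1 := by
  rcases eq_or_ne K 0 with rfl | hK
  · have h1 : Real.circleAverage (fun _ : ℂ => (0 : ℂ)) 0 1 = 0 := by
      simp [Real.circleAverage]
    have h2 : Real.circleAverage (fun _ : ℂ => (0 : ℝ)) 0 1 = 0 := by
      simp [Real.circleAverage]
    simp [h1, h2]
  · have hcont1 : Continuous (fun r : ℝ =>
        ‖Real.circleAverage (fun z => b0 z * K.eval ((r : ℂ) * z)) 0 1‖) := by
      apply Continuous.norm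
      unfold Real.circleAverage
      apply Continuous.const_smul
      apply intervalIntegral.continuous_parametric_intervalIntegral_of_continuous'
      have h1 : Continuous (fun p : ℝ × ℝ => circleMap 0 1 p.2) :=
        (continuous_circleMap 0 1).comp continuous_snd
      exact (hb0.comp h1).mul (K.continuous.comp
        ((Complex.continuous_ofReal.comp continuous_fst).mul h1))
    have hcont2 : Continuous (fun r : ℝ =>
        c * Real.circleAverage (fun z => ‖K.eval ((r : ℂ) * z)‖) 0 1) := by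
      apply Continuous.mul continuous_const
      unfold Real.circleAverage
      simp only [smul_eq_mul]
      apply Continuous.mul continuous_const
      apply intervalIntegral.continuous_parametric_intervalIntegral_of_continuous'
      have h1 : Continuous (fun p : ℝ × ℝ => circleMap 0 1 p.2) :=
        (continuous_circleMap 0 1).comp continuous_snd
      exact (K.continuous.comp
        ((Complex.continuous_ofReal.comp continuous_fst).mul h1)).norm
    have hev : ∀ᶠ r : ℝ in 𝓝[<] 1,
        ‖Real.circleAverage (fun z => b0 z * K.eval ((r : ℂ) * z)) 0 1‖ ≤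
        c * Real.circleAverage (fun z => ‖K.eval ((r : ℂ) * z)‖) 0 1 := by
      have hfin : Set.Finite {r : ℝ | ∃ w ∈ K.roots.toFinset, r = ‖w‖} := by
        have : {r : ℝ | ∃ w ∈ K.roots.toFinset, r = ‖w‖} =
            (fun w : ℂ => ‖w‖) '' (K.roots.toFinset : Set ℂ) := by
          ext r
          constructor
          · rintro ⟨w, hw, rfl⟩
            exact ⟨w, hw, rfl⟩
          · rintro ⟨w, hw, rfl⟩
            exact ⟨w, hw, rfl⟩
        rw [this]
        exact (Finset.finite_toSet _).image _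
      have h1 : ∀ᶠ r : ℝ in 𝓝[<] 1, r ∉ {r : ℝ | ∃ w ∈ K.roots.toFinset, r = ‖w‖} := by
        have hfin2 : Set.Finite ({r : ℝ | ∃ w ∈ K.roots.toFinset, r = ‖w‖} \ {1}) :=
          hfin.subset (fun r hr => hr.1)
        have h2 : ∀ᶠ r : ℝ in 𝓝 1,
            r ∉ ({r : ℝ | ∃ w ∈ K.roots.toFinset, r = ‖w‖} \ {1}) :=
          hfin2.isClosed.isOpen_compl.mem_nhds (fun hmem => hmem.2 rfl)
        have h2' := h2.filter_mono (nhdsWithin_le_nhds (a := (1:ℝ)) (s := Set.Iio 1))
        filter_upwards [h2', self_mem_nhdsWithin] with r hr hr1 hmem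
        exact hr ⟨hmem, fun h => (ne_of_lt hr1) h⟩
      have h3 : ∀ᶠ r : ℝ in 𝓝[<] 1, (0 : ℝ) < r :=
        (lt_mem_nhds zero_lt_one).filter_mono nhdsWithin_le_nhds
      filter_upwards [h1, h3] with r hr hr0
      apply h (fun z => K.eval ((r : ℂ) * z))
      · intro z _
        have : AnalyticAt ℂ (fun z => K.eval z) ((r : ℂ) * z) :=
          K.differentiable.analyticAt _
        exact this.comp (analyticAt_const.mul analyticAt_id)
      · simpa using hK0
      · intro z hz h0
        apply hr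
        refine ⟨(r : ℂ) * z, ?_, ?_⟩
        · rw [Multiset.mem_toFinset, Polynomial.mem_roots hK]
          exact h0
        · rw [mem_sphere_zero_iff_norm] at hz
          rw [norm_mul, hz, Complex.norm_real, Real.norm_of_nonneg hr0.le, mul_one]
    have h1 := le_of_tendsto_of_tendsto (hcont1.tendsto 1 |>.mono_left nhdsWithin_le_nhds)
      (hcont2.tendsto 1 |>.mono_left nhdsWithin_le_nhds) hev
    simpa using h1

theorem exists_poly (p : CC)
    (hp : p ∈ Submodule.span ℂ (range (fun n : ℕ => (fourier (n : ℤ) : CC)))) :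
    ∃ q : Polynomial ℂ, ∀ x : A2, p x = q.eval (ee x) := by
  induction hp using Submodule.span_induction with
  | mem x hx =>
    obtain ⟨n, rfl⟩ := hx
    refine ⟨Polynomial.X ^ n, fun x => ?_⟩
    simp only
    rw [fourier_nat]
    simp
  | zero => exact ⟨0, fun x => by simp⟩
  | add x y _ _ hx hy =>
    obtain ⟨q1, h1⟩ := hx
    obtain ⟨q2, h2⟩ := hy
    refine ⟨q1 + q2, fun x => ?_⟩
    rw [ContinuousMap.add_apply, h1, h2, Polynomial.eval_add]
  | smul a x _ hx =>
    obtain ⟨q, h1⟩ := hx
    refine ⟨Polynomial.C a * q, fun x => ?_⟩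
    rw [ContinuousMap.smul_apply, h1]
    simp

end Du

open Du in
/-- F6: duality (Hahn-Banach in `C(circle)` and Poisson/Abel means) -/
theorem duality {b0 : ℂ → ℂ} (hb0 : Continuous b0) {c : ℝ} (hc : 0 ≤ c)
    (h : ∀ k : ℂ → ℂ, AnalyticOnNhd ℂ k (closedBall 0 1) → k 0 = 0 →
      (∀ z ∈ sphere (0:ℂ) 1, k z ≠ 0) →
      ‖Real.circleAverage (fun z => b0 z * k z) 0 1‖ ≤
        c * Real.circleAverage (fun z => ‖k z‖) 0 1) :
    ∃ p : Polynomial ℂ, ∀ z ∈ sphere (0:ℂ) 1, ‖b0 z - p.eval z‖ ≤ c + 1 := by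
  let b : CC := ⟨fun t => b0 (ee t), hb0.comp continuous_ee⟩
  set P : Submodule ℂ CC :=
    Submodule.span ℂ (range (fun n : ℕ => (fourier (n : ℤ) : CC))) with hP
  obtain ⟨G, hG1, hG2⟩ := exists_dual_vector'' ℂ (Submodule.Quotient.mk b : CC ⧸ P)
  let l : CC →ₗ[ℂ] ℂ := G.toLinearMap.comp P.mkQ
  have hl1 : ∀ g : CC, ‖l g‖ ≤ ‖g‖ := by
    intro g
    calc ‖l g‖ = ‖G (Submodule.Quotient.mk g : CC ⧸ P)‖ := rfl
      _ ≤ ‖G‖ * ‖(Submodule.Quotient.mk g : CC ⧸ P)‖ := G.le_opNorm _
      _ ≤ 1 * ‖g‖ := mul_le_mul hG1 (Submodule.Quotient.norm_mk_le _ _) (norm_nonneg _)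
          zero_le_one
      _ = ‖g‖ := one_mul _
  have hl0 : ∀ n : ℕ, l (fourier (n : ℤ)) = 0 := by
    intro n
    change G (Submodule.Quotient.mk (fourier (n : ℤ) : CC) : CC ⧸ P) = 0
    have : (Submodule.Quotient.mk (fourier (n : ℤ) : CC) : CC ⧸ P) = 0 := by
      rw [Submodule.Quotient.mk_eq_zero]
      exact Submodule.subset_span ⟨n, rfl⟩
    rw [this, map_zero]
  have hlb : ‖l b‖ ≤ c := by
    have hbound : ∀ N, ‖l (Tn N b)‖ ≤ c := by
      intro N
      rw [l_Tn l hl0]
      have h1 := radial hb0 h (Kp l N) (Kp_zero l N)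
      rw [circleAverage_eq, circleAverage_eq] at h1
      have h2 := integral_norm_Kp l hl0 hl1 N
      calc ‖∫ t : A2, b t * (Kp l N).eval (ee t) ∂AddCircle.haarAddCircle‖ ≤
            c * ∫ t : A2, ‖(Kp l N).eval (ee t)‖ ∂AddCircle.haarAddCircle := h1
        _ ≤ c * 1 := mul_le_mul_of_nonneg_left h2 hc
        _ = c := mul_one _
    have hlim : Tendsto (fun N => l (Tn N b)) atTop (𝓝 (l b)) := by
      have hlc : Continuous l :=
        (LinearMap.mkContinuous l 1 (fun g => by simpa using hl1 g)).continuous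
      exact (hlc.tendsto b).comp (tendsto_Tn b)
    exact le_of_tendsto hlim.norm (Eventually.of_forall hbound)
  have hD : ‖(Submodule.Quotient.mk b : CC ⧸ P)‖ ≤ c := by
    have h1 : l b = ((‖(Submodule.Quotient.mk b : CC ⧸ P)‖ : ℝ) : ℂ) := hG2
    rw [h1, Complex.norm_real, norm_norm] at hlb
    exact hlb
  obtain ⟨m, hm1, hm2⟩ := Submodule.Quotient.norm_mk_lt (Submodule.Quotient.mk b : CC ⧸ P)
    (zero_lt_one)
  have hbm : b - m ∈ P := by
    rw [← Submodule.Quotient.eq]
    exact hm1.symm
  obtain ⟨q, hq⟩ := exists_poly (b - m) hbm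
  refine ⟨q, fun z hz => ?_⟩
  rw [mem_sphere_zero_iff_norm] at hz
  have hz1 : ee ((Complex.arg z : ℝ) : A2) = z := by
    rw [ee_coe]
    have := Complex.norm_mul_exp_arg_mul_I z
    rw [hz] at this
    simpa using this
  have h1 := hq ((Complex.arg z : ℝ) : A2)
  rw [hz1, ContinuousMap.sub_apply] at h1
  have h2 : b ((Complex.arg z : ℝ) : A2) = b0 z := by
    change b0 (ee ((Complex.arg z : ℝ) : A2)) = b0 z
    rw [hz1]
  rw [h2] at h1
  rw [← h1]
  have h3 : b0 z - (b0 z - m ((Complex.arg z : ℝ) : A2)) = m ((Complex.arg z : ℝ) : A2) := by ring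
  rw [h3]
  calc ‖m ((Complex.arg z : ℝ) : A2)‖ ≤ ‖m‖ := m.norm_coe_le_norm _
    _ ≤ c + 1 := by linarith

end Pool.Agent.H14.GP
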