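import Pool.Agent.H14.GP.Defs2
import Pool.Agent.H14.GP.Green
import Pool.Agent.H14.GP.LP

set_option autoImplicit false

open Complex Metric Set Filter Topology ComplexConjugate MeasureTheory

namespace Pool.Agent.H14.GP

/-! ### The log-weighted area integrals -/

theorem we_weight_cont : Continuous fun r : ℝ => r * Real.log (1 / r) := by
  have h : (fun r : ℝ => r * Real.log (1 / r)) = fun r : ℝ => -(r * Real.log r) := by
    funext r
    rw [one_div, Real.log_inv]
    ring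
  rw [h]
  exact Real.continuous_mul_log.neg

theorem we_weight_nonneg {r : ℝ} (h0 : 0 ≤ r) (h1 : r ≤ 1) : 0 ≤ r * Real.log (1 / r) := by
  rcases eq_or_lt_of_le h0 with h | h
  · simp [← h]
  · refine mul_nonneg h0 (Real.log_nonneg ?_)
    rw [le_div_iff₀ h]
    linarith

theorem we_avg_cont {E : Type*} [NormedAddCommGroup E] [NormedSpace ℝ E] {F : ℂ → E}
    (hF : ContinuousOn F (closedBall 0 1)) :
    ContinuousOn (Real.circleAverage F 0) (Icc 0 1) := by
  refine Real.ContinuousOn.circleAverage (s := Icc (0:ℝ) 1) (hF.mono ?_) (fun r hr => hr.1)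
  intro z hz
  simpa using hz.2

theorem we_circleInt {E : Type*} [NormedAddCommGroup E] [NormedSpace ℝ E] {F : ℂ → E}
    (hF : ContinuousOn F (closedBall 0 1)) {r : ℝ} (h0 : 0 ≤ r) (h1 : r ≤ 1) :
    CircleIntegrable F 0 r := by
  refine ContinuousOn.circleIntegrable h0 (hF.mono ?_)
  intro z hz
  simp only [mem_sphere_iff_norm, sub_zero, mem_closedBall, dist_zero_right] at *
  linarith

theorem we_LR_int {F : ℂ → ℝ} (hF : ContinuousOn F (closedBall 0 1)) :
    IntervalIntegrable (fun r => (r * Real.log (1 / r)) * Real.circleAverage F 0 r) volume 0 1 := by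
  apply ContinuousOn.intervalIntegrable
  rw [uIcc_of_le zero_le_one]
  exact we_weight_cont.continuousOn.mul (we_avg_cont hF)

theorem we_LR_mono {F F' : ℂ → ℝ} (hF : ContinuousOn F (closedBall 0 1))
    (hF' : ContinuousOn F' (closedBall 0 1)) (h : ∀ z ∈ ball (0:ℂ) 1, F z ≤ F' z) :
    LR F ≤ LR F' := by
  unfold LR
  refine intervalIntegral.integral_mono_on_of_le_Ioo zero_le_one (we_LR_int hF) (we_LR_int hF') ?_
  intro r hr
  refine mul_le_mul_of_nonneg_left ?_ (we_weight_nonneg hr.1.le hr.2.le)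
  refine Real.circleAverage_mono (we_circleInt hF hr.1.le hr.2.le)
    (we_circleInt hF' hr.1.le hr.2.le) ?_
  intro x hx
  apply h
  rw [abs_of_nonneg hr.1.le] at hx
  simp only [mem_sphere_iff_norm, sub_zero, mem_ball, dist_zero_right] at *
  linarith [hr.2]

theorem we_LR_add {F F' : ℂ → ℝ} (hF : ContinuousOn F (closedBall 0 1))
    (hF' : ContinuousOn F' (closedBall 0 1)) :
    LR (fun z => F z + F' z) = LR F + LR F' := by
  unfold LR
  rw [← intervalIntegral.integral_add (we_LR_int hF) (we_LR_int hF')]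
  refine intervalIntegral.integral_congr ?_
  intro r hr
  rw [uIcc_of_le zero_le_one] at hr
  simp only
  rw [Real.circleAverage_fun_add (we_circleInt hF hr.1 hr.2) (we_circleInt hF' hr.1 hr.2)]
  ring

theorem we_LR_smul (c : ℝ) (F : ℂ → ℝ) : LR (fun z => c * F z) = c * LR F := by
  unfold LR
  rw [← intervalIntegral.integral_const_mul]
  refine intervalIntegral.integral_congr ?_
  intro r _
  simp only
  have := Real.circleAverage_fun_smul (a := c) (f := F) (c := 0) (R := r)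
  simp only [smul_eq_mul] at this
  rw [this]
  ring

theorem we_norm_avg_le {F : ℂ → ℂ} {r : ℝ} :
    ‖Real.circleAverage F 0 r‖ ≤ Real.circleAverage (fun z => ‖F z‖) 0 r := by
  unfold Real.circleAverage
  rw [norm_smul, smul_eq_mul, Real.norm_of_nonneg (by positivity)]
  refine mul_le_mul_of_nonneg_left ?_ (by positivity)
  exact intervalIntegral.norm_integral_le_integral_norm Real.two_pi_pos.le

theorem we_norm_LL_le {F : ℂ → ℂ} (hF : ContinuousOn F (closedBall 0 1)) :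
    ‖LL F‖ ≤ LR (fun z => ‖F z‖) := by
  unfold LL LR
  refine (intervalIntegral.norm_integral_le_integral_norm zero_le_one).trans ?_
  refine intervalIntegral.integral_mono_on zero_le_one ?_ (we_LR_int hF.norm) ?_
  · apply IntervalIntegrable.norm
    apply ContinuousOn.intervalIntegrable
    rw [uIcc_of_le zero_le_one]
    exact (continuous_ofReal.comp we_weight_cont).continuousOn.mul (we_avg_cont hF)
  · intro r hr
    rw [norm_mul, Complex.norm_real, Real.norm_of_nonneg (we_weight_nonneg hr.1 hr.2)]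
    exact mul_le_mul_of_nonneg_left we_norm_avg_le (we_weight_nonneg hr.1 hr.2)

theorem we_LL_congr {F F' : ℂ → ℂ} (h : ∀ z ∈ closedBall (0:ℂ) 1, F z = F' z) :
    LL F = LL F' := by
  unfold LL
  refine intervalIntegral.integral_congr ?_
  intro r hr
  rw [uIcc_of_le zero_le_one] at hr
  simp only
  congr 1
  refine Real.circleAverage_congr_sphere ?_
  intro x hx
  apply h
  rw [abs_of_nonneg hr.1] at hx
  simp only [mem_sphere_iff_norm, sub_zero, mem_closedBall, dist_zero_right] at *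
  linarith [hr.2]

/-! ### Factorisation of functions analytic near the closed disc -/

theorem we_exists_ball {V : Set ℂ} (hV : IsOpen V) (h : closedBall (0:ℂ) 1 ⊆ V) :
    ∃ R : ℝ, 1 < R ∧ ball (0:ℂ) R ⊆ V := by
  obtain ⟨d, hd, hsub⟩ := (isCompact_closedBall (0:ℂ) 1).exists_thickening_subset_open hV h
  refine ⟨d + 1, by linarith, ?_⟩
  rwa [thickening_closedBall hd zero_le_one] at hsub

theorem we_not_ev_zero {k : ℂ → ℂ} (hk : AnalyticOnNhd ℂ k (closedBall 0 1))
    (hk1 : ∀ z ∈ sphere (0:ℂ) 1, k z ≠ 0) {a : ℂ} (ha : a ∈ closedBall (0:ℂ) 1) :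
    ¬ ∀ᶠ z in 𝓝 a, k z = 0 := by
  intro h
  have h1 : EqOn k 0 (closedBall 0 1) :=
    hk.eqOn_zero_of_preconnected_of_eventuallyEq_zero
      (convex_closedBall (0:ℂ) 1).isPreconnected ha h
  have h2 : (1:ℂ) ∈ closedBall (0:ℂ) 1 := by simp
  exact hk1 1 (by simp) (h1 h2)

theorem we_extract {k : ℂ → ℂ} (hk : AnalyticOnNhd ℂ k (closedBall 0 1))
    (hk1 : ∀ z ∈ sphere (0:ℂ) 1, k z ≠ 0) {a : ℂ} (ha : a ∈ closedBall (0:ℂ) 1) :
    ∃ (n : ℕ) (g : ℂ → ℂ), AnalyticOnNhd ℂ g (closedBall 0 1) ∧ g a ≠ 0 ∧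
      ∀ z, k z = (z - a) ^ n * g z := by
  classical
  obtain ⟨n, g0, hg0, hg0a, hev⟩ :=
    ((hk a ha).exists_eventuallyEq_pow_smul_nonzero_iff).2 (we_not_ev_zero hk hk1 ha)
  refine ⟨n, fun z => if z = a then g0 a else k z / (z - a) ^ n, ?_, by simpa using hg0a, ?_⟩
  · intro w hw
    by_cases hwa : w = a
    · subst hwa
      refine hg0.congr ?_
      filter_upwards [hev] with z hz
      by_cases hzw : z = w
      · simp [hzw]
      · simp only [hzw, if_false]
        rw [hz, smul_eq_mul, mul_div_cancel_left₀]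
        exact pow_ne_zero _ (sub_ne_zero.2 hzw)
    · have h1 : AnalyticAt ℂ (fun z => k z / (z - a) ^ n) w := by
        refine (hk w hw).div ?_ (pow_ne_zero _ (sub_ne_zero.2 hwa))
        fun_prop
      refine h1.congr ?_
      filter_upwards [isOpen_ne.mem_nhds hwa] with z hz
      have hz' : z ≠ a := hz
      simp [hz']
  · intro z
    by_cases hza : z = a
    · subst hza
      simpa using hev.self_of_nhds
    · simp only [hza, if_false]
      rw [mul_div_cancel₀]
      exact pow_ne_zero _ (sub_ne_zero.2 hza)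

theorem we_zeros_finite {k : ℂ → ℂ} (hk : AnalyticOnNhd ℂ k (closedBall 0 1))
    (hk1 : ∀ z ∈ sphere (0:ℂ) 1, k z ≠ 0) :
    {z ∈ closedBall (0:ℂ) 1 | k z = 0}.Finite := by
  by_contra hinf
  obtain ⟨x, hx, hacc⟩ := Set.Infinite.exists_accPt_of_subset_isCompact hinf
    (isCompact_closedBall (0:ℂ) 1) (fun z hz => hz.1)
  rw [accPt_iff_frequently_nhdsNE] at hacc
  have h1 : ∃ᶠ z in 𝓝[≠] x, k z = 0 := hacc.mono (fun z hz => hz.2)
  exact we_not_ev_zero hk hk1 hx ((hk x hx).frequently_zero_iff_eventually_zero.1 h1)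

theorem we_denom_ne {a z : ℂ} (ha : ‖a‖ < 1) (hz : ‖z‖ ≤ 1) : 1 - conj a * z ≠ 0 := by
  intro h
  have h1 : conj a * z = 1 := (sub_eq_zero.1 h).symm
  have h2 : ‖conj a * z‖ = 1 := by rw [h1]; simp
  rw [norm_mul, RCLike.norm_conj] at h2
  nlinarith [norm_nonneg a, norm_nonneg z]

theorem we_norm_eq {a z : ℂ} (hz : ‖z‖ = 1) : ‖z - a‖ = ‖1 - conj a * z‖ := by
  have h1 : z * conj z = 1 := by
    rw [Complex.mul_conj, Complex.normSq_eq_norm_sq, hz]
    simp
  have h2 : 1 - conj a * z = z * conj (z - a) := by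
    rw [map_sub, mul_sub, h1]
    ring
  rw [h2, norm_mul, hz, one_mul, RCLike.norm_conj]

theorem we_blaschke (s : Finset ℂ) : ∀ k : ℂ → ℂ, AnalyticOnNhd ℂ k (closedBall 0 1) →
    (∀ z ∈ sphere (0:ℂ) 1, k z ≠ 0) → (∀ z ∈ closedBall (0:ℂ) 1, k z = 0 → z ∈ s) →
    ∃ B h : ℂ → ℂ, AnalyticOnNhd ℂ B (closedBall 0 1) ∧ AnalyticOnNhd ℂ h (closedBall 0 1) ∧
      (∀ z ∈ sphere (0:ℂ) 1, ‖B z‖ = 1) ∧ (∀ z ∈ closedBall (0:ℂ) 1, h z ≠ 0) ∧
      ∀ z ∈ closedBall (0:ℂ) 1, k z = B z * h z := by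
  classical
  induction s using Finset.induction_on with
  | empty =>
    intro k hk hk1 hz
    refine ⟨fun _ => 1, k, analyticOnNhd_const, hk, by simp, ?_, by simp⟩
    intro z hzb h0
    simpa using hz z hzb h0
  | insert a s has ih =>
    intro k hk hk1 hz
    by_cases ha : a ∈ ball (0:ℂ) 1
    · obtain ⟨n, g, hg, hga, hkg⟩ := we_extract hk hk1 (ball_subset_closedBall ha)
      have ha' : ‖a‖ < 1 := by simpa using ha
      have hden : ∀ z ∈ closedBall (0:ℂ) 1, 1 - conj a * z ≠ 0 := by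
        intro z hz
        exact we_denom_ne ha' (by simpa using hz)
      have hgne : ∀ z ∈ sphere (0:ℂ) 1, g z ≠ 0 := by
        intro z hzs h0
        apply hk1 z hzs
        rw [hkg z, h0, mul_zero]
      obtain ⟨B, h, hB, hh, hB1, hh0, hBh⟩ := ih (fun z => g z * (1 - conj a * z) ^ n) (by
          refine hg.mul ?_
          intro z _
          fun_prop) (by
          intro z hzs
          exact mul_ne_zero (hgne z hzs)
            (pow_ne_zero _ (hden z (sphere_subset_closedBall hzs)))) (by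
          intro z hzb h0
          have h1 : g z = 0 := by
            rcases mul_eq_zero.1 h0 with h | h
            · exact h
            · exact absurd h (pow_ne_zero _ (hden z hzb))
          have h2 : z ∈ insert a s := hz z hzb (by rw [hkg z, h1, mul_zero])
          rcases Finset.mem_insert.1 h2 with h3 | h3
          · rw [h3] at h1
            exact absurd h1 hga
          · exact h3)
      refine ⟨fun z => ((z - a) / (1 - conj a * z)) ^ n * B z, h, ?_, hh, ?_, hh0, ?_⟩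
      · refine AnalyticOnNhd.mul ?_ hB
        refine AnalyticOnNhd.pow ?_ n
        intro z hzb
        refine AnalyticAt.div (by fun_prop) (by fun_prop) (hden z hzb)
      · intro z hzs
        have hz1 : ‖z‖ = 1 := by simpa using hzs
        rw [norm_mul, hB1 z hzs, mul_one, norm_pow, norm_div, we_norm_eq hz1, div_self, one_pow]
        rw [norm_ne_zero_iff]
        exact hden z (sphere_subset_closedBall hzs)
      · intro z hzb
        have h1 := hBh z hzb
        have h2 := pow_ne_zero n (hden z hzb)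
        rw [mul_assoc, ← h1, hkg z, div_pow, div_mul_eq_mul_div, eq_div_iff h2]
        ring
    · refine ih k hk hk1 ?_
      intro z hzb h0
      rcases Finset.mem_insert.1 (hz z hzb h0) with h3 | h3
      · exfalso
        rw [h3] at hzb h0
        refine hk1 a ?_ h0
        simp only [mem_ball, dist_zero_right, not_lt, mem_closedBall, mem_sphere_iff_norm,
          sub_zero] at *
        exact le_antisymm hzb ha
      · exact h3

theorem we_sqrt {h : ℂ → ℂ} (hh : AnalyticOnNhd ℂ h (closedBall 0 1))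
    (h0 : ∀ z ∈ closedBall (0:ℂ) 1, h z ≠ 0) :
    ∃ q : ℂ → ℂ, AnalyticOnNhd ℂ q (closedBall 0 1) ∧ ∀ z ∈ closedBall (0:ℂ) 1, h z = q z * q z := by
  have hV : IsOpen {z | AnalyticAt ℂ h z ∧ h z ≠ 0} := by
    rw [isOpen_iff_mem_nhds]
    intro z hz
    filter_upwards [(isOpen_analyticAt ℂ h).mem_nhds hz.1,
      hz.1.continuousAt.eventually_ne hz.2] with w hw1 hw2
    exact ⟨hw1, hw2⟩
  obtain ⟨R, hR, hsub⟩ := we_exists_ball hV (fun z hz => ⟨hh z hz, h0 z hz⟩)
  have hd : DifferentiableOn ℂ (fun z => deriv h z / h z) (ball 0 R) := by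
    intro z hz
    exact (((hsub hz).1.deriv.div (hsub hz).1 (hsub hz).2).differentiableAt).differentiableWithinAt
  obtain ⟨F, hF0, hF⟩ := (hd.isExactOn_ball).with_val_at 0 (Complex.log (h 0))
  have hsubR : closedBall (0:ℂ) 1 ⊆ ball (0:ℂ) R := closedBall_subset_ball hR
  have h0R : (0:ℂ) ∈ ball (0:ℂ) R := hsubR (by simp)
  have hder : ∀ z ∈ ball (0:ℂ) R, HasDerivAt (fun z => h z * Complex.exp (-F z)) 0 z := by
    intro z hz
    have h1 := (hsub hz).1.differentiableAt.hasDerivAt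
    have h2 := ((hF z hz).neg).cexp
    have h3 := h1.mul h2
    have h4 : deriv h z * Complex.exp (-F z) +
        h z * (Complex.exp (-F z) * -(deriv h z / h z)) = 0 := by
      have h5 : h z * (deriv h z / h z) = deriv h z := mul_div_cancel₀ _ (hsub hz).2
      linear_combination (-Complex.exp (-F z)) * h5
    have h6 := h3
    simp only [Pi.neg_apply] at h6
    rw [← h4]
    exact h6
  have hconst : ∀ z ∈ ball (0:ℂ) R, h z * Complex.exp (-F z) = 1 := by
    intro z hz
    have := IsOpen.is_const_of_deriv_eq_zero (𝕜 := ℂ) (f := fun z => h z * Complex.exp (-F z))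
      isOpen_ball (convex_ball (0:ℂ) R).isPreconnected
      (fun w hw => (hder w hw).differentiableAt.differentiableWithinAt)
      (fun w hw => (hder w hw).deriv) hz h0R
    rw [this, hF0, Complex.exp_neg, Complex.exp_log (hsub h0R).2]
    exact mul_inv_cancel₀ (hsub h0R).2
  refine ⟨fun z => Complex.exp (F z / 2), ?_, ?_⟩
  · intro z hz
    have hFa : AnalyticAt ℂ F z := by
      have : DifferentiableOn ℂ F (ball 0 R) :=
        fun w hw => (hF w hw).differentiableAt.differentiableWithinAt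
      exact this.analyticAt (isOpen_ball.mem_nhds (hsubR hz))
    fun_prop
  · intro z hz
    rw [← Complex.exp_add, add_halves]
    have := hconst z (hsubR hz)
    rw [Complex.exp_neg] at this
    field_simp at this
    exact this

theorem we_factor {k : ℂ → ℂ} (hk : AnalyticOnNhd ℂ k (closedBall 0 1))
    (hk1 : ∀ z ∈ sphere (0:ℂ) 1, k z ≠ 0) :
    ∃ k1 k2 : ℂ → ℂ, AnalyticOnNhd ℂ k1 (closedBall 0 1) ∧ AnalyticOnNhd ℂ k2 (closedBall 0 1) ∧
      (∀ z ∈ closedBall (0:ℂ) 1, k z = k1 z * k2 z) ∧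
      (∀ z ∈ sphere (0:ℂ) 1, ‖k1 z‖ ^ 2 = ‖k z‖) ∧ (∀ z ∈ sphere (0:ℂ) 1, ‖k2 z‖ ^ 2 = ‖k z‖) := by
  obtain ⟨B, h, hB, hh, hB1, hh0, hkBh⟩ := we_blaschke (we_zeros_finite hk hk1).toFinset k hk hk1
    (fun z hz h0 => by simpa using ⟨by simpa using hz, h0⟩)
  obtain ⟨q, hq, hhq⟩ := we_sqrt hh hh0
  refine ⟨fun z => B z * q z, q, hB.mul hq, hq, ?_, ?_, ?_⟩
  · intro z hz
    rw [hkBh z hz, hhq z hz]
    ring
  · intro z hz
    rw [hkBh z (sphere_subset_closedBall hz), hhq z (sphere_subset_closedBall hz)]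
    simp only [norm_mul, hB1 z hz]
    ring
  · intro z hz
    rw [hkBh z (sphere_subset_closedBall hz), hhq z (sphere_subset_closedBall hz)]
    simp only [norm_mul, hB1 z hz]
    ring

/-! ### Wirtinger derivatives of products -/

theorem we_fderiv_analytic {k : ℂ → ℂ} {z : ℂ} (hk : AnalyticAt ℂ k z) :
    HasFDerivAt k ((ContinuousLinearMap.toSpanSingleton ℂ (deriv k z)).restrictScalars ℝ) z :=
  (hk.differentiableAt.hasDerivAt.hasFDerivAt).restrictScalars ℝ

theorem we_dz_mul {b k : ℂ → ℂ} {z : ℂ} (hb : DifferentiableAt ℝ b z) (hk : AnalyticAt ℂ k z) :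
    dz (fun w => b w * k w) z = dz b z * k z + b z * deriv k z := by
  have h := (hb.hasFDerivAt.mul (we_fderiv_analytic hk)).fderiv
  unfold dz
  have h' : fderiv ℝ (fun w => b w * k w) z = _ := h
  rw [h']
  simp only [_root_.add_apply, _root_.smul_apply,
    ContinuousLinearMap.coe_restrictScalars', ContinuousLinearMap.toSpanSingleton_apply,
    smul_eq_mul]
  linear_combination (-(b z * deriv k z) / 2) * I_sq

theorem we_dzb_mul {b k : ℂ → ℂ} {z : ℂ} (hb : DifferentiableAt ℝ b z) (hk : AnalyticAt ℂ k z) :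
    dzb (fun w => b w * k w) z = dzb b z * k z := by
  have h := (hb.hasFDerivAt.mul (we_fderiv_analytic hk)).fderiv
  unfold dzb
  have h' : fderiv ℝ (fun w => b w * k w) z = _ := h
  rw [h']
  simp only [_root_.add_apply, _root_.smul_apply,
    ContinuousLinearMap.coe_restrictScalars', ContinuousLinearMap.toSpanSingleton_apply,
    smul_eq_mul]
  linear_combination ((b z * deriv k z) / 2) * I_sq

theorem we_dz_congr {f g : ℂ → ℂ} {z : ℂ} (h : f =ᶠ[𝓝 z] g) : dz f z = dz g z := by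
  unfold dz
  rw [h.fderiv_eq]

theorem we_dzb_congr {f g : ℂ → ℂ} {z : ℂ} (h : f =ᶠ[𝓝 z] g) : dzb f z = dzb g z := by
  unfold dzb
  rw [h.fderiv_eq]

theorem we_dz_cont {G : ℂ → ℂ} (hG : ContDiff ℝ 2 G) : Continuous (dz G) := by
  have h : Continuous (fderiv ℝ G) := hG.continuous_fderiv (by norm_num)
  unfold dz
  fun_prop

/-- cutting off a function analytic near the closed disc -/
theorem we_cutoff {k : ℂ → ℂ} (hk : AnalyticOnNhd ℂ k (closedBall 0 1)) :
    ∃ kt : ℂ → ℂ, ContDiff ℝ 2 kt ∧ ∃ r : ℝ, 1 < r ∧ ∀ z ∈ ball (0:ℂ) r,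
      kt z = k z ∧ AnalyticAt ℂ k z := by
  obtain ⟨R, hR, hsub⟩ := we_exists_ball (isOpen_analyticAt ℂ k) hk
  let f : ContDiffBump (0:ℂ) := ⟨1 + (R - 1) / 3, 1 + 2 * (R - 1) / 3, by linarith, by linarith⟩
  have hin : f.rIn = 1 + (R - 1) / 3 := rfl
  have hout : f.rOut = 1 + 2 * (R - 1) / 3 := rfl
  refine ⟨fun z => (f z : ℂ) * k z, ?_, 1 + (R - 1) / 3, by linarith, ?_⟩
  · rw [contDiff_iff_contDiffAt]
    intro z
    by_cases hz : ‖z‖ < R
    · have h1 : AnalyticAt ℂ k z := hsub (by simpa using hz)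
      have h2 : ContDiffAt ℝ 2 k z := (h1.contDiffAt (n := 2)).restrict_scalars ℝ
      have h3 : ContDiffAt ℝ 2 (fun z => (f z : ℂ)) z :=
        (Complex.ofRealCLM.contDiff.contDiffAt).comp z f.contDiffAt
      exact h3.mul h2
    · have h1 : (fun z => (f z : ℂ) * k z) =ᶠ[𝓝 z] fun _ => 0 := by
        have hlt : 1 + 2 * (R - 1) / 3 < ‖z‖ := by
          push Not at hz
          linarith
        filter_upwards [(isOpen_lt continuous_const continuous_norm).mem_nhds hlt] with w hw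
        have : f w = 0 := f.zero_of_le_dist (by
          rw [hout, dist_zero_right]
          exact le_of_lt hw)
        simp [this]
      exact contDiffAt_const.congr_of_eventuallyEq h1
  · intro z hz
    refine ⟨?_, hsub ?_⟩
    · have : f z = 1 := f.one_of_mem_closedBall (by
        rw [hin]
        exact ball_subset_closedBall hz)
      simp [this]
    · simp only [mem_ball, dist_zero_right] at *
      linarith

theorem we_pointwise {M A B C a b p q : ℝ} (hM : 0 < M) (hA : 0 ≤ A)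
    (hC : C ≤ A * (a * b) + B * (p * b + a * q)) :
    C ≤ 1 / 2 * (A * a ^ 2) + (1 / 2 * (A * b ^ 2) + (1 / (4 * M) * (B ^ 2 * b ^ 2) +
      (M * p ^ 2 + (1 / (4 * M) * (B ^ 2 * a ^ 2) + M * q ^ 2)))) := by
  have h1 : A * (a * b) ≤ 1 / 2 * (A * a ^ 2) + 1 / 2 * (A * b ^ 2) := by
    nlinarith [mul_nonneg hA (sq_nonneg (a - b))]
  have h2 : ∀ x y : ℝ, x * y ≤ 1 / (4 * M) * x ^ 2 + M * y ^ 2 := by
    intro x y
    have h3 : 0 ≤ (x - 2 * M * y) ^ 2 / (4 * M) := by positivity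
    have h4 : (x - 2 * M * y) ^ 2 / (4 * M) = 1 / (4 * M) * x ^ 2 + M * y ^ 2 - x * y := by
      field_simp
      ring
    linarith
  have h5 := h2 (B * b) p
  have h6 := h2 (B * a) q
  nlinarith

theorem we_main {G b0 : ℂ → ℂ} (hG : ContDiff ℝ 2 G) {M : ℝ} (hM : 0 < M)
    (h1 : ∀ h : ℂ → ℂ, AnalyticOnNhd ℂ h (closedBall 0 1) →
      LR (fun z => ‖G z‖ ^ 2 * ‖h z‖ ^ 2) ≤ M ^ 2 * Real.circleAverage (fun z => ‖h z‖ ^ 2) 0 1)
    (h2 : ∀ h : ℂ → ℂ, AnalyticOnNhd ℂ h (closedBall 0 1) →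
      LR (fun z => ‖dz G z‖ * ‖h z‖ ^ 2) ≤ M ^ 2 * Real.circleAverage (fun z => ‖h z‖ ^ 2) 0 1)
    (hb : ContDiff ℝ 2 b0) (hd : ∀ z, dzb b0 z = G z) {k : ℂ → ℂ}
    (hk : AnalyticOnNhd ℂ k (closedBall 0 1)) (hk0 : k 0 = 0)
    (hk1 : ∀ z ∈ sphere (0:ℂ) 1, k z ≠ 0) :
    ‖Real.circleAverage (fun z => b0 z * k z) 0 1‖ ≤
      4 * (M ^ 2 + M) * Real.circleAverage (fun z => ‖k z‖) 0 1 := by
  obtain ⟨k1, k2, hk1a, hk2a, hkk, hn1, hn2⟩ := we_factor hk hk1
  obtain ⟨kt, hkt, r, hr, hktr⟩ := we_cutoff hk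
  have hsub : closedBall (0:ℂ) 1 ⊆ ball (0:ℂ) r := closedBall_subset_ball hr
  have hu : ContDiff ℝ 2 (fun z => b0 z * kt z) := hb.mul hkt
  have hg := green hu
  have hev : ∀ z ∈ ball (0:ℂ) r, dzb (fun z => b0 z * kt z) z = G z * k z := by
    intro z hz
    have h3 : (fun z => b0 z * kt z) =ᶠ[𝓝 z] fun z => b0 z * k z := by
      filter_upwards [isOpen_ball.mem_nhds hz] with w hw
      rw [(hktr w hw).1]
    rw [we_dzb_congr h3, we_dzb_mul ((hb.differentiable (by norm_num)) z) (hktr z hz).2, hd]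
  have hev2 : ∀ z ∈ closedBall (0:ℂ) 1, dz (dzb (fun z => b0 z * kt z)) z =
      dz G z * k z + G z * deriv k z := by
    intro z hz
    have h3 : (dzb (fun z => b0 z * kt z)) =ᶠ[𝓝 z] fun z => G z * k z := by
      filter_upwards [isOpen_ball.mem_nhds (hsub hz)] with w hw
      exact hev w hw
    rw [we_dz_congr h3, we_dz_mul ((hG.differentiable (by norm_num)) z) (hk z hz)]
  have h3 : Real.circleAverage (fun z => b0 z * k z) 0 1 =
      4 * LL (fun z => dz G z * k z + G z * deriv k z) := by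
    rw [← we_LL_congr hev2, ← hg]
    have h4 : kt 0 = 0 := by rw [(hktr 0 (hsub (by simp))).1, hk0]
    rw [h4, mul_zero, sub_zero]
    refine Real.circleAverage_congr_sphere ?_
    intro z hz
    rw [abs_one] at hz
    simp only
    rw [(hktr z (hsub (sphere_subset_closedBall hz))).1]
  have cG : ContinuousOn G (closedBall 0 1) := hG.continuous.continuousOn
  have cdG : ContinuousOn (dz G) (closedBall 0 1) := (we_dz_cont hG).continuousOn
  have ck : ContinuousOn k (closedBall 0 1) := hk.continuousOn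
  have cdk : ContinuousOn (deriv k) (closedBall 0 1) := hk.deriv.continuousOn
  have ck1 : ContinuousOn k1 (closedBall 0 1) := hk1a.continuousOn
  have cdk1 : ContinuousOn (deriv k1) (closedBall 0 1) := hk1a.deriv.continuousOn
  have ck2 : ContinuousOn k2 (closedBall 0 1) := hk2a.continuousOn
  have cdk2 : ContinuousOn (deriv k2) (closedBall 0 1) := hk2a.deriv.continuousOn
  have cF : ContinuousOn (fun z => dz G z * k z + G z * deriv k z) (closedBall 0 1) :=
    (cdG.mul ck).add (cG.mul cdk)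
  have c1 : ContinuousOn (fun z => 1 / 2 * (‖dz G z‖ * ‖k1 z‖ ^ 2)) (closedBall 0 1) :=
    continuousOn_const.mul (cdG.norm.mul (ck1.norm.pow 2))
  have c2 : ContinuousOn (fun z => 1 / 2 * (‖dz G z‖ * ‖k2 z‖ ^ 2)) (closedBall 0 1) :=
    continuousOn_const.mul (cdG.norm.mul (ck2.norm.pow 2))
  have c3 : ContinuousOn (fun z => 1 / (4 * M) * (‖G z‖ ^ 2 * ‖k2 z‖ ^ 2)) (closedBall 0 1) :=
    continuousOn_const.mul ((cG.norm.pow 2).mul (ck2.norm.pow 2))
  have c4 : ContinuousOn (fun z => M * ‖deriv k1 z‖ ^ 2) (closedBall 0 1) :=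
    continuousOn_const.mul (cdk1.norm.pow 2)
  have c5 : ContinuousOn (fun z => 1 / (4 * M) * (‖G z‖ ^ 2 * ‖k1 z‖ ^ 2)) (closedBall 0 1) :=
    continuousOn_const.mul ((cG.norm.pow 2).mul (ck1.norm.pow 2))
  have c6 : ContinuousOn (fun z => M * ‖deriv k2 z‖ ^ 2) (closedBall 0 1) :=
    continuousOn_const.mul (cdk2.norm.pow 2)
  have c56 := c5.fun_add c6
  have c46 := c4.fun_add c56
  have c36 := c3.fun_add c46
  have c26 := c2.fun_add c36
  have h5 : LR (fun z => ‖dz G z * k z + G z * deriv k z‖) ≤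
      LR (fun z => 1 / 2 * (‖dz G z‖ * ‖k1 z‖ ^ 2) + (1 / 2 * (‖dz G z‖ * ‖k2 z‖ ^ 2) +
        (1 / (4 * M) * (‖G z‖ ^ 2 * ‖k2 z‖ ^ 2) + (M * ‖deriv k1 z‖ ^ 2 +
        (1 / (4 * M) * (‖G z‖ ^ 2 * ‖k1 z‖ ^ 2) + M * ‖deriv k2 z‖ ^ 2))))) := by
    refine we_LR_mono cF.norm (c1.fun_add c26) ?_
    intro z hz
    refine we_pointwise hM (norm_nonneg _) ?_
    have hz' := ball_subset_closedBall hz
    have h6 : k =ᶠ[𝓝 z] fun z => k1 z * k2 z := by
      filter_upwards [isOpen_ball.mem_nhds hz] with w hw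
      exact hkk w (ball_subset_closedBall hw)
    have h7 : deriv k z = deriv k1 z * k2 z + k1 z * deriv k2 z := by
      rw [h6.deriv_eq]
      exact ((hk1a z hz').differentiableAt.hasDerivAt.mul
        (hk2a z hz').differentiableAt.hasDerivAt).deriv
    rw [h7, hkk z hz']
    refine (norm_add_le _ _).trans ?_
    rw [norm_mul, norm_mul, norm_mul]
    refine add_le_add le_rfl (mul_le_mul_of_nonneg_left ?_ (norm_nonneg _))
    refine (norm_add_le _ _).trans ?_
    rw [norm_mul, norm_mul]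
  have hA1 : Real.circleAverage (fun z => ‖k1 z‖ ^ 2) 0 1 =
      Real.circleAverage (fun z => ‖k z‖) 0 1 := by
    refine Real.circleAverage_congr_sphere ?_
    intro z hz
    rw [abs_one] at hz
    exact hn1 z hz
  have hA2 : Real.circleAverage (fun z => ‖k2 z‖ ^ 2) 0 1 =
      Real.circleAverage (fun z => ‖k z‖) 0 1 := by
    refine Real.circleAverage_congr_sphere ?_
    intro z hz
    rw [abs_one] at hz
    exact hn2 z hz
  rw [we_LR_add c1 c26, we_LR_add c2 c36, we_LR_add c3 c46,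
    we_LR_add c4 c56, we_LR_add c5 c6, we_LR_smul, we_LR_smul, we_LR_smul, we_LR_smul,
    we_LR_smul, we_LR_smul] at h5
  have e1 := h2 k1 hk1a
  have e2 := h2 k2 hk2a
  have e3 := h1 k2 hk2a
  have e4 := littlewood_paley hk1a
  have e5 := h1 k1 hk1a
  have e6 := littlewood_paley hk2a
  rw [hA1] at e1 e4 e5
  rw [hA2] at e2 e3 e6
  set A := Real.circleAverage (fun z => ‖k z‖) 0 1 with hA
  have e4' : LR (fun z => ‖deriv k1 z‖ ^ 2) ≤ A / 4 := by
    rw [e4]
    nlinarith [sq_nonneg ‖k1 0‖]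
  have e6' : LR (fun z => ‖deriv k2 z‖ ^ 2) ≤ A / 4 := by
    rw [e6]
    nlinarith [sq_nonneg ‖k2 0‖]
  have hLL := we_norm_LL_le cF
  rw [h3, norm_mul]
  have hn4 : ‖(4:ℂ)‖ = 4 := by norm_num
  rw [hn4]
  have f3 : 1 / (4 * M) * LR (fun z => ‖G z‖ ^ 2 * ‖k2 z‖ ^ 2) ≤ M * A / 4 := by
    have : 1 / (4 * M) * LR (fun z => ‖G z‖ ^ 2 * ‖k2 z‖ ^ 2) ≤ 1 / (4 * M) * (M ^ 2 * A) :=
      mul_le_mul_of_nonneg_left e3 (by positivity)
    refine this.trans (le_of_eq ?_)
    field_simp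
  have f5 : 1 / (4 * M) * LR (fun z => ‖G z‖ ^ 2 * ‖k1 z‖ ^ 2) ≤ M * A / 4 := by
    have : 1 / (4 * M) * LR (fun z => ‖G z‖ ^ 2 * ‖k1 z‖ ^ 2) ≤ 1 / (4 * M) * (M ^ 2 * A) :=
      mul_le_mul_of_nonneg_left e5 (by positivity)
    refine this.trans (le_of_eq ?_)
    field_simp
  have f4 : M * LR (fun z => ‖deriv k1 z‖ ^ 2) ≤ M * (A / 4) := mul_le_mul_of_nonneg_left e4' hM.le
  have f6 : M * LR (fun z => ‖deriv k2 z‖ ^ 2) ≤ M * (A / 4) := mul_le_mul_of_nonneg_left e6' hM.le
  nlinarith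

/-- F5: the basic estimate in Wolff's proof -/
theorem wolff_est {G b0 : ℂ → ℂ} (hG : ContDiff ℝ 2 G) {M : ℝ} (hM : 0 ≤ M)
    (h1 : ∀ h : ℂ → ℂ, AnalyticOnNhd ℂ h (closedBall 0 1) →
      LR (fun z => ‖G z‖ ^ 2 * ‖h z‖ ^ 2) ≤ M ^ 2 * Real.circleAverage (fun z => ‖h z‖ ^ 2) 0 1)
    (h2 : ∀ h : ℂ → ℂ, AnalyticOnNhd ℂ h (closedBall 0 1) →
      LR (fun z => ‖dz G z‖ * ‖h z‖ ^ 2) ≤ M ^ 2 * Real.circleAverage (fun z => ‖h z‖ ^ 2) 0 1)
    (hb : ContDiff ℝ 2 b0) (hd : ∀ z, dzb b0 z = G z) {k : ℂ → ℂ}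
    (hk : AnalyticOnNhd ℂ k (closedBall 0 1)) (hk0 : k 0 = 0)
    (hk1 : ∀ z ∈ sphere (0:ℂ) 1, k z ≠ 0) :
    ‖Real.circleAverage (fun z => b0 z * k z) 0 1‖ ≤
      4 * (M ^ 2 + M) * Real.circleAverage (fun z => ‖k z‖) 0 1 := by
  set A := Real.circleAverage (fun z => ‖k z‖) 0 1 with hA
  have ht : Tendsto (fun ε : ℝ => 4 * ((M + ε) ^ 2 + (M + ε)) * A) (𝓝[>] 0)
      (𝓝 (4 * (M ^ 2 + M) * A)) := by
    have hc : Continuous (fun ε : ℝ => 4 * ((M + ε) ^ 2 + (M + ε)) * A) := by fun_prop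
    have := hc.tendsto 0
    simp only [add_zero] at this
    exact this.mono_left nhdsWithin_le_nhds
  refine ge_of_tendsto ht ?_
  filter_upwards [self_mem_nhdsWithin] with ε hε
  have hε' : 0 < ε := hε
  have hmon : ∀ h : ℂ → ℂ, M ^ 2 * Real.circleAverage (fun z => ‖h z‖ ^ 2) 0 1 ≤
      (M + ε) ^ 2 * Real.circleAverage (fun z => ‖h z‖ ^ 2) 0 1 := by
    intro h
    refine mul_le_mul_of_nonneg_right ?_
      (Real.circleAverage_nonneg_of_nonneg (fun z _ => by positivity))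
    exact pow_le_pow_left₀ hM (by linarith) 2
  exact we_main hG (by linarith) (fun h hh => (h1 h hh).trans (hmon h))
    (fun h hh => (h2 h hh).trans (hmon h)) hb hd hk hk0 hk1

end Pool.Agent.H14.GP
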