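import Pool.Agent.H14.GP.Defs2
import Pool.Agent.H14.GP.WolffEst
import Pool.Agent.H14.GP.Dbar
import Pool.Agent.H14.GP.Duality

set_option autoImplicit false

open Complex Metric Set Filter Topology ComplexConjugate MeasureTheory

namespace Pool.Agent.H14.GP

/-- F5 + F6, Wolff's theorem -/
theorem wolff {G : ℂ → ℂ} (hG : ContDiff ℝ 2 G) (hc : HasCompactSupport G) {M : ℝ} (hM : 0 ≤ M)
    (h1 : ∀ h : ℂ → ℂ, AnalyticOnNhd ℂ h (closedBall 0 1) →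
      LR (fun z => ‖G z‖ ^ 2 * ‖h z‖ ^ 2) ≤ M ^ 2 * Real.circleAverage (fun z => ‖h z‖ ^ 2) 0 1)
    (h2 : ∀ h : ℂ → ℂ, AnalyticOnNhd ℂ h (closedBall 0 1) →
      LR (fun z => ‖dz G z‖ * ‖h z‖ ^ 2) ≤ M ^ 2 * Real.circleAverage (fun z => ‖h z‖ ^ 2) 0 1) :
    ∃ b : ℂ → ℂ, ContDiff ℝ 2 b ∧ (∀ z, dzb b z = G z) ∧
      ∀ z ∈ sphere (0:ℂ) 1, ‖b z‖ ≤ 4 * (M ^ 2 + M) + 1 := by
  obtain ⟨b0, hb0, hd⟩ := exists_dbar hG hc
  obtain ⟨p, hp⟩ := duality hb0.continuous (c := 4 * (M ^ 2 + M)) (by positivity)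
    (fun k hk hk0 hk1 => wolff_est hG hM h1 h2 hb0 hd hk hk0 hk1)
  have hpd : ∀ z, HasDerivAt (fun z => p.eval z) (p.derivative.eval z) z := fun z => p.hasDerivAt z
  refine ⟨fun z => b0 z - p.eval z, ?_, ?_, hp⟩
  · have : ContDiff ℂ 2 (fun z : ℂ => p.eval z) := by
      have := p.contDiff_aeval (𝕜 := ℂ) (n := 2)
      simpa [Polynomial.aeval_def] using this
    exact hb0.sub (this.restrict_scalars ℝ)
  · intro z
    have hb : DifferentiableAt ℝ b0 z := hb0.differentiable (by norm_num) z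
    have hq : HasFDerivAt (fun z : ℂ => p.eval z) _ z := (hpd z).hasFDerivAt.restrictScalars ℝ
    have h3 := (hb.hasFDerivAt.sub hq).fderiv
    have h4 : fderiv ℝ (fun z => b0 z - p.eval z) z = _ := h3
    have h5 := hd z
    unfold dzb at h5 ⊢
    rw [h4, ← h5]
    simp
    ring_nf
    simp

end Pool.Agent.H14.GP
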