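import Pool.Agent.H14.GP.Defs2
import Pool.Agent.H14.GP.Green
import Pool.Agent.H14.GP.LP
import Pool.Agent.H14.GP.Wolff

set_option autoImplicit false

open Complex Metric Set Filter Topology ComplexConjugate MeasureTheory

namespace Pool.Agent.H14.GP

namespace CorS

/-! ### Wirtinger calculus -/

/-- real-linear map `v ↦ a v + b conj v` -/
noncomputable def WL (a b : ℂ) : ℂ →L[ℝ] ℂ :=
  a • ContinuousLinearMap.id ℝ ℂ + b • (Complex.conjCLE : ℂ →L[ℝ] ℂ)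

lemma WL_apply (a b v : ℂ) : WL a b v = a * v + b * conj v := by
  simp [WL]

/-- `u` has Wirtinger derivatives `a = ∂u`, `b = ∂̄u` at `z`. -/
def HW (u : ℂ → ℂ) (a b z : ℂ) : Prop := HasFDerivAt u (WL a b) z

lemma HW.dz {u : ℂ → ℂ} {a b z : ℂ} (h : HW u a b z) : dz u z = a := by
  unfold HW at h
  unfold GP.dz
  rw [h.fderiv, WL_apply, WL_apply]
  simp
  ring_nf
  simp
  ring

lemma HW.dzb {u : ℂ → ℂ} {a b z : ℂ} (h : HW u a b z) : dzb u z = b := by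
  unfold HW at h
  unfold GP.dzb
  rw [h.fderiv, WL_apply, WL_apply]
  simp
  ring_nf
  simp
  ring

lemma HW.congr {u : ℂ → ℂ} {a b z a' b' : ℂ} (h : HW u a b z) (ha : a = a') (hb : b = b') :
    HW u a' b' z := by
  rw [← ha, ← hb]; exact h

lemma HW.add {u w : ℂ → ℂ} {a b c d z : ℂ} (hu : HW u a b z) (hw : HW w c d z) :
    HW (fun z => u z + w z) (a + c) (b + d) z := by
  have : WL (a + c) (b + d) = WL a b + WL c d := by
    ext v
    all_goals simp [WL_apply]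
    all_goals ring
  unfold HW
  rw [this]
  exact HasFDerivAt.add hu hw

lemma HW.sub {u w : ℂ → ℂ} {a b c d z : ℂ} (hu : HW u a b z) (hw : HW w c d z) :
    HW (fun z => u z - w z) (a - c) (b - d) z := by
  have : WL (a - c) (b - d) = WL a b - WL c d := by
    ext v
    all_goals simp [WL_apply]
    all_goals ring
  unfold HW
  rw [this]
  exact HasFDerivAt.sub hu hw

lemma HW.mul {u w : ℂ → ℂ} {a b c d z : ℂ} (hu : HW u a b z) (hw : HW w c d z) :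
    HW (fun z => u z * w z) (a * w z + u z * c) (b * w z + u z * d) z := by
  have : WL (a * w z + u z * c) (b * w z + u z * d) = u z • WL c d + w z • WL a b := by
    ext v
    all_goals simp [WL_apply]
    all_goals ring
  unfold HW
  rw [this]
  exact HasFDerivAt.mul hu hw

lemma HW.conj {u : ℂ → ℂ} {a b z : ℂ} (hu : HW u a b z) :
    HW (fun z => conj (u z)) (conj b) (conj a) z := by
  have : WL (conj b) (conj a) = (Complex.conjCLE : ℂ →L[ℝ] ℂ).comp (WL a b) := by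
    ext v
    all_goals simp [WL_apply]
    all_goals ring
  unfold HW
  rw [this]
  exact (Complex.conjCLE : ℂ →L[ℝ] ℂ).hasFDerivAt.comp z hu

lemma HW.inv {u : ℂ → ℂ} {a b z : ℂ} (hu : HW u a b z) (h0 : u z ≠ 0) :
    HW (fun z => (u z)⁻¹) (-(u z ^ 2)⁻¹ * a) (-(u z ^ 2)⁻¹ * b) z := by
  have : WL (-(u z ^ 2)⁻¹ * a) (-(u z ^ 2)⁻¹ * b) = (-(u z ^ 2)⁻¹) • WL a b := by
    ext v
    all_goals simp [WL_apply]
    all_goals ring
  unfold HW
  rw [this]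
  exact (hasDerivAt_inv h0).comp_hasFDerivAt z hu

lemma HW.of_hasDerivAt {f : ℂ → ℂ} {a z : ℂ} (h : HasDerivAt f a z) : HW f a 0 z := by
  refine (h.hasFDerivAt.restrictScalars ℝ).congr_fderiv ?_
  ext v
  simp [WL_apply]
  ring

lemma HW.sum {n : ℕ} {u : Fin n → ℂ → ℂ} {a b : Fin n → ℂ} {z : ℂ}
    (h : ∀ i, HW (u i) (a i) (b i) z) :
    HW (fun z => ∑ i, u i z) (∑ i, a i) (∑ i, b i) z := by
  have : WL (∑ i, a i) (∑ i, b i) = ∑ i, WL (a i) (b i) := by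
    ext v
    all_goals simp [WL_apply, _root_.sum_apply, Finset.sum_add_distrib,
      Finset.sum_mul]
  unfold HW
  rw [this]
  exact HasFDerivAt.fun_sum fun i _ => h i

lemma HW.congr_of_eventuallyEq {u w : ℂ → ℂ} {a b z : ℂ} (h : HW u a b z) (he : w =ᶠ[𝓝 z] u) :
    HW w a b z := HasFDerivAt.congr_of_eventuallyEq h he

lemma HW.of_contDiff {u : ℂ → ℂ} (hu : ContDiff ℝ 2 u) (z : ℂ) :
    HW u (GP.dz u z) (GP.dzb u z) z := by
  have h := (hu.differentiable (by norm_num) z).hasFDerivAt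
  refine h.congr_fderiv ?_
  refine ContinuousLinearMap.ext fun v => ?_
  have hv : v = v.re • (1:ℂ) + v.im • I := by apply Complex.ext <;> simp
  rw [WL_apply]
  unfold GP.dz GP.dzb
  have h1 : fderiv ℝ u z v = v.re * fderiv ℝ u z 1 + v.im * fderiv ℝ u z I := by
    conv_lhs => rw [hv, map_add, map_smul, map_smul]
    simp
  rw [h1]
  have h2 : v = v.re + v.im * I := by apply Complex.ext <;> simp
  have h3 : conj v = v.re - v.im * I := by apply Complex.ext <;> simp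
  rw [h3]
  linear_combination -(fderiv ℝ u z 1 - I * fderiv ℝ u z I) / 2 * h2 +
    fderiv ℝ u z I * v.im * I_sq

/-! ### properties of `LR` -/

lemma circAv_cont {F : ℂ → ℝ} (hF : ContinuousOn F (closedBall 0 1)) :
    ContinuousOn (fun r : ℝ => Real.circleAverage F 0 r) (Icc 0 1) := by
  set P : ℂ → ℂ := fun z => z / ((max 1 ‖z‖ : ℝ) : ℂ) with hP
  have hPc : Continuous P := by
    refine continuous_id.div (by fun_prop) ?_
    intro z
    have : (0:ℝ) < max 1 ‖z‖ := lt_of_lt_of_le one_pos (le_max_left _ _)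
    exact_mod_cast this.ne'
  have hPm : ∀ z, P z ∈ closedBall (0:ℂ) 1 := by
    intro z
    have h0 : (0:ℝ) < max 1 ‖z‖ := lt_of_lt_of_le one_pos (le_max_left _ _)
    rw [mem_closedBall_zero_iff, hP]
    simp only
    rw [norm_div, Complex.norm_real, Real.norm_of_nonneg h0.le, div_le_one h0]
    exact le_max_right _ _
  have hPe : ∀ z ∈ closedBall (0:ℂ) 1, P z = z := by
    intro z hz
    rw [mem_closedBall_zero_iff] at hz
    simp [hP, max_eq_left hz]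
  have hFP : Continuous (fun z => F (P z)) := hF.comp_continuous hPc hPm
  have h1 : Continuous (fun r : ℝ => Real.circleAverage (fun z => F (P z)) 0 r) := by
    unfold Real.circleAverage
    refine (continuous_const : Continuous fun _ : ℝ => (2 * Real.pi)⁻¹).smul ?_
    refine intervalIntegral.continuous_parametric_intervalIntegral_of_continuous' ?_ _ _
    refine hFP.comp ?_
    unfold circleMap
    fun_prop
  refine h1.continuousOn.congr ?_
  intro r hr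
  simp only
  unfold Real.circleAverage
  congr 1
  refine intervalIntegral.integral_congr ?_
  intro θ _
  simp only
  rw [hPe]
  rw [mem_closedBall_zero_iff]
  simp [abs_of_nonneg hr.1, hr.2]

lemma wt_cont : Continuous (fun r : ℝ => r * Real.log (1 / r)) := by
  have : (fun r : ℝ => r * Real.log (1 / r)) = fun r => -(r * Real.log r) := by
    ext r
    rw [one_div, Real.log_inv]
    ring
  rw [this]
  exact Real.continuous_mul_log.neg

lemma wt_nonneg {r : ℝ} (h0 : 0 ≤ r) (h1 : r ≤ 1) : 0 ≤ r * Real.log (1 / r) := by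
  rcases h0.eq_or_lt with h | h
  · rw [← h]; simp
  · refine mul_nonneg h0 (Real.log_nonneg ?_)
    rw [le_div_iff₀ h]; linarith

lemma LR_intble {F : ℂ → ℝ} (hF : ContinuousOn F (closedBall 0 1)) :
    IntervalIntegrable (fun r : ℝ => (r * Real.log (1 / r)) * Real.circleAverage F 0 r)
      volume 0 1 := by
  apply ContinuousOn.intervalIntegrable
  rw [uIcc_of_le zero_le_one]
  exact wt_cont.continuousOn.mul (circAv_cont hF)

lemma circ_mem {r θ : ℝ} (h0 : 0 ≤ r) (h1 : r ≤ 1) : circleMap 0 r θ ∈ closedBall (0:ℂ) 1 := by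
  rw [mem_closedBall_zero_iff]
  simp [abs_of_nonneg h0, h1]

lemma circ_intble {F : ℂ → ℝ} (hF : ContinuousOn F (closedBall 0 1)) {r : ℝ} (h0 : 0 ≤ r)
    (h1 : r ≤ 1) : CircleIntegrable F 0 r := by
  apply ContinuousOn.circleIntegrable h0
  refine hF.mono ?_
  intro z hz
  rw [mem_sphere_zero_iff_norm] at hz
  rw [mem_closedBall_zero_iff, hz]
  exact h1

lemma LR_mono {F H : ℂ → ℝ} (hF : ContinuousOn F (closedBall 0 1))
    (hH : ContinuousOn H (closedBall 0 1)) (h : ∀ z ∈ closedBall (0:ℂ) 1, F z ≤ H z) :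
    LR F ≤ LR H := by
  unfold LR
  refine intervalIntegral.integral_mono_on zero_le_one (LR_intble hF) (LR_intble hH) ?_
  intro r hr
  refine mul_le_mul_of_nonneg_left ?_ (wt_nonneg hr.1 hr.2)
  refine Real.circleAverage_mono (circ_intble hF hr.1 hr.2) (circ_intble hH hr.1 hr.2) ?_
  intro z hz
  apply h
  rw [abs_of_nonneg hr.1, mem_sphere_zero_iff_norm] at hz
  rw [mem_closedBall_zero_iff, hz]
  exact hr.2

lemma LR_const_mul (c : ℝ) (F : ℂ → ℝ) : LR (fun z => c * F z) = c * LR F := by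
  unfold LR
  rw [← intervalIntegral.integral_const_mul]
  congr 1
  ext r
  have : Real.circleAverage (fun z => c * F z) 0 r = c * Real.circleAverage F 0 r := by
    unfold Real.circleAverage
    rw [intervalIntegral.integral_const_mul]
    simp only [smul_eq_mul]
    ring
  rw [this]
  ring

lemma LR_sum {n : ℕ} {F : Fin n → ℂ → ℝ} (hF : ∀ i, ContinuousOn (F i) (closedBall 0 1)) :
    LR (fun z => ∑ i, F i z) = ∑ i, LR (F i) := by
  unfold LR
  rw [← intervalIntegral.integral_finsetSum (fun i _ => LR_intble (hF i))]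
  refine intervalIntegral.integral_congr ?_
  intro r hr
  rw [uIcc_of_le zero_le_one] at hr
  simp only
  rw [← Finset.mul_sum]
  congr 1
  unfold Real.circleAverage
  rw [intervalIntegral.integral_finsetSum]
  · rw [Finset.smul_sum]
  · intro i _
    exact circ_intble (hF i) hr.1 hr.2

/-! ### algebra of the corona data at a point -/

section alg

variable {n : ℕ}

/-- `S = ∑ |f_i|^2` -/
def SS (f : Fin n → ℂ) : ℂ := ∑ i, f i * conj (f i)

/-- `∂S` -/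
def S1 (f f' : Fin n → ℂ) : ℂ := ∑ i, f' i * conj (f i)

/-- `∂̄S` -/
def S2 (f f' : Fin n → ℂ) : ℂ := ∑ i, f i * conj (f' i)

/-- numerator of `∂̄φ_k` -/
def QQ (f f' : Fin n → ℂ) (k : Fin n) : ℂ :=
  ∑ i, f i * (conj (f' k) * conj (f i) - conj (f k) * conj (f' i))

/-- `∂` of the numerator of `∂̄φ_k` -/
def Q1 (f f' : Fin n → ℂ) (k : Fin n) : ℂ :=
  ∑ i, f' i * (conj (f' k) * conj (f i) - conj (f k) * conj (f' i))

lemma QQ_eq (f f' : Fin n → ℂ) (k : Fin n) :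
    QQ f f' k = conj (f' k) * SS f - conj (f k) * S2 f f' := by
  unfold QQ SS S2
  rw [Finset.mul_sum, Finset.mul_sum, ← Finset.sum_sub_distrib]
  refine Finset.sum_congr rfl fun i _ => ?_
  ring

lemma sum_QQ (f f' : Fin n → ℂ) : ∑ k, f k * QQ f f' k = 0 := by
  simp only [QQ_eq, mul_sub, Finset.sum_sub_distrib]
  have e1 : ∑ k, f k * (conj (f' k) * SS f) = S2 f f' * SS f := by
    unfold S2
    rw [Finset.sum_mul]
    refine Finset.sum_congr rfl fun i _ => ?_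
    ring
  have e2 : ∑ k, f k * (conj (f k) * S2 f f') = SS f * S2 f f' := by
    conv_rhs => unfold SS
    rw [Finset.sum_mul]
    refine Finset.sum_congr rfl fun i _ => ?_
    ring
  rw [e1, e2]
  ring

lemma SS_real (f : Fin n → ℂ) : SS f = ((∑ i, ‖f i‖ ^ 2 : ℝ) : ℂ) := by
  unfold SS
  rw [Complex.ofReal_sum]
  refine Finset.sum_congr rfl fun i _ => ?_
  rw [Complex.mul_conj, Complex.normSq_eq_norm_sq]

lemma le_norm_SS {f : Fin n → ℂ} {δ : ℝ} (hδ : 0 < δ) (h : ∃ i, δ ≤ ‖f i‖) :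
    δ ^ 2 ≤ ‖SS f‖ := by
  obtain ⟨i, hi⟩ := h
  rw [SS_real, Complex.norm_real, Real.norm_of_nonneg (Finset.sum_nonneg fun i _ => by positivity)]
  calc δ ^ 2 ≤ ‖f i‖ ^ 2 := by gcongr
    _ ≤ ∑ i, ‖f i‖ ^ 2 := Finset.single_le_sum (f := fun i => ‖f i‖ ^ 2)
        (fun i _ => by positivity) (Finset.mem_univ i)

/-- `∑ |f'_i|` -/
noncomputable def EE (f' : Fin n → ℂ) : ℝ := ∑ i, ‖f' i‖

lemma EE_nonneg (f' : Fin n → ℂ) : 0 ≤ EE f' := Finset.sum_nonneg fun i _ => norm_nonneg _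

lemma le_EE (f' : Fin n → ℂ) (k : Fin n) : ‖f' k‖ ≤ EE f' :=
  Finset.single_le_sum (f := fun i => ‖f' i‖) (fun i _ => norm_nonneg _) (Finset.mem_univ k)

lemma EE_sq (f' : Fin n → ℂ) : EE f' ^ 2 ≤ n * ∑ i, ‖f' i‖ ^ 2 := by
  have := sq_sum_le_card_mul_sum_sq (s := (Finset.univ : Finset (Fin n))) (f := fun i => ‖f' i‖)
  simpa [EE] using this

lemma norm_S1 {f : Fin n → ℂ} (hf : ∀ i, ‖f i‖ ≤ 1) (f' : Fin n → ℂ) : ‖S1 f f'‖ ≤ EE f' := by
  unfold S1 EE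
  refine (norm_sum_le _ _).trans (Finset.sum_le_sum fun i _ => ?_)
  rw [norm_mul, RCLike.norm_conj]
  exact mul_le_of_le_one_right (norm_nonneg _) (hf i)

lemma norm_S2 {f : Fin n → ℂ} (hf : ∀ i, ‖f i‖ ≤ 1) (f' : Fin n → ℂ) : ‖S2 f f'‖ ≤ EE f' := by
  unfold S2 EE
  refine (norm_sum_le _ _).trans (Finset.sum_le_sum fun i _ => ?_)
  rw [norm_mul, RCLike.norm_conj]
  exact mul_le_of_le_one_left (norm_nonneg _) (hf i)

lemma norm_br {f : Fin n → ℂ} (hf : ∀ i, ‖f i‖ ≤ 1) (f' : Fin n → ℂ) (k i : Fin n) :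
    ‖conj (f' k) * conj (f i) - conj (f k) * conj (f' i)‖ ≤ 2 * EE f' := by
  refine (norm_sub_le _ _).trans ?_
  rw [norm_mul, norm_mul, RCLike.norm_conj, RCLike.norm_conj, RCLike.norm_conj, RCLike.norm_conj]
  have h1 : ‖f' k‖ * ‖f i‖ ≤ EE f' :=
    (mul_le_of_le_one_right (norm_nonneg _) (hf i)).trans (le_EE f' k)
  have h2 : ‖f k‖ * ‖f' i‖ ≤ EE f' :=
    (mul_le_of_le_one_left (norm_nonneg _) (hf k)).trans (le_EE f' i)
  linarith

lemma norm_QQ {f : Fin n → ℂ} (hf : ∀ i, ‖f i‖ ≤ 1) (f' : Fin n → ℂ) (k : Fin n) :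
    ‖QQ f f' k‖ ≤ n * (2 * EE f') := by
  unfold QQ
  refine (norm_sum_le _ _).trans ?_
  calc ∑ i, ‖f i * (conj (f' k) * conj (f i) - conj (f k) * conj (f' i))‖
      ≤ ∑ _i : Fin n, 2 * EE f' := by
        refine Finset.sum_le_sum fun i _ => ?_
        rw [norm_mul]
        have := norm_br hf f' k i
        calc _ ≤ 1 * (2 * EE f') := by
              gcongr
              exact hf i
          _ = _ := one_mul _
    _ = n * (2 * EE f') := by simp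

lemma norm_Q1 {f : Fin n → ℂ} (hf : ∀ i, ‖f i‖ ≤ 1) (f' : Fin n → ℂ) (k : Fin n) :
    ‖Q1 f f' k‖ ≤ 2 * EE f' ^ 2 := by
  unfold Q1
  refine (norm_sum_le _ _).trans ?_
  calc ∑ i, ‖f' i * (conj (f' k) * conj (f i) - conj (f k) * conj (f' i))‖
      ≤ ∑ i : Fin n, ‖f' i‖ * (2 * EE f') := by
        refine Finset.sum_le_sum fun i _ => ?_
        rw [norm_mul]
        exact mul_le_mul_of_nonneg_left (norm_br hf f' k i) (norm_nonneg _)
    _ = 2 * EE f' ^ 2 := by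
        rw [← Finset.sum_mul]
        unfold EE
        ring

lemma norm_inv_SS {f : Fin n → ℂ} {δ : ℝ} (hδ : 0 < δ) (h : ∃ i, δ ≤ ‖f i‖) :
    ‖(SS f)⁻¹‖ ≤ (δ ^ 2)⁻¹ := by
  rw [norm_inv]
  exact inv_anti₀ (by positivity) (le_norm_SS hδ h)

/-- `φ_j` -/
noncomputable def PH (f : Fin n → ℂ) (j : Fin n) : ℂ := conj (f j) * (SS f)⁻¹

/-- `∂̄φ_k` -/
noncomputable def PS (f f' : Fin n → ℂ) (k : Fin n) : ℂ := (SS f)⁻¹ * (SS f)⁻¹ * QQ f f' k

/-- `∂φ_k` -/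
noncomputable def PH1 (f f' : Fin n → ℂ) (k : Fin n) : ℂ :=
  conj (f k) * (-(SS f ^ 2)⁻¹ * S1 f f')

/-- `∂∂̄φ_k` -/
noncomputable def PS1 (f f' : Fin n → ℂ) (k : Fin n) : ℂ :=
  (-(SS f ^ 2)⁻¹ * S1 f f' * (SS f)⁻¹ + (SS f)⁻¹ * (-(SS f ^ 2)⁻¹ * S1 f f')) * QQ f f' k +
    (SS f)⁻¹ * (SS f)⁻¹ * Q1 f f' k

/-- the constant -/
noncomputable def KK (n : ℕ) (δ : ℝ) : ℝ :=
  ((δ ^ 2)⁻¹ * ((δ ^ 2)⁻¹ * (δ ^ 2)⁻¹ * (n * 2))) ^ 2 * n +
    ((δ ^ 2)⁻¹ * (δ ^ 2)⁻¹ * ((δ ^ 2)⁻¹ * (δ ^ 2)⁻¹ * (n * 2)) +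
      (δ ^ 2)⁻¹ * ((2 * ((δ ^ 2)⁻¹ * (δ ^ 2)⁻¹ * (δ ^ 2)⁻¹)) * (n * 2) +
        (δ ^ 2)⁻¹ * (δ ^ 2)⁻¹ * 2)) * n

lemma KK_nonneg (n : ℕ) (δ : ℝ) : 0 ≤ KK n δ := by
  unfold KK
  positivity

lemma norm_PH {f : Fin n → ℂ} (hf : ∀ i, ‖f i‖ ≤ 1) {δ : ℝ} (hδ : 0 < δ) (h : ∃ i, δ ≤ ‖f i‖)
    (j : Fin n) : ‖PH f j‖ ≤ (δ ^ 2)⁻¹ := by
  unfold PH
  rw [norm_mul, RCLike.norm_conj]
  calc _ ≤ 1 * (δ ^ 2)⁻¹ := by
        gcongr
        · exact hf j
        · exact norm_inv_SS hδ h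
    _ = _ := one_mul _

lemma norm_PS {f : Fin n → ℂ} (hf : ∀ i, ‖f i‖ ≤ 1) {δ : ℝ} (hδ : 0 < δ) (h : ∃ i, δ ≤ ‖f i‖)
    (f' : Fin n → ℂ) (k : Fin n) :
    ‖PS f f' k‖ ≤ (δ ^ 2)⁻¹ * (δ ^ 2)⁻¹ * (n * 2) * EE f' := by
  unfold PS
  rw [norm_mul, norm_mul]
  have h1 := norm_inv_SS hδ h
  have h2 := norm_QQ hf f' k
  calc _ ≤ (δ ^ 2)⁻¹ * (δ ^ 2)⁻¹ * (n * (2 * EE f')) := by gcongr
    _ = _ := by ring

lemma norm_PH1 {f : Fin n → ℂ} (hf : ∀ i, ‖f i‖ ≤ 1) {δ : ℝ} (hδ : 0 < δ) (h : ∃ i, δ ≤ ‖f i‖)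
    (f' : Fin n → ℂ) (k : Fin n) :
    ‖PH1 f f' k‖ ≤ (δ ^ 2)⁻¹ * (δ ^ 2)⁻¹ * EE f' := by
  unfold PH1
  have h1 := norm_inv_SS hδ h
  have h2 := norm_S1 hf f'
  rw [norm_mul, RCLike.norm_conj, norm_mul, norm_neg, ← inv_pow, norm_pow]
  calc _ ≤ 1 * (((δ ^ 2)⁻¹) ^ 2 * EE f') := by
        gcongr
        exact hf k
    _ = _ := by ring

lemma norm_PS1 {f : Fin n → ℂ} (hf : ∀ i, ‖f i‖ ≤ 1) {δ : ℝ} (hδ : 0 < δ) (h : ∃ i, δ ≤ ‖f i‖)
    (f' : Fin n → ℂ) (k : Fin n) :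
    ‖PS1 f f' k‖ ≤ ((2 * ((δ ^ 2)⁻¹ * (δ ^ 2)⁻¹ * (δ ^ 2)⁻¹)) * (n * 2) +
        (δ ^ 2)⁻¹ * (δ ^ 2)⁻¹ * 2) * EE f' ^ 2 := by
  unfold PS1
  have h1 := norm_inv_SS hδ h
  have h2 := norm_S1 hf f'
  have h3 := norm_QQ hf f' k
  have h4 := norm_Q1 hf f' k
  have e : (-(SS f ^ 2)⁻¹ * S1 f f' * (SS f)⁻¹ + (SS f)⁻¹ * (-(SS f ^ 2)⁻¹ * S1 f f')) =
      -2 * ((SS f)⁻¹ * (SS f)⁻¹ * (SS f)⁻¹ * S1 f f') := by
    rw [sq, mul_inv]
    ring
  rw [e]
  refine (norm_add_le _ _).trans ?_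
  have hE := EE_nonneg f'
  have g1 : ‖-2 * ((SS f)⁻¹ * (SS f)⁻¹ * (SS f)⁻¹ * S1 f f') * QQ f f' k‖ ≤
      2 * ((δ ^ 2)⁻¹ * (δ ^ 2)⁻¹ * (δ ^ 2)⁻¹ * EE f') * (n * (2 * EE f')) := by
    rw [norm_mul, norm_mul, norm_mul, norm_mul, norm_mul, norm_neg]
    have : ‖(2:ℂ)‖ = 2 := by simp
    rw [this]
    gcongr
  have g2 : ‖(SS f)⁻¹ * (SS f)⁻¹ * Q1 f f' k‖ ≤ (δ ^ 2)⁻¹ * (δ ^ 2)⁻¹ * (2 * EE f' ^ 2) := by
    rw [norm_mul, norm_mul]
    gcongr
  calc _ ≤ _ := add_le_add g1 g2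
    _ = _ := by ring

lemma bound_G {f : Fin n → ℂ} (hf : ∀ i, ‖f i‖ ≤ 1) {δ : ℝ} (hδ : 0 < δ) (h : ∃ i, δ ≤ ‖f i‖)
    (f' : Fin n → ℂ) (j k : Fin n) :
    ‖PH f j * PS f f' k‖ ^ 2 ≤ KK n δ * ∑ i, ‖f' i‖ ^ 2 := by
  have h1 := norm_PH hf hδ h j
  have h2 := norm_PS hf hδ h f' k
  have hE := EE_nonneg f'
  have h3 := EE_sq f'
  have h4 : 0 ≤ ∑ i, ‖f' i‖ ^ 2 := Finset.sum_nonneg fun i _ => by positivity
  calc ‖PH f j * PS f f' k‖ ^ 2
      ≤ ((δ ^ 2)⁻¹ * ((δ ^ 2)⁻¹ * (δ ^ 2)⁻¹ * (n * 2) * EE f')) ^ 2 := by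
        rw [norm_mul]
        gcongr
    _ = ((δ ^ 2)⁻¹ * ((δ ^ 2)⁻¹ * (δ ^ 2)⁻¹ * (n * 2))) ^ 2 * EE f' ^ 2 := by ring
    _ ≤ ((δ ^ 2)⁻¹ * ((δ ^ 2)⁻¹ * (δ ^ 2)⁻¹ * (n * 2))) ^ 2 * (n * ∑ i, ‖f' i‖ ^ 2) := by gcongr
    _ = ((δ ^ 2)⁻¹ * ((δ ^ 2)⁻¹ * (δ ^ 2)⁻¹ * (n * 2))) ^ 2 * n * ∑ i, ‖f' i‖ ^ 2 := by ring
    _ ≤ KK n δ * ∑ i, ‖f' i‖ ^ 2 := by
        refine mul_le_mul_of_nonneg_right ?_ h4
        unfold KK
        refine le_add_of_nonneg_right ?_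
        positivity

lemma bound_dG {f : Fin n → ℂ} (hf : ∀ i, ‖f i‖ ≤ 1) {δ : ℝ} (hδ : 0 < δ) (h : ∃ i, δ ≤ ‖f i‖)
    (f' : Fin n → ℂ) (j k : Fin n) :
    ‖PH1 f f' j * PS f f' k + PH f j * PS1 f f' k‖ ≤ KK n δ * ∑ i, ‖f' i‖ ^ 2 := by
  have h1 := norm_PH hf hδ h j
  have h2 := norm_PS hf hδ h f' k
  have h5 := norm_PH1 hf hδ h f' j
  have h6 := norm_PS1 hf hδ h f' k
  have hE := EE_nonneg f'
  have h3 := EE_sq f'
  have h4 : 0 ≤ ∑ i, ‖f' i‖ ^ 2 := Finset.sum_nonneg fun i _ => by positivity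
  calc ‖PH1 f f' j * PS f f' k + PH f j * PS1 f f' k‖
      ≤ ((δ ^ 2)⁻¹ * (δ ^ 2)⁻¹ * EE f') * ((δ ^ 2)⁻¹ * (δ ^ 2)⁻¹ * (n * 2) * EE f') +
        (δ ^ 2)⁻¹ * (((2 * ((δ ^ 2)⁻¹ * (δ ^ 2)⁻¹ * (δ ^ 2)⁻¹)) * (n * 2) +
        (δ ^ 2)⁻¹ * (δ ^ 2)⁻¹ * 2) * EE f' ^ 2) := by
        refine (norm_add_le _ _).trans ?_
        rw [norm_mul, norm_mul]
        gcongr
    _ = ((δ ^ 2)⁻¹ * (δ ^ 2)⁻¹ * ((δ ^ 2)⁻¹ * (δ ^ 2)⁻¹ * (n * 2)) +
      (δ ^ 2)⁻¹ * ((2 * ((δ ^ 2)⁻¹ * (δ ^ 2)⁻¹ * (δ ^ 2)⁻¹)) * (n * 2) +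
        (δ ^ 2)⁻¹ * (δ ^ 2)⁻¹ * 2)) * EE f' ^ 2 := by ring
    _ ≤ ((δ ^ 2)⁻¹ * (δ ^ 2)⁻¹ * ((δ ^ 2)⁻¹ * (δ ^ 2)⁻¹ * (n * 2)) +
      (δ ^ 2)⁻¹ * ((2 * ((δ ^ 2)⁻¹ * (δ ^ 2)⁻¹ * (δ ^ 2)⁻¹)) * (n * 2) +
        (δ ^ 2)⁻¹ * (δ ^ 2)⁻¹ * 2)) * (n * ∑ i, ‖f' i‖ ^ 2) := by gcongr
    _ = ((δ ^ 2)⁻¹ * (δ ^ 2)⁻¹ * ((δ ^ 2)⁻¹ * (δ ^ 2)⁻¹ * (n * 2)) +
      (δ ^ 2)⁻¹ * ((2 * ((δ ^ 2)⁻¹ * (δ ^ 2)⁻¹ * (δ ^ 2)⁻¹)) * (n * 2) +
        (δ ^ 2)⁻¹ * (δ ^ 2)⁻¹ * 2)) * n * ∑ i, ‖f' i‖ ^ 2 := by ring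
    _ ≤ KK n δ * ∑ i, ‖f' i‖ ^ 2 := by
        refine mul_le_mul_of_nonneg_right ?_ h4
        unfold KK
        refine le_add_of_nonneg_left ?_
        positivity

end alg

/-! ### derivatives -/

section der

variable {n : ℕ} {f : Fin n → ℂ → ℂ} {z : ℂ}

lemma hw_f (h : ∀ i, AnalyticAt ℂ (f i) z) (i : Fin n) : HW (f i) (deriv (f i) z) 0 z :=
  HW.of_hasDerivAt (h i).differentiableAt.hasDerivAt

lemma hw_cf (h : ∀ i, AnalyticAt ℂ (f i) z) (i : Fin n) :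
    HW (fun z => conj (f i z)) 0 (conj (deriv (f i) z)) z :=
  (hw_f h i).conj.congr (map_zero _) rfl

lemma hw_f' (h : ∀ i, AnalyticAt ℂ (f i) z) (i : Fin n) :
    HW (deriv (f i)) (deriv (deriv (f i)) z) 0 z :=
  HW.of_hasDerivAt (h i).deriv.differentiableAt.hasDerivAt

lemma hw_cf' (h : ∀ i, AnalyticAt ℂ (f i) z) (i : Fin n) :
    HW (fun z => conj (deriv (f i) z)) 0 (conj (deriv (deriv (f i)) z)) z :=
  (hw_f' h i).conj.congr (map_zero _) rfl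

lemma hw_SS (h : ∀ i, AnalyticAt ℂ (f i) z) :
    HW (fun z => SS (fun i => f i z)) (S1 (fun i => f i z) (fun i => deriv (f i) z))
      (S2 (fun i => f i z) (fun i => deriv (f i) z)) z := by
  unfold SS S1 S2
  refine HW.sum fun i => ?_
  refine ((hw_f h i).mul (hw_cf h i)).congr ?_ ?_
  · ring
  · ring

lemma hw_PH (h : ∀ i, AnalyticAt ℂ (f i) z) (h0 : SS (fun i => f i z) ≠ 0) (j : Fin n) :
    HW (fun z => PH (fun i => f i z) j) (PH1 (fun i => f i z) (fun i => deriv (f i) z) j)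
      (PS (fun i => f i z) (fun i => deriv (f i) z) j) z := by
  unfold PH PH1 PS
  refine ((hw_cf h j).mul ((hw_SS h).inv h0)).congr ?_ ?_
  · ring
  · rw [QQ_eq]
    field_simp
    ring

lemma hw_QQ (h : ∀ i, AnalyticAt ℂ (f i) z) (k : Fin n) :
    ∃ b, HW (fun z => QQ (fun i => f i z) (fun i => deriv (f i) z) k)
      (Q1 (fun i => f i z) (fun i => deriv (f i) z) k) b z := by
  have hi : ∀ i, ∃ b, HW (fun z => f i z * (conj (deriv (f k) z) * conj (f i z) -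
      conj (f k z) * conj (deriv (f i) z)))
      (deriv (f i) z * (conj (deriv (f k) z) * conj (f i z) -
      conj (f k z) * conj (deriv (f i) z))) b z := by
    intro i
    refine ⟨_, ((hw_f h i).mul (((hw_cf' h k).mul (hw_cf h i)).sub
      ((hw_cf h k).mul (hw_cf' h i)))).congr ?_ rfl⟩
    ring
  choose b hb using hi
  exact ⟨_, HW.sum hb⟩

lemma hw_PS (h : ∀ i, AnalyticAt ℂ (f i) z) (h0 : SS (fun i => f i z) ≠ 0) (k : Fin n) :
    ∃ b, HW (fun z => PS (fun i => f i z) (fun i => deriv (f i) z) k)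
      (PS1 (fun i => f i z) (fun i => deriv (f i) z) k) b z := by
  obtain ⟨b, hb⟩ := hw_QQ h k
  have h1 := (hw_SS h).inv h0
  exact ⟨_, (h1.mul h1).mul hb⟩

lemma hw_G (h : ∀ i, AnalyticAt ℂ (f i) z) (h0 : SS (fun i => f i z) ≠ 0) (j k : Fin n) :
    dz (fun z => PH (fun i => f i z) j * PS (fun i => f i z) (fun i => deriv (f i) z) k) z =
      PH1 (fun i => f i z) (fun i => deriv (f i) z) j *
        PS (fun i => f i z) (fun i => deriv (f i) z) k +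
      PH (fun i => f i z) j * PS1 (fun i => f i z) (fun i => deriv (f i) z) k := by
  obtain ⟨b, hb⟩ := hw_PS h h0 k
  exact ((hw_PH h h0 j).mul hb).dz

lemma cd_conj {u : ℂ → ℂ} (hu : ContDiffAt ℝ 2 u z) : ContDiffAt ℝ 2 (fun z => conj (u z)) z :=
  (Complex.conjCLE : ℂ →L[ℝ] ℂ).contDiff.contDiffAt.comp z hu

lemma cd_f (h : ∀ i, AnalyticAt ℂ (f i) z) (i : Fin n) : ContDiffAt ℝ 2 (f i) z :=
  (h i).contDiffAt.restrict_scalars ℝ

lemma cd_f' (h : ∀ i, AnalyticAt ℂ (f i) z) (i : Fin n) : ContDiffAt ℝ 2 (deriv (f i)) z :=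
  (h i).deriv.contDiffAt.restrict_scalars ℝ

lemma cd_SS (h : ∀ i, AnalyticAt ℂ (f i) z) : ContDiffAt ℝ 2 (fun z => SS (fun i => f i z)) z := by
  unfold SS
  refine ContDiffAt.sum fun i _ => ?_
  exact (cd_f h i).mul (cd_conj (cd_f h i))

lemma cd_iSS (h : ∀ i, AnalyticAt ℂ (f i) z) (h0 : SS (fun i => f i z) ≠ 0) :
    ContDiffAt ℝ 2 (fun z => (SS (fun i => f i z))⁻¹) z :=
  ContDiffAt.inv (cd_SS h) h0

lemma cd_PH (h : ∀ i, AnalyticAt ℂ (f i) z) (h0 : SS (fun i => f i z) ≠ 0) (j : Fin n) :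
    ContDiffAt ℝ 2 (fun z => PH (fun i => f i z) j) z :=
  (cd_conj (cd_f h j)).mul (cd_iSS h h0)

lemma cd_QQ (h : ∀ i, AnalyticAt ℂ (f i) z) (k : Fin n) :
    ContDiffAt ℝ 2 (fun z => QQ (fun i => f i z) (fun i => deriv (f i) z) k) z := by
  unfold QQ
  refine ContDiffAt.sum fun i _ => ?_
  exact (cd_f h i).mul (((cd_conj (cd_f' h k)).mul (cd_conj (cd_f h i))).sub
    ((cd_conj (cd_f h k)).mul (cd_conj (cd_f' h i))))

lemma cd_G (h : ∀ i, AnalyticAt ℂ (f i) z) (h0 : SS (fun i => f i z) ≠ 0) (j k : Fin n) :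
    ContDiffAt ℝ 2 (fun z => PH (fun i => f i z) j *
      PS (fun i => f i z) (fun i => deriv (f i) z) k) z :=
  (cd_PH h h0 j).mul (((cd_iSS h h0).mul (cd_iSS h h0)).mul (cd_QQ h k))

lemma sum_PS (f f' : Fin n → ℂ) : ∑ k, PS f f' k * f k = 0 := by
  have : ∑ k, PS f f' k * f k = (SS f)⁻¹ * (SS f)⁻¹ * ∑ k, f k * QQ f f' k := by
    rw [Finset.mul_sum]
    refine Finset.sum_congr rfl fun k _ => ?_
    unfold PS
    ring
  rw [this, sum_QQ, mul_zero]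

lemma sum_PH (f : Fin n → ℂ) (h0 : SS f ≠ 0) : ∑ k, PH f k * f k = 1 := by
  have : ∑ k, PH f k * f k = (SS f)⁻¹ * SS f := by
    conv_rhs => unfold SS
    rw [Finset.mul_sum]
    refine Finset.sum_congr rfl fun k _ => ?_
    unfold PH SS
    ring
  rw [this, inv_mul_cancel₀ h0]

lemma HW.differentiableAt {u : ℂ → ℂ} {a w : ℂ} (h : HW u a 0 w) : DifferentiableAt ℂ u w := by
  have : (a • ContinuousLinearMap.id ℂ ℂ).restrictScalars ℝ = WL a 0 := by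
    refine ContinuousLinearMap.ext fun v => ?_
    rw [WL_apply]
    simp
  exact (hasFDerivAt_of_restrictScalars ℝ h this).differentiableAt

end der

end CorS

open CorS

/-- F7, corona with bounds for functions analytic on a neighbourhood of the closed disc -/
theorem corona_smooth (n : ℕ) (δ : ℝ) (hδ : 0 < δ) : ∃ C : ℝ, ∀ f : Fin n → ℂ → ℂ,
    (∀ i, AnalyticOnNhd ℂ (f i) (closedBall 0 1)) → (∀ i, ∀ z ∈ closedBall (0:ℂ) 1, ‖f i z‖ ≤ 1) →
    (∀ z ∈ closedBall (0:ℂ) 1, ∃ i, δ ≤ ‖f i z‖) →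
    ∃ g : Fin n → ℂ → ℂ, (∀ i, DifferentiableOn ℂ (g i) (ball 0 1) ∧
      ∀ z ∈ ball (0:ℂ) 1, ‖g i z‖ ≤ C) ∧ ∀ z ∈ ball (0:ℂ) 1, ∑ i, f i z * g i z = 1 := by
  set K := KK n δ with hK
  have hK0 : 0 ≤ K := KK_nonneg n δ
  set M : ℝ := K * n + 1 with hM
  have hM1 : 1 ≤ M := by rw [hM]; linarith [mul_nonneg hK0 (Nat.cast_nonneg (α := ℝ) n)]
  have hM2 : K * n ≤ M ^ 2 := by nlinarith
  set C : ℝ := (δ ^ 2)⁻¹ + n * (2 * (4 * (M ^ 2 + M) + 1)) with hC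
  refine ⟨C, fun f hfa hf1 hfd => ?_⟩
  -- the open set
  set U : Set ℂ := {z | ∀ i, AnalyticAt ℂ (f i) z} ∩ {z | SS (fun i => f i z) ≠ 0} with hU
  have hU1 : IsOpen {z | ∀ i, AnalyticAt ℂ (f i) z} := by
    rw [Set.ofPred_forall]
    exact isOpen_iInter_of_finite fun i => isOpen_analyticAt ℂ (f i)
  have hUo : IsOpen U := by
    have : ContinuousOn (fun z => SS (fun i => f i z)) {z | ∀ i, AnalyticAt ℂ (f i) z} :=
      fun z hz => (cd_SS hz).continuousAt.continuousWithinAt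
    exact this.isOpen_inter_preimage hU1 isOpen_ne
  have hS0 : ∀ z ∈ closedBall (0:ℂ) 1, SS (fun i => f i z) ≠ 0 := by
    intro z hz h0
    have := le_norm_SS (f := fun i => f i z) hδ (hfd z hz)
    rw [h0, norm_zero] at this
    have : 0 < δ ^ 2 := by positivity
    linarith
  have hsub : closedBall (0:ℂ) 1 ⊆ U := fun z hz => ⟨fun i => hfa i z hz, hS0 z hz⟩
  obtain ⟨ε, hε, hεU⟩ := (isCompact_closedBall (0:ℂ) 1).exists_cthickening_subset_open hUo hsub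
  rw [cthickening_closedBall hε.le zero_le_one] at hεU
  let χ : ContDiffBump (0:ℂ) := ⟨1 + ε / 2, ε + 1, by positivity, by linarith⟩
  have hχt : tsupport χ ⊆ U := by
    rw [χ.tsupport_eq]
    exact hεU
  set P : Fin n → Fin n → ℂ → ℂ := fun j k z => PH (fun i => f i z) j *
      PS (fun i => f i z) (fun i => deriv (f i) z) k with hP
  set G : Fin n → Fin n → ℂ → ℂ := fun j k z => ((χ z : ℝ) : ℂ) * P j k z with hG
  have hGP : ∀ j k, ∀ z ∈ closedBall (0:ℂ) 1, G j k =ᶠ[𝓝 z] P j k := by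
    intro j k z hz
    have : ball (0:ℂ) (1 + ε / 2) ∈ 𝓝 z := by
      apply isOpen_ball.mem_nhds
      rw [mem_closedBall_zero_iff] at hz
      rw [mem_ball_zero_iff]
      linarith
    filter_upwards [this] with w hw
    have : χ w = 1 := χ.one_of_mem_closedBall (ball_subset_closedBall hw)
    simp [hG, this]
  have hGv : ∀ j k, ∀ z ∈ closedBall (0:ℂ) 1, G j k z = P j k z := fun j k z hz =>
    (hGP j k z hz).self_of_nhds
  have hGc : ∀ j k, ContDiff ℝ 2 (G j k) := by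
    intro j k
    rw [contDiff_iff_contDiffAt]
    intro z
    by_cases hz : z ∈ U
    · have h1 : ContDiffAt ℝ 2 (fun z => ((χ z : ℝ) : ℂ)) z :=
        Complex.ofRealCLM.contDiff.contDiffAt.comp z χ.contDiffAt
      exact h1.mul (cd_G hz.1 hz.2 j k)
    · have h1 : z ∉ tsupport χ := fun h => hz (hχt h)
      rw [notMem_tsupport_iff_eventuallyEq] at h1
      have h2 : G j k =ᶠ[𝓝 z] fun _ => 0 := by
        filter_upwards [h1] with w hw
        simp [hG, hw]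
      exact contDiffAt_const.congr_of_eventuallyEq h2
  have hGs : ∀ j k, HasCompactSupport (G j k) := by
    intro j k
    have h1 : HasCompactSupport (fun z => ((χ z : ℝ) : ℂ)) :=
      χ.hasCompactSupport.comp_left (g := fun x : ℝ => (x : ℂ)) (by simp)
    exact h1.mul_right
  have hdG : ∀ j k, ∀ z ∈ closedBall (0:ℂ) 1, dz (G j k) z =
      PH1 (fun i => f i z) (fun i => deriv (f i) z) j *
        PS (fun i => f i z) (fun i => deriv (f i) z) k +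
      PH (fun i => f i z) j * PS1 (fun i => f i z) (fun i => deriv (f i) z) k := by
    intro j k z hz
    rw [← hw_G (fun i => hfa i z hz) (hS0 z hz) j k]
    unfold dz
    rw [(hGP j k z hz).fderiv_eq]
  have hdGc : ∀ j k, Continuous (dz (G j k)) := by
    intro j k
    have := (hGc j k).continuous_fderiv (by norm_num)
    unfold dz
    fun_prop
  have hfc : ∀ i, ContinuousOn (f i) (closedBall 0 1) := fun i => (hfa i).continuousOn
  have hf'c : ∀ i, ContinuousOn (deriv (f i)) (closedBall 0 1) := fun i => (hfa i).deriv.continuousOn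
  -- Carleson bounds
  have key : ∀ (F : ℂ → ℝ), Continuous F →
      (∀ z ∈ closedBall (0:ℂ) 1, F z ≤ K * ∑ i, ‖deriv (f i) z‖ ^ 2) →
      ∀ h : ℂ → ℂ, AnalyticOnNhd ℂ h (closedBall 0 1) →
        LR (fun z => F z * ‖h z‖ ^ 2) ≤ M ^ 2 * Real.circleAverage (fun z => ‖h z‖ ^ 2) 0 1 := by
    intro F hFc hF h hh
    have hhc := hh.continuousOn
    have hci : ∀ i, ContinuousOn (fun z => ‖deriv (f i) z‖ ^ 2 * ‖h z‖ ^ 2) (closedBall 0 1) :=
      fun i => ((hf'c i).norm.pow 2).mul (hhc.norm.pow 2)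
    have ha : 0 ≤ Real.circleAverage (fun z => ‖h z‖ ^ 2) 0 1 :=
      Real.circleAverage_nonneg_of_nonneg (fun z _ => by positivity)
    calc LR (fun z => F z * ‖h z‖ ^ 2)
        ≤ LR (fun z => K * ∑ i, ‖deriv (f i) z‖ ^ 2 * ‖h z‖ ^ 2) := by
          refine LR_mono (hFc.continuousOn.mul (hhc.norm.pow 2)) ?_ ?_
          · refine continuousOn_const.mul ?_
            exact continuousOn_finsetSum _ fun i _ => hci i
          · intro z hz
            calc F z * ‖h z‖ ^ 2 ≤ (K * ∑ i, ‖deriv (f i) z‖ ^ 2) * ‖h z‖ ^ 2 := by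
                  gcongr
                  exact hF z hz
              _ = _ := by rw [mul_assoc, Finset.sum_mul]
      _ = K * ∑ i, LR (fun z => ‖deriv (f i) z‖ ^ 2 * ‖h z‖ ^ 2) := by
          rw [LR_const_mul, LR_sum hci]
      _ ≤ K * ∑ _i : Fin n, Real.circleAverage (fun z => ‖h z‖ ^ 2) 0 1 := by
          gcongr with i _
          exact carleson_est (hfa i) (hf1 i) hh
      _ = K * n * Real.circleAverage (fun z => ‖h z‖ ^ 2) 0 1 := by
          simp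
          ring
      _ ≤ _ := by gcongr
  have hw : ∀ j k, ∃ b : ℂ → ℂ, ContDiff ℝ 2 b ∧ (∀ z, dzb b z = G j k z) ∧
      ∀ z ∈ sphere (0:ℂ) 1, ‖b z‖ ≤ 4 * (M ^ 2 + M) + 1 := by
    intro j k
    refine wolff (hGc j k) (hGs j k) (by linarith) ?_ ?_
    · intro h hh
      refine key (fun z => ‖G j k z‖ ^ 2) ((hGc j k).continuous.norm.pow 2) ?_ h hh
      intro z hz
      rw [hGv j k z hz]
      exact bound_G (fun i => hf1 i z hz) hδ (hfd z hz) _ j k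
    · intro h hh
      refine key (fun z => ‖dz (G j k) z‖) (hdGc j k).norm ?_ h hh
      intro z hz
      rw [hdG j k z hz]
      exact bound_dG (fun i => hf1 i z hz) hδ (hfd z hz) _ j k
  choose b hbc hbd hbs using hw
  -- the solution
  set g : Fin n → ℂ → ℂ := fun j z => PH (fun i => f i z) j +
    ∑ k, (b j k z - b k j z) * f k z with hg
  have hgd : ∀ j, ∀ z ∈ closedBall (0:ℂ) 1, DifferentiableAt ℂ (g j) z := by
    intro j z hz
    have hfa' : ∀ i, AnalyticAt ℂ (f i) z := fun i => hfa i z hz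
    have h1 := (hw_PH hfa' (hS0 z hz) j).add
      (HW.sum fun k => ((HW.of_contDiff (hbc j k) z).sub (HW.of_contDiff (hbc k j) z)).mul
        (hw_f hfa' k))
    refine (h1.congr rfl ?_).differentiableAt
    have h2 : ∀ k, (dzb (b j k) z - dzb (b k j) z) * f k z + (b j k z - b k j z) * 0 =
        PH (fun i => f i z) j * (PS (fun i => f i z) (fun i => deriv (f i) z) k * f k z) -
        PS (fun i => f i z) (fun i => deriv (f i) z) j * (PH (fun i => f i z) k * f k z) := by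
      intro k
      rw [hbd, hbd, hGv j k z hz, hGv k j z hz]
      simp only [hP]
      ring
    rw [Finset.sum_congr rfl fun k _ => h2 k, Finset.sum_sub_distrib, ← Finset.mul_sum,
      ← Finset.mul_sum, sum_PS (fun i => f i z), sum_PH (fun i => f i z) (hS0 z hz)]
    ring
  have hgb : ∀ j, ∀ z ∈ sphere (0:ℂ) 1, ‖g j z‖ ≤ C := by
    intro j z hz
    have hz' : z ∈ closedBall (0:ℂ) 1 := sphere_subset_closedBall hz
    calc ‖g j z‖ ≤ ‖PH (fun i => f i z) j‖ + ‖∑ k, (b j k z - b k j z) * f k z‖ :=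
          norm_add_le _ _
      _ ≤ (δ ^ 2)⁻¹ + ∑ _k : Fin n, 2 * (4 * (M ^ 2 + M) + 1) := by
          refine add_le_add (norm_PH (fun i => hf1 i z hz') hδ (hfd z hz') j) ?_
          refine (norm_sum_le _ _).trans (Finset.sum_le_sum fun k _ => ?_)
          rw [norm_mul]
          calc ‖b j k z - b k j z‖ * ‖f k z‖ ≤ ‖b j k z - b k j z‖ :=
                mul_le_of_le_one_right (norm_nonneg _) (hf1 k z hz')
            _ ≤ ‖b j k z‖ + ‖b k j z‖ := norm_sub_le _ _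
            _ ≤ _ := by linarith [hbs j k z hz, hbs k j z hz]
      _ = C := by
          rw [hC]
          simp
  refine ⟨g, fun j => ⟨fun z hz => (hgd j z (ball_subset_closedBall hz)).differentiableWithinAt,
    fun z hz => ?_⟩, fun z hz => ?_⟩
  · have hdc : DiffContOnCl ℂ (g j) (ball 0 1) := by
      refine ⟨fun z hz => (hgd j z (ball_subset_closedBall hz)).differentiableWithinAt, ?_⟩
      rw [closure_ball (0:ℂ) one_ne_zero]
      exact fun z hz => (hgd j z hz).continuousAt.continuousWithinAt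
    refine Complex.norm_le_of_forall_mem_frontier_norm_le isBounded_ball hdc ?_
      (subset_closure hz)
    intro w hw
    rw [frontier_ball (0:ℂ) one_ne_zero] at hw
    exact hgb j w hw
  · have hz' := ball_subset_closedBall hz
    have e1 : ∑ i, f i z * g i z = ∑ k, PH (fun i => f i z) k * f k z +
        (∑ j, ∑ k, b j k z * (f j z * f k z) - ∑ j, ∑ k, b k j z * (f j z * f k z)) := by
      rw [← Finset.sum_sub_distrib, ← Finset.sum_add_distrib]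
      refine Finset.sum_congr rfl fun j _ => ?_
      rw [← Finset.sum_sub_distrib]
      simp only [hg]
      rw [mul_add, Finset.mul_sum, mul_comm]
      congr 1
      refine Finset.sum_congr rfl fun k _ => ?_
      ring
    have e2 : ∑ j, ∑ k, b k j z * (f j z * f k z) = ∑ j, ∑ k, b j k z * (f j z * f k z) := by
      rw [Finset.sum_comm]
      refine Finset.sum_congr rfl fun j _ => Finset.sum_congr rfl fun k _ => ?_
      ring
    rw [e1, e2, sub_self, add_zero]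
    exact sum_PH (fun i => f i z) (hS0 z hz')

end Pool.Agent.H14.GP
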