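import Pool.Agent.H14.GP.Defs2
import Pool.Agent.H14.GP.CoronaS

set_option autoImplicit false

open Complex Metric Set Filter Topology ComplexConjugate MeasureTheory

namespace Pool.Agent.H14.GP

/-- bounded sequences of complex numbers converge along ultrafilters -/
private lemma crn_ultra_lim (U : Ultrafilter ℕ) (a : ℕ → ℂ) (D : ℝ) (h : ∀ k, ‖a k‖ ≤ D) :
    ∃ b : ℂ, Tendsto a U (𝓝 b) := by
  have hc : IsCompact (closedBall (0:ℂ) D) := isCompact_closedBall 0 D
  have hle : ((U.map a : Ultrafilter ℂ) : Filter ℂ) ≤ 𝓟 (closedBall (0:ℂ) D) := by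
    rw [le_principal_iff]
    refine Filter.mem_map.2 (Filter.Eventually.of_forall fun k => ?_)
    simpa using h k
  obtain ⟨b, _, hb⟩ := hc.ultrafilter_le_nhds (U.map a) hle
  exact ⟨b, hb⟩

/-- Cauchy estimates for the Taylor coefficients of a bounded function on the disc. -/
private lemma crn_coeff_le {f : ℂ → ℂ} {C R : ℝ} (hf : DifferentiableOn ℂ f (ball 0 1))
    (hb : ∀ z ∈ ball (0:ℂ) 1, ‖f z‖ ≤ C) (hR : 0 < R) (hR1 : R < 1) (m : ℕ) :
    ‖((m.factorial : ℂ))⁻¹ * iteratedDeriv m f 0‖ ≤ C / R ^ m := by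
  have hsub : closedBall (0:ℂ) R ⊆ ball 0 1 := closedBall_subset_ball hR1
  have h1 : DiffContOnCl ℂ f (ball 0 R) := by
    refine DifferentiableOn.diffContOnCl ?_
    rw [closure_ball _ hR.ne']
    exact hf.mono hsub
  have h2 := norm_iteratedDeriv_le_of_forall_mem_sphere_norm_le m hR h1
    (fun z hz => hb z (hsub (sphere_subset_closedBall hz)))
  have hm : (0:ℝ) < m.factorial := by exact_mod_cast m.factorial_pos
  rw [norm_mul, norm_inv, Complex.norm_natCast]
  rw [inv_mul_le_iff₀ hm]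
  calc _ ≤ _ := h2
    _ = _ := by ring

/-- Montel along an ultrafilter. -/
private lemma crn_montel (U : Ultrafilter ℕ) (h : ℕ → ℂ → ℂ) (C : ℝ)
    (hd : ∀ k, DifferentiableOn ℂ (h k) (ball 0 1))
    (hb : ∀ k, ∀ z ∈ ball (0:ℂ) 1, ‖h k z‖ ≤ C) :
    ∃ g : ℂ → ℂ, DifferentiableOn ℂ g (ball 0 1) ∧ (∀ z ∈ ball (0:ℂ) 1, ‖g z‖ ≤ C) ∧
      ∀ z ∈ ball (0:ℂ) 1, Tendsto (fun k => h k z) U (𝓝 (g z)) := by
  have hC : 0 ≤ C := (norm_nonneg _).trans (hb 0 0 (by simp))
  set a : ℕ → ℕ → ℂ := fun k m => ((m.factorial : ℂ))⁻¹ * iteratedDeriv m (h k) 0 with ha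
  have hcoef : ∀ k m (R : ℝ), 0 < R → R < 1 → ‖a k m‖ ≤ C / R ^ m :=
    fun k m R hR hR1 => crn_coeff_le (hd k) (hb k) hR hR1 m
  have hlim : ∀ m, ∃ b : ℂ, Tendsto (fun k => a k m) U (𝓝 b) := fun m =>
    crn_ultra_lim U _ (C / (1 / 2) ^ m) fun k => hcoef k m _ (by norm_num) (by norm_num)
  choose b hbl using hlim
  have hbb : ∀ m (R : ℝ), 0 < R → R < 1 → ‖b m‖ ≤ C / R ^ m := by
    intro m R hR hR1
    exact le_of_tendsto (hbl m).norm (Eventually.of_forall fun k => hcoef k m R hR hR1)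
  have hterm : ∀ (c : ℂ) (m : ℕ) (R r : ℝ) (z : ℂ), 0 < R → ‖c‖ ≤ C / R ^ m → ‖z‖ ≤ r →
      ‖c * z ^ m‖ ≤ C * (r / R) ^ m := by
    intro c m R r z hR hc hz
    rw [norm_mul, norm_pow, div_pow]
    calc ‖c‖ * ‖z‖ ^ m ≤ (C / R ^ m) * r ^ m := by
          apply mul_le_mul hc (pow_le_pow_left₀ (norm_nonneg _) hz m) (by positivity) (by positivity)
      _ = C * (r ^ m / R ^ m) := by ring
  have hsum : ∀ R r : ℝ, 0 ≤ r → 0 < R → r < R → Summable fun m : ℕ => C * (r / R) ^ m := by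
    intro R r hr hR hrR
    exact (summable_geometric_of_lt_one (by positivity) ((div_lt_one hR).2 hrR)).mul_left C
  have hpt : ∀ z ∈ ball (0:ℂ) 1, Tendsto (fun k => h k z) U (𝓝 (∑' m, b m * z ^ m)) := by
    intro z hz
    have hz1 : ‖z‖ < 1 := by simpa using hz
    obtain ⟨R, hR, hR1⟩ := exists_between hz1
    have hR0 : 0 < R := (norm_nonneg z).trans_lt hR
    have heq : ∀ k, h k z = ∑' m, a k m * z ^ m := by
      intro k
      have := (hasSum_taylorSeries_on_ball (hd k) hz).tsum_eq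
      rw [← this]
      refine tsum_congr fun m => ?_
      simp only [ha, sub_zero, smul_eq_mul]
      ring
    simp_rw [heq]
    refine tendsto_tsum_of_dominated_convergence (hsum R ‖z‖ (norm_nonneg _) hR0 hR) ?_ ?_
    · intro m
      exact (hbl m).mul_const _
    · exact Eventually.of_forall fun k m => hterm _ m R _ z hR0 (hcoef k m R hR0 hR1) le_rfl
  refine ⟨fun z => ∑' m, b m * z ^ m, ?_, ?_, hpt⟩
  · intro z hz
    have hz1 : ‖z‖ < 1 := by simpa using hz
    obtain ⟨r, hr, hr1⟩ := exists_between hz1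
    obtain ⟨R, hR, hR1⟩ := exists_between hr1
    have hr0 : 0 < r := (norm_nonneg z).trans_lt hr
    have hR0 : 0 < R := hr0.trans hR
    have hdiff : DifferentiableOn ℂ (fun z => ∑' m, b m * z ^ m) (ball 0 r) := by
      refine differentiableOn_tsum_of_summable_norm (hsum R r hr0.le hR0 hR) ?_ isOpen_ball ?_
      · intro m
        fun_prop
      · intro m w hw
        have hw1 : ‖w‖ ≤ r := by simpa using (mem_ball_zero_iff.1 hw).le
        exact hterm _ m R r w hR0 (hbb m R hR0 hR1) hw1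
    exact (hdiff.differentiableAt (isOpen_ball.mem_nhds (by simpa using hr))).differentiableWithinAt
  · intro z hz
    exact le_of_tendsto (hpt z hz).norm (Eventually.of_forall fun k => hb k z hz)

/-- F8 Carleson's corona theorem -/
theorem corona (n : ℕ) (f : Fin n → ℂ → ℂ) (hf : ∀ i, f i ∈ Hinf) (δ : ℝ) (hδ : 0 < δ)
    (h : ∀ z ∈ ball (0:ℂ) 1, ∃ i, δ ≤ ‖f i z‖) :
    ∃ g : Fin n → ℂ → ℂ, (∀ i, g i ∈ Hinf) ∧ ∀ z ∈ ball (0:ℂ) 1, ∑ i, f i z * g i z = 1 := by
  choose K hK using fun i => (hf i).2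
  set M : ℝ := 1 + ∑ i, |K i| with hM
  have hM0 : 0 < M := by positivity
  have hKM : ∀ i, K i ≤ M := by
    intro i
    have h1 : |K i| ≤ ∑ i, |K i| :=
      Finset.single_le_sum (f := fun i => |K i|) (fun j _ => abs_nonneg _) (Finset.mem_univ i)
    have h2 := le_abs_self (K i)
    linarith
  obtain ⟨C, hC⟩ := corona_smooth n (δ / M) (by positivity)
  -- the dilations
  set r : ℕ → ℝ := fun k => 1 - 1 / (k + 2) with hr
  have hr0 : ∀ k, 0 < r k := by
    intro k
    have : (1:ℝ) / (k + 2) < 1 := by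
      rw [div_lt_one (by positivity)]
      have : (0:ℝ) ≤ k := Nat.cast_nonneg k
      linarith
    simp only [hr]; linarith
  have hr1 : ∀ k, r k < 1 := by
    intro k
    have : (0:ℝ) < 1 / (k + 2) := by positivity
    simp only [hr]; linarith
  have hrlim : Tendsto r atTop (𝓝 1) := by
    have h1 : Tendsto (fun k : ℕ => (1:ℝ) / ((k:ℝ) + 2)) atTop (𝓝 0) := by
      have h2 : Tendsto (fun k : ℕ => ((k:ℝ) + 2)) atTop atTop :=
        tendsto_atTop_add_const_right _ _ tendsto_natCast_atTop_atTop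
      have h3 := h2.inv_tendsto_atTop
      refine h3.congr fun k => ?_
      simp
    simpa [hr] using (tendsto_const_nhds (x := (1:ℝ))).sub h1
  have hrz : ∀ k (z : ℂ), z ∈ closedBall (0:ℂ) 1 → (r k : ℂ) * z ∈ ball (0:ℂ) 1 := by
    intro k z hz
    have hz1 : ‖z‖ ≤ 1 := by simpa using hz
    rw [mem_ball_zero_iff, norm_mul, Complex.norm_real, Real.norm_of_nonneg (hr0 k).le]
    calc r k * ‖z‖ ≤ r k * 1 := mul_le_mul_of_nonneg_left hz1 (hr0 k).le
      _ < 1 := by linarith [hr1 k]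
  have key : ∀ k, ∃ g : Fin n → ℂ → ℂ, (∀ i, DifferentiableOn ℂ (g i) (ball 0 1) ∧
      ∀ z ∈ ball (0:ℂ) 1, ‖g i z‖ ≤ C) ∧
      ∀ z ∈ ball (0:ℂ) 1, ∑ i, (f i ((r k : ℂ) * z) / (M : ℂ)) * g i z = 1 := by
    intro k
    refine hC (fun i z => f i ((r k : ℂ) * z) / (M : ℂ)) ?_ ?_ ?_
    · intro i z hz
      have h1 : AnalyticAt ℂ (f i) ((r k : ℂ) * z) :=
        (hf i).1.analyticAt (isOpen_ball.mem_nhds (hrz k z hz))
      have h2 : AnalyticAt ℂ (fun z : ℂ => (r k : ℂ) * z) z := by fun_prop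
      exact (AnalyticAt.fun_comp h1 h2).div analyticAt_const (by exact_mod_cast hM0.ne')
    · intro i z hz
      rw [norm_div, Complex.norm_real, Real.norm_of_nonneg hM0.le, div_le_one hM0]
      exact (hK i _ (hrz k z hz)).trans (hKM i)
    · intro z hz
      obtain ⟨i, hi⟩ := h _ (hrz k z hz)
      refine ⟨i, ?_⟩
      rw [norm_div, Complex.norm_real, Real.norm_of_nonneg hM0.le]
      exact div_le_div_of_nonneg_right hi hM0.le
  choose g hg hgs using key
  have hlim := fun i => crn_montel (hyperfilter ℕ) (fun k => g k i) C (fun k => (hg k i).1)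
    (fun k => (hg k i).2)
  choose G hGd hGb hGl using hlim
  refine ⟨fun i z => G i z / (M : ℂ), fun i => ⟨?_, C / M, ?_⟩, ?_⟩
  · exact (hGd i).div_const _
  · intro z hz
    rw [norm_div, Complex.norm_real, Real.norm_of_nonneg hM0.le]
    exact div_le_div_of_nonneg_right (hGb i z hz) hM0.le
  · intro z hz
    have hfl : ∀ i, Tendsto (fun k => f i ((r k : ℂ) * z)) (hyperfilter ℕ : Filter ℕ)
        (𝓝 (f i z)) := by
      intro i
      have h1 : ContinuousAt (f i) z :=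
        ((hf i).1.differentiableAt (isOpen_ball.mem_nhds hz)).continuousAt
      have h2 : Tendsto (fun k => (r k : ℂ) * z) (hyperfilter ℕ : Filter ℕ) (𝓝 z) := by
        have h3 : Tendsto (fun k => (r k : ℂ)) (hyperfilter ℕ : Filter ℕ) (𝓝 ((1:ℝ) : ℂ)) :=
          (Complex.continuous_ofReal.tendsto _).comp (hrlim.mono_left Nat.hyperfilter_le_atTop)
        simpa using h3.mul_const z
      exact h1.tendsto.comp h2
    have hs : Tendsto (fun k => ∑ i, (f i ((r k : ℂ) * z) / (M : ℂ)) * g k i z)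
        (hyperfilter ℕ : Filter ℕ) (𝓝 (∑ i, (f i z / (M : ℂ)) * G i z)) :=
      tendsto_finsetSum _ fun i _ => ((hfl i).div_const _).mul (hGl i z hz)
    have hs1 : Tendsto (fun k => ∑ i, (f i ((r k : ℂ) * z) / (M : ℂ)) * g k i z)
        (hyperfilter ℕ : Filter ℕ) (𝓝 1) := by
      refine Tendsto.congr (fun k => (hgs k z hz).symm) tendsto_const_nhds
    have := tendsto_nhds_unique hs hs1
    rw [← this]
    refine Finset.sum_congr rfl fun i _ => ?_
    ring

end Pool.Agent.H14.GP
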