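import Mathlib

/-! Definitions for MP_40d375_an (closures of nontrivial Gleason parts of `H^∞`). -/

set_option autoImplicit false

open Complex Metric Set Filter Topology ComplexConjugate

namespace Pool.Agent.H14.GP

/-- `H^∞` of the open unit disc, as a set of functions `ℂ → ℂ`. -/
def Hinf : Set (ℂ → ℂ) :=
  {f | DifferentiableOn ℂ f (Metric.ball (0:ℂ) 1) ∧
    ∃ C : ℝ, ∀ z ∈ Metric.ball (0:ℂ) 1, ‖f z‖ ≤ C}

/-- The closed unit ball of `H^∞`. -/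
def Ub : Set (ℂ → ℂ) :=
  {f | DifferentiableOn ℂ f (Metric.ball (0:ℂ) 1) ∧ ∀ z ∈ Metric.ball (0:ℂ) 1, ‖f z‖ ≤ 1}

/-- Characters of `H^∞` (the convention of the frozen statement). -/
def IsChar (φ : (ℂ → ℂ) → ℂ) : Prop :=
  φ 1 = 1 ∧
    (∀ f ∈ Hinf, ∀ g ∈ Hinf, φ (f + g) = φ f + φ g ∧ φ (f * g) = φ f * φ g ∧
      (Set.EqOn f g (Metric.ball (0:ℂ) 1) → φ f = φ g)) ∧
    (∀ c : ℂ, ∀ f ∈ Hinf, φ (c • f) = c * φ f) ∧
    (∀ f, f ∉ Hinf → φ f = 0)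

/-- Same Gleason part. -/
def Gl (φ ψ : (ℂ → ℂ) → ℂ) : Prop :=
  ∃ c : ℝ, c < 2 ∧ ∀ f ∈ Hinf, (∀ z ∈ Metric.ball (0:ℂ) 1, ‖f z‖ ≤ 1) → ‖φ f - ψ f‖ ≤ c

/-- Weak-* closure. -/
def InClosure (φ : (ℂ → ℂ) → ℂ) (S : Set ((ℂ → ℂ) → ℂ)) : Prop :=
  ∀ s : Finset (ℂ → ℂ), ∀ ε : ℝ, 0 < ε → ∃ ψ ∈ S, ∀ f ∈ s, ‖ψ f - φ f‖ < ε

/-- Moebius map of the disc sending `a` to `0`. -/
noncomputable def mob (a z : ℂ) : ℂ := (z - a) / (1 - conj a * z)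

/-- The inverse Moebius map, sending `0` to `a`. -/
noncomputable def Lm (a w : ℂ) : ℂ := (w + a) / (1 + conj a * w)

/-- Pseudo-hyperbolic distance. -/
noncomputable def rho (z a : ℂ) : ℝ := ‖mob a z‖

/-- `Ke z a = 1 - rho z a ^ 2` on the disc. -/
noncomputable def Ke (z a : ℂ) : ℝ := (1 - ‖z‖ ^ 2) * (1 - ‖a‖ ^ 2) / ‖1 - conj a * z‖ ^ 2

/-- Blaschke factor, `bf a z → 1` as `‖a‖ → 1`; `‖bf a z‖ = rho z a`. -/
noncomputable def bf (a z : ℂ) : ℂ :=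
  if a = 0 then z else ((‖a‖ : ℂ) / a) * ((a - z) / (1 - conj a * z))

/-- Blaschke data: zeros `s i` in the disc with multiplicities `N i` and the Blaschke condition. -/
def BlData (s : ℕ → ℂ) (N : ℕ → ℕ) : Prop :=
  (∀ i, ‖s i‖ < 1) ∧ Summable fun i => (N i : ℝ) * (1 - ‖s i‖)

/-- Blaschke product. -/
noncomputable def Bl (s : ℕ → ℂ) (N : ℕ → ℕ) (z : ℂ) : ℂ := ∏' i, bf (s i) z ^ N i

/-- multiplicity function of a subset: `1` on `A`, `0` off `A`. -/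
noncomputable def ind (A : Set ℕ) : ℕ → ℕ := A.indicator 1

end Pool.Agent.H14.GP
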