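import Pool.Agent.H14.GP.Defs

/-! Shared definitions (second part) for MP_40d375_an. -/

set_option autoImplicit false

open Complex Metric Set Filter Topology ComplexConjugate MeasureTheory

namespace Pool.Agent.H14.GP

/-- Wirtinger derivative `∂/∂z`. -/
noncomputable def dz (f : ℂ → ℂ) (z : ℂ) : ℂ := (fderiv ℝ f z 1 - I * fderiv ℝ f z I) / 2

/-- Wirtinger derivative `∂/∂z̄`. -/
noncomputable def dzb (f : ℂ → ℂ) (z : ℂ) : ℂ := (fderiv ℝ f z 1 + I * fderiv ℝ f z I) / 2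

/-- normalized log-weighted area integral over the unit disc (complex valued). -/
noncomputable def LL (F : ℂ → ℂ) : ℂ :=
  ∫ r in (0:ℝ)..1, ((r * Real.log (1 / r) : ℝ) : ℂ) * Real.circleAverage F 0 r

/-- normalized log-weighted area integral over the unit disc (real valued). -/
noncomputable def LR (F : ℂ → ℝ) : ℝ :=
  ∫ r in (0:ℝ)..1, (r * Real.log (1 / r)) * Real.circleAverage F 0 r

/-- inner radii -/
noncomputable def rad (k : ℕ) : ℝ := 1 - (1 / 4) ^ (k + 1)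

/-- outer radii -/
noncomputable def Rad (k : ℕ) : ℝ := 1 - (1 / 64) ^ (k + 1)

/-- very sparse sequences in the disc. -/
structure TSeq (t : ℕ → ℂ) : Prop where
  lt : ∀ k, ‖t k‖ < 1
  disj : ∀ z : ℂ, ‖z‖ < 1 → ∀ k l, rho z (t k) < Rad k → rho z (t l) < Rad l → k = l
  sum : Summable fun k => (1000:ℝ) ^ k * (1 - ‖t k‖)

/-- the nonprincipal ultrafilter used for both indices -/
noncomputable def VV : Ultrafilter ℕ := hyperfilter ℕ

/-- multiplicities tending to infinity along each level (for most levels) -/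
def FF : Set (ℕ → ℕ) :=
  {N | (∀ k, N k ≤ 2 ^ k) ∧ ∀ᶠ n in (VV : Filter ℕ), Tendsto (fun j => N (Nat.pair n j)) VV atTop}

/-- functions of modulus close to `1` on most of the circles `L_{t_{n,j}}(|w| = r)`. -/
def GG (t : ℕ → ℂ) : Set (ℂ → ℂ) :=
  {G | G ∈ Ub ∧ ∀ η : ℝ, 0 < η → ∀ᶠ n in (VV : Filter ℕ), ∃ r0 < (1:ℝ), ∀ r, r0 < r → 0 < r → r < 1 →
    ∀ᶠ j in (VV : Filter ℕ),
      volume {θ ∈ Set.Ioc (0:ℝ) (2 * Real.pi) |
        ‖G (Lm (t (Nat.pair n j)) (r * Complex.exp (θ * I)))‖ < 1 - η} ≤ ENNReal.ofReal η}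

/-- level weights -/
noncomputable def lev (A : ℕ → ℕ) (k : ℕ) : ℕ :=
  if A (Nat.unpair k).1 ≤ (Nat.unpair k).2 then A (Nat.unpair k).1 else 0

end Pool.Agent.H14.GP
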