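import Pool.Agent.H14.GP.Defs2
import Pool.Agent.H14.GP.Bl

set_option autoImplicit false

open Complex Metric Set Filter Topology ComplexConjugate MeasureTheory

namespace Pool.Agent.H14.GP

lemma rad_lt_one (k : ℕ) : rad k < 1 := by
  unfold rad
  have : (0:ℝ) < (1 / 4) ^ (k + 1) := by positivity
  linarith

lemma Rad_lt_one (k : ℕ) : Rad k < 1 := by
  unfold Rad
  have : (0:ℝ) < (1 / 64) ^ (k + 1) := by positivity
  linarith

lemma three_quarters_le_rad (k : ℕ) : 3 / 4 ≤ rad k := by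
  unfold rad
  have : ((1:ℝ) / 4) ^ (k + 1) ≤ 1 / 4 := by
    rw [pow_succ]
    have : ((1:ℝ) / 4) ^ k ≤ 1 := pow_le_one₀ (by norm_num) (by norm_num)
    nlinarith
  linarith

lemma rad_le_Rad (k : ℕ) : rad k ≤ Rad k := by
  unfold rad Rad
  have : ((1:ℝ) / 64) ^ (k + 1) ≤ (1 / 4) ^ (k + 1) :=
    pow_le_pow_left₀ (by norm_num) (by norm_num) _
  linarith

lemma Rad_nonneg (k : ℕ) : 0 ≤ Rad k := by
  have h1 := three_quarters_le_rad k
  have h2 := rad_le_Rad k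
  linarith

/-- the explicit sparse sequence -/
private noncomputable def tT (k : ℕ) : ℂ := ((1 - (1 / 64 : ℝ) ^ (4 * (k + 1) ^ 2) : ℝ) : ℂ)

private lemma norm_tT (k : ℕ) : ‖tT k‖ = 1 - (1 / 64 : ℝ) ^ (4 * (k + 1) ^ 2) := by
  unfold tT
  rw [Complex.norm_real, Real.norm_of_nonneg]
  have : ((1:ℝ) / 64) ^ (4 * (k + 1) ^ 2) ≤ 1 := pow_le_one₀ (by norm_num) (by norm_num)
  linarith

private lemma norm_tT_lt (k : ℕ) : ‖tT k‖ < 1 := by
  rw [norm_tT]
  have : (0:ℝ) < (1 / 64) ^ (4 * (k + 1) ^ 2) := by positivity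
  linarith

private lemma tT_disj_aux {k l : ℕ} (hkl : k < l) {z : ℂ} (hz : ‖z‖ < 1)
    (h1 : rho z (tT k) < Rad k) (h2 : rho z (tT l) < Rad l) : False := by
  have hk := norm_tT_lt k
  have hl := norm_tT_lt l
  -- lower bound for `Ke t_l z`
  have hA : ((1:ℝ) / 64) ^ (l + 1) ≤ Ke (tT l) z := by
    rw [Ke_comm, Ke_eq hz hl]
    have h3 : rho z (tT l) ^ 2 ≤ rho z (tT l) := by
      have := rho_nonneg z (tT l)
      have := rho_lt_one hz hl
      nlinarith
    unfold Rad at h2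
    linarith
  have hB := Ke_quasi hl hk hz
  have hC := Ke_le_one hk hz
  have hC0 := Ke_pos hk hz
  have hD := Ke_le_left hl hk
  have hD0 := Ke_pos hl hk
  have hE : ((1:ℝ) / 64) ^ (k + 1) ≤ 1 - rho z (tT k) := by
    unfold Rad at h1; linarith
  set x : ℝ := (1 / 64) ^ (k + 1) with hx
  have hx0 : 0 < x := by positivity
  have hF : Ke (tT l) z ≤ Ke (tT l) (tT k) / x ^ 2 := by
    refine hB.trans ?_
    calc Ke (tT l) (tT k) * Ke (tT k) z / (1 - rho z (tT k)) ^ 2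
        ≤ Ke (tT l) (tT k) * Ke (tT k) z / x ^ 2 := by
          apply div_le_div_of_nonneg_left (by positivity) (by positivity)
          exact pow_le_pow_left₀ hx0.le hE 2
      _ ≤ Ke (tT l) (tT k) * 1 / x ^ 2 := by gcongr
      _ = _ := by rw [mul_one]
  rw [norm_tT, norm_tT] at hD
  have e1 : (1 - (1 - (1 / 64 : ℝ) ^ (4 * (l + 1) ^ 2))) = (1 / 64 : ℝ) ^ (4 * (l + 1) ^ 2) := by ring
  have e2 : (1 - (1 - (1 / 64 : ℝ) ^ (4 * (k + 1) ^ 2))) = (1 / 64 : ℝ) ^ (4 * (k + 1) ^ 2) := by ring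
  rw [e1, e2] at hD
  have hG : ((1:ℝ) / 64) ^ (l + 1) * ((1 / 64 : ℝ) ^ (4 * (k + 1) ^ 2) * x ^ 2) ≤
      4 * (1 / 64 : ℝ) ^ (4 * (l + 1) ^ 2) := by
    have h5 : ((1:ℝ) / 64) ^ (l + 1) ≤
        4 * (1 / 64 : ℝ) ^ (4 * (l + 1) ^ 2) / (1 / 64 : ℝ) ^ (4 * (k + 1) ^ 2) / x ^ 2 := by
      refine hA.trans (hF.trans ?_)
      gcongr
    rw [div_div, le_div_iff₀ (by positivity)] at h5
    exact h5
  obtain ⟨d, hd⟩ : ∃ d, 4 * (l + 1) ^ 2 = 1 + ((l + 1) + (4 * (k + 1) ^ 2 + 2 * (k + 1))) + d := by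
    apply Nat.exists_eq_add_of_le
    have : k + 1 ≤ l := hkl
    nlinarith
  rw [hd, pow_add _ _ d, pow_add _ 1, pow_add _ (l + 1), pow_add _ (4 * (k + 1) ^ 2)] at hG
  have hx2 : x ^ 2 = (1 / 64 : ℝ) ^ (2 * (k + 1)) := by rw [hx, ← pow_mul]; ring_nf
  rw [← hx2] at hG
  have hp : 0 < ((1:ℝ) / 64) ^ (l + 1) * ((1 / 64 : ℝ) ^ (4 * (k + 1) ^ 2) * x ^ 2) := by positivity
  set y := ((1:ℝ) / 64) ^ (l + 1) * ((1 / 64 : ℝ) ^ (4 * (k + 1) ^ 2) * x ^ 2)
  have hd1 : ((1:ℝ) / 64) ^ d ≤ 1 := pow_le_one₀ (by norm_num) (by norm_num)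
  have hd0 : (0:ℝ) < ((1:ℝ) / 64) ^ d := by positivity
  have : 4 * ((1 / 64) ^ 1 * y * (1 / 64) ^ d) ≤ 4 * ((1 / 64) ^ 1 * y * 1) := by gcongr
  linarith

theorem exists_TSeq : ∃ t, TSeq t := by
  refine ⟨tT, norm_tT_lt, ?_, ?_⟩
  · intro z hz k l h1 h2
    rcases lt_trichotomy k l with h | h | h
    · exact (tT_disj_aux h hz h1 h2).elim
    · exact h
    · exact (tT_disj_aux h hz h2 h1).elim
  · have hs : Summable fun k : ℕ => ((1000:ℝ) / 64 ^ 4) ^ k :=
      summable_geometric_of_lt_one (by norm_num) (by norm_num)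
    refine Summable.of_nonneg_of_le (fun k => ?_) (fun k => ?_) hs
    · have := norm_tT_lt k
      have : 0 ≤ 1 - ‖tT k‖ := by linarith
      positivity
    · rw [norm_tT]
      have e1 : (1 - (1 - (1 / 64 : ℝ) ^ (4 * (k + 1) ^ 2))) = (1 / 64 : ℝ) ^ (4 * (k + 1) ^ 2) := by
        ring
      rw [e1, div_pow (1000:ℝ), div_eq_mul_inv (1000 ^ k : ℝ)]
      apply mul_le_mul_of_nonneg_left _ (by positivity)
      rw [← pow_mul, one_div, inv_pow]
      apply inv_anti₀ (by positivity)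
      apply pow_le_pow_right₀ (by norm_num)
      nlinarith

private lemma tail_gen {t : ℕ → ℂ} (ht : TSeq t) (c R : ℕ → ℝ) (hc : ∀ k, 0 ≤ c k)
    (hR0 : ∀ k, 0 ≤ R k) (hs : Summable fun k => c k * (1 - R k)) (hR1 : ∀ k, R k ≤ 1) {ε : ℝ}
    (hε : 0 < ε) : ∃ r < (1:ℝ), ∀ z : ℂ, r < ‖z‖ →
    ‖z‖ < 1 → ∑' k, (if rho z (t k) < R k then 0 else c k * Ke z (t k)) < ε := by
  set 𝓕 : Filter ℂ := comap (fun z : ℂ => ‖z‖) (𝓝[<] 1) with h𝓕
  have hev : ∀ᶠ z in 𝓕, ‖z‖ < 1 := by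
    rw [h𝓕, eventually_comap]
    filter_upwards [self_mem_nhdsWithin] with x hx z hz
    rw [hz]; exact hx
  have hlim : Tendsto (fun z => ∑' k, (if rho z (t k) < R k then 0 else c k * Ke z (t k))) 𝓕
      (𝓝 (∑' _ : ℕ, (0:ℝ))) := by
    apply tendsto_tsum_of_dominated_convergence (hs.mul_left 2)
    · intro k
      have hk := ht.lt k
      have h1 : Tendsto (fun z : ℂ => c k * (4 * (1 - ‖z‖) / (1 - ‖t k‖))) 𝓕 (𝓝 0) := by
        have h2 : Tendsto (fun x : ℝ => c k * (4 * (1 - x) / (1 - ‖t k‖))) (𝓝[<] 1) (𝓝 0) := by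
          have h3 : ContinuousAt (fun x : ℝ => c k * (4 * (1 - x) / (1 - ‖t k‖))) 1 := by fun_prop
          have h4 := h3.tendsto
          simp only [sub_self, mul_zero, zero_div] at h4
          exact h4.mono_left nhdsWithin_le_nhds
        exact h2.comp tendsto_comap
      refine squeeze_zero' ?_ ?_ h1
      · filter_upwards [hev] with z hz
        have := (Ke_pos hz hk).le
        have := hc k
        split_ifs <;> positivity
      · filter_upwards [hev] with z hz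
        have h5 := Ke_le_left hz hk
        have h6 : 0 ≤ 4 * (1 - ‖z‖) / (1 - ‖t k‖) := by
          have : 0 < 1 - ‖z‖ := by linarith
          have : 0 < 1 - ‖t k‖ := by linarith
          positivity
        split_ifs
        · exact mul_nonneg (hc k) h6
        · exact mul_le_mul_of_nonneg_left h5 (hc k)
    · filter_upwards [hev] with z hz k
      have hk := ht.lt k
      have h0 : 0 ≤ c k * (1 - R k) := mul_nonneg (hc k) (by linarith [hR1 k])
      split_ifs with h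
      · simpa using h0
      · rw [Real.norm_of_nonneg (mul_nonneg (hc k) (Ke_pos hz hk).le), Ke_eq hz hk]
        push Not at h
        have h7 : 1 - rho z (t k) ^ 2 ≤ 2 * (1 - R k) := by
          have h8 := rho_lt_one hz hk
          have h9 := hR0 k
          nlinarith [hR1 k]
        have := mul_le_mul_of_nonneg_left h7 (hc k)
        linarith
  rw [tsum_zero] at hlim
  have h10 : ∀ᶠ z in 𝓕, (∑' k, (if rho z (t k) < R k then 0 else c k * Ke z (t k))) < ε :=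
    hlim.eventually (gt_mem_nhds hε)
  rw [h𝓕, eventually_comap] at h10
  obtain ⟨r, hr, hr2⟩ := (mem_nhdsLT_iff_exists_Ioo_subset).1 h10
  refine ⟨r, hr, fun z hz1 hz2 => ?_⟩
  exact hr2 ⟨hz1, hz2⟩ z rfl

private lemma summ_rad : Summable fun k : ℕ => (2:ℝ) ^ k * (1 - rad k) := by
  have : (fun k : ℕ => (2:ℝ) ^ k * (1 - rad k)) = fun k : ℕ => (1 / 4) * (1 / 2 : ℝ) ^ k := by
    funext k
    unfold rad
    have : (1:ℝ) - (1 - (1 / 4) ^ (k + 1)) = (1 / 4) ^ k * (1 / 4) := by rw [pow_succ]; ring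
    rw [this, ← mul_assoc, ← mul_pow]
    norm_num
    ring
  rw [this]
  exact (summable_geometric_of_lt_one (by norm_num) (by norm_num)).mul_left _

private lemma summ_Rad : Summable fun k : ℕ => (16:ℝ) ^ (k + 1) * (1 - Rad k) := by
  have : (fun k : ℕ => (16:ℝ) ^ (k + 1) * (1 - Rad k)) = fun k : ℕ => (1 / 4 : ℝ) ^ (k + 1) := by
    funext k
    unfold Rad
    have : (1:ℝ) - (1 - (1 / 64) ^ (k + 1)) = (1 / 64) ^ (k + 1) := by ring
    rw [this, ← mul_pow]
    norm_num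
  rw [this]
  exact (summable_nat_add_iff 1).2 (summable_geometric_of_lt_one (by norm_num) (by norm_num))

theorem tail_small {t : ℕ → ℂ} (ht : TSeq t) {ε : ℝ} (hε : 0 < ε) : ∃ r < (1:ℝ), ∀ z : ℂ, r < ‖z‖ →
    ‖z‖ < 1 → ∑' k, (if rho z (t k) < rad k then 0 else (2:ℝ) ^ k * Ke z (t k)) < ε :=
  tail_gen ht (fun k => (2:ℝ) ^ k) rad (fun _ => by positivity)
    (fun k => by linarith [three_quarters_le_rad k]) summ_rad (fun k => (rad_lt_one k).le) hε

theorem tail_small' {t : ℕ → ℂ} (ht : TSeq t) {ε : ℝ} (hε : 0 < ε) : ∃ r < (1:ℝ), ∀ z : ℂ, r < ‖z‖ →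
    ‖z‖ < 1 → ∑' k, (if rho z (t k) < Rad k then 0 else (16:ℝ) ^ (k + 1) * Ke z (t k)) < ε :=
  tail_gen ht (fun k => (16:ℝ) ^ (k + 1)) Rad (fun _ => by positivity)
    Rad_nonneg summ_Rad (fun k => (Rad_lt_one k).le) hε

/-- the bounded-tail summand is summable at every point of the disc -/
lemma tail_summable {t : ℕ → ℂ} (ht : TSeq t) (c R : ℕ → ℝ) (hc : ∀ k, 0 ≤ c k)
    (hR0 : ∀ k, 0 ≤ R k) (hs : Summable fun k => c k * (1 - R k)) (hR1 : ∀ k, R k ≤ 1)
    {z : ℂ} (hz : ‖z‖ < 1) :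
    Summable fun k => (if rho z (t k) < R k then 0 else c k * Ke z (t k)) := by
  refine Summable.of_nonneg_of_le (fun k => ?_) (fun k => ?_) (hs.mul_left 2)
  · have := (Ke_pos hz (ht.lt k)).le
    have := hc k
    split_ifs <;> positivity
  · have hk := ht.lt k
    have h0 : 0 ≤ c k * (1 - R k) := mul_nonneg (hc k) (by linarith [hR1 k])
    split_ifs with h
    · linarith
    · rw [Ke_eq hz hk]
      push Not at h
      have h7 : 1 - rho z (t k) ^ 2 ≤ 2 * (1 - R k) := by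
        have h8 := rho_lt_one hz hk
        have h9 := hR0 k
        nlinarith [hR1 k]
      have := mul_le_mul_of_nonneg_left h7 (hc k)
      linarith

lemma tail_summable_rad {t : ℕ → ℂ} (ht : TSeq t) {z : ℂ} (hz : ‖z‖ < 1) :
    Summable fun k => (if rho z (t k) < rad k then 0 else (2:ℝ) ^ k * Ke z (t k)) :=
  tail_summable ht (fun k => (2:ℝ) ^ k) rad (fun _ => by positivity)
    (fun k => by linarith [three_quarters_le_rad k]) summ_rad (fun k => (rad_lt_one k).le) hz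

lemma tail_summable_Rad {t : ℕ → ℂ} (ht : TSeq t) {z : ℂ} (hz : ‖z‖ < 1) :
    Summable fun k => (if rho z (t k) < Rad k then 0 else (16:ℝ) ^ (k + 1) * Ke z (t k)) :=
  tail_summable ht (fun k => (16:ℝ) ^ (k + 1)) Rad (fun _ => by positivity)
    Rad_nonneg summ_Rad (fun k => (Rad_lt_one k).le) hz

theorem BlData_t {t : ℕ → ℂ} (ht : TSeq t) {N : ℕ → ℕ} (hN : ∀ k, N k ≤ 2 ^ k) : BlData t N := by
  refine ⟨ht.lt, Summable.of_nonneg_of_le (fun k => ?_) (fun k => ?_) ht.sum⟩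
  · have := ht.lt k
    have : 0 ≤ 1 - ‖t k‖ := by linarith
    positivity
  · have := ht.lt k
    have h0 : 0 ≤ 1 - ‖t k‖ := by linarith
    apply mul_le_mul_of_nonneg_right _ h0
    calc (N k : ℝ) ≤ ((2 ^ k : ℕ) : ℝ) := by exact_mod_cast hN k
      _ = (2:ℝ) ^ k := by push_cast; rfl
      _ ≤ 1000 ^ k := pow_le_pow_left₀ (by norm_num) (by norm_num) _

/-- exponential lower bound for a Blaschke product with the zeros near `z` removed -/
private lemma Bl_t_lower_aux {t : ℕ → ℂ} (ht : TSeq t) {N : ℕ → ℕ} (hN : ∀ k, N k ≤ 2 ^ k) {δ : ℝ}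
    {z : ℂ} (hz : ‖z‖ < 1)
    (hsm : ∑' k, (if rho z (t k) < rad k then 0 else (2:ℝ) ^ k * Ke z (t k)) < δ)
    (hfar : ∀ k, N k ≠ 0 → rad k ≤ rho z (t k)) : 1 - 2 * δ ≤ ‖Bl t N z‖ := by
  have hB := BlData_t ht hN
  have h1 := exp_le_norm_Bl hB hz (c := 1 / 2) (by norm_num) (fun i hi => by
    have := hfar i hi
    have := three_quarters_le_rad i
    linarith)
  have h2 : ∑' i, (N i : ℝ) * Ke z (t i) ≤
      ∑' k, (if rho z (t k) < rad k then 0 else (2:ℝ) ^ k * Ke z (t k)) := by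
    refine (summable_Ke hB hz).tsum_le_tsum (fun k => ?_) (tail_summable_rad ht hz)
    have hK := (Ke_pos hz (ht.lt k)).le
    by_cases hk : N k = 0
    · rw [hk]
      split_ifs
      · simp
      · have : 0 ≤ (2:ℝ) ^ k * Ke z (t k) := by positivity
        simpa using this
    · rw [if_neg (not_lt.2 (hfar k hk))]
      apply mul_le_mul_of_nonneg_right _ hK
      exact_mod_cast hN k
  refine le_trans ?_ h1
  have h3 := Real.add_one_le_exp (-(1 / (2 * (1 / 2 : ℝ) ^ 2)) * ∑' i, (N i : ℝ) * Ke z (t i))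
  refine le_trans ?_ h3
  norm_num
  linarith

theorem Bl_t_lower {t : ℕ → ℂ} (ht : TSeq t) {N : ℕ → ℕ} (hN : ∀ k, N k ≤ 2 ^ k) {ε : ℝ}
    (hε : 0 < ε) : ∃ r < (1:ℝ), ∀ z : ℂ, r < ‖z‖ → ‖z‖ < 1 →
      (∀ k, rho z (t k) < rad k → (1 - ε) * rho z (t k) ^ N k ≤ ‖Bl t N z‖) ∧
      ((∀ k, rad k ≤ rho z (t k)) → 1 - ε ≤ ‖Bl t N z‖) := by
  obtain ⟨r, hr, hr2⟩ := tail_small ht (ε := ε / 2) (by positivity)
  refine ⟨r, hr, fun z hz1 hz => ⟨fun k hk => ?_, fun hfar => ?_⟩⟩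
  · rw [norm_Bl_eq_prod_mul (BlData_t ht hN) hz {k}, Finset.prod_singleton, mul_comm]
    apply mul_le_mul_of_nonneg_left _ (pow_nonneg (rho_nonneg _ _) _)
    have h1 := Bl_t_lower_aux ht (N := fun i => if i ∈ ({k} : Finset ℕ) then 0 else N i)
      (δ := ε / 2) (fun i => by
        split_ifs
        · exact Nat.zero_le _
        · exact hN i) hz (hr2 z hz1 hz) (fun i hi => by
        by_contra hlt
        push Not at hlt
        have := ht.disj z hz i k (hlt.trans_le (rad_le_Rad i)) (hk.trans_le (rad_le_Rad k))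
        apply hi
        simp [this])
    linarith
  · have h1 := Bl_t_lower_aux ht hN hz (hr2 z hz1 hz) (fun i _ => hfar i)
    linarith

end Pool.Agent.H14.GP
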