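import Pool.Agent.H14.GP.Defs2
import Pool.Agent.H14.GP.T

set_option autoImplicit false

open Complex Metric Set Filter Topology ComplexConjugate MeasureTheory

namespace Pool.Agent.H14.GP

theorem lev_le (A : ℕ → ℕ) (k : ℕ) : lev A k ≤ 2 ^ k := by
  unfold lev
  split_ifs with h
  · exact h.trans ((Nat.unpair_right_le k).trans (Nat.lt_two_pow_self).le)
  · positivity

lemma one_sub_norm_sq_Lm_le {a w : ℂ} (hw : ‖w‖ < 1) (ha : ‖a‖ < 1) :
    1 - ‖Lm a w‖ ^ 2 ≤ 4 * (1 - ‖a‖) / (1 - ‖w‖) := by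
  have h1 : Ke (Lm a w) 0 = 1 - ‖Lm a w‖ ^ 2 := by
    rw [Ke_eq (norm_Lm_lt hw ha) (by simp), rho_zero_right]
  have h2 : mob a 0 = -a := by unfold mob; simp
  rw [← h1, Ke_Lm_left hw ha (by simp), h2]
  have := Ke_le_right (z := w) (a := -a) hw (by rwa [norm_neg])
  rwa [norm_neg] at this

lemma tendsto_pair_VV (n : ℕ) : Tendsto (fun j => Nat.pair n j) VV atTop := by
  have hid : Tendsto (fun j : ℕ => j) VV atTop := by
    have : (VV : Filter ℕ) ≤ cofinite := hyperfilter_le_cofinite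
    rw [Nat.cofinite_eq_atTop] at this
    exact this
  exact tendsto_atTop_mono (fun j => Nat.right_le_pair n j) hid

lemma tendsto_t_norm {t : ℕ → ℂ} (ht : TSeq t) : Tendsto (fun k => 1 - ‖t k‖) atTop (𝓝 0) := by
  refine squeeze_zero (fun k => by linarith [ht.lt k]) (fun k => ?_) ht.sum.tendsto_atTop_zero
  have h1 : (1:ℝ) ≤ 1000 ^ k := one_le_pow₀ (by norm_num)
  nlinarith [ht.lt k]

/-- for fixed radius the circles go to the boundary -/
lemma circles_to_boundary {t : ℕ → ℂ} (ht : TSeq t) (n : ℕ) {r R : ℝ} (hr : r < 1) (hR : R < 1) :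
    ∀ᶠ j in (VV : Filter ℕ), r < rad (Nat.pair n j) ∧
      ∀ w : ℂ, ‖w‖ = r → R < ‖Lm (t (Nat.pair n j)) w‖ := by
  have h1 : Tendsto rad atTop (𝓝 1) := by
    have : Tendsto (fun k : ℕ => (1:ℝ) - (1 / 4) ^ (k + 1)) atTop (𝓝 (1 - 0)) :=
      ((tendsto_pow_atTop_nhds_zero_of_lt_one (by norm_num) (by norm_num)).comp
        (tendsto_add_atTop_nat 1)).const_sub 1
    rw [sub_zero] at this
    exact this
  have h2 : Tendsto (fun k => 4 * (1 - ‖t k‖) / (1 - r)) atTop (𝓝 0) := by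
    have := ((tendsto_t_norm ht).const_mul 4).div_const (1 - r)
    simpa using this
  set R' := max R 0 with hR'
  have hR'1 : R' < 1 := max_lt hR one_pos
  have hR'0 : 0 ≤ R' := le_max_right _ _
  have e1 := (h1.comp (tendsto_pair_VV n)).eventually (lt_mem_nhds hr)
  have e2 := (h2.comp (tendsto_pair_VV n)).eventually
    (gt_mem_nhds (show (0:ℝ) < 1 - R' ^ 2 by nlinarith))
  filter_upwards [e1, e2] with j hj1 hj2
  refine ⟨hj1, fun w hw => ?_⟩
  have h3 := one_sub_norm_sq_Lm_le (w := w) (a := t (Nat.pair n j)) (by rw [hw]; exact hr) (ht.lt _)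
  rw [hw] at h3
  simp only [Function.comp] at hj2
  have h4 : R' ^ 2 < ‖Lm (t (Nat.pair n j)) w‖ ^ 2 := by linarith
  have h5 : R' < ‖Lm (t (Nat.pair n j)) w‖ := lt_of_pow_lt_pow_left₀ 2 (norm_nonneg _) h4
  exact (le_max_left _ _).trans_lt h5

theorem GG_level {t : ℕ → ℂ} (ht : TSeq t) (A : ℕ → ℕ) : Bl t (lev A) ∈ GG t := by
  have hBl := BlData_t ht (lev_le A)
  refine ⟨Bl_mem_Ub hBl, fun η hη => Eventually.of_forall fun n => ?_⟩
  set ε := min η 1 / 2 with hε
  have hε0 : 0 < ε := by have := lt_min hη one_pos; positivity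
  have hε1 : ε ≤ 1 / 2 := by have := min_le_right η 1; linarith
  have hεη : 2 * ε ≤ η := by have := min_le_left η 1; linarith
  set q := A n with hq
  refine ⟨1 - ε / (q + 1), by have : 0 < ε / (q + 1) := by positivity
                              linarith, fun r h1 h2 h3 => ?_⟩
  obtain ⟨R, hR, hlow⟩ := Bl_t_lower ht (lev_le A) hε0
  filter_upwards [circles_to_boundary ht n h3 hR] with j hj
  have hempty : {θ ∈ Set.Ioc (0:ℝ) (2 * Real.pi) |
        ‖Bl t (lev A) (Lm (t (Nat.pair n j)) (r * Complex.exp (θ * I)))‖ < 1 - η} = ∅ := by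
    ext θ
    simp only [mem_ofPred_eq, mem_empty_iff_false, iff_false, not_and, not_lt]
    intro _
    have hc : ‖(r * Complex.exp (θ * I) : ℂ)‖ = r := by
      rw [norm_mul, Complex.norm_exp_ofReal_mul_I, mul_one, Complex.norm_real, Real.norm_eq_abs,
        abs_of_pos h2]
    have hw1 : ‖(r * Complex.exp (θ * I) : ℂ)‖ < 1 := by rw [hc]; exact h3
    have h4 := (hlow _ (hj.2 _ hc) (norm_Lm_lt hw1 (ht.lt _))).1 (Nat.pair n j)
      (by rw [rho_Lm hw1 (ht.lt _), hc]; exact hj.1)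
    rw [rho_Lm hw1 (ht.lt _), hc] at h4
    have h5 : lev A (Nat.pair n j) ≤ q := by
      unfold lev
      rw [Nat.unpair_pair]
      dsimp only
      split_ifs
      · exact le_rfl
      · exact Nat.zero_le _
    have h6 : r ^ q ≤ r ^ lev A (Nat.pair n j) := pow_le_pow_of_le_one h2.le h3.le h5
    have h7 : 1 - ε ≤ r ^ q := by
      have hb := one_add_mul_le_pow (show (-2:ℝ) ≤ r - 1 by linarith) q
      have hb' : 1 + (q:ℝ) * (r - 1) ≤ r ^ q := by simpa using hb
      have hq0 : (0:ℝ) ≤ q := Nat.cast_nonneg _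
      have : (q:ℝ) * (1 - r) ≤ ε := by
        have h8 : 1 - r ≤ ε / (q + 1) := by linarith
        calc (q:ℝ) * (1 - r) ≤ (q + 1) * (ε / (q + 1)) := by
              apply mul_le_mul (by linarith) h8 (by linarith) (by linarith)
          _ = ε := by field_simp
      linarith
    have h8 : (1 - ε) * (1 - ε) ≤ (1 - ε) * r ^ lev A (Nat.pair n j) :=
      mul_le_mul_of_nonneg_left (h7.trans h6) (by linarith)
    nlinarith
  rw [hempty]
  simp

end Pool.Agent.H14.GP
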