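import Pool.Agent.H14.GP.Defs2

set_option autoImplicit false

open Complex Metric Set Filter Topology ComplexConjugate MeasureTheory

namespace Pool.Agent.H14.GP

theorem mass_tail (f : ℕ → ℝ → ℝ) (C : ℝ) (hmono : ∀ j, Monotone (f j)) (h0 : ∀ j r, 0 ≤ f j r)
    (hC : ∀ j r, f j r ≤ C) {δ : ℝ} (hδ : 0 < δ) (a0 : ℝ) (ha0 : a0 < 1) :
    ∃ a, a0 ≤ a ∧ a < 1 ∧ ∀ r < (1:ℝ), ∀ᶠ j in (VV : Filter ℕ), f j r - f j a < δ := by
  by_contra hcon
  push Not at hcon
  have step : ∀ K : ℕ, ∃ a, a0 ≤ a ∧ a < 1 ∧ ∀ᶠ j in (VV : Filter ℕ), K * δ ≤ f j a := by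
    intro K
    induction K with
    | zero => exact ⟨a0, le_rfl, ha0, Eventually.of_forall fun j => by simpa using h0 j a0⟩
    | succ K ih =>
      obtain ⟨a, h1, h2, h3⟩ := ih
      obtain ⟨r, hr, hnot⟩ := hcon a h1 h2
      have h4 : ∀ᶠ j in (VV : Filter ℕ), δ ≤ f j r - f j a := hnot
      have hra : a ≤ r := by
        obtain ⟨j, hj⟩ := h4.exists
        by_contra hlt
        push Not at hlt
        have := hmono j hlt.le
        linarith
      refine ⟨r, h1.trans hra, hr, ?_⟩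
      filter_upwards [h3, h4] with j hj hj'
      push_cast
      linarith
  obtain ⟨K, hK⟩ := exists_nat_gt (C / δ)
  obtain ⟨a, -, -, h⟩ := step K
  obtain ⟨j, hj⟩ := h.exists
  rw [div_lt_iff₀ hδ] at hK
  linarith [hC j a]

end Pool.Agent.H14.GP
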