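import Pool.Agent.H14.GP.Defs2
import Pool.Agent.H14.GP.T

set_option autoImplicit false

open Complex Metric Set Filter Topology ComplexConjugate MeasureTheory

namespace Pool.Agent.H14.GP

/-- summation by fibres -/
private lemma group_bound (a b : ℕ → ℝ) (kf : ℕ → ℕ) (ha : ∀ i, 0 ≤ a i) (hb0 : ∀ k, 0 ≤ b k)
    (hb : Summable b)
    (h : ∀ k, ∀ F : Finset ℕ, (∀ i ∈ F, kf i = k) → ∑ i ∈ F, a i ≤ b k) :
    Summable a ∧ ∑' i, a i ≤ ∑' k, b k := by
  have key : ∀ F : Finset ℕ, ∑ i ∈ F, a i ≤ ∑' k, b k := by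
    intro F
    rw [← Finset.sum_fiberwise_of_maps_to (s := F) (t := F.image kf) (g := kf)
      (fun i hi => Finset.mem_image_of_mem _ hi)]
    calc ∑ k ∈ F.image kf, ∑ i ∈ F with kf i = k, a i
        ≤ ∑ k ∈ F.image kf, b k := by
          apply Finset.sum_le_sum
          intro k _
          apply h
          intro i hi
          exact (Finset.mem_filter.1 hi).2
      _ ≤ ∑' k, b k := hb.sum_le_tsum _ (fun k _ => hb0 k)
  exact ⟨summable_of_sum_le ha key, Real.tsum_le_of_sum_le ha key⟩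

private lemma BlData_mono' {s : ℕ → ℂ} {N N' : ℕ → ℕ} (h : BlData s N) (hle : ∀ i, N' i ≤ N i) :
    BlData s N' := by
  refine ⟨h.1, Summable.of_nonneg_of_le (fun i => ?_) (fun i => ?_) h.2⟩
  · have : 0 ≤ 1 - ‖s i‖ := by linarith [h.1 i]
    positivity
  · have : 0 ≤ 1 - ‖s i‖ := by linarith [h.1 i]
    apply mul_le_mul_of_nonneg_right _ this
    exact_mod_cast hle i

private lemma nat_mul_quarter_le (n : ℕ) : (n : ℝ) * (1 / 4) ^ n ≤ 1 := by
  rw [one_div, inv_pow, ← div_eq_mul_inv, div_le_one (by positivity)]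
  have : n < 4 ^ n := Nat.lt_pow_self (by norm_num)
  exact_mod_cast this.le

section W
variable {t : ℕ → ℂ} {s : ℕ → ℂ} {S2 : Set ℕ} {kf : ℕ → ℕ} {N : ℕ → ℕ}

/-- the basic estimate on one fibre -/
private lemma win_est (ht : TSeq t) (hs : ∀ i, ‖s i‖ < 1)
    (h1 : ∀ i ∈ S2, 1 / 2 ≤ rho (s i) (t (kf i)) ∧ rho (s i) (t (kf i)) < rad (kf i))
    (h2 : ∀ k, ∀ F : Finset ℕ, (∀ i ∈ F, i ∈ S2 ∧ kf i = k) →
      ∑ i ∈ F, Ke (t k) (s i) ≤ (1 / 4) ^ (Nat.unpair k).1)
    (hN : ∀ i, i ∈ S2 → N i ≤ (Nat.unpair (kf i)).1) (hN0 : ∀ i, i ∉ S2 → N i = 0)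
    {z : ℂ} (hz : ‖z‖ < 1) (k : ℕ) (F : Finset ℕ) (hF : ∀ i ∈ F, kf i = k) :
    ∑ i ∈ F, (N i : ℝ) * Ke z (s i) ≤ (16:ℝ) ^ (k + 1) * Ke z (t k) := by
  classical
  set n := (Nat.unpair k).1 with hn
  have hK0 := (Ke_pos hz (ht.lt k)).le
  have e1 : ∑ i ∈ F, (N i : ℝ) * Ke z (s i) = ∑ i ∈ F with i ∈ S2, (N i : ℝ) * Ke z (s i) := by
    rw [Finset.sum_filter]
    apply Finset.sum_congr rfl
    intro i _
    split_ifs with h
    · rfl
    · rw [hN0 i h]; simp
  rw [e1]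
  have e2 : ∀ i ∈ F.filter (· ∈ S2), (N i : ℝ) * Ke z (s i) ≤
      (n : ℝ) * ((16:ℝ) ^ (k + 1) * Ke z (t k)) * Ke (t k) (s i) := by
    intro i hi
    obtain ⟨hiF, hiS⟩ := Finset.mem_filter.1 hi
    have hk := hF i hiF
    have hq := Ke_quasi hz (ht.lt k) (hs i)
    have hr := (h1 i hiS).2
    rw [hk] at hr
    have hNi := hN i hiS
    rw [hk, ← hn] at hNi
    have hKs := (Ke_pos (ht.lt k) (hs i)).le
    have hlow : ((1:ℝ) / 4) ^ (k + 1) ≤ 1 - rho (s i) (t k) := by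
      unfold rad at hr; linarith
    have h16 : Ke z (t k) * Ke (t k) (s i) / (1 - rho (s i) (t k)) ^ 2 ≤
        (16:ℝ) ^ (k + 1) * Ke z (t k) * Ke (t k) (s i) := by
      calc Ke z (t k) * Ke (t k) (s i) / (1 - rho (s i) (t k)) ^ 2
          ≤ Ke z (t k) * Ke (t k) (s i) / (((1:ℝ) / 4) ^ (k + 1)) ^ 2 := by
            apply div_le_div_of_nonneg_left (by positivity) (by positivity)
            exact pow_le_pow_left₀ (by positivity) hlow 2
        _ = (16:ℝ) ^ (k + 1) * Ke z (t k) * Ke (t k) (s i) := by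
            rw [← pow_mul, mul_comm (k + 1) 2, pow_mul]
            norm_num
            rw [one_div, inv_pow, div_inv_eq_mul]
            ring
    have hKz := (Ke_pos hz (hs i)).le
    calc (N i : ℝ) * Ke z (s i) ≤ (n : ℝ) * Ke z (s i) := by
          apply mul_le_mul_of_nonneg_right _ hKz
          exact_mod_cast hNi
      _ ≤ (n : ℝ) * ((16:ℝ) ^ (k + 1) * Ke z (t k) * Ke (t k) (s i)) := by
          apply mul_le_mul_of_nonneg_left (hq.trans h16) (by positivity)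
      _ = _ := by ring
  refine (Finset.sum_le_sum e2).trans ?_
  rw [← Finset.mul_sum]
  have h3 := h2 k (F.filter (· ∈ S2)) (fun i hi => by
    obtain ⟨hiF, hiS⟩ := Finset.mem_filter.1 hi
    exact ⟨hiS, hF i hiF⟩)
  rw [← hn] at h3
  have h4 := nat_mul_quarter_le n
  have hX : 0 ≤ (16:ℝ) ^ (k + 1) * Ke z (t k) := by positivity
  calc (n : ℝ) * ((16:ℝ) ^ (k + 1) * Ke z (t k)) * ∑ i ∈ F with i ∈ S2, Ke (t k) (s i)
      ≤ (n : ℝ) * ((16:ℝ) ^ (k + 1) * Ke z (t k)) * (1 / 4) ^ n := by gcongr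
    _ = ((n : ℝ) * (1 / 4) ^ n) * ((16:ℝ) ^ (k + 1) * Ke z (t k)) := by ring
    _ ≤ 1 * ((16:ℝ) ^ (k + 1) * Ke z (t k)) := by gcongr
    _ = _ := one_mul _

private lemma win_data (ht : TSeq t) (hs : ∀ i, ‖s i‖ < 1)
    (h1 : ∀ i ∈ S2, 1 / 2 ≤ rho (s i) (t (kf i)) ∧ rho (s i) (t (kf i)) < rad (kf i))
    (h2 : ∀ k, ∀ F : Finset ℕ, (∀ i ∈ F, i ∈ S2 ∧ kf i = k) →
      ∑ i ∈ F, Ke (t k) (s i) ≤ (1 / 4) ^ (Nat.unpair k).1)
    (hN : ∀ i, i ∈ S2 → N i ≤ (Nat.unpair (kf i)).1) (hN0 : ∀ i, i ∉ S2 → N i = 0) :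
    BlData s N := by
  have h0 : ‖(0:ℂ)‖ < 1 := by simp
  have hsum : Summable fun k => (64:ℝ) * ((1000:ℝ) ^ k * (1 - ‖t k‖)) := ht.sum.mul_left 64
  have hg := group_bound (fun i => (N i : ℝ) * Ke 0 (s i))
    (fun k => (64:ℝ) * ((1000:ℝ) ^ k * (1 - ‖t k‖))) kf
    (fun i => by have := (Ke_pos h0 (hs i)).le; positivity)
    (fun k => by have : 0 ≤ 1 - ‖t k‖ := by linarith [ht.lt k]
                 positivity) hsum
    (fun k F hF => by
      refine (win_est ht hs h1 h2 hN hN0 h0 k F hF).trans ?_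
      have h3 := Ke_le_right h0 (ht.lt k)
      have h4 : 0 ≤ 1 - ‖t k‖ := by linarith [ht.lt k]
      simp only [norm_zero, sub_zero, div_one] at h3
      calc (16:ℝ) ^ (k + 1) * Ke 0 (t k) ≤ (16:ℝ) ^ (k + 1) * (4 * (1 - ‖t k‖)) := by gcongr
        _ = 64 * ((16:ℝ) ^ k * (1 - ‖t k‖)) := by rw [pow_succ]; ring
        _ ≤ 64 * ((1000:ℝ) ^ k * (1 - ‖t k‖)) := by gcongr; norm_num)
  refine ⟨hs, Summable.of_nonneg_of_le (fun i => ?_) (fun i => ?_) hg.1⟩
  · have : 0 ≤ 1 - ‖s i‖ := by linarith [hs i]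
    positivity
  · have h5 : 1 - ‖s i‖ ≤ Ke 0 (s i) := by
      rw [Ke_eq h0 (hs i), rho_comm, rho_zero_right]
      have := hs i
      nlinarith [norm_nonneg (s i)]
    exact mul_le_mul_of_nonneg_left h5 (by positivity)

/-- `s i` is far from `z` if `z` is outside the big ball of `t (kf i)` -/
private lemma win_far (ht : TSeq t) (hs : ∀ i, ‖s i‖ < 1)
    (h1 : ∀ i ∈ S2, 1 / 2 ≤ rho (s i) (t (kf i)) ∧ rho (s i) (t (kf i)) < rad (kf i))
    {z : ℂ} (hz : ‖z‖ < 1) {i : ℕ} (hi : i ∈ S2) (hfar : Rad (kf i) ≤ rho z (t (kf i))) :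
    1 / 2 ≤ rho z (s i) := by
  by_contra hlt
  push Not at hlt
  have h3 := rho_strong hz (hs i) (ht.lt (kf i))
  have h4 := (h1 i hi).2
  set k := kf i
  set x := rho z (s i)
  set y := rho (s i) (t k)
  have hx0 : 0 ≤ x := rho_nonneg _ _
  have hy0 : 0 ≤ y := rho_nonneg _ _
  have h5 := hfar.trans h3
  rw [le_div_iff₀ (by positivity)] at h5
  unfold Rad at h5
  unfold rad at h4
  set q : ℝ := (1 / 4) ^ (k + 1) with hq
  have hq0 : 0 < q := by positivity
  have hq1 : q ≤ 1 / 4 := by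
    rw [hq, pow_succ]
    have : ((1:ℝ) / 4) ^ k ≤ 1 := pow_le_one₀ (by norm_num) (by norm_num)
    nlinarith
  have hq3 : ((1:ℝ) / 64) ^ (k + 1) = q ^ 3 := by
    rw [hq, ← pow_mul, mul_comm (k + 1) 3, pow_mul]; norm_num
  rw [hq3] at h5
  -- (1-x)(1-y) ≤ q^3 (1+xy)
  have h6 : (1 - x) * (1 - y) ≤ q ^ 3 * (1 + x * y) := by linarith
  have h7 : (1 / 2) * q < (1 - x) * (1 - y) := by
    have h8 : 1 / 2 < 1 - x := by linarith
    have h9 : q < 1 - y := by linarith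
    calc (1 / 2) * q < (1 / 2) * (1 - y) := by linarith
      _ ≤ (1 - x) * (1 - y) := mul_le_mul_of_nonneg_right h8.le (by linarith)
  have h10 : x * y ≤ 1 := by
    have : y ≤ 1 := by linarith
    have : x ≤ 1 := by linarith
    nlinarith
  have h11 : q ^ 3 * (1 + x * y) ≤ q ^ 3 * 2 := by
    apply mul_le_mul_of_nonneg_left (by linarith) (by positivity)
  have h12 : q ^ 3 ≤ q * (1 / 16) := by
    have : q ^ 3 = q * q ^ 2 := by ring
    rw [this]
    apply mul_le_mul_of_nonneg_left _ hq0.le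
    nlinarith
  linarith

/-- the factors not belonging to `k` -/
private lemma win_rest (ht : TSeq t) (hs : ∀ i, ‖s i‖ < 1)
    (h1 : ∀ i ∈ S2, 1 / 2 ≤ rho (s i) (t (kf i)) ∧ rho (s i) (t (kf i)) < rad (kf i))
    (h2 : ∀ k, ∀ F : Finset ℕ, (∀ i ∈ F, i ∈ S2 ∧ kf i = k) →
      ∑ i ∈ F, Ke (t k) (s i) ≤ (1 / 4) ^ (Nat.unpair k).1)
    (hN : ∀ i, i ∈ S2 → N i ≤ (Nat.unpair (kf i)).1) (hN0 : ∀ i, i ∉ S2 → N i = 0)
    {z : ℂ} (hz : ‖z‖ < 1) {k : ℕ} (hk : rho z (t k) < Rad k) (F : Finset ℕ)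
    (hF : ∀ i, i ∈ S2 → kf i = k → i ∈ F) {δ : ℝ}
    (hsm : ∑' l, (if rho z (t l) < Rad l then 0 else (16:ℝ) ^ (l + 1) * Ke z (t l)) < δ) :
    1 - 2 * δ ≤ ‖Bl s (fun i => if i ∈ F then 0 else N i) z‖ := by
  classical
  have hB := win_data ht hs h1 h2 hN hN0
  set N' : ℕ → ℕ := fun i => if i ∈ F then 0 else N i with hN'
  have hle : ∀ i, N' i ≤ N i := by
    intro i
    simp only [hN']
    split_ifs
    · exact Nat.zero_le _
    · exact le_rfl
  have hB' := BlData_mono' hB hle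
  have hne : ∀ i, N' i ≠ 0 → i ∈ S2 ∧ kf i ≠ k := by
    intro i hi
    have hiF : i ∉ F := by
      intro h; apply hi; simp [hN', h]
    have hiN : N i ≠ 0 := fun h => hi (Nat.le_zero.1 (h ▸ hle i))
    have hiS : i ∈ S2 := by
      by_contra h; exact hiN (hN0 i h)
    exact ⟨hiS, fun h => hiF (hF i hiS h)⟩
  have hfar : ∀ i, N' i ≠ 0 → 1 / 2 ≤ rho z (s i) := by
    intro i hi
    obtain ⟨hiS, hik⟩ := hne i hi
    apply win_far ht hs h1 hz hiS
    by_contra hlt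
    push Not at hlt
    exact hik (ht.disj z hz _ _ hlt hk)
  have h3 := exp_le_norm_Bl hB' hz (c := 1 / 2) (by norm_num) hfar
  have h4 := (group_bound (fun i => (N' i : ℝ) * Ke z (s i))
    (fun l => if rho z (t l) < Rad l then 0 else (16:ℝ) ^ (l + 1) * Ke z (t l)) kf
    (fun i => by have := (Ke_pos hz (hs i)).le; positivity)
    (fun l => by
      have := (Ke_pos hz (ht.lt l)).le
      split_ifs <;> positivity)
    (tail_summable_Rad ht hz) (fun l G hG => by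
      split_ifs with hl
      · have hlk : l = k := ht.disj z hz l k hl hk
        apply le_of_eq
        apply Finset.sum_eq_zero
        intro i hi
        have : N' i = 0 := by
          by_contra hi0
          exact (hne i hi0).2 ((hG i hi).trans hlk)
        rw [this]; simp
      · refine le_trans (Finset.sum_le_sum (fun i _ => ?_))
          (win_est ht hs h1 h2 hN hN0 hz l G hG)
        have := (Ke_pos hz (hs i)).le
        have h5 : (N' i : ℝ) ≤ N i := by exact_mod_cast hle i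
        gcongr)).2
  refine le_trans ?_ h3
  have h5 := Real.add_one_le_exp (-(1 / (2 * (1 / 2 : ℝ) ^ 2)) * ∑' i, (N' i : ℝ) * Ke z (s i))
  refine le_trans ?_ h5
  norm_num
  linarith

/-- the fibre over `k` is finite -/
private lemma win_fin (ht : TSeq t) (hs : ∀ i, ‖s i‖ < 1)
    (h1 : ∀ i ∈ S2, 1 / 2 ≤ rho (s i) (t (kf i)) ∧ rho (s i) (t (kf i)) < rad (kf i))
    (h2 : ∀ k, ∀ F : Finset ℕ, (∀ i ∈ F, i ∈ S2 ∧ kf i = k) →
      ∑ i ∈ F, Ke (t k) (s i) ≤ (1 / 4) ^ (Nat.unpair k).1) (k : ℕ) :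
    {i | i ∈ S2 ∧ kf i = k}.Finite := by
  by_contra hinf
  have hinf : {i | i ∈ S2 ∧ kf i = k}.Infinite := hinf
  set c : ℝ := 1 - rad k ^ 2 with hc
  have hc0 : 0 < c := by
    have h3 := rad_lt_one k
    have h4 := three_quarters_le_rad k
    rw [hc]; nlinarith
  obtain ⟨M, hM⟩ := exists_nat_gt (1 / c)
  obtain ⟨F, hF, hFc⟩ := hinf.exists_subset_card_eq M
  have h3 := h2 k F (fun i hi => hF hi)
  have h4 : (M : ℝ) * c ≤ ∑ i ∈ F, Ke (t k) (s i) := by
    rw [← hFc, ← nsmul_eq_mul]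
    apply Finset.card_nsmul_le_sum
    intro i hi
    obtain ⟨hiS, hik⟩ := hF hi
    have hr := (h1 i hiS).2
    rw [hik] at hr
    rw [Ke_comm, Ke_eq (hs i) (ht.lt k), hc]
    have := rho_nonneg (s i) (t k)
    nlinarith
  have h5 : ((1:ℝ) / 4) ^ (Nat.unpair k).1 ≤ 1 := pow_le_one₀ (by norm_num) (by norm_num)
  rw [div_lt_iff₀ hc0] at hM
  linarith

end W

/-- mean value of `1 - rho` over a circle -/
private lemma mean_rho {a : ℂ} (ha : ‖a‖ < 1) {r : ℝ} (hr0 : 0 < r) (hr1 : r < 1) :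
    ∫ θ in (0:ℝ)..(2 * Real.pi), (1 - rho (circleMap 0 r θ) a) ≤ 2 * Real.pi * (1 - ‖a‖) := by
  have hsub : closedBall (0:ℂ) r ⊆ ball 0 1 := closedBall_subset_ball hr1
  have hd : DiffContOnCl ℂ (mob a) (ball 0 |r|) := by
    rw [abs_of_pos hr0]
    refine DifferentiableOn.diffContOnCl ?_
    rw [closure_ball 0 hr0.ne']
    exact (differentiableOn_mob ha).mono hsub
  have h1 := hd.circleAverage
  have h0 : mob a 0 = -a := by unfold mob; simp
  rw [h0, Real.circleAverage_def] at h1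
  have hcont : Continuous fun θ : ℝ => mob a (circleMap 0 r θ) := by
    rw [← continuousOn_univ]
    apply ContinuousOn.comp (t := ball 0 1) (differentiableOn_mob ha).continuousOn
      (continuous_circleMap 0 r).continuousOn
    intro θ _
    simp [abs_of_pos hr0, hr1]
  have h2 : ‖∫ θ in (0:ℝ)..(2 * Real.pi), mob a (circleMap 0 r θ)‖ = 2 * Real.pi * ‖a‖ := by
    have h3 := congrArg norm h1
    rw [norm_smul, norm_neg, norm_inv, Real.norm_of_nonneg (by positivity)] at h3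
    field_simp at h3
    linarith
  have h3 : 2 * Real.pi * ‖a‖ ≤ ∫ θ in (0:ℝ)..(2 * Real.pi), rho (circleMap 0 r θ) a := by
    rw [← h2]
    exact intervalIntegral.norm_integral_le_integral_norm (by positivity)
  have hrc : Continuous fun θ : ℝ => rho (circleMap 0 r θ) a := hcont.norm
  rw [intervalIntegral.integral_sub (by simp) (hrc.intervalIntegrable _ _)]
  have h4 : (∫ _ in (0:ℝ)..(2 * Real.pi), (1:ℝ)) = 2 * Real.pi := by simp
  rw [h4]
  linarith

private lemma continuous_rho_circle {a : ℂ} (ha : ‖a‖ < 1) {r : ℝ} (hr0 : 0 < r) (hr1 : r < 1) :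
    Continuous fun θ : ℝ => rho (circleMap 0 r θ) a := by
  have hcont : Continuous fun θ : ℝ => mob a (circleMap 0 r θ) := by
    rw [← continuousOn_univ]
    apply ContinuousOn.comp (t := ball 0 1) (differentiableOn_mob ha).continuousOn
      (continuous_circleMap 0 r).continuousOn
    intro θ _
    simp [abs_of_pos hr0, hr1]
  exact hcont.norm

/-- Weierstrass product inequality -/
private lemma prod_pow_ge (F : Finset ℕ) (N : ℕ → ℕ) (x : ℕ → ℝ) (h0 : ∀ i, 0 ≤ x i)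
    (h1 : ∀ i, x i ≤ 1) :
    1 - ∑ i ∈ F, (N i : ℝ) * (1 - x i) ≤ ∏ i ∈ F, x i ^ N i ∧ ∏ i ∈ F, x i ^ N i ≤ 1 ∧
      0 ≤ ∏ i ∈ F, x i ^ N i := by
  classical
  induction F using Finset.induction_on with
  | empty => simp
  | insert a F ha ih =>
    rw [Finset.sum_insert ha, Finset.prod_insert ha]
    obtain ⟨ih1, ih2, ih3⟩ := ih
    have hx1 : x a ^ N a ≤ 1 := pow_le_one₀ (h0 a) (h1 a)
    have hx0 : 0 ≤ x a ^ N a := pow_nonneg (h0 a) _
    have hb : 1 - (N a : ℝ) * (1 - x a) ≤ x a ^ N a := by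
      have := one_add_mul_le_pow (a := x a - 1) (by linarith [h0 a]) (N a)
      have e : 1 + (x a - 1) = x a := by ring
      rw [e] at this
      linarith
    refine ⟨?_, ?_, mul_nonneg hx0 ih3⟩
    · nlinarith
    · exact mul_le_one₀ hx1 ih3 ih2

theorem GG_window {t : ℕ → ℂ} (ht : TSeq t) {s : ℕ → ℂ} (hs : ∀ i, ‖s i‖ < 1)
    (S2 : Set ℕ) (kf : ℕ → ℕ)
    (h1 : ∀ i ∈ S2, 1 / 2 ≤ rho (s i) (t (kf i)) ∧ rho (s i) (t (kf i)) < rad (kf i))
    (h2 : ∀ k, ∀ F : Finset ℕ, (∀ i ∈ F, i ∈ S2 ∧ kf i = k) →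
      ∑ i ∈ F, Ke (t k) (s i) ≤ (1 / 4) ^ (Nat.unpair k).1) (N : ℕ → ℕ)
    (hN : ∀ i, i ∈ S2 → N i ≤ (Nat.unpair (kf i)).1) (hN0 : ∀ i, i ∉ S2 → N i = 0) :
    BlData s N ∧ Bl s N ∈ GG t := by
  classical
  have hB := win_data ht hs h1 h2 hN hN0
  refine ⟨hB, Bl_mem_Ub hB, fun η hη => ?_⟩
  have hVV : (VV : Filter ℕ) ≤ atTop := Nat.hyperfilter_le_atTop
  have hn : ∀ᶠ n : ℕ in (VV : Filter ℕ), (2 * Real.pi) * ((n : ℝ) * (1 / 4) ^ n) < η / 2 * η := by
    apply Filter.Eventually.filter_mono hVV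
    have h3 : Tendsto (fun n : ℕ => (2 * Real.pi) * ((n : ℝ) * (1 / 4) ^ n)) atTop (𝓝 0) := by
      have := (tendsto_self_mul_const_pow_of_lt_one (r := (1 / 4 : ℝ)) (by norm_num)
        (by norm_num)).const_mul (2 * Real.pi)
      simpa using this
    exact h3.eventually (gt_mem_nhds (by positivity))
  filter_upwards [hn] with n hn
  refine ⟨0, one_pos, fun r _ hr0 hr1 => ?_⟩
  obtain ⟨r1, hr1', htail⟩ := tail_small' ht (ε := η / 4) (by positivity)
  have hpair : Tendsto (fun j => Nat.pair n j) (VV : Filter ℕ) atTop :=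
    (tendsto_atTop_mono (fun j => Nat.right_le_pair n j) tendsto_id).mono_left hVV
  have hRad : Tendsto Rad atTop (𝓝 1) := by
    unfold Rad
    have : Tendsto (fun k : ℕ => ((1:ℝ) / 64) ^ (k + 1)) atTop (𝓝 0) :=
      (tendsto_pow_atTop_nhds_zero_of_lt_one (by norm_num) (by norm_num)).comp
        (tendsto_add_atTop_nat 1)
    simpa using this.const_sub 1
  have htn : Tendsto (fun k => 4 * (1 - ‖t k‖) / (1 - r)) atTop (𝓝 0) := by
    have h3 : Tendsto (fun k => 1 - ‖t k‖) atTop (𝓝 0) := by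
      refine squeeze_zero (fun k => by linarith [ht.lt k]) (fun k => ?_) ht.sum.tendsto_atTop_zero
      have h4 : 0 ≤ 1 - ‖t k‖ := by linarith [ht.lt k]
      have h5 : (1:ℝ) ≤ 1000 ^ k := one_le_pow₀ (by norm_num)
      nlinarith
    have h4 := (h3.const_mul (4 / (1 - r)))
    rw [mul_zero] at h4
    refine h4.congr (fun k => ?_)
    ring
  have hj1 := (hRad.comp hpair).eventually (lt_mem_nhds hr1)
  have hj2 := (htn.comp hpair).eventually (gt_mem_nhds (show (0:ℝ) < 1 - r1 by linarith))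
  filter_upwards [hj1, hj2] with j hj1 hj2
  simp only [Function.comp] at hj1 hj2
  set k := Nat.pair n j with hk
  have hkn : (Nat.unpair k).1 = n := by rw [hk, Nat.unpair_pair]
  have htk := ht.lt k
  set F : Finset ℕ := (win_fin ht hs h1 h2 k).toFinset with hFdef
  have hFm : ∀ i, i ∈ F ↔ i ∈ S2 ∧ kf i = k := by
    intro i; rw [hFdef, Set.Finite.mem_toFinset]; rfl
  set g : ℝ → ℝ := fun θ => ∑ i ∈ F, (N i : ℝ) * (1 - rho (circleMap 0 r θ) (mob (t k) (s i)))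
    with hg
  -- `g` is small in the mean
  have hwi : ∀ i, ‖mob (t k) (s i)‖ < 1 := fun i => norm_mob_lt (hs i) htk
  have hgc : Continuous g := by
    rw [hg]
    apply continuous_finsetSum
    intro i _
    exact (continuous_const.sub (continuous_rho_circle (hwi i) hr0 hr1)).const_mul _ |>.congr
      (fun _ => rfl)
  have hmap : ∀ θ : ℝ, ‖circleMap 0 r θ‖ < 1 := by
    intro θ; rw [norm_circleMap_zero, abs_of_pos hr0]; exact hr1
  have hg0 : ∀ θ, 0 ≤ g θ := by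
    intro θ
    apply Finset.sum_nonneg
    intro i _
    have := (rho_lt_one (hmap θ) (hwi i)).le
    have : 0 ≤ 1 - rho (circleMap 0 r θ) (mob (t k) (s i)) := by linarith
    positivity
  have hgint : ∫ θ in (0:ℝ)..(2 * Real.pi), g θ ≤ (2 * Real.pi) * ((n : ℝ) * (1 / 4) ^ n) := by
    have hci : ∀ i ∈ F, IntervalIntegrable (fun θ : ℝ =>
        (N i : ℝ) * (1 - rho (circleMap 0 r θ) (mob (t k) (s i)))) volume 0 (2 * Real.pi) :=
      fun i _ => by
        have hc := continuous_rho_circle (hwi i) hr0 hr1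
        exact Continuous.intervalIntegrable (by fun_prop) _ _
    have hsum := intervalIntegral.integral_finsetSum hci
    change ∫ θ in (0:ℝ)..(2 * Real.pi),
      (∑ i ∈ F, (N i : ℝ) * (1 - rho (circleMap 0 r θ) (mob (t k) (s i)))) ≤ _
    rw [hsum]
    have h3 : ∀ i ∈ F, ∫ θ in (0:ℝ)..(2 * Real.pi),
        (N i : ℝ) * (1 - rho (circleMap 0 r θ) (mob (t k) (s i))) ≤
        (2 * Real.pi * n) * Ke (t k) (s i) := by
      intro i hi
      obtain ⟨hiS, hik⟩ := (hFm i).1 hi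
      rw [intervalIntegral.integral_const_mul]
      have h4 := mean_rho (hwi i) hr0 hr1
      have h5 : (N i : ℝ) ≤ n := by
        have := hN i hiS
        rw [hik, hkn] at this
        exact_mod_cast this
      have h6 : 1 - ‖mob (t k) (s i)‖ ≤ Ke (t k) (s i) := by
        rw [Ke_comm, Ke_eq (hs i) htk]
        change 1 - rho (s i) (t k) ≤ _
        have := rho_lt_one (hs i) htk
        nlinarith [rho_nonneg (s i) (t k)]
      have h7 : 0 ≤ 1 - ‖mob (t k) (s i)‖ := by linarith [hwi i]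
      calc (N i : ℝ) * ∫ θ in (0:ℝ)..(2 * Real.pi), (1 - rho (circleMap 0 r θ) (mob (t k) (s i)))
          ≤ (N i : ℝ) * (2 * Real.pi * (1 - ‖mob (t k) (s i)‖)) := by gcongr
        _ ≤ (n : ℝ) * (2 * Real.pi * Ke (t k) (s i)) := by gcongr
        _ = _ := by ring
    refine (Finset.sum_le_sum h3).trans ?_
    rw [← Finset.mul_sum]
    have h4 := h2 k F (fun i hi => (hFm i).1 hi)
    rw [hkn] at h4
    calc (2 * Real.pi * n) * ∑ i ∈ F, Ke (t k) (s i) ≤ (2 * Real.pi * n) * (1 / 4) ^ n := by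
          gcongr
      _ = _ := by ring
  -- the pointwise estimate
  have hpt : ∀ θ : ℝ, ‖Bl s N (Lm (t k) (r * Complex.exp (θ * I)))‖ < 1 - η → η / 2 ≤ g θ := by
    intro θ hθ
    rw [← circleMap_zero] at hθ
    set w := circleMap 0 r θ with hw
    have hw1 := hmap θ
    rw [← hw] at hw1
    set z := Lm (t k) w with hzdef
    have hz : ‖z‖ < 1 := norm_Lm_lt hw1 htk
    have hwn : ‖w‖ = r := by rw [hw, norm_circleMap_zero, abs_of_pos hr0]
    have hzr : r1 < ‖z‖ := by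
      have h3 : 1 - ‖z‖ ≤ Ke z 0 := by
        rw [Ke_eq hz (by simp), rho_zero_right]
        nlinarith [norm_nonneg z]
      have h4 : Ke z 0 ≤ 4 * (1 - ‖t k‖) / (1 - r) := by
        have h5 := Ke_Lm_left (s := 0) hw1 htk (by simp)
        have h6 : mob (t k) 0 = -t k := by unfold mob; simp
        rw [h6] at h5
        rw [hzdef, h5]
        have h7 := Ke_le_right (z := w) (a := -t k) hw1 (by rwa [norm_neg])
        rwa [norm_neg, hwn] at h7
      linarith
    have hrt : rho z (t k) < Rad k := by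
      rw [hzdef, rho_Lm hw1 htk, hwn]; exact hj1
    have hrest := win_rest ht hs h1 h2 hN hN0 hz hrt F (fun i hi hik => (hFm i).2 ⟨hi, hik⟩)
      (htail z hzr hz)
    rw [norm_Bl_eq_prod_mul hB hz F] at hθ
    have hprod := prod_pow_ge F N (fun i => rho z (s i)) (fun i => rho_nonneg _ _)
      (fun i => (rho_lt_one hz (hs i)).le)
    obtain ⟨hp1, hp2, hp3⟩ := hprod
    have hgθ : ∑ i ∈ F, (N i : ℝ) * (1 - rho z (s i)) = g θ := by
      rw [hg]
      apply Finset.sum_congr rfl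
      intro i _
      rw [hzdef, rho_Lm_left hw1 htk (hs i)]
    rw [hgθ] at hp1
    set P := ∏ i ∈ F, rho z (s i) ^ N i
    set Q := ‖Bl s (fun i => if i ∈ F then 0 else N i) z‖
    by_contra hcon
    push Not at hcon
    have hQ1 : 1 - 2 * (η / 4) ≤ Q := hrest
    have : P * Q ≥ 1 - η := by
      rcases le_or_gt (1 - 2 * (η / 4)) 0 with h | h
      · have : 0 ≤ P * Q := mul_nonneg hp3 (norm_nonneg _)
        linarith
      · have h3 : P * (1 - 2 * (η / 4)) ≤ P * Q := mul_le_mul_of_nonneg_left hQ1 hp3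
        nlinarith
    linarith
  -- Markov
  set μ := volume.restrict (Set.Ioc (0:ℝ) (2 * Real.pi)) with hμ
  have hmk := mul_meas_ge_le_integral_of_nonneg (μ := μ) (f := g)
    (Eventually.of_forall hg0) (by
      rw [hμ]
      exact (hgc.intervalIntegrable 0 (2 * Real.pi)).1) (η / 2)
  rw [intervalIntegral.integral_of_le (by positivity)] at hgint
  have hsub : {θ ∈ Set.Ioc (0:ℝ) (2 * Real.pi) |
      ‖Bl s N (Lm (t k) (r * Complex.exp (θ * I)))‖ < 1 - η} ⊆
      {θ | η / 2 ≤ g θ} ∩ Set.Ioc (0:ℝ) (2 * Real.pi) := fun θ hθ => ⟨hpt θ hθ.2, hθ.1⟩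
  have hmeas : MeasurableSet {θ | η / 2 ≤ g θ} := measurableSet_le measurable_const hgc.measurable
  refine (measure_mono hsub).trans ?_
  rw [← Measure.restrict_apply hmeas, ← hμ]
  have h3 : μ.real {θ | η / 2 ≤ g θ} ≤ η := by
    have h4 : η / 2 * μ.real {θ | η / 2 ≤ g θ} ≤ η / 2 * η := by linarith
    exact le_of_mul_le_mul_left h4 (by positivity)
  have hfin : μ {θ | η / 2 ≤ g θ} ≠ ⊤ := by
    have : IsFiniteMeasure μ := by rw [hμ]; infer_instance
    exact measure_ne_top _ _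
  rw [← ENNReal.ofReal_toReal hfin]
  exact ENNReal.ofReal_le_ofReal h3

end Pool.Agent.H14.GP
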