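import Pool.Agent.H14.GP.Defs2
import Pool.Agent.H14.GP.T
import Pool.Agent.H14.GP.Level
import Pool.Agent.H14.GP.MassTail
import Pool.Agent.H14.GP.Window

set_option autoImplicit false

open Complex Metric Set Filter Topology ComplexConjugate MeasureTheory

namespace Pool.Agent.H14.GP

/-! ## Helper lemmas for the dichotomy -/

private lemma dich_VV_le : (VV : Filter ℕ) ≤ atTop := Nat.hyperfilter_le_atTop

/-- The first alternative. -/
private lemma dich_tendsto_one {t : ℕ → ℂ} (ht : TSeq t) {N : ℕ → ℕ} (hN : ∀ k, N k ≤ 2 ^ k)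
    {s : ℕ → ℂ} (hs : ∀ i, ‖s i‖ < 1) {ω : Ultrafilter ℕ}
    (hω : Tendsto (fun i => ‖s i‖) ω (𝓝 1)) {c : ℕ → ℝ} (hc : Tendsto c ω (𝓝 1))
    (h : ∀ᶠ i in (ω : Filter ℕ), (∀ k, rad k ≤ rho (s i) (t k)) ∨
      ∃ k, rho (s i) (t k) < rad k ∧ c i ≤ rho (s i) (t k) ^ N k) :
    Tendsto (fun i => ‖Bl t N (s i)‖) ω (𝓝 1) := by
  have hUb := Bl_mem_Ub (BlData_t ht hN)
  have hle : ∀ i, ‖Bl t N (s i)‖ ≤ 1 := fun i =>
    hUb.2 (s i) (by rw [mem_ball_zero_iff]; exact hs i)
  rw [tendsto_order]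
  constructor
  · intro b hb
    set ε : ℝ := min ((1 - b) / 4) (1 / 2) with hε
    have hε0 : 0 < ε := lt_min (by linarith) (by norm_num)
    have hε1 : ε ≤ 1 / 2 := min_le_right _ _
    have hε2 : ε ≤ (1 - b) / 4 := min_le_left _ _
    have hbε : b < (1 - ε) * (1 - ε) := by nlinarith
    obtain ⟨r, hr1, hr⟩ := Bl_t_lower ht hN hε0
    filter_upwards [h, hω.eventually (lt_mem_nhds hr1),
      hc.eventually (lt_mem_nhds (show 1 - ε < 1 by linarith))] with i hi hri hci
    obtain ⟨hr2, hr3⟩ := hr (s i) hri (hs i)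
    rcases hi with hi | ⟨k, hk1, hk2⟩
    · have := hr3 hi
      nlinarith
    · have h1 := hr2 k hk1
      have h2 : (1 - ε) * (1 - ε) ≤ (1 - ε) * rho (s i) (t k) ^ N k :=
        mul_le_mul_of_nonneg_left (by linarith) (by linarith)
      linarith
  · intro b hb
    exact Eventually.of_forall fun i => lt_of_le_of_lt (hle i) hb

private lemma dich_BlData_mono {s : ℕ → ℂ} {N M : ℕ → ℕ} (h : BlData s N) (hM : ∀ i, M i ≤ N i) :
    BlData s M := by
  refine ⟨h.1, Summable.of_nonneg_of_le (fun i => ?_) (fun i => ?_) h.2⟩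
  · exact mul_nonneg (Nat.cast_nonneg _) (by linarith [h.1 i])
  · exact mul_le_mul_of_nonneg_right (by exact_mod_cast hM i) (by linarith [h.1 i])

/-- The second alternative. -/
private lemma dich_right {t u : ℕ → ℂ} {N : ℕ → ℕ} (h : BlData u N) (hG : Bl u N ∈ GG t)
    {s : ℕ → ℂ} {ω : Ultrafilter ℕ}
    (hz : ∀ q ≥ 1, Tendsto (fun i => Bl u (fun k => N k / q) (s i)) ω (𝓝 0)) :
    ∃ G ∈ GG t, ∀ q ≥ 1, ∃ Gq ∈ Ub, ∃ G' ∈ Ub,
      EqOn G (fun z => Gq z ^ q * G' z) (ball 0 1) ∧ Tendsto (fun i => Gq (s i)) ω (𝓝 0) := by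
  refine ⟨Bl u N, hG, fun q hq => ?_⟩
  have h1 : BlData u (fun k => N k / q) := dich_BlData_mono h fun i => Nat.div_le_self _ _
  have h2 : BlData u (fun k => N k % q) := dich_BlData_mono h fun i => Nat.mod_le _ _
  have h3 : BlData u (fun k => q * (N k / q)) := dich_BlData_mono h fun i => Nat.mul_div_le _ _
  refine ⟨_, Bl_mem_Ub h1, _, Bl_mem_Ub h2, ?_, hz q hq⟩
  have h4 : N = (fun k => q * (N k / q)) + (fun k => N k % q) := by
    funext k
    exact (Nat.div_add_mod (N k) q).symm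
  intro z hz
  have h5 := Bl_add h3 h2 hz
  rw [← h4] at h5
  rw [h5, Pi.mul_apply, Bl_pow h1 q hz]

/-- The mass of the points `s i` in the closed pseudo-hyperbolic disc of radius `r` around `a`. -/
private noncomputable def dich_mass (s : ℕ → ℂ) (a : ℂ) (r : ℝ) : ℝ :=
  ∑' i, if rho (s i) a ≤ r then Ke a (s i) else 0

section mass

variable {s : ℕ → ℂ} (hs : ∀ i, ‖s i‖ < 1) {C : ℝ}
  (hC : ∀ z : ℂ, ‖z‖ < 1 → ∀ F : Finset ℕ, ∑ k ∈ F, Ke z (s k) ≤ C)

include hs hC

private lemma dich_summable_Ke {a : ℂ} (ha : ‖a‖ < 1) : Summable fun i => Ke a (s i) :=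
  summable_of_sum_le (fun i => (Ke_pos ha (hs i)).le) (hC a ha)

private lemma dich_summable {a : ℂ} (ha : ‖a‖ < 1) (r : ℝ) :
    Summable fun i => if rho (s i) a ≤ r then Ke a (s i) else 0 := by
  refine Summable.of_nonneg_of_le (fun i => ?_) (fun i => ?_) (dich_summable_Ke hs hC ha)
  · split_ifs
    · exact (Ke_pos ha (hs i)).le
    · exact le_rfl
  · split_ifs
    · exact le_rfl
    · exact (Ke_pos ha (hs i)).le

private lemma dich_mass_nonneg {a : ℂ} (ha : ‖a‖ < 1) (r : ℝ) : 0 ≤ dich_mass s a r := by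
  refine tsum_nonneg fun i => ?_
  split_ifs
  · exact (Ke_pos ha (hs i)).le
  · exact le_rfl

private lemma dich_mass_mono {a : ℂ} (ha : ‖a‖ < 1) : Monotone (dich_mass s a) := by
  intro r r' hr
  refine (dich_summable hs hC ha r).tsum_le_tsum (fun i => ?_) (dich_summable hs hC ha r')
  by_cases h : rho (s i) a ≤ r
  · rw [if_pos h, if_pos (h.trans hr)]
  · rw [if_neg h]
    split_ifs
    · exact (Ke_pos ha (hs i)).le
    · exact le_rfl

private lemma dich_mass_le {a : ℂ} (ha : ‖a‖ < 1) (r : ℝ) : dich_mass s a r ≤ C := by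
  refine (dich_summable hs hC ha r).tsum_le_of_sum_le fun F => ?_
  refine le_trans (Finset.sum_le_sum fun i _ => ?_) (hC a ha F)
  split_ifs
  · exact le_rfl
  · exact (Ke_pos ha (hs i)).le

private lemma dich_window {a : ℂ} (ha : ‖a‖ < 1) {r r' : ℝ} (hrr : r ≤ r') (F : Finset ℕ)
    (hF : ∀ i ∈ F, r < rho (s i) a ∧ rho (s i) a ≤ r') :
    ∑ i ∈ F, Ke a (s i) ≤ dich_mass s a r' - dich_mass s a r := by
  rw [dich_mass, dich_mass,
    ← (dich_summable hs hC ha r').tsum_sub (dich_summable hs hC ha r)]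
  have hsum := (dich_summable hs hC ha r').sub (dich_summable hs hC ha r)
  refine le_trans (le_of_eq ?_) (hsum.sum_le_tsum F fun i _ => ?_)
  · refine Finset.sum_congr rfl fun i hi => ?_
    rw [if_pos (hF i hi).2, if_neg (not_le.2 (hF i hi).1), sub_zero]
  · by_cases h : rho (s i) a ≤ r
    · rw [if_pos h, if_pos (h.trans hrr), sub_self]
    · rw [if_neg h, sub_zero]
      split_ifs
      · exact (Ke_pos ha (hs i)).le
      · exact le_rfl

end mass

private lemma dich_pow_tendsto {a : ℕ → ℝ} (ha0 : ∀ n, 1 / 2 ≤ a n) (ha1 : ∀ n, a n < 1)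
    {A : ℕ → ℕ} (hA : ∀ n : ℕ, (n : ℝ) ^ 2 / (1 - a n) ≤ A n) {q : ℕ} (hq : 1 ≤ q) :
    Tendsto (fun n => a n ^ (A n / q)) atTop (𝓝 0) := by
  have hq' : (0:ℝ) < q := by exact_mod_cast hq
  have h1 : ∀ n, a n ^ (A n / q) ≤ Real.exp (-((n : ℝ) ^ 2 / q + -1)) := by
    intro n
    have h2 : a n ≤ Real.exp (a n - 1) := by
      have := Real.add_one_le_exp (a n - 1)
      linarith
    have h3 : (A n : ℝ) / q - 1 ≤ ((A n / q : ℕ) : ℝ) := by
      have h4 : A n < q * (A n / q + 1) := by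
        have := Nat.lt_mul_div_succ (A n) (Nat.lt_of_lt_of_le Nat.zero_lt_one hq)
        simpa using this
      have h5 : (A n : ℝ) < q * (((A n / q : ℕ) : ℝ) + 1) := by exact_mod_cast h4
      rw [sub_le_iff_le_add, div_le_iff₀ hq']
      nlinarith
    have h6 : (n : ℝ) ^ 2 ≤ (1 - a n) * A n := by
      have := hA n
      rw [div_le_iff₀ (by linarith [ha1 n])] at this
      linarith
    calc a n ^ (A n / q) ≤ Real.exp (a n - 1) ^ (A n / q) :=
          pow_le_pow_left₀ (by linarith [ha0 n]) h2 _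
      _ = Real.exp (((A n / q : ℕ) : ℝ) * (a n - 1)) := by rw [← Real.exp_nat_mul]
      _ ≤ Real.exp (-((n : ℝ) ^ 2 / q + -1)) := by
          rw [Real.exp_le_exp]
          have h7 : (1 - a n) * ((A n : ℝ) / q - 1) ≤ (1 - a n) * ((A n / q : ℕ) : ℝ) :=
            mul_le_mul_of_nonneg_left h3 (by linarith [ha1 n])
          have h8 : (n : ℝ) ^ 2 / q ≤ (1 - a n) * ((A n : ℝ) / q) := by
            rw [← mul_div_assoc]
            exact div_le_div_of_nonneg_right h6 hq'.le
          have h9 := ha0 n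
          nlinarith
  have h10 : Tendsto (fun n : ℕ => Real.exp (-((n : ℝ) ^ 2 / q + -1))) atTop (𝓝 0) := by
    refine Real.tendsto_exp_neg_atTop_nhds_zero.comp ?_
    refine tendsto_atTop_add_const_right _ _ (Tendsto.atTop_div_const hq' ?_)
    exact (tendsto_pow_atTop (by norm_num)).comp tendsto_natCast_atTop_atTop
  exact squeeze_zero (fun n => pow_nonneg (by linarith [ha0 n]) _) h1 h10

theorem dichotomy {t : ℕ → ℂ} (ht : TSeq t) {s : ℕ → ℂ} (hs : ∀ i, ‖s i‖ < 1) {C : ℝ}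
    (hC : ∀ z : ℂ, ‖z‖ < 1 → ∀ F : Finset ℕ, ∑ k ∈ F, Ke z (s k) ≤ C) (ω : Ultrafilter ℕ)
    (hω : Tendsto (fun i => ‖s i‖) ω (𝓝 1)) :
    (∃ N ∈ FF, Tendsto (fun i => ‖Bl t N (s i)‖) ω (𝓝 1)) ∨
    (∃ G ∈ GG t, ∀ q ≥ 1, ∃ Gq ∈ Ub, ∃ G' ∈ Ub,
      EqOn G (fun z => Gq z ^ q * G' z) (ball 0 1) ∧ Tendsto (fun i => Gq (s i)) ω (𝓝 0)) := by
  classical
  have hVid : Tendsto (fun j : ℕ => j) (VV : Filter ℕ) atTop := tendsto_id.mono_left dich_VV_le
  -- no point of the sequence in the discs around the `t k`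
  rcases ω.em (fun i => ∀ k, rad k ≤ rho (s i) (t k)) with hfar | hnear
  · left
    refine ⟨fun k => 2 ^ k, ⟨fun k => le_rfl, Eventually.of_forall fun n => ?_⟩, ?_⟩
    · refine tendsto_atTop_mono (fun j => ?_) hVid
      exact (Nat.right_le_pair n j).trans Nat.lt_two_pow_self.le
    · exact dich_tendsto_one ht (fun k => le_rfl) hs hω tendsto_const_nhds
        (hfar.mono fun i hi => Or.inl hi)
  have hex : ∀ i, ∃ k, (∃ k', rho (s i) (t k') < rad k') → rho (s i) (t k) < rad k := by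
    intro i
    by_cases h : ∃ k', rho (s i) (t k') < rad k'
    · exact ⟨h.choose, fun _ => h.choose_spec⟩
    · exact ⟨0, fun h' => absurd h' h⟩
  choose kf hkf using hex
  have hk : ∀ᶠ i in (ω : Filter ℕ), rho (s i) (t (kf i)) < rad (kf i) := by
    refine hnear.mono fun i hi => hkf i ?_
    push Not at hi
    exact hi
  -- bounded levels
  by_cases hlev : ∃ n0, ∀ᶠ i in (ω : Filter ℕ), (Nat.unpair (kf i)).1 = n0
  · left
    obtain ⟨n0, hn0⟩ := hlev
    have hN0 : ∀ k, (if (Nat.unpair k).1 = n0 then 0 else (Nat.unpair k).2) ≤ 2 ^ k := by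
      intro k
      split_ifs
      · exact Nat.zero_le _
      · exact (Nat.unpair_right_le k).trans Nat.lt_two_pow_self.le
    refine ⟨fun k => if (Nat.unpair k).1 = n0 then 0 else (Nat.unpair k).2, ⟨hN0, ?_⟩, ?_⟩
    · filter_upwards [dich_VV_le (eventually_ne_atTop n0)] with n hn
      refine hVid.congr fun j => ?_
      rw [Nat.unpair_pair, if_neg hn]
    · refine dich_tendsto_one ht hN0 hs hω (c := fun _ => 1) tendsto_const_nhds ?_
      filter_upwards [hn0, hk] with i hi hki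
      refine Or.inr ⟨kf i, hki, ?_⟩
      rw [if_pos hi, pow_zero]
  have hnn : Tendsto (fun i => (Nat.unpair (kf i)).1) (ω : Filter ℕ) atTop := by
    rw [Filter.tendsto_atTop]
    intro b
    have h1 : ∀ n ∈ Finset.range b, ∀ᶠ i in (ω : Filter ℕ), (Nat.unpair (kf i)).1 ≠ n := by
      intro n _
      rcases ω.em (fun i => (Nat.unpair (kf i)).1 = n) with h | h
      · exact absurd ⟨n, h⟩ hlev
      · exact h
    have h2 := (Filter.eventually_all_finset (Finset.range b)).2 h1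
    filter_upwards [h2] with i hi
    by_contra hlt
    exact hi _ (Finset.mem_range.2 (not_le.1 hlt)) rfl
  -- the radii
  have hm : ∀ n : ℕ, ∃ a : ℝ, 1 / 2 ≤ a ∧ a < 1 ∧ ∀ r < (1:ℝ), ∀ᶠ j in (VV : Filter ℕ),
      dich_mass s (t (Nat.pair n j)) r - dich_mass s (t (Nat.pair n j)) a < (1 / 4) ^ n := by
    intro n
    exact mass_tail (fun j => dich_mass s (t (Nat.pair n j))) C
      (fun j => dich_mass_mono hs hC (ht.lt _)) (fun j r => dich_mass_nonneg hs hC (ht.lt _) r)
      (fun j r => dich_mass_le hs hC (ht.lt _) r) (by positivity) (1 / 2) (by norm_num)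
  choose a ha0 ha1 ha2 using hm
  let P : ℕ → ℕ → Prop := fun k p =>
    dich_mass s (t k) (1 - (1 / 2) ^ p) - dich_mass s (t k) (a (Nat.unpair k).1) <
      (1 / 4) ^ (Nat.unpair k).1
  let p : ℕ → ℕ := fun k => Nat.findGreatest (P k) k
  have hP0 : ∀ k, P k 0 := by
    intro k
    have h1 : dich_mass s (t k) (1 - (1 / 2) ^ 0) ≤ dich_mass s (t k) (a (Nat.unpair k).1) :=
      dich_mass_mono hs hC (ht.lt k) (by
        have := ha0 (Nat.unpair k).1
        norm_num
        linarith)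
    have h2 : (0:ℝ) < (1 / 4) ^ (Nat.unpair k).1 := by positivity
    change _ < _
    linarith
  have hPp : ∀ k, P k (p k) := fun k => Nat.findGreatest_spec (Nat.zero_le k) (hP0 k)
  have hp : ∀ n, Tendsto (fun j => p (Nat.pair n j)) (VV : Filter ℕ) atTop := by
    intro n
    rw [Filter.tendsto_atTop]
    intro b
    filter_upwards [ha2 n (1 - (1 / 2) ^ b) (by
        have : (0:ℝ) < (1 / 2) ^ b := by positivity
        linarith), hVid.eventually (eventually_ge_atTop b)] with j hj hbj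
    refine Nat.le_findGreatest (hbj.trans (Nat.right_le_pair n j)) ?_
    change _ < _
    rw [Nat.unpair_pair]
    exact hj
  -- the multiplicities
  have hAex : ∀ n : ℕ, ∃ A : ℕ, (n : ℝ) ^ 2 / (1 - a n) ≤ A := fun n => exists_nat_ge _
  choose A hA using hAex
  let N3 : ℕ → ℕ := fun k => if A (Nat.unpair k).1 ≤ (Nat.unpair k).2 then
    min (2 ^ k) (2 ^ (p k) / ((Nat.unpair k).1 + 1)) else 0
  have hN3 : ∀ k, N3 k ≤ 2 ^ k := by
    intro k
    change (if _ then _ else _) ≤ _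
    split_ifs
    · exact min_le_left _ _
    · exact Nat.zero_le _
  have hN3FF : N3 ∈ FF := by
    refine ⟨hN3, Eventually.of_forall fun n => ?_⟩
    rw [Filter.tendsto_atTop]
    intro b
    filter_upwards [hVid.eventually (eventually_ge_atTop (A n)),
      hVid.eventually (eventually_ge_atTop b),
      (hp n).eventually (eventually_ge_atTop (b * (n + 1)))] with j h1 h2 h3
    change b ≤ (if _ then _ else _)
    rw [Nat.unpair_pair, if_pos h1]
    refine le_min ?_ ?_
    · exact h2.trans ((Nat.right_le_pair n j).trans Nat.lt_two_pow_self.le)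
    · rw [Nat.le_div_iff_mul_le (Nat.succ_pos n)]
      exact h3.trans Nat.lt_two_pow_self.le
  -- first case: above the level
  rcases ω.em (fun i => (Nat.unpair (kf i)).2 < A (Nat.unpair (kf i)).1) with hj | hj
  · left
    refine ⟨N3, hN3FF, dich_tendsto_one ht hN3 hs hω (c := fun _ => 1) tendsto_const_nhds ?_⟩
    filter_upwards [hj, hk] with i hi hki
    refine Or.inr ⟨kf i, hki, ?_⟩
    have : N3 (kf i) = 0 := if_neg (not_le.2 hi)
    rw [this, pow_zero]
  -- second case: beyond the window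
  rcases ω.em (fun i => 1 - (1 / 2) ^ (p (kf i)) < rho (s i) (t (kf i))) with hr | hr
  · left
    have hc : Tendsto (fun i => 1 - 1 / (((Nat.unpair (kf i)).1 : ℝ) + 1)) (ω : Filter ℕ)
        (𝓝 1) := by
      have h1 : Tendsto (fun n : ℕ => 1 - 1 / ((n : ℝ) + 1)) atTop (𝓝 (1 - 0)) :=
        tendsto_const_nhds.sub tendsto_one_div_add_atTop_nhds_zero_nat
      rw [sub_zero] at h1
      exact h1.comp hnn
    refine ⟨N3, hN3FF, dich_tendsto_one ht hN3 hs hω hc ?_⟩
    filter_upwards [hj, hr, hk] with i hji hi hki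
    refine Or.inr ⟨kf i, hki, ?_⟩
    have h1 : N3 (kf i) ≤ 2 ^ (p (kf i)) / ((Nat.unpair (kf i)).1 + 1) := by
      have : N3 (kf i) = min (2 ^ (kf i)) (2 ^ (p (kf i)) / ((Nat.unpair (kf i)).1 + 1)) :=
        if_pos (not_lt.1 hji)
      rw [this]
      exact min_le_right _ _
    have h2 : ((N3 (kf i) : ℕ) : ℝ) * (((Nat.unpair (kf i)).1 : ℝ) + 1) ≤ 2 ^ (p (kf i)) := by
      rw [Nat.le_div_iff_mul_le (Nat.succ_pos _)] at h1
      exact_mod_cast h1
    have h3 : (0:ℝ) < (1 / 2) ^ (p (kf i)) := by positivity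
    have h4 : (1 / 2 : ℝ) ^ (p (kf i)) ≤ 1 := pow_le_one₀ (by norm_num) (by norm_num)
    have h5 : 1 + ((N3 (kf i) : ℕ) : ℝ) * (-(1 / 2) ^ (p (kf i))) ≤
        (1 + (-(1 / 2) ^ (p (kf i)))) ^ N3 (kf i) :=
      one_add_mul_le_pow (by linarith) _
    have h6 : (1 + (-(1 / 2) ^ (p (kf i)))) ^ N3 (kf i) ≤ rho (s i) (t (kf i)) ^ N3 (kf i) :=
      pow_le_pow_left₀ (by linarith) (by linarith) _
    have h7 : ((N3 (kf i) : ℕ) : ℝ) * (1 / 2) ^ (p (kf i)) ≤
        1 / (((Nat.unpair (kf i)).1 : ℝ) + 1) := by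
      rw [le_div_iff₀ (by positivity)]
      have h8 : (2:ℝ) ^ (p (kf i)) * (1 / 2) ^ (p (kf i)) = 1 := by
        rw [← mul_pow]
        norm_num
      calc ((N3 (kf i) : ℕ) : ℝ) * (1 / 2) ^ (p (kf i)) * (((Nat.unpair (kf i)).1 : ℝ) + 1)
          = (((N3 (kf i) : ℕ) : ℝ) * (((Nat.unpair (kf i)).1 : ℝ) + 1)) * (1 / 2) ^ (p (kf i)) := by
            ring
        _ ≤ 2 ^ (p (kf i)) * (1 / 2) ^ (p (kf i)) := mul_le_mul_of_nonneg_right h2 h3.le
        _ = 1 := h8
    linarith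
  right
  -- third case: the level
  rcases ω.em (fun i => rho (s i) (t (kf i)) ≤ a (Nat.unpair (kf i)).1) with hin | hout
  · refine dich_right (BlData_t ht (lev_le A)) (GG_level ht A) fun q hq => ?_
    have h1 : BlData t (fun k => lev A k / q) :=
      dich_BlData_mono (BlData_t ht (lev_le A)) fun i => Nat.div_le_self _ _
    rw [tendsto_zero_iff_norm_tendsto_zero]
    refine squeeze_zero' (g := fun i => a (Nat.unpair (kf i)).1 ^ (A (Nat.unpair (kf i)).1 / q))
      (Eventually.of_forall fun i => norm_nonneg _) ?_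
      ((dich_pow_tendsto ha0 ha1 hA hq).comp hnn)
    filter_upwards [hin, hj] with i hi hji
    have h2 := norm_Bl_le_pow h1 (hs i) (kf i)
    have h3 : lev A (kf i) = A (Nat.unpair (kf i)).1 := if_pos (not_lt.1 hji)
    rw [h3] at h2
    exact h2.trans (pow_le_pow_left₀ (rho_nonneg _ _) hi _)
  -- fourth case: the window
  · let S2 : Set ℕ := {i | rho (s i) (t (kf i)) < rad (kf i) ∧
      a (Nat.unpair (kf i)).1 < rho (s i) (t (kf i)) ∧
      rho (s i) (t (kf i)) ≤ 1 - (1 / 2) ^ (p (kf i))}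
    let N : ℕ → ℕ := fun i => if i ∈ S2 then (Nat.unpair (kf i)).1 else 0
    have hS2 : ∀ᶠ i in (ω : Filter ℕ), i ∈ S2 := by
      filter_upwards [hk, hr, hout] with i h1 h2 h3
      exact ⟨h1, not_le.1 h3, not_lt.1 h2⟩
    obtain ⟨hd, hG⟩ := GG_window ht hs S2 kf
      (fun i hi => ⟨(ha0 _).trans hi.2.1.le, hi.1⟩)
      (fun k F hF => by
        by_cases hrr : a (Nat.unpair k).1 ≤ 1 - (1 / 2) ^ (p k)
        · refine (dich_window hs hC (ht.lt k) hrr F fun i hi => ?_).trans (hPp k).le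
          obtain ⟨h1, h2⟩ := hF i hi
          subst h2
          exact ⟨h1.2.1, h1.2.2⟩
        · have hempty : F = ∅ := by
            rw [Finset.eq_empty_iff_forall_notMem]
            intro i hi
            obtain ⟨h1, h2⟩ := hF i hi
            subst h2
            exact hrr (h1.2.1.le.trans h1.2.2)
          rw [hempty, Finset.sum_empty]
          positivity)
      N (fun i hi => le_of_eq (if_pos hi)) (fun i hi => if_neg hi)
    refine dich_right hd hG fun q hq => ?_
    have h1 : BlData s (fun k => N k / q) := dich_BlData_mono hd fun i => Nat.div_le_self _ _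
    refine tendsto_nhds_of_eventually_eq ?_
    filter_upwards [hS2, hnn.eventually (eventually_ge_atTop q)] with i hi hqi
    refine Bl_zero_of h1 ?_
    have h2 : N i = (Nat.unpair (kf i)).1 := if_pos hi
    change N i / q ≠ 0
    rw [h2]
    exact (Nat.div_pos hqi (Nat.lt_of_lt_of_le Nat.zero_lt_one hq)).ne'

end Pool.Agent.H14.GP
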