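import Pool.Agent.H14.GP.Bl

set_option autoImplicit false

open Complex Metric Set Filter Topology ComplexConjugate MeasureTheory

namespace Pool.Agent.H14.GP

/-! ## Module C: `Fact.lean` -/

namespace FactAux

lemma analyticAt_of_mem {f : ℂ → ℂ} (hf : DifferentiableOn ℂ f (ball 0 1)) {z : ℂ}
    (hz : ‖z‖ < 1) : AnalyticAt ℂ f z :=
  hf.analyticAt (isOpen_ball.mem_nhds (by simpa using hz))

/-- a function of the unit ball of `H^∞` vanishing at `a` is bounded by `rho _ a` -/
lemma norm_le_rho {f : ℂ → ℂ} (hf : f ∈ Ub) {a z : ℂ} (ha : ‖a‖ < 1) (h0 : f a = 0)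
    (hz : ‖z‖ < 1) : ‖f z‖ ≤ rho z a := by
  have hg : (fun u => f (Lm a u)) ∈ Ub := by
    refine ⟨hf.1.comp (differentiableOn_Lm ha) ?_, ?_⟩
    · intro u hu
      have := norm_Lm_lt (a := a) (by simpa using hu) ha
      simpa using this
    · intro u hu
      exact hf.2 _ (by simpa using norm_Lm_lt (a := a) (by simpa using hu) ha)
  have e0 : Lm a 0 = a := by unfold Lm; simp
  have := Complex.dist_le_div_mul_dist_of_mapsTo_ball (f := fun u => f (Lm a u)) (c := 0)
      (R₁ := 1) (R₂ := 1) (z := mob a z) hg.1 ?_ (by simpa using norm_mob_lt hz ha)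
  · simp only [e0, h0, Lm_mob hz ha, dist_zero_right] at this
    simpa [rho] using this
  · intro w hw
    rw [mem_closedBall]
    simp only [e0, h0, dist_zero_right]
    exact hg.2 w hw

/-- the unimodular constant in `bf` -/
noncomputable def kap (a : ℂ) : ℂ := if a = 0 then 1 else -((‖a‖ : ℂ) / a)

lemma kap_ne (a : ℂ) : kap a ≠ 0 := by
  unfold kap
  split_ifs with h
  · exact one_ne_zero
  · have : (‖a‖ : ℂ) ≠ 0 := by
      simpa using h
    exact neg_ne_zero.2 (div_ne_zero this h)

lemma bf_eq (a z : ℂ) : bf a z = kap a * ((z - a) / (1 - conj a * z)) := by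
  unfold bf kap
  split_ifs with h
  · subst h; simp
  · rw [← neg_sub z a, neg_div, mul_neg, neg_mul]

lemma le_one_of_punctured {g : ℂ → ℂ} {a : ℂ} (hg : ContinuousAt g a)
    (h : ∀ᶠ z in 𝓝[≠] a, ‖g z‖ ≤ 1) : ‖g a‖ ≤ 1 :=
  le_of_tendsto (hg.norm.tendsto.mono_left nhdsWithin_le_nhds) h

lemma div_one {f : ℂ → ℂ} (hf : f ∈ Ub) {a : ℂ} (ha : ‖a‖ < 1) (h0 : f a = 0) :
    ∃ g ∈ Ub, EqOn f (bf a * g) (ball 0 1) := by
  have hds : DifferentiableOn ℂ (dslope f a) (ball 0 1) :=
    (Complex.differentiableOn_dslope (isOpen_ball.mem_nhds (by simpa using ha))).2 hf.1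
  have hdg : DifferentiableOn ℂ (fun z => (kap a)⁻¹ * (1 - conj a * z) * dslope f a z)
      (ball 0 1) := by
    apply DifferentiableOn.mul _ hds
    fun_prop
  have heq : EqOn f (bf a * fun z => (kap a)⁻¹ * (1 - conj a * z) * dslope f a z)
      (ball 0 1) := by
    intro z hz
    have hz' : ‖z‖ < 1 := by simpa using hz
    have h1 := one_sub_conj_mul_ne hz' ha
    have h2 := kap_ne a
    have h3 := sub_smul_dslope f a z
    rw [h0, sub_zero, smul_eq_mul] at h3
    simp only [Pi.mul_apply]
    rw [bf_eq, ← h3, show kap a * ((z - a) / (1 - conj a * z)) *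
      ((kap a)⁻¹ * (1 - conj a * z) * dslope f a z) = (kap a * (kap a)⁻¹) *
        ((z - a) / (1 - conj a * z) * (1 - conj a * z)) * dslope f a z by ring,
      mul_inv_cancel₀ h2, div_mul_cancel₀ _ h1, one_mul]
  refine ⟨_, ⟨hdg, ?_⟩, heq⟩
  have hmain : ∀ z ∈ ball (0:ℂ) 1, z ≠ a →
      ‖(kap a)⁻¹ * (1 - conj a * z) * dslope f a z‖ ≤ 1 := by
    intro z hz hne
    have hz' : ‖z‖ < 1 := by simpa using hz
    have h1 := heq hz
    simp only [Pi.mul_apply] at h1
    have h2 : ‖f z‖ = rho z a * ‖(kap a)⁻¹ * (1 - conj a * z) * dslope f a z‖ := by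
      rw [h1, norm_mul, norm_bf hz' ha]
    have h3 := norm_le_rho hf ha h0 hz'
    have h4 := rho_pos_of_ne hz' ha hne
    rw [h2] at h3
    by_contra hcon
    push Not at hcon
    nlinarith
  intro z hz
  by_cases hza : z = a
  · subst hza
    have hc : ContinuousAt (fun w => (kap z)⁻¹ * (1 - conj z * w) * dslope f z w) z :=
      (hdg.differentiableAt (isOpen_ball.mem_nhds hz)).continuousAt
    refine le_one_of_punctured
      (g := fun w => (kap z)⁻¹ * (1 - conj z * w) * dslope f z w) hc ?_
    filter_upwards [self_mem_nhdsWithin,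
      mem_nhdsWithin_of_mem_nhds (isOpen_ball.mem_nhds hz)] with w hw1 hw2
    exact hmain w hw2 hw1
  · exact hmain z hz hza

lemma bf_differentiableOn {a : ℂ} (ha : ‖a‖ < 1) : DifferentiableOn ℂ (bf a) (ball 0 1) := by
  have h : bf a = fun z => kap a * mob a z := by
    ext z; rw [bf_eq]; rfl
  rw [h]
  exact (differentiableOn_mob ha).const_mul _

lemma order_bf {a z : ℂ} (ha : ‖a‖ < 1) (hz : ‖z‖ < 1) :
    analyticOrderAt (bf a) z = if z = a then 1 else 0 := by
  have han := analyticAt_of_mem (bf_differentiableOn ha) hz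
  split_ifs with h
  · subst h
    have : analyticOrderAt (bf z) z = ((1 : ℕ) : ℕ∞) := by
      rw [han.analyticOrderAt_eq_natCast]
      have h1 := one_sub_conj_mul_ne hz hz
      refine ⟨fun w => kap z * (1 / (1 - conj z * w)), ?_, ?_, ?_⟩
      · have : AnalyticAt ℂ (fun w : ℂ => 1 - conj z * w) z := by fun_prop
        exact analyticAt_const.mul (analyticAt_const.div this h1)
      · exact mul_ne_zero (kap_ne z) (one_div_ne_zero h1)
      · refine Eventually.of_forall fun w => ?_
        rw [bf_eq, pow_one, smul_eq_mul]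
        ring
    simpa using this
  · rw [analyticOrderAt_eq_zero]
    right
    intro h0
    have h1 : ‖bf a z‖ = 0 := by rw [h0]; simp
    rw [norm_bf hz ha, rho_eq_zero_iff hz ha] at h1
    exact h h1

/-- bound by finitely many zeros counted with multiplicity -/
lemma norm_le_prod (F : Finset (ℂ × ℕ)) : ∀ f ∈ Ub, (∀ p ∈ F, ‖p.1‖ < 1) →
    (∀ z, ‖z‖ < 1 → ((F.filter (fun p => p.1 = z)).card : ℕ∞) ≤ analyticOrderAt f z) →
    ∀ z, ‖z‖ < 1 → ‖f z‖ ≤ ∏ p ∈ F, rho z p.1 := by
  classical
  induction F using Finset.induction_on with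
  | empty =>
    intro f hf _ _ z hz
    simpa using hf.2 z (by simpa using hz)
  | insert p F hp ih =>
    intro f hf hF hord z hz
    have ha : ‖p.1‖ < 1 := hF p (Finset.mem_insert_self _ _)
    have hfa : f p.1 = 0 := by
      apply apply_eq_zero_of_analyticOrderAt_ne_zero
      intro h0
      have h1 := hord p.1 ha
      rw [h0] at h1
      have h2 : 0 < ((insert p F).filter (fun q => q.1 = p.1)).card :=
        Finset.card_pos.2 ⟨p, by simp⟩
      have h3 : ((insert p F).filter (fun q => q.1 = p.1)).card = 0 := by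
        exact_mod_cast nonpos_iff_eq_zero.1 h1
      omega
    obtain ⟨g, hg, hfg⟩ := div_one hf ha hfa
    have hord' : ∀ w, ‖w‖ < 1 →
        ((F.filter (fun p => p.1 = w)).card : ℕ∞) ≤ analyticOrderAt g w := by
      intro w hw
      have h1 := hord w hw
      have h2 : analyticOrderAt f w = (if w = p.1 then 1 else 0) + analyticOrderAt g w := by
        rw [← order_bf ha hw, ← analyticOrderAt_mul
          (analyticAt_of_mem (bf_differentiableOn ha) hw) (analyticAt_of_mem hg.1 hw)]
        apply analyticOrderAt_congr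
        filter_upwards [isOpen_ball.mem_nhds (x := w) (s := ball (0:ℂ) 1)
          (by simpa using hw)] with u hu
        exact hfg hu
      rw [h2, Finset.filter_insert] at h1
      by_cases hw' : w = p.1
      · subst hw'
        simp only [if_true] at h1
        rw [Finset.card_insert_of_notMem (by simp [hp])] at h1
        push_cast at h1
        rw [add_comm] at h1
        exact (ENat.add_le_add_iff_left (by simp)).1 h1
      · rw [if_neg (fun h => hw' h.symm), if_neg hw', zero_add] at h1
        exact h1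
    have h4 := ih g hg (fun q hq => hF q (Finset.mem_insert_of_mem hq)) hord' z hz
    rw [Finset.prod_insert hp, hfg (by simpa using hz), Pi.mul_apply, norm_mul, norm_bf hz ha]
    exact mul_le_mul_of_nonneg_left h4 (rho_nonneg _ _)

/-- the set of zeros with multiplicities -/
def TT (f : ℂ → ℂ) : Set (ℂ × ℕ) := {p | ‖p.1‖ < 1 ∧ (p.2 : ℕ∞) < analyticOrderAt f p.1}

lemma order_ne_top {f : ℂ → ℂ} (hf : f ∈ Ub) (hne : ∃ z ∈ ball (0:ℂ) 1, f z ≠ 0) {z : ℂ}
    (hz : ‖z‖ < 1) : analyticOrderAt f z ≠ ⊤ := by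
  obtain ⟨w, hw, hfw⟩ := hne
  have hU : IsPreconnected (ball (0:ℂ) 1) := (convex_ball 0 1).isPreconnected
  refine AnalyticOnNhd.analyticOrderAt_ne_top_of_isPreconnected (x := w)
    (hf.1.analyticOnNhd isOpen_ball) hU hw (by simpa using hz) ?_
  have := (analyticAt_of_mem hf.1 (z := w) (by simpa using hw)).analyticOrderAt_eq_zero.2 hfw
  rw [this]
  simp

lemma norm_le_prod_TT {f : ℂ → ℂ} (hf : f ∈ Ub) (hne : ∃ z ∈ ball (0:ℂ) 1, f z ≠ 0)
    (F : Finset (ℂ × ℕ)) (hF : ∀ p ∈ F, p ∈ TT f) {z : ℂ} (hz : ‖z‖ < 1) :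
    ‖f z‖ ≤ ∏ p ∈ F, rho z p.1 := by
  classical
  refine norm_le_prod F f hf (fun p hp => (hF p hp).1) ?_ z hz
  intro w hw
  obtain ⟨n, hn⟩ := ENat.ne_top_iff_exists.1 (order_ne_top hf hne hw)
  rw [← hn]
  have h1 : (F.filter (fun p => p.1 = w)).card ≤ (Finset.range n).card := by
    apply Finset.card_le_card_of_injOn (fun p => p.2)
    · intro p hp
      simp only [Finset.coe_filter, Set.mem_ofPred_eq] at hp
      have h2 := (hF p hp.1).2
      rw [hp.2, ← hn] at h2
      have h3 : p.2 < n := by exact_mod_cast h2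
      simpa using h3
    · intro p hp q hq hpq
      simp only [Finset.coe_filter, Set.mem_ofPred_eq] at hp hq
      exact Prod.ext (hp.2.trans hq.2.symm) hpq
  rw [Finset.card_range] at h1
  exact_mod_cast h1

lemma summable_TT {f : ℂ → ℂ} (hf : f ∈ Ub) (hne : ∃ z ∈ ball (0:ℂ) 1, f z ≠ 0) :
    Summable (fun p : TT f => 1 - ‖p.1.1‖) := by
  obtain ⟨w, hw, hfw⟩ := id hne
  have hw' : ‖w‖ < 1 := by simpa using hw
  refine summable_of_sum_le (c := 8 / (1 - ‖w‖) * (- Real.log ‖f w‖)) ?_ ?_
  · intro p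
    have := p.2.1
    simp only [Pi.zero_apply]
    linarith
  · intro u
    have hfpos : 0 < ‖f w‖ := norm_pos_iff.2 hfw
    have h1 : ‖f w‖ ≤ ∏ p ∈ u, rho w p.1.1 := by
      have := norm_le_prod_TT hf hne (u.map ⟨Subtype.val, Subtype.val_injective⟩) (by
        intro p hp
        simp only [Finset.mem_map, Function.Embedding.coeFn_mk] at hp
        obtain ⟨q, _, rfl⟩ := hp
        exact q.2) hw'
      rw [Finset.prod_map] at this
      exact this
    have hpos : ∀ p : TT f, 0 < rho w p.1.1 := by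
      intro p
      refine rho_pos_of_ne hw' p.2.1 ?_
      intro hwp
      apply hfw
      rw [hwp]
      apply apply_eq_zero_of_analyticOrderAt_ne_zero
      intro h0
      have := p.2.2
      rw [h0] at this
      simp at this
    have h2 : Real.log ‖f w‖ ≤ ∑ p ∈ u, Real.log (rho w p.1.1) := by
      rw [← Real.log_prod (fun p _ => (hpos p).ne')]
      exact Real.log_le_log hfpos h1
    have h3 : ∀ p ∈ u, (1 - ‖p.1.1‖) ≤ 8 / (1 - ‖w‖) * (- Real.log (rho w p.1.1)) := by
      intro p _
      have e1 := one_sub_le_Ke hw' p.2.1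
      have e2 := half_Ke_le hw' p.2.1 (fun h => by
        have := hpos p
        rw [h, rho_self] at this
        exact lt_irrefl _ this)
      have e3 : 0 < 1 - ‖w‖ := by linarith
      rw [div_mul_eq_mul_div, le_div_iff₀ e3]
      linarith
    calc ∑ p ∈ u, (1 - ‖p.1.1‖) ≤ ∑ p ∈ u, 8 / (1 - ‖w‖) * (- Real.log (rho w p.1.1)) :=
          Finset.sum_le_sum h3
      _ = 8 / (1 - ‖w‖) * (- ∑ p ∈ u, Real.log (rho w p.1.1)) := by
          rw [← Finset.mul_sum, Finset.sum_neg_distrib]
      _ ≤ 8 / (1 - ‖w‖) * (- Real.log ‖f w‖) := by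
          apply mul_le_mul_of_nonneg_left
          · linarith
          · apply div_nonneg (by norm_num); linarith

lemma ind_of_mem {A : Set ℕ} {i : ℕ} (h : i ∈ A) : ind A i = 1 := by
  simp [ind, h]

lemma ind_of_notMem {A : Set ℕ} {i : ℕ} (h : i ∉ A) : ind A i = 0 := by
  simp [ind, h]

lemma blData_mono {s : ℕ → ℂ} {A B : Set ℕ} (h : BlData s (ind A)) (hBA : B ⊆ A) :
    BlData s (ind B) := by
  refine ⟨h.1, Summable.of_nonneg_of_le ?_ ?_ h.2⟩
  · intro i
    have := h.1 i
    apply mul_nonneg (Nat.cast_nonneg _)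
    linarith
  · intro i
    have := h.1 i
    by_cases hi : i ∈ B
    · rw [ind_of_mem hi, ind_of_mem (hBA hi)]
    · rw [ind_of_notMem hi]
      simp only [Nat.cast_zero, zero_mul]
      apply mul_nonneg (Nat.cast_nonneg _)
      linarith

lemma ind_add {A : Set ℕ} {F : Set ℕ} (hF : F ⊆ A) : ind A = ind F + ind (A \ F) := by
  ext i
  simp only [Pi.add_apply]
  by_cases hi : i ∈ F
  · rw [ind_of_mem hi, ind_of_mem (hF hi), ind_of_notMem (fun h => h.2 hi)]
  · by_cases hA : i ∈ A
    · rw [ind_of_mem hA, ind_of_notMem hi, ind_of_mem (show i ∈ A \ _ from ⟨hA, hi⟩)]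
    · rw [ind_of_notMem hA, ind_of_notMem hi, ind_of_notMem (fun h => hA h.1)]

/-- `|f| ≤ |B|` -/
lemma norm_le_norm_Bl {f : ℂ → ℂ} (hf : f ∈ Ub) (hne : ∃ z ∈ ball (0:ℂ) 1, f z ≠ 0)
    {s : ℕ → ℂ} {A : Set ℕ} (hs : BlData s (ind A)) (e : ℕ → TT f)
    (he : ∀ i ∈ A, s i = (e i).1.1) (hinj : InjOn e A) {z : ℂ} (hz : ‖z‖ < 1) :
    ‖f z‖ ≤ ‖Bl s (ind A) z‖ := by
  classical
  set K : ℕ → ℝ := fun i => (ind A i : ℝ) * Ke z (s i) with hK
  have hKs : Summable K := summable_Ke hs hz
  have hfin : ∀ᶠ i in cofinite, K i < 3 / 4 :=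
    hKs.tendsto_cofinite_zero.eventually (gt_mem_nhds (by norm_num))
  rw [Filter.eventually_cofinite] at hfin
  have hev : ∀ᶠ F : Finset ℕ in atTop,
      ‖f z‖ * Real.exp (-2 * ∑' a : { x // x ∉ F }, K a) ≤ ‖Bl s (ind A) z‖ := by
    filter_upwards [eventually_ge_atTop hfin.toFinset] with F hF
    have hN' : BlData s (fun i => if i ∈ F then 0 else ind A i) := by
      have h1 : (fun i => if i ∈ F then 0 else ind A i) = ind (A \ ↑F) := by
        ext i
        by_cases hi : i ∈ F
        · rw [if_pos hi, ind_of_notMem (fun h => h.2 hi)]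
        · rw [if_neg hi]
          by_cases hA : i ∈ A
          · rw [ind_of_mem hA, ind_of_mem (show i ∈ A \ _ from ⟨hA, hi⟩)]
          · rw [ind_of_notMem hA, ind_of_notMem (fun h => hA h.1)]
      rw [h1]
      exact blData_mono hs Set.sdiff_subset
    have h1 := norm_Bl_eq_prod_mul hs hz F
    have h2 := exp_le_norm_Bl hN' hz (c := 1 / 2) (by norm_num) (by
      intro i hi
      have hiF : i ∉ F := fun h => hi (if_pos h)
      have hiA : i ∈ A := by
        by_contra h
        apply hi
        rw [if_neg hiF, ind_of_notMem h]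
      have h3 : K i < 3 / 4 := by
        by_contra h
        apply hiF
        apply hF
        simpa using h
      simp only [hK, ind_of_mem hiA, Nat.cast_one, one_mul] at h3
      rw [Ke_eq hz (hs.1 i)] at h3
      have := rho_nonneg z (s i)
      nlinarith)
    have h3 : ∑' i, ((if i ∈ F then 0 else ind A i : ℕ) : ℝ) * Ke z (s i) =
        ∑' a : { x // x ∉ F }, K a := by
      have : (∑' a : { x // x ∉ F }, K a) = ∑' a : ((↑F : Set ℕ)ᶜ : Set ℕ), K a := rfl
      rw [this, tsum_subtype]
      apply tsum_congr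
      intro i
      by_cases hi : i ∈ F
      · rw [if_pos hi, Set.indicator_of_notMem (by simpa using hi)]
        simp
      · rw [if_neg hi, Set.indicator_of_mem (by simpa using hi)]
    have h4 : ‖f z‖ ≤ ∏ i ∈ F, rho z (s i) ^ ind A i := by
      have h5 := norm_le_prod_TT hf hne
        ((F.filter (fun i => i ∈ A)).image (fun i => (e i).1)) (by
          intro p hp
          simp only [Finset.mem_image, Finset.mem_filter] at hp
          obtain ⟨i, _, rfl⟩ := hp
          exact (e i).2) hz
      rw [Finset.prod_image] at h5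
      · refine h5.trans (le_of_eq ?_)
        rw [Finset.prod_filter]
        apply Finset.prod_congr rfl
        intro i _
        by_cases hi : i ∈ A
        · rw [if_pos hi, ind_of_mem hi, pow_one, he i hi]
        · rw [if_neg hi, ind_of_notMem hi, pow_zero]
      · intro i hi j hj hij
        simp only [Finset.coe_filter, Set.mem_ofPred_eq] at hi hj
        exact hinj hi.2 hj.2 (Subtype.ext hij)
    rw [h1, ← h3]
    have h6 : Real.exp (-2 * ∑' i, ((if i ∈ F then 0 else ind A i : ℕ) : ℝ) * Ke z (s i)) ≤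
        ‖Bl s (fun i => if i ∈ F then 0 else ind A i) z‖ := by
      convert h2 using 3
      norm_num
    exact mul_le_mul h4 h6 (Real.exp_pos _).le
      (Finset.prod_nonneg fun i _ => pow_nonneg (rho_nonneg _ _) _)
  have hlim : Tendsto (fun F : Finset ℕ =>
      ‖f z‖ * Real.exp (-2 * ∑' a : { x // x ∉ F }, K a)) atTop
      (𝓝 (‖f z‖ * Real.exp (-2 * 0))) := by
    have h1 := tendsto_tsum_compl_atTop_zero K
    exact ((Real.continuous_exp.tendsto _).comp (h1.const_mul (-2))).const_mul _
  have := le_of_tendsto hlim hev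
  simpa using this

lemma Bl_fin {s : ℕ → ℂ} (F : Finset ℕ) (a : ℂ) (hF : ∀ i ∈ F, s i = a) :
    Bl s (ind (↑F : Set ℕ)) = bf a ^ F.card := by
  ext z
  unfold Bl
  rw [tprod_eq_prod (s := F)]
  · rw [Pi.pow_apply, ← Finset.prod_const]
    apply Finset.prod_congr rfl
    intro i hi
    rw [ind_of_mem (by simpa using hi), pow_one, hF i hi]
  · intro i hi
    rw [ind_of_notMem (by simpa using hi), pow_zero]

end FactAux

open FactAux in
theorem exists_blaschke_factor {f : ℂ → ℂ} (hf : f ∈ Ub)
    (hne : ∃ z ∈ ball (0:ℂ) 1, f z ≠ 0) :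
    ∃ (s : ℕ → ℂ) (A : Set ℕ), BlData s (ind A) ∧ ∃ g ∈ Ub, (∀ z ∈ ball (0:ℂ) 1, g z ≠ 0) ∧
      EqOn f (Bl s (ind A) * g) (ball 0 1) := by
  classical
  have hsum := summable_TT hf hne
  have hcount : Countable (TT f) := by
    have h1 := hsum.countable_support
    have h2 : Function.support (fun p : TT f => 1 - ‖p.1.1‖) = Set.univ := by
      ext p
      have := p.2.1
      simp only [Function.mem_support, Set.mem_univ, iff_true]
      intro h
      linarith
    rw [h2] at h1
    exact Set.countable_univ_iff.1 h1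
  obtain ⟨e, he⟩ := exists_injective_nat (TT f)
  set s : ℕ → ℂ := Function.extend e (fun p => p.1.1) 0 with hs
  have hse : ∀ p : TT f, s (e p) = p.1.1 := fun p => he.extend_apply _ _ p
  set A : Set ℕ := Set.range e with hA
  have hBl : BlData s (ind A) := by
    constructor
    · intro i
      by_cases hi : i ∈ A
      · obtain ⟨p, rfl⟩ := hi
        rw [hse]
        exact p.2.1
      · rw [hs, Function.extend_apply' _ _ _ (by simpa [hA] using hi)]
        simp
    · rw [← he.summable_iff]
      · convert hsum using 1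
        ext p
        simp only [Function.comp_apply]
        rw [ind_of_mem (show e p ∈ A from ⟨p, rfl⟩), hse]
        simp
      · intro i hi
        rw [ind_of_notMem hi]
        simp
  obtain ⟨w0, hw0, hfw0⟩ := id hne
  have hBUb := Bl_mem_Ub hBl
  -- orders agree
  have hord : ∀ z, ‖z‖ < 1 → analyticOrderAt (Bl s (ind A)) z = analyticOrderAt f z := by
    intro z hz
    obtain ⟨n, hn⟩ := ENat.ne_top_iff_exists.1 (order_ne_top hf hne hz)
    have hmem : ∀ j : Fin n, (z, (j : ℕ)) ∈ TT f := by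
      intro j
      refine ⟨hz, ?_⟩
      rw [← hn]
      exact_mod_cast j.2
    set F : Finset ℕ := Finset.univ.map
      ⟨fun j : Fin n => e ⟨(z, (j : ℕ)), hmem j⟩, by
        intro j k hjk
        have := he hjk
        simp only [Subtype.mk.injEq, Prod.mk.injEq, true_and] at this
        exact Fin.ext this⟩ with hF
    have hFA : (↑F : Set ℕ) ⊆ A := by
      intro i hi
      simp only [hF, Finset.coe_map, Function.Embedding.coeFn_mk, Finset.coe_univ,
        Set.image_univ, Set.mem_range] at hi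
      obtain ⟨j, rfl⟩ := hi
      exact ⟨_, rfl⟩
    have hFz : ∀ i ∈ F, s i = z := by
      intro i hi
      simp only [hF, Finset.mem_map, Function.Embedding.coeFn_mk, Finset.mem_univ,
        true_and] at hi
      obtain ⟨j, rfl⟩ := hi
      rw [hse]
    have hFcard : F.card = n := by simp [hF]
    have hFc : ∀ i ∈ A \ ↑F, s i ≠ z := by
      rintro i ⟨⟨p, rfl⟩, hi⟩ hpz
      apply hi
      rw [hse] at hpz
      have h1 := p.2.2
      rw [hpz, ← hn] at h1
      have h2 : p.1.2 < n := by exact_mod_cast h1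
      simp only [hF, Finset.coe_map, Function.Embedding.coeFn_mk, Finset.coe_univ,
        Set.image_univ, Set.mem_range]
      refine ⟨⟨p.1.2, h2⟩, ?_⟩
      congr 1
      apply Subtype.ext
      exact Prod.ext hpz.symm rfl
    have hF1 := blData_mono hBl hFA
    have hF2 := blData_mono hBl (Set.sdiff_subset (s := A) (t := ↑F))
    have hadd := Bl_add hF1 hF2
    rw [← ind_add hFA] at hadd
    have h1 : analyticOrderAt (Bl s (ind A)) z =
        analyticOrderAt (Bl s (ind (↑F : Set ℕ)) * Bl s (ind (A \ ↑F))) z := by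
      apply analyticOrderAt_congr
      filter_upwards [isOpen_ball.mem_nhds (x := z) (s := ball (0:ℂ) 1)
        (by simpa using hz)] with u hu
      exact hadd hu
    rw [h1, analyticOrderAt_mul (analyticAt_of_mem (Bl_mem_Ub hF1).1 hz)
      (analyticAt_of_mem (Bl_mem_Ub hF2).1 hz), Bl_fin F z hFz, analyticOrderAt_pow
      (analyticAt_of_mem (bf_differentiableOn hz) hz), order_bf hz hz, if_pos rfl, hFcard]
    have h2 : analyticOrderAt (Bl s (ind (A \ ↑F))) z = 0 := by
      rw [analyticOrderAt_eq_zero]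
      right
      apply Bl_ne_zero hF2 hz
      intro i hi hzi
      by_cases h : i ∈ A \ ↑F
      · exact hFc i h hzi.symm
      · exact hi (ind_of_notMem h)
    rw [h2, ← hn]
    simp
  -- the quotient
  have hmf : MeromorphicOn f (ball 0 1) := fun z hz =>
    (analyticAt_of_mem hf.1 (by simpa using hz)).meromorphicAt
  have hmB : MeromorphicOn (Bl s (ind A)) (ball 0 1) := fun z hz =>
    (analyticAt_of_mem hBUb.1 (by simpa using hz)).meromorphicAt
  have hmq : MeromorphicOn (f / Bl s (ind A)) (ball 0 1) := hmf.div hmB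
  set g := toMeromorphicNFOn (f / Bl s (ind A)) (ball 0 1) with hg
  have hgnf := meromorphicNFOn_toMeromorphicNFOn (f / Bl s (ind A)) (ball 0 1)
  have hgord : ∀ z ∈ ball (0:ℂ) 1, meromorphicOrderAt g z = 0 := by
    intro z hz
    have hz' : ‖z‖ < 1 := by simpa using hz
    rw [hg, meromorphicOrderAt_toMeromorphicNFOn hmq hz,
      meromorphicOrderAt_div (hmf z hz) (hmB z hz),
      (analyticAt_of_mem hf.1 hz').meromorphicOrderAt_eq,
      (analyticAt_of_mem hBUb.1 hz').meromorphicOrderAt_eq, hord z hz']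
    obtain ⟨n, hn⟩ := ENat.ne_top_iff_exists.1 (order_ne_top hf hne hz')
    rw [← hn]
    simp
  have hgan : ∀ z ∈ ball (0:ℂ) 1, AnalyticAt ℂ g z := by
    intro z hz
    rw [← (hgnf hz).meromorphicOrderAt_nonneg_iff_analyticAt]
    exact (hgord z hz).ge
  have hgne : ∀ z ∈ ball (0:ℂ) 1, g z ≠ 0 := by
    intro z hz
    exact (hgnf hz).meromorphicOrderAt_eq_zero_iff.1 (hgord z hz)
  have hBne : ∀ z ∈ ball (0:ℂ) 1, ∀ᶠ w in 𝓝[≠] z, Bl s (ind A) w ≠ 0 := by
    intro z hz
    have hz' : ‖z‖ < 1 := by simpa using hz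
    rcases (analyticAt_of_mem hBUb.1 hz').eventually_eq_zero_or_eventually_ne_zero with h | h
    · exact absurd (analyticOrderAt_eq_top.2 h) (by
        rw [hord z hz']; exact order_ne_top hf hne hz')
    · exact h
  have hgeq : ∀ z ∈ ball (0:ℂ) 1, ∀ᶠ w in 𝓝[≠] z, f w = (Bl s (ind A) * g) w := by
    intro z hz
    filter_upwards [hBne z hz, hmq.toMeromorphicNFOn_eq_self_on_nhdsNE hz] with w h1 h2
    rw [Pi.mul_apply, hg, h2, Pi.div_apply, mul_div_cancel₀ _ h1]
  have hEq : EqOn f (Bl s (ind A) * g) (ball 0 1) := by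
    intro z hz
    have hz' : ‖z‖ < 1 := by simpa using hz
    have h1 : ContinuousAt f z := (analyticAt_of_mem hf.1 hz').continuousAt
    have h2 : ContinuousAt (Bl s (ind A) * g) z :=
      (analyticAt_of_mem hBUb.1 hz').continuousAt.mul (hgan z hz).continuousAt
    exact tendsto_nhds_unique_of_eventuallyEq (h1.tendsto.mono_left nhdsWithin_le_nhds)
      (h2.tendsto.mono_left nhdsWithin_le_nhds) (hgeq z hz)
  have hle : ∀ z ∈ ball (0:ℂ) 1, ‖f z‖ ≤ ‖Bl s (ind A) z‖ := by
    intro z hz
    have hne' : Nonempty (TT f) ∨ A = ∅ := by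
      by_cases h : Nonempty (TT f)
      · exact Or.inl h
      · right
        rw [not_nonempty_iff] at h
        rw [hA, Set.range_eq_empty]
    rcases hne' with h | h
    · refine norm_le_norm_Bl hf hne hBl (Function.invFun e) ?_ ?_ (by simpa using hz)
      · rintro i ⟨p, rfl⟩
        rw [Function.leftInverse_invFun he, hse]
      · rintro i ⟨p, rfl⟩ j ⟨q, rfl⟩ hij
        rw [Function.leftInverse_invFun he, Function.leftInverse_invFun he] at hij
        rw [hij]
    · have : Bl s (ind A) z = 1 := by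
        unfold Bl
        rw [h]
        simp [ind]
      rw [this, norm_one]
      exact hf.2 z hz
  refine ⟨s, A, hBl, g, ⟨fun z hz => (hgan z hz).differentiableAt.differentiableWithinAt, ?_⟩,
    hgne, hEq⟩
  intro z hz
  refine le_one_of_punctured (hgan z hz).continuousAt ?_
  filter_upwards [hBne z hz, mem_nhdsWithin_of_mem_nhds (isOpen_ball.mem_nhds hz)] with w h1 h2
  have h3 := hle w h2
  have h4 := hEq h2
  rw [h4, Pi.mul_apply, norm_mul] at h3
  have h5 : 0 < ‖Bl s (ind A) w‖ := norm_pos_iff.2 h1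
  by_contra hcon
  push Not at hcon
  nlinarith

end Pool.Agent.H14.GP
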