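import Pool.Agent.H14.GP.Mob

set_option autoImplicit false

open Complex Metric Set Filter Topology ComplexConjugate MeasureTheory

namespace Pool.Agent.H14.GP

section G

private lemma hinf_of_ub {f : ℂ → ℂ} (h : f ∈ Ub) : f ∈ Hinf := ⟨h.1, 1, h.2⟩

private lemma hinf_const (c : ℂ) : (fun _ : ℂ => c) ∈ Hinf :=
  ⟨differentiableOn_const c, ‖c‖, fun _ _ => le_rfl⟩

private lemma hinf_one : (1 : ℂ → ℂ) ∈ Hinf := hinf_const 1

private lemma hinf_add {f g : ℂ → ℂ} (hf : f ∈ Hinf) (hg : g ∈ Hinf) : f + g ∈ Hinf := by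
  obtain ⟨hf1, C, hC⟩ := hf
  obtain ⟨hg1, D, hD⟩ := hg
  refine ⟨hf1.add hg1, C + D, fun z hz => ?_⟩
  exact (norm_add_le _ _).trans (add_le_add (hC z hz) (hD z hz))

private lemma hinf_mul {f g : ℂ → ℂ} (hf : f ∈ Hinf) (hg : g ∈ Hinf) : f * g ∈ Hinf := by
  obtain ⟨hf1, C, hC⟩ := hf
  obtain ⟨hg1, D, hD⟩ := hg
  refine ⟨hf1.mul hg1, C * D, fun z hz => ?_⟩
  rw [Pi.mul_apply, norm_mul]
  exact mul_le_mul (hC z hz) (hD z hz) (norm_nonneg _) ((norm_nonneg _).trans (hC z hz))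

private lemma hinf_smul (c : ℂ) {f : ℂ → ℂ} (hf : f ∈ Hinf) : c • f ∈ Hinf := by
  have := hinf_mul (hinf_const c) hf
  have e : (fun _ : ℂ => c) * f = c • f := by funext z; simp
  rwa [e] at this

private lemma hinf_congr {f g : ℂ → ℂ} (hf : f ∈ Hinf) (h : EqOn f g (ball (0:ℂ) 1)) :
    g ∈ Hinf := by
  obtain ⟨hf1, C, hC⟩ := hf
  exact ⟨hf1.congr fun z hz => (h hz).symm, C, fun z hz => by rw [← h hz]; exact hC z hz⟩

private lemma char_const {φ : (ℂ → ℂ) → ℂ} (h : IsChar φ) (c : ℂ) : φ (fun _ => c) = c := by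
  have e : (fun _ : ℂ => c) = c • (1 : ℂ → ℂ) := by funext z; simp
  rw [e, h.2.2.1 c 1 hinf_one, h.1, mul_one]

private lemma char_congr {φ : (ℂ → ℂ) → ℂ} (h : IsChar φ) {f g : ℂ → ℂ} (hf : f ∈ Hinf)
    (e : EqOn f g (ball (0:ℂ) 1)) : φ f = φ g :=
  (h.2.1 f hf g (hinf_congr hf e)).2.2 e

/-- if `f * g = h` on the disc then `φ f * φ g = φ h`. -/
private lemma char_mul {φ : (ℂ → ℂ) → ℂ} (h : IsChar φ) {f g k : ℂ → ℂ} (hf : f ∈ Hinf)
    (hg : g ∈ Hinf) (e : EqOn (fun z => f z * g z) k (ball (0:ℂ) 1)) : φ k = φ f * φ g := by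
  rw [← (h.2.1 f hf g hg).2.1]
  exact (char_congr h (hinf_mul hf hg) e).symm

private lemma char_sub_const {φ : (ℂ → ℂ) → ℂ} (h : IsChar φ) {f : ℂ → ℂ} (hf : f ∈ Hinf)
    (c : ℂ) : (fun z => f z - c) ∈ Hinf ∧ φ (fun z => f z - c) = φ f - c := by
  have e : f + (fun _ : ℂ => -c) = fun z => f z - c := by
    funext z; simp [sub_eq_add_neg]
  have h1 := hinf_add hf (hinf_const (-c))
  have h2 := (h.2.1 f hf _ (hinf_const (-c))).1
  rw [e] at h1 h2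
  refine ⟨h1, ?_⟩
  rw [h2, char_const h, sub_eq_add_neg]

private lemma gl_norm_le {φ : (ℂ → ℂ) → ℂ} (h : IsChar φ) {f : ℂ → ℂ} (hf : f ∈ Ub) :
    ‖φ f‖ ≤ 1 := by
  by_contra hcon
  rw [not_le] at hcon
  set c := φ f with hc
  obtain ⟨h1, h2⟩ := char_sub_const h (hinf_of_ub hf) c
  have hne : ∀ z ∈ ball (0:ℂ) 1, f z - c ≠ 0 := by
    intro z hz h0
    have := hf.2 z hz
    rw [sub_eq_zero.1 h0] at this
    linarith
  have hlow : ∀ z ∈ ball (0:ℂ) 1, ‖c‖ - 1 ≤ ‖f z - c‖ := by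
    intro z hz
    have := norm_sub_norm_le c (f z)
    rw [norm_sub_rev] at this
    linarith [hf.2 z hz]
  have hinv : (fun z => (f z - c)⁻¹) ∈ Hinf := by
    refine ⟨?_, (‖c‖ - 1)⁻¹, fun z hz => ?_⟩
    · exact (hf.1.sub_const c).inv hne
    · rw [norm_inv]
      exact inv_anti₀ (by linarith) (hlow z hz)
  have h3 := char_mul h (k := 1) h1 hinv (fun z hz => by
    simp only [Pi.one_apply]
    exact mul_inv_cancel₀ (hne z hz))
  rw [h.1, h2] at h3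
  rw [sub_self, zero_mul] at h3
  exact one_ne_zero h3

private lemma norm_mob_le {u b : ℂ} (hu : ‖u‖ ≤ 1) (hb : ‖b‖ < 1) :
    1 - conj b * u ≠ 0 ∧ ‖mob b u‖ ≤ 1 ∧ (‖u‖ = 1 → ‖mob b u‖ = 1) := by
  have h0 : ‖conj b * u‖ < 1 := by
    rw [norm_mul, RCLike.norm_conj]
    nlinarith [norm_nonneg b, norm_nonneg u]
  have h1 : 1 - conj b * u ≠ 0 := by
    intro h
    have : conj b * u = 1 := (sub_eq_zero.1 h).symm
    rw [this] at h0
    simp at h0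
  have hid := norm_sub_sq_identity u b
  have hpos : 0 < ‖1 - conj b * u‖ := norm_pos_iff.2 h1
  refine ⟨h1, ?_, ?_⟩
  · unfold mob
    rw [norm_div, div_le_one hpos]
    have h2 : 0 ≤ (1 - ‖u‖ ^ 2) * (1 - ‖b‖ ^ 2) := by
      have h3 : 0 ≤ 1 - ‖u‖ ^ 2 := by nlinarith [norm_nonneg u]
      have h4 : 0 ≤ 1 - ‖b‖ ^ 2 := by nlinarith [norm_nonneg b]
      positivity
    nlinarith [norm_nonneg (u - b)]
  · intro hu1
    unfold mob
    rw [norm_div, div_eq_one_iff_eq hpos.ne']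
    rw [hu1] at hid
    have : ‖u - b‖ ^ 2 = ‖1 - conj b * u‖ ^ 2 := by linarith
    exact (pow_left_inj₀ (norm_nonneg _) (norm_nonneg _) two_ne_zero).1 this

private lemma ub_mob {F : ℂ → ℂ} (hF : F ∈ Ub) {b : ℂ} (hb : ‖b‖ < 1) :
    (fun z => mob b (F z)) ∈ Ub := by
  refine ⟨?_, fun z hz => (norm_mob_le (hF.2 z hz) hb).2.1⟩
  unfold mob
  refine (hF.1.sub_const b).div ((hF.1.const_mul (conj b)).const_sub 1) ?_
  intro z hz
  exact (norm_mob_le (hF.2 z hz) hb).1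

private lemma char_mob {φ : (ℂ → ℂ) → ℂ} (h : IsChar φ) {F : ℂ → ℂ} (hF : F ∈ Ub) {b : ℂ}
    (hb : ‖b‖ < 1) : φ (fun z => mob b (F z)) = mob b (φ F) := by
  have hFH := hinf_of_ub hF
  have hden : (fun z => 1 - conj b * F z) ∈ Hinf ∧
      φ (fun z => 1 - conj b * F z) = 1 - conj b * φ F := by
    have e : (1 : ℂ → ℂ) + ((-conj b) • F) = fun z => 1 - conj b * F z := by
      funext z; simp [sub_eq_add_neg]
    have h1 := hinf_add hinf_one (hinf_smul (-conj b) hFH)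
    have h2 := (h.2.1 1 hinf_one _ (hinf_smul (-conj b) hFH)).1
    rw [h.1, h.2.2.1 _ _ hFH] at h2
    rw [e] at h1 h2
    refine ⟨h1, ?_⟩
    rw [h2]; ring
  have hnum := char_sub_const h hFH b
  have hm := char_mul h (k := fun z => F z - b) hden.1 (hinf_of_ub (ub_mob hF hb)) (fun z hz => by
    have := (norm_mob_le (hF.2 z hz) hb).1
    simp only [mob]
    field_simp)
  rw [hnum.2, hden.2] at hm
  have hne := (norm_mob_le (gl_norm_le h hF) hb).1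
  unfold mob at hm ⊢
  rw [eq_div_iff hne, hm]
  ring

private lemma ub_smul {F : ℂ → ℂ} (hF : F ∈ Ub) {u : ℂ} (hu : ‖u‖ ≤ 1) : u • F ∈ Ub := by
  refine ⟨hF.1.const_smul u, fun z hz => ?_⟩
  rw [Pi.smul_apply, norm_smul]
  exact mul_le_one₀ hu (norm_nonneg _) (hF.2 z hz)

theorem Gl_norm_eq_one {φ ψ : (ℂ → ℂ) → ℂ} (hφ : IsChar φ) (hψ : IsChar ψ) (h : Gl φ ψ)
    {F : ℂ → ℂ} (hF : F ∈ Ub) (h1 : ‖φ F‖ = 1) : ‖ψ F‖ = 1 := by
  by_contra hne
  have ha : ‖ψ F‖ < 1 := lt_of_le_of_ne (gl_norm_le hψ hF) hne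
  set a := ψ F with haf
  set g : ℂ → ℂ := fun z => mob a (F z) with hg
  have hgU : g ∈ Ub := ub_mob hF ha
  have hψg : ψ g = 0 := by
    rw [hg, char_mob hψ hF ha, ← haf]
    unfold mob; simp
  have hφg : ‖φ g‖ = 1 := by
    rw [hg, char_mob hφ hF ha]
    exact (norm_mob_le h1.le ha).2.2 h1
  set u := conj (φ g) with hu
  have hunorm : ‖u‖ = 1 := by rw [hu, RCLike.norm_conj, hφg]
  set k : ℂ → ℂ := u • g with hk
  have hkU : k ∈ Ub := ub_smul hgU hunorm.le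
  have hψk : ψ k = 0 := by rw [hk, hψ.2.2.1 u g (hinf_of_ub hgU), hψg, mul_zero]
  have hφk : φ k = 1 := by
    rw [hk, hφ.2.2.1 u g (hinf_of_ub hgU), hu, Complex.conj_mul', hφg]
    simp
  obtain ⟨c, hc2, hc⟩ := h
  have hc0 : 0 ≤ c := (norm_nonneg _).trans (hc 1 hinf_one (fun z _ => by simp))
  set b : ℝ := c / 2 with hb
  have hb0 : 0 ≤ b := by rw [hb]; positivity
  have hb1 : b < 1 := by rw [hb]; linarith
  have hbn : ‖(b : ℂ)‖ < 1 := by
    rw [Complex.norm_real, Real.norm_of_nonneg hb0]; exact hb1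
  have hkey := hc (fun z => mob (b : ℂ) (k z)) (hinf_of_ub (ub_mob hkU hbn))
    (ub_mob hkU hbn).2
  rw [char_mob hφ hkU hbn, char_mob hψ hkU hbn, hφk, hψk] at hkey
  have e1 : mob (b : ℂ) 1 = 1 := by
    unfold mob
    rw [Complex.conj_ofReal, mul_one]
    apply div_self
    intro h0
    have : ((1 - b : ℝ) : ℂ) = 0 := by push_cast; exact h0
    rw [Complex.ofReal_eq_zero] at this
    linarith
  have e2 : mob (b : ℂ) 0 = -b := by unfold mob; simp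
  rw [e1, e2, sub_neg_eq_add] at hkey
  have e3 : ‖(1:ℂ) + (b:ℂ)‖ = 1 + b := by
    have : (1:ℂ) + (b:ℂ) = ((1 + b : ℝ) : ℂ) := by push_cast; rfl
    rw [this, Complex.norm_real, Real.norm_of_nonneg (by linarith)]
  rw [e3] at hkey
  linarith

theorem Gl_exists_rho {φ ψ : (ℂ → ℂ) → ℂ} (hφ : IsChar φ) (hψ : IsChar ψ) (h : Gl φ ψ) :
    ∃ ρ < (1:ℝ), ∀ f ∈ Ub, φ f = 0 → ‖ψ f‖ ≤ ρ := by
  obtain ⟨c, hc2, hc⟩ := h
  have hc0 : 0 ≤ c := (norm_nonneg _).trans (hc 1 hinf_one (fun z _ => by simp))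
  have hD : 0 < 1 + c ^ 2 / 4 := by positivity
  refine ⟨c / (1 + c ^ 2 / 4), ?_, ?_⟩
  · rw [div_lt_one hD]
    nlinarith [sq_nonneg (c / 2 - 1), mul_pos (sub_pos.2 hc2) (sub_pos.2 hc2)]
  · intro f hf hφf
    set A : ℝ := ‖ψ f‖ with hA
    have hA1 : A ≤ 1 := gl_norm_le hψ hf
    have hA0 : 0 ≤ A := norm_nonneg _
    -- rotate
    obtain ⟨u, hu1, hu2⟩ : ∃ u : ℂ, ‖u‖ ≤ 1 ∧ u * ψ f = (A : ℂ) := by
      by_cases h0 : ψ f = 0
      · refine ⟨0, by simp, ?_⟩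
        rw [hA, h0]; simp
      · refine ⟨conj (ψ f) / (A : ℂ), ?_, ?_⟩
        · rw [norm_div, RCLike.norm_conj, Complex.norm_real, Real.norm_of_nonneg hA0, ← hA]
          exact div_self_le_one A
        · have hA' : (A : ℂ) ≠ 0 := by
            rw [Ne, Complex.ofReal_eq_zero, hA]
            exact norm_ne_zero_iff.2 h0
          rw [div_mul_eq_mul_div, div_eq_iff hA', Complex.conj_mul', ← hA]
          ring
    have hkU : u • f ∈ Ub := ub_smul hf hu1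
    have hφk : φ (u • f) = 0 := by rw [hφ.2.2.1 u f (hinf_of_ub hf), hφf, mul_zero]
    have hψk : ψ (u • f) = (A : ℂ) := by rw [hψ.2.2.1 u f (hinf_of_ub hf), hu2]
    set b : ℝ := c / 2 with hb
    have hb0 : 0 ≤ b := by rw [hb]; positivity
    have hb1 : b < 1 := by rw [hb]; linarith
    have hbn : ‖(b : ℂ)‖ < 1 := by
      rw [Complex.norm_real, Real.norm_of_nonneg hb0]; exact hb1
    have hkey := hc (fun z => mob (b : ℂ) ((u • f) z)) (hinf_of_ub (ub_mob hkU hbn))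
      (ub_mob hkU hbn).2
    rw [char_mob hφ hkU hbn, char_mob hψ hkU hbn, hφk, hψk] at hkey
    have hden : 0 < 1 - b * A := by nlinarith
    have e : mob (b : ℂ) 0 - mob (b : ℂ) (A : ℂ) = -((A * (1 - b ^ 2) / (1 - b * A) : ℝ) : ℂ) := by
      have hd : (1 - (b:ℂ) * (A:ℂ)) ≠ 0 := by
        have : (1 - (b:ℂ) * (A:ℂ)) = ((1 - b * A : ℝ) : ℂ) := by push_cast; rfl
        rw [this, Ne, Complex.ofReal_eq_zero]
        exact hden.ne'
      unfold mob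
      rw [Complex.conj_ofReal]
      push_cast
      field_simp
      ring
    rw [e, norm_neg, Complex.norm_real, Real.norm_of_nonneg (by
      apply div_nonneg _ hden.le
      exact mul_nonneg hA0 (by nlinarith))] at hkey
    rw [div_le_iff₀ hden] at hkey
    rw [le_div_iff₀ hD]
    have : c = 2 * b := by rw [hb]; ring
    rw [this] at hkey ⊢
    nlinarith

private lemma char_pow {φ : (ℂ → ℂ) → ℂ} (h : IsChar φ) {f : ℂ → ℂ} (hf : f ∈ Hinf) (q : ℕ) :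
    (fun z => f z ^ q) ∈ Hinf ∧ φ (fun z => f z ^ q) = φ f ^ q := by
  induction q with
  | zero => simpa using ⟨hinf_const 1, char_const h 1⟩
  | succ q ih =>
    have e : (fun z => f z ^ q) * f = fun z => f z ^ (q + 1) := by
      funext z; simp [pow_succ]
    have h1 := hinf_mul ih.1 hf
    have h2 := (h.2.1 _ ih.1 f hf).2.1
    rw [e] at h1 h2
    exact ⟨h1, by rw [h2, ih.2, pow_succ]⟩

theorem Gl_eq_zero {φ ψ : (ℂ → ℂ) → ℂ} (hφ : IsChar φ) (hψ : IsChar ψ) (h : Gl φ ψ)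
    {G : ℂ → ℂ} (hroot : ∀ q ≥ 1, ∃ Gq ∈ Ub, ∃ G' ∈ Ub,
      EqOn G (fun z => Gq z ^ q * G' z) (ball 0 1) ∧ φ Gq = 0) : ψ G = 0 := by
  obtain ⟨ρ, hρ1, hρ⟩ := Gl_exists_rho hφ hψ h
  have hρ0 : 0 ≤ ρ := by
    have h0 : (0 : ℂ → ℂ) ∈ Ub := ⟨differentiableOn_const 0, fun z _ => by simp⟩
    refine (norm_nonneg _).trans (hρ 0 h0 ?_)
    have := char_const hφ 0
    exact this
  have hb : ∀ q : ℕ, 1 ≤ q → ‖ψ G‖ ≤ ρ ^ q := by
    intro q hq
    obtain ⟨Gq, hGq, G', hG', e, h0⟩ := hroot q hq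
    have hp := char_pow hψ (hinf_of_ub hGq) q
    have hm := char_mul hψ (k := G) hp.1 (hinf_of_ub hG') (fun z hz => (e hz).symm)
    rw [hm, hp.2, norm_mul, norm_pow]
    calc ‖ψ Gq‖ ^ q * ‖ψ G'‖ ≤ ρ ^ q * 1 := by
          apply mul_le_mul _ (gl_norm_le hψ hG') (norm_nonneg _) (by positivity)
          exact pow_le_pow_left₀ (norm_nonneg _) (hρ Gq hGq h0) q
      _ = ρ ^ q := mul_one _
  have hlim : Tendsto (fun q : ℕ => ρ ^ q) atTop (𝓝 0) := tendsto_pow_atTop_nhds_zero_of_lt_one hρ0 hρ1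
  have : ‖ψ G‖ ≤ 0 := ge_of_tendsto hlim (eventually_atTop.2 ⟨1, hb⟩)
  exact norm_eq_zero.1 (le_antisymm this (norm_nonneg _))

end G

end Pool.Agent.H14.GP
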