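import Pool.Agent.H14.GP.Defs2
import Pool.Agent.H14.GP.T
import Pool.Agent.H14.GP.Char

set_option autoImplicit false

open Complex Metric Set Filter Topology ComplexConjugate MeasureTheory

namespace Pool.Agent.H14.GP

/-- points of the `(n,j)`-th circle of hyperbolic radius `r` that are not in `U` -/
def badAng (t : ℕ → ℂ) (U : Set ℂ) (n j : ℕ) (r : ℝ) : Set ℝ :=
  {θ ∈ Set.Ioc (0:ℝ) (2 * Real.pi) | Lm (t (Nat.pair n j)) (r * Complex.exp (θ * I)) ∉ U}

/-- `U` contains most points of the circles, in the iterated limit -/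
def Large (t : ℕ → ℂ) (U : Set ℂ) : Prop :=
  ∀ η : ℝ, 0 < η → ∀ᶠ n in (VV : Filter ℕ), ∃ r0 < (1:ℝ), ∀ r, r0 < r → 0 < r → r < 1 →
    ∀ᶠ j in (VV : Filter ℕ), volume (badAng t U n j r) ≤ ENNReal.ofReal η

/-- the filter of large sets -/
def largeFilter (t : ℕ → ℂ) : Filter ℂ where
  sets := {U | Large t U}
  univ_sets := by
    intro η hη
    refine Eventually.of_forall fun n => ⟨0, zero_lt_one, fun r _ _ _ => ?_⟩
    refine Eventually.of_forall fun j => ?_
    have : badAng t univ n j r = ∅ := by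
      unfold badAng; ext θ; simp
    rw [this]; simp
  sets_of_superset := by
    intro U U' hU hUU' η hη
    filter_upwards [hU η hη] with n hn
    obtain ⟨r0, hr0, h⟩ := hn
    refine ⟨r0, hr0, fun r h1 h2 h3 => ?_⟩
    filter_upwards [h r h1 h2 h3] with j hj
    refine (measure_mono ?_).trans hj
    intro θ hθ
    exact ⟨hθ.1, fun hc => hθ.2 (hUU' hc)⟩
  inter_sets := by
    intro U U' hU hU' η hη
    filter_upwards [hU (η / 2) (by positivity), hU' (η / 2) (by positivity)] with n hn hn'
    obtain ⟨r0, hr0, h⟩ := hn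
    obtain ⟨r0', hr0', h'⟩ := hn'
    refine ⟨max r0 r0', max_lt hr0 hr0', fun r h1 h2 h3 => ?_⟩
    filter_upwards [h r ((le_max_left _ _).trans_lt h1) h2 h3,
      h' r ((le_max_right _ _).trans_lt h1) h2 h3] with j hj hj'
    calc volume (badAng t (U ∩ U') n j r)
        ≤ volume (badAng t U n j r ∪ badAng t U' n j r) := by
          apply measure_mono
          intro θ hθ
          by_cases hc : Lm (t (Nat.pair n j)) (r * Complex.exp (θ * I)) ∈ U
          · exact Or.inr ⟨hθ.1, fun hc' => hθ.2 ⟨hc, hc'⟩⟩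
          · exact Or.inl ⟨hθ.1, hc⟩
      _ ≤ volume (badAng t U n j r) + volume (badAng t U' n j r) := measure_union_le _ _
      _ ≤ ENNReal.ofReal (η / 2) + ENNReal.ofReal (η / 2) := add_le_add hj hj'
      _ = ENNReal.ofReal η := by
          rw [← ENNReal.ofReal_add (by positivity) (by positivity)]; congr 1; ring

lemma mem_largeFilter {t : ℕ → ℂ} {U : Set ℂ} : U ∈ largeFilter t ↔ Large t U := Iff.rfl

lemma largeFilter_neBot (t : ℕ → ℂ) : (largeFilter t).NeBot := by
  refine ⟨fun hbot => ?_⟩
  have h : (∅ : Set ℂ) ∈ largeFilter t := by rw [hbot]; exact mem_bot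
  rw [mem_largeFilter] at h
  obtain ⟨n, r0, hr0, hn⟩ := (h 1 one_pos).exists
  obtain ⟨j, hj⟩ := (hn (max ((r0 + 1) / 2) (1 / 2)) (lt_max_of_lt_left (by linarith))
    (lt_max_of_lt_right (by norm_num)) (max_lt (by linarith) (by norm_num))).exists
  have : badAng t ∅ n j (max ((r0 + 1) / 2) (1 / 2)) = Set.Ioc (0:ℝ) (2 * Real.pi) := by
    unfold badAng; ext θ; simp
  rw [this, Real.volume_Ioc] at hj
  have h1 := (ENNReal.ofReal_le_ofReal_iff (by norm_num)).1 hj
  linarith [Real.pi_gt_three]

lemma norm_circ {r : ℝ} (hr : 0 < r) (θ : ℝ) : ‖(r * Complex.exp (θ * I) : ℂ)‖ = r := by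
  rw [norm_mul, Complex.norm_exp_ofReal_mul_I, mul_one, Complex.norm_real, Real.norm_eq_abs,
    abs_of_pos hr]

theorem exists_m {t : ℕ → ℂ} (ht : TSeq t) :
    ∃ m, IsChar m ∧ (∀ N ∈ FF, m (Bl t N) = 0) ∧ ∀ G ∈ GG t, ‖m G‖ = 1 := by
  haveI := largeFilter_neBot t
  set W : Ultrafilter ℂ := Ultrafilter.of (largeFilter t) with hW
  have hWle : (W : Filter ℂ) ≤ largeFilter t := Ultrafilter.of_le _
  have hball : ball (0:ℂ) 1 ∈ W := by
    apply hWle
    rw [mem_largeFilter]
    intro η hη
    refine Eventually.of_forall fun n => ⟨0, zero_lt_one, fun r _ h2 h3 => ?_⟩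
    refine Eventually.of_forall fun j => ?_
    have : badAng t (ball 0 1) n j r = ∅ := by
      unfold badAng
      ext θ
      simp only [mem_setOf_eq, mem_empty_iff_false, iff_false, not_and, not_not]
      intro _
      have := norm_Lm_lt (a := t (Nat.pair n j)) (w := r * Complex.exp (θ * I))
        (by rw [norm_circ h2]; exact h3) (ht.lt _)
      simpa using this
    rw [this]; simp
  obtain ⟨m, hm, hlim⟩ := exists_char_of_ultrafilter W hball
  refine ⟨m, hm, ?_, ?_⟩
  · intro N hN
    have hBl := BlData_t ht hN.1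
    have hB : Bl t N ∈ Ub := Bl_mem_Ub hBl
    have h1 := hlim (Bl t N) ⟨hB.1, 1, hB.2⟩
    have h2 : Tendsto (Bl t N) W (𝓝 0) := by
      rw [Metric.tendsto_nhds]
      intro ε hε
      apply hWle
      change Large t _
      intro η hη
      filter_upwards [hN.2] with n hn
      refine ⟨0, zero_lt_one, fun r _ h2 h3 => ?_⟩
      have hpow : Tendsto (fun j => r ^ N (Nat.pair n j)) VV (𝓝 0) :=
        (tendsto_pow_atTop_nhds_zero_of_lt_one h2.le h3).comp hn
      filter_upwards [hpow.eventually (gt_mem_nhds hε)] with j hj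
      have : badAng t {x | dist (Bl t N x) 0 < ε} n j r = ∅ := by
        unfold badAng
        ext θ
        simp only [mem_setOf_eq, mem_empty_iff_false, iff_false, not_and, not_not]
        intro _
        rw [dist_zero_right]
        have hc := norm_circ h2 θ
        have hlt : ‖Lm (t (Nat.pair n j)) (r * Complex.exp (θ * I))‖ < 1 :=
          norm_Lm_lt (by rw [hc]; exact h3) (ht.lt _)
        refine (norm_Bl_le_pow hBl hlt (Nat.pair n j)).trans_lt ?_
        rw [rho_Lm (by rw [hc]; exact h3) (ht.lt _), hc]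
        exact hj
      rw [this]; simp
    exact tendsto_nhds_unique h1 h2
  · intro G hG
    have h1 := (hlim G ⟨hG.1.1, 1, hG.1.2⟩).norm
    have h2 : Tendsto (fun z => ‖G z‖) W (𝓝 1) := by
      rw [tendsto_order]
      refine ⟨fun a ha => ?_, fun a ha => ?_⟩
      · apply hWle
        change Large t _
        intro η hη
        set η' := min η ((1 - a) / 2) with hη'
        have hη'0 : 0 < η' := lt_min hη (by linarith)
        filter_upwards [hG.2 η' hη'0] with n hn
        obtain ⟨r0, hr0, h⟩ := hn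
        refine ⟨r0, hr0, fun r h1 h2 h3 => ?_⟩
        filter_upwards [h r h1 h2 h3] with j hj
        refine (measure_mono ?_).trans (hj.trans (ENNReal.ofReal_le_ofReal (min_le_left _ _)))
        intro θ hθ
        refine ⟨hθ.1, ?_⟩
        have h5 := hθ.2
        simp only [mem_setOf_eq, not_lt] at h5
        have h6 : η' ≤ (1 - a) / 2 := min_le_right _ _
        linarith
      · filter_upwards [hball] with z hz
        exact (hG.1.2 z hz).trans_lt ha
    exact tendsto_nhds_unique h1 h2

end Pool.Agent.H14.GP
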