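import Pool.Agent.H14.GP.Bl
import Pool.Agent.H14.GP.BlDiv
import Pool.Agent.H14.GP.Char

set_option autoImplicit false

open Complex Metric Set Filter Topology ComplexConjugate MeasureTheory

namespace Pool.Agent.H14.GP

private lemma shilov_seq {s : ℕ → ℂ} {N : ℕ → ℕ} (h : BlData s N) {f : ℂ → ℂ} (hf : f ∈ Hinf)
    {z : ℂ} (hz : z ∈ ball (0:ℂ) 1) {ε : ℝ} (hε : 0 < ε) (hfz : ε ≤ ‖f z‖) {η : ℝ} (hη : 0 < η) :
    ∃ w ∈ ball (0:ℂ) 1, 1 - η < ‖Bl s N w‖ ∧ ‖f z‖ - ε / 2 < ‖f w‖ := by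
  by_contra hcon
  push Not at hcon
  obtain ⟨hf1, C, hC⟩ := hf
  have hU := Bl_mem_Ub h
  have hα : 0 < ‖f z‖ - ε / 2 := by linarith
  -- reduce to `η < 1`
  obtain ⟨δ, hδ0, hδ1, hδη⟩ : ∃ δ : ℝ, 0 < δ ∧ δ < 1 ∧ δ ≤ η :=
    ⟨min η (1 / 2), lt_min hη (by norm_num), lt_of_le_of_lt (min_le_right _ _) (by norm_num),
      min_le_left _ _⟩
  have hlim : Tendsto (fun p : ℕ => (|C| + 1) * (1 - δ) ^ p) atTop (𝓝 0) := by
    have := (tendsto_pow_atTop_nhds_zero_of_lt_one (r := 1 - δ) (by linarith)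
      (by linarith)).const_mul (|C| + 1)
    rwa [mul_zero] at this
  obtain ⟨p, hp⟩ := (hlim.eventually (gt_mem_nhds hα)).exists
  have hpN : BlData s (fun i => p * N i) := by
    refine ⟨h.1, ?_⟩
    have := h.2.mul_left (p : ℝ)
    refine this.congr (fun i => ?_)
    push_cast
    ring
  have hpow := Bl_pow h p
  have hbd : ∀ w ∈ ball (0:ℂ) 1, ‖f w * Bl s (fun i => p * N i) w‖ ≤ ‖f z‖ - ε / 2 := by
    intro w hw
    rw [hpow hw, norm_mul, norm_pow]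
    have hB0 := norm_nonneg (Bl s N w)
    have hB1 := hU.2 w hw
    by_cases hBw : 1 - η < ‖Bl s N w‖
    · have h1 := hcon w hw hBw
      calc ‖f w‖ * ‖Bl s N w‖ ^ p ≤ ‖f w‖ * 1 :=
            mul_le_mul_of_nonneg_left (pow_le_one₀ hB0 hB1) (norm_nonneg _)
        _ ≤ _ := by rw [mul_one]; exact h1
    · push Not at hBw
      have h2 : ‖Bl s N w‖ ≤ 1 - δ := by linarith
      have h3 : ‖f w‖ ≤ |C| + 1 := (hC w hw).trans ((le_abs_self C).trans (by linarith))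
      calc ‖f w‖ * ‖Bl s N w‖ ^ p ≤ (|C| + 1) * (1 - δ) ^ p :=
            mul_le_mul h3 (pow_le_pow_left₀ hB0 h2 p) (by positivity) (by positivity)
        _ ≤ _ := hp.le
  have h4 := Bl_div_bound hpN ⟨hf1, C, hC⟩ hbd z hz
  linarith

private lemma shilov_main {s : ℕ → ℂ} {N : ℕ → ℕ} (h : BlData s N) {f : ℂ → ℂ} (hf : f ∈ Hinf)
    {z : ℂ} (hz : z ∈ ball (0:ℂ) 1) {ε : ℝ} (hε : 0 < ε) (hfz : ε ≤ ‖f z‖) :
    ∃ ψ, IsChar ψ ∧ ‖ψ (Bl s N)‖ = 1 ∧ ‖f z‖ < ‖ψ f‖ + ε := by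
  have hseq : ∀ k : ℕ, ∃ w ∈ ball (0:ℂ) 1, 1 - 1 / ((k : ℝ) + 1) < ‖Bl s N w‖ ∧
      ‖f z‖ - ε / 2 < ‖f w‖ := fun k => shilov_seq h hf hz hε hfz (by positivity)
  choose w hw hw1 hw2 using hseq
  obtain ⟨ψ, hψ, hlim⟩ := exists_char_of_ultrafilter ((hyperfilter ℕ).map w)
    (by
      rw [Ultrafilter.mem_map]
      exact Filter.univ_mem' hw)
  have hBU := Bl_mem_Ub h
  have hBH : Bl s N ∈ Hinf := ⟨hBU.1, 1, hBU.2⟩
  have h1 : Tendsto (fun k => ‖Bl s N (w k)‖) (hyperfilter ℕ : Filter ℕ) (𝓝 ‖ψ (Bl s N)‖) := by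
    have := hlim _ hBH
    rw [Ultrafilter.coe_map, tendsto_map'_iff] at this
    exact this.norm
  have h2 : Tendsto (fun k => ‖f (w k)‖) (hyperfilter ℕ : Filter ℕ) (𝓝 ‖ψ f‖) := by
    have := hlim _ hf
    rw [Ultrafilter.coe_map, tendsto_map'_iff] at this
    exact this.norm
  have hle : (hyperfilter ℕ : Filter ℕ) ≤ atTop := by
    have := hyperfilter_le_cofinite (α := ℕ)
    rwa [Nat.cofinite_eq_atTop] at this
  refine ⟨ψ, hψ, le_antisymm ?_ ?_, ?_⟩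
  · exact le_of_tendsto' h1 (fun k => hBU.2 _ (hw k))
  · have h3 : Tendsto (fun k : ℕ => 1 - 1 / ((k : ℝ) + 1)) (hyperfilter ℕ : Filter ℕ) (𝓝 1) := by
      have := (tendsto_one_div_add_atTop_nhds_zero_nat (𝕜 := ℝ)).const_sub 1
      rw [sub_zero] at this
      exact this.mono_left hle
    exact le_of_tendsto_of_tendsto' h3 h1 (fun k => (hw1 k).le)
  · have := ge_of_tendsto' h2 (fun k => (hw2 k).le)
    linarith

/-! ## Module J: Shilov boundary -/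
theorem not_shilov {s : ℕ → ℂ} {N : ℕ → ℕ} (h : BlData s N) {m : (ℂ → ℂ) → ℂ}
    (hm : m (Bl s N) = 0) :
    ∃ S : Set ((ℂ → ℂ) → ℂ), (∀ ψ ∈ S, IsChar ψ) ∧
        (∀ φ, IsChar φ → InClosure φ S → φ ∈ S) ∧
        (∀ f ∈ Hinf, ∀ z ∈ Metric.ball (0:ℂ) 1, ∀ ε : ℝ, 0 < ε →
            ∃ ψ ∈ S, ‖f z‖ < ‖ψ f‖ + ε) ∧
        m ∉ S := by
  refine ⟨{ψ | IsChar ψ ∧ ‖ψ (Bl s N)‖ = 1}, fun ψ hψ => hψ.1, ?_, ?_, ?_⟩
  · intro φ hφ hcl
    refine ⟨hφ, ?_⟩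
    by_contra hne
    have hpos : 0 < |‖φ (Bl s N)‖ - 1| := abs_pos.2 (sub_ne_zero.2 hne)
    obtain ⟨ψ, hψ, hψ2⟩ := hcl {Bl s N} _ hpos
    have h1 := hψ2 (Bl s N) (Finset.mem_singleton_self _)
    have h2 := abs_norm_sub_norm_le (ψ (Bl s N)) (φ (Bl s N))
    rw [hψ.2, abs_sub_comm] at h2
    linarith
  · intro f hf z hz ε hε
    rcases le_or_gt ε ‖f z‖ with h1 | h1
    · obtain ⟨ψ, hψ1, hψ2, hψ3⟩ := shilov_main h hf hz hε h1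
      exact ⟨ψ, ⟨hψ1, hψ2⟩, hψ3⟩
    · have hone : (1 : ℂ → ℂ) ∈ Hinf := ⟨differentiableOn_const 1, 1, fun z _ => by simp⟩
      obtain ⟨ψ, hψ1, hψ2, _⟩ := shilov_main h hone hz (ε := 1 / 2) (by norm_num)
        (by simp; norm_num)
      exact ⟨ψ, ⟨hψ1, hψ2⟩, lt_of_lt_of_le h1 (by linarith [norm_nonneg (ψ f)])⟩
  · intro hmS
    have := hmS.2
    rw [hm, norm_zero] at this
    exact zero_ne_one this

end Pool.Agent.H14.GP
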