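import Pool.Agent.H14.GP.Hoff
import Pool.Agent.H14.GP.Mpt
import Pool.Agent.H14.GP.Dich
import Pool.Agent.H14.GP.Shilov
import Pool.Agent.H14.GP.GlPart

/-! Final assembly for MP_40d375_an. -/

set_option autoImplicit false

open Complex Metric Set Filter Topology ComplexConjugate MeasureTheory

namespace Pool.Agent.H14.GP

lemma Ub_sub_Hinf {f : ℂ → ℂ} (hf : f ∈ Ub) : f ∈ Hinf := ⟨hf.1, 1, hf.2⟩

/-- a bounded mass family has moduli tending to `1` along every nonprincipal ultrafilter -/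
lemma tendsto_norm_one {s : ℕ → ℂ} {ω : Ultrafilter ℕ} {C : ℝ} (hs : ∀ i, ‖s i‖ < 1)
    (hC : ∀ z : ℂ, ‖z‖ < 1 → ∀ F : Finset ℕ, ∑ k ∈ F, Ke z (s k) ≤ C)
    (hω : ∀ i, ω ≠ pure i) : Tendsto (fun i => ‖s i‖) ω (𝓝 1) := by
  have key : ∀ r : ℝ, r < 1 → ∀ᶠ i in (ω : Filter ℕ), r < ‖s i‖ := by
    intro r hr
    by_contra hcon
    have hmem : {i | ‖s i‖ ≤ r} ∈ ω := by
      have := Ultrafilter.eventually_not.2 hcon
      filter_upwards [this] with i hi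
      simpa using hi
    have hfin : ({i | ‖s i‖ ≤ r} : Set ℕ).Finite := by
      by_contra hinf
      have hinf' : ({i | ‖s i‖ ≤ r} : Set ℕ).Infinite := hinf
      have hr0 : 0 ≤ r := by
        obtain ⟨i, hi⟩ := hinf'.nonempty
        exact (norm_nonneg _).trans hi
      have hpos : 0 < 1 - r ^ 2 := by nlinarith
      obtain ⟨n, hn⟩ := exists_nat_gt (C / (1 - r ^ 2))
      obtain ⟨F, hF, hcard⟩ := hinf'.exists_subset_card_eq n
      have h1 := hC 0 (by simp) F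
      have h2 : ∑ k ∈ F, (1 - r ^ 2) ≤ ∑ k ∈ F, Ke 0 (s k) := by
        apply Finset.sum_le_sum
        intro k hk
        have hk' : ‖s k‖ ≤ r := hF hk
        rw [Ke_eq (by simp) (hs k), rho_comm, rho_zero_right]
        nlinarith [norm_nonneg (s k)]
      rw [Finset.sum_const, hcard, nsmul_eq_mul] at h2
      rw [div_lt_iff₀ hpos] at hn
      linarith
    obtain ⟨i, -, hi⟩ := Ultrafilter.eq_pure_of_finite_mem hfin hmem
    exact hω i hi
  rw [tendsto_order]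
  refine ⟨fun a ha => key a ha, fun a ha => ?_⟩
  exact Eventually.of_forall fun i => (hs i).trans ha

theorem final_core {t : ℕ → ℂ} (ht : TSeq t) {m : (ℂ → ℂ) → ℂ}
    (hF : ∀ N ∈ FF, m (Bl t N) = 0) (hG : ∀ G ∈ GG t, ‖m G‖ = 1)
    {φ ψ : (ℂ → ℂ) → ℂ} (hφ : IsChar φ) (hψ : IsChar ψ) (hGl : Gl φ ψ) (hne : ψ ≠ φ)
    (hD : ∀ z ∈ ball (0:ℂ) 1, ∃ f ∈ Hinf, φ f ≠ f z) :
    ¬ InClosure m {ψ | IsChar ψ ∧ Gl φ ψ} := by
  intro hcl
  obtain ⟨s, ω, C, hs, hC, hlim⟩ := hoffman hφ hψ hGl hne hD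
  have hpure : ∀ i, ω ≠ pure i := by
    intro i hi
    obtain ⟨f, hf, hfne⟩ := hD (s i) (by simpa using hs i)
    have h1 := hlim f hf
    rw [hi] at h1
    apply hfne
    have h2 : Tendsto (fun i => f (s i)) (pure i) (𝓝 (f (s i))) := tendsto_pure_nhds _ _
    exact tendsto_nhds_unique h1 (by simpa using h2)
  have hω := tendsto_norm_one hs hC hpure
  rcases dichotomy ht hs hC ω hω with ⟨N, hN, hNlim⟩ | ⟨G, hGG, hroot⟩
  · have hB : Bl t N ∈ Ub := Bl_mem_Ub (BlData_t ht hN.1)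
    have h1 : Tendsto (fun i => ‖Bl t N (s i)‖) ω (𝓝 ‖φ (Bl t N)‖) :=
      (hlim _ (Ub_sub_Hinf hB)).norm
    have h2 : ‖φ (Bl t N)‖ = 1 := tendsto_nhds_unique h1 hNlim
    obtain ⟨χ, ⟨hχ, hχG⟩, hχ1⟩ := hcl {Bl t N} 1 one_pos
    have h3 := hχ1 (Bl t N) (by simp)
    rw [hF N hN, sub_zero, Gl_norm_eq_one hφ hχ hχG hB h2] at h3
    exact lt_irrefl _ h3
  · obtain ⟨χ, ⟨hχ, hχG⟩, hχ1⟩ := hcl {G} 1 one_pos
    have h3 := hχ1 G (by simp)
    have h4 : χ G = 0 := by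
      apply Gl_eq_zero hφ hχ hχG
      intro q hq
      obtain ⟨Gq, hGq, G', hG', heq, hl⟩ := hroot q hq
      exact ⟨Gq, hGq, G', hG', heq, tendsto_nhds_unique (hlim _ (Ub_sub_Hinf hGq)) hl⟩
    rw [h4, zero_sub, norm_neg, hG G hGG] at h3
    exact lt_irrefl _ h3

/-- multiplicities in `FF` avoiding a point -/
lemma exists_FF_avoid {t : ℕ → ℂ} (ht : TSeq t) {z : ℂ} (hz : ‖z‖ < 1) :
    ∃ N ∈ FF, ∀ i, N i ≠ 0 → z ≠ t i := by
  classical
  refine ⟨fun k => if z = t k then 0 else (Nat.unpair k).2, ⟨?_, ?_⟩, ?_⟩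
  · intro k
    dsimp only
    split_ifs
    · positivity
    · exact (Nat.unpair_right_le k).trans (Nat.lt_two_pow_self).le
  · refine Eventually.of_forall fun n => ?_
    have hfin : ({j | z = t (Nat.pair n j)} : Set ℕ).Finite := by
      apply Set.Subsingleton.finite
      intro j hj j' hj'
      have hR : ∀ k, (0:ℝ) < Rad k := by
        intro k
        unfold Rad
        have : ((1:ℝ) / 64) ^ (k + 1) < 1 := pow_lt_one₀ (by norm_num) (by norm_num) (by omega)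
        linarith
      have h1 : rho z (t (Nat.pair n j)) < Rad (Nat.pair n j) := by
        rw [← (show z = t (Nat.pair n j) from hj), rho_self]; exact hR _
      have h2 : rho z (t (Nat.pair n j')) < Rad (Nat.pair n j') := by
        rw [← (show z = t (Nat.pair n j') from hj'), rho_self]; exact hR _
      have h3 := ht.disj z hz _ _ h1 h2
      exact (Nat.pair_eq_pair.1 h3).2
    have hev : ∀ᶠ j in (VV : Filter ℕ), j = (fun k => if z = t k then 0 else (Nat.unpair k).2) (Nat.pair n j) := by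
      have : ({j | z = t (Nat.pair n j)} : Set ℕ)ᶜ ∈ VV := Set.Finite.compl_mem_hyperfilter hfin
      filter_upwards [this] with j hj
      have hj' : ¬ z = t (Nat.pair n j) := hj
      simp [hj']
    have hid : Tendsto (fun j : ℕ => j) VV atTop := by
      have : (VV : Filter ℕ) ≤ cofinite := hyperfilter_le_cofinite
      rw [Nat.cofinite_eq_atTop] at this
      exact this
    exact hid.congr' hev
  · intro i hi h
    apply hi
    simp [h]

theorem final :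
    ∃ m : (ℂ → ℂ) → ℂ, IsChar m ∧ (∀ z ∈ Metric.ball (0:ℂ) 1, ∃ f ∈ Hinf, m f ≠ f z) ∧
      (∃ S : Set ((ℂ → ℂ) → ℂ), (∀ ψ ∈ S, IsChar ψ) ∧
        (∀ φ, IsChar φ → InClosure φ S → φ ∈ S) ∧
        (∀ f ∈ Hinf, ∀ z ∈ Metric.ball (0:ℂ) 1, ∀ ε : ℝ, 0 < ε →
            ∃ ψ ∈ S, ‖f z‖ < ‖ψ f‖ + ε) ∧
        m ∉ S) ∧
      ∀ φ : (ℂ → ℂ) → ℂ, IsChar φ →
      (∀ z ∈ Metric.ball (0:ℂ) 1, ¬ ∃ c : ℝ, c < 2 ∧ ∀ f ∈ Hinf,
          (∀ w ∈ Metric.ball (0:ℂ) 1, ‖f w‖ ≤ 1) → ‖φ f - f z‖ ≤ c) →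
      (∃ ψ, IsChar ψ ∧ Gl φ ψ ∧ ψ ≠ φ) →
      ¬ InClosure m {ψ | IsChar ψ ∧ Gl φ ψ} := by
  obtain ⟨t, ht⟩ := exists_TSeq
  obtain ⟨m, hm, hF, hG⟩ := exists_m ht
  refine ⟨m, hm, ?_, ?_, ?_⟩
  · intro z hz
    have hz' : ‖z‖ < 1 := by simpa using hz
    obtain ⟨N, hN, hNz⟩ := exists_FF_avoid ht hz'
    have hB := BlData_t ht hN.1
    refine ⟨Bl t N, Ub_sub_Hinf (Bl_mem_Ub hB), ?_⟩
    rw [hF N hN]
    exact (Bl_ne_zero hB hz' hNz).symm
  · obtain ⟨N, hN, -⟩ := exists_FF_avoid ht (z := 0) (by simp)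
    exact not_shilov (BlData_t ht hN.1) (hF N hN)
  · rintro φ hφ hD ⟨ψ, hψ, hGl, hne⟩
    refine final_core ht hF hG hφ hψ hGl hne ?_
    intro z hz
    by_contra hcon
    push Not at hcon
    apply hD z hz
    refine ⟨0, by norm_num, fun f hf _ => ?_⟩
    rw [hcon f hf, sub_self, norm_zero]

end Pool.Agent.H14.GP
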