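import Pool.Agent.H14.GP.Mob

set_option autoImplicit false

open Complex Metric Set Filter Topology ComplexConjugate MeasureTheory

namespace Pool.Agent.H14.GP

/-! ## Module E: `Pack.lean` -/

/-- Positivity of the kernel `1 / (1 - conj w z)`, in a quantitative form. -/
private lemma pack_sq_sum_le {F : Finset ℕ} {w : ℕ → ℂ} (hw : ∀ i, ‖w i‖ < 1) (h : ℕ → ℝ) :
    (∑ i ∈ F, h i) ^ 2 ≤ ∑ i ∈ F, ∑ k ∈ F, h i * h k * ((1 - conj (w k) * w i)⁻¹).re := by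
  have h1 : ∀ i k, HasSum (fun n : ℕ => h i * h k * ((conj (w k) * w i) ^ n).re)
      (h i * h k * ((1 - conj (w k) * w i)⁻¹).re) := by
    intro i k
    have hn : ‖conj (w k) * w i‖ < 1 := by
      rw [norm_mul, RCLike.norm_conj]
      have := hw k
      have := hw i
      nlinarith [norm_nonneg (w k), norm_nonneg (w i)]
    have := hasSum_geometric_of_norm_lt_one hn
    exact (Complex.hasSum_re this).mul_left _
  have h2 : HasSum (fun n : ℕ => ∑ i ∈ F, ∑ k ∈ F, h i * h k * ((conj (w k) * w i) ^ n).re)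
      (∑ i ∈ F, ∑ k ∈ F, h i * h k * ((1 - conj (w k) * w i)⁻¹).re) :=
    hasSum_sum fun i _ => hasSum_sum fun k _ => h1 i k
  have h3 : ∀ n : ℕ, ∑ i ∈ F, ∑ k ∈ F, h i * h k * ((conj (w k) * w i) ^ n).re =
      ‖∑ i ∈ F, (h i : ℂ) * w i ^ n‖ ^ 2 := by
    intro n
    have : ((‖∑ i ∈ F, (h i : ℂ) * w i ^ n‖ ^ 2 : ℝ) : ℂ) =
        ∑ i ∈ F, ∑ k ∈ F, (h i : ℂ) * h k * (conj (w k) * w i) ^ n := by
      rw [← Complex.normSq_eq_norm_sq, ← Complex.mul_conj, map_sum, Finset.sum_mul_sum]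
      refine Finset.sum_congr rfl fun i _ => Finset.sum_congr rfl fun k _ => ?_
      rw [map_mul, Complex.conj_ofReal, map_pow, mul_pow]
      ring
    have h4 := congrArg Complex.re this
    rw [Complex.ofReal_re] at h4
    rw [h4, Complex.re_sum]
    refine Finset.sum_congr rfl fun i _ => ?_
    rw [Complex.re_sum]
    refine Finset.sum_congr rfl fun k _ => ?_
    rw [← Complex.ofReal_mul, Complex.re_ofReal_mul]
  have h5 := le_hasSum h2 0 (fun n _ => by rw [h3]; positivity)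
  refine le_trans (le_of_eq ?_) h5
  simp only [pow_zero, Complex.one_re, mul_one]
  rw [← Finset.sum_mul_sum, sq]

private lemma pack_re_inv {z w : ℂ} (hz : ‖z‖ < 1) (hw : ‖w‖ < 1) :
    2 * ((1 - conj w * z)⁻¹).re - 1 ≤
      ((1 - ‖z‖ ^ 2) + (1 - ‖w‖ ^ 2)) / ‖1 - conj w * z‖ ^ 2 := by
  have h0 : 0 < ‖1 - conj w * z‖ ^ 2 := by
    have := norm_pos_iff.2 (one_sub_conj_mul_ne hz hw)
    positivity
  have h1 : ((1 - conj w * z)⁻¹).re = (1 - (conj w * z).re) / ‖1 - conj w * z‖ ^ 2 := by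
    rw [Complex.inv_re, Complex.normSq_eq_norm_sq]
    simp
  have h2 : ‖1 - conj w * z‖ ^ 2 = 1 - 2 * (conj w * z).re + ‖w‖ ^ 2 * ‖z‖ ^ 2 := by
    have : ‖w‖ ^ 2 * ‖z‖ ^ 2 = ‖conj w * z‖ ^ 2 := by
      rw [norm_mul, RCLike.norm_conj, mul_pow]
    rw [this, ← Complex.normSq_eq_norm_sq, ← Complex.normSq_eq_norm_sq]
    rw [Complex.normSq_apply, Complex.normSq_apply]
    simp only [Complex.sub_re, Complex.sub_im, Complex.one_re, Complex.one_im]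
    ring
  rw [h1, le_div_iff₀ h0, sub_mul, mul_assoc, div_mul_cancel₀ _ h0.ne', one_mul, h2]
  have hz2 : ‖z‖ ^ 2 ≤ 1 := by nlinarith [norm_nonneg z]
  have hw2 : ‖w‖ ^ 2 ≤ 1 := by nlinarith [norm_nonneg w]
  nlinarith [mul_nonneg (sub_nonneg.2 hz2) (sub_nonneg.2 hw2)]

theorem packing {s : ℕ → ℂ} {A : Set ℕ} (hs : ∀ i, ‖s i‖ < 1) {Λ : ℝ}
    (h : ∀ i ∈ A, ∀ F : Finset ℕ, (↑F : Set ℕ) ⊆ A → ∑ k ∈ F, Ke (s i) (s k) ≤ Λ) :
    ∃ C : ℝ, ∀ z : ℂ, ‖z‖ < 1 → ∀ F : Finset ℕ, (↑F : Set ℕ) ⊆ A → ∑ k ∈ F, Ke z (s k) ≤ C := by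
  refine ⟨max (2 * Λ) 0, fun z hz F hF => ?_⟩
  rcases F.eq_empty_or_nonempty with rfl | hne
  · simp
  refine le_trans ?_ (le_max_left _ _)
  set w : ℕ → ℂ := fun i => mob z (s i) with hwdef
  have hw : ∀ i, ‖w i‖ < 1 := fun i => norm_mob_lt (hs i) hz
  have e1 : ∀ k, Ke z (s k) = 1 - ‖w k‖ ^ 2 := by
    intro k
    rw [Ke_comm, Ke_eq (hs k) hz]; rfl
  have e2 : ∀ i k, Ke (s i) (s k) = Ke (w i) (w k) := fun i k => Ke_mob_mob (hs i) hz (hs k)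
  set H : ℝ := ∑ k ∈ F, Ke z (s k) with hH
  have hpos : 0 < H := Finset.sum_pos (fun k _ => Ke_pos hz (hs k)) hne
  have hp : ∀ k, 0 < Ke z (s k) := fun k => Ke_pos hz (hs k)
  have k1 := pack_sq_sum_le (F := F) hw (fun k => Ke z (s k))
  rw [← hH] at k1
  have k2 : ∑ i ∈ F, ∑ k ∈ F, Ke z (s i) * Ke z (s k) * (2 * ((1 - conj (w k) * w i)⁻¹).re - 1) =
      2 * (∑ i ∈ F, ∑ k ∈ F, Ke z (s i) * Ke z (s k) * ((1 - conj (w k) * w i)⁻¹).re) - H ^ 2 := by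
    rw [hH, sq, Finset.sum_mul_sum, Finset.mul_sum, ← Finset.sum_sub_distrib]
    refine Finset.sum_congr rfl fun i _ => ?_
    rw [Finset.mul_sum, ← Finset.sum_sub_distrib]
    refine Finset.sum_congr rfl fun k _ => ?_
    ring
  have k3 : ∑ i ∈ F, ∑ k ∈ F, Ke z (s i) * Ke z (s k) * (2 * ((1 - conj (w k) * w i)⁻¹).re - 1) ≤
      ∑ i ∈ F, ∑ k ∈ F, (Ke z (s i) * Ke (s i) (s k) + Ke z (s k) * Ke (s i) (s k)) := by
    refine Finset.sum_le_sum fun i _ => Finset.sum_le_sum fun k _ => ?_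
    refine le_trans (mul_le_mul_of_nonneg_left (pack_re_inv (hw i) (hw k))
      (mul_pos (hp i) (hp k)).le) (le_of_eq ?_)
    rw [e2, e1 i, e1 k]
    unfold Ke
    ring
  have k4 : ∑ i ∈ F, ∑ k ∈ F, Ke z (s i) * Ke (s i) (s k) ≤ H * Λ := by
    rw [hH, Finset.sum_mul]
    refine Finset.sum_le_sum fun i hi => ?_
    rw [← Finset.mul_sum]
    exact mul_le_mul_of_nonneg_left (h i (hF hi) F hF) (hp i).le
  have k5 : ∑ i ∈ F, ∑ k ∈ F, Ke z (s k) * Ke (s i) (s k) =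
      ∑ i ∈ F, ∑ k ∈ F, Ke z (s i) * Ke (s i) (s k) := by
    rw [Finset.sum_comm]
    refine Finset.sum_congr rfl fun i _ => Finset.sum_congr rfl fun k _ => ?_
    rw [Ke_comm (s k) (s i)]
  have k6 : ∑ i ∈ F, ∑ k ∈ F, (Ke z (s i) * Ke (s i) (s k) + Ke z (s k) * Ke (s i) (s k)) =
      2 * ∑ i ∈ F, ∑ k ∈ F, Ke z (s i) * Ke (s i) (s k) := by
    simp only [Finset.sum_add_distrib]
    rw [k5]; ring
  have k7 : H ^ 2 ≤ 2 * (H * Λ) := by linarith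
  have k8 : H * H ≤ H * (2 * Λ) := by nlinarith
  exact le_of_mul_le_mul_left k8 hpos

end Pool.Agent.H14.GP
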