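import Pool.Agent.H14.GP.Defs

set_option autoImplicit false

open Complex Metric Set Filter Topology ComplexConjugate MeasureTheory

namespace Pool.Agent.H14.GP

theorem exists_root {g : ℂ → ℂ} (hg : g ∈ Ub) (hne : ∀ z ∈ ball (0:ℂ) 1, g z ≠ 0) (q : ℕ)
    (hq : 0 < q) : ∃ h ∈ Ub, EqOn g (fun z => h z ^ q) (ball 0 1) := by
  have hd : DifferentiableOn ℂ (fun z => deriv g z / g z) (ball (0:ℂ) 1) :=
    (hg.1.deriv isOpen_ball).div hg.1 hne
  obtain ⟨F, hF⟩ := hd.isExactOn_ball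
  have h0 : (0:ℂ) ∈ ball (0:ℂ) 1 := mem_ball_self one_pos
  have hFd : DifferentiableOn ℂ F (ball (0:ℂ) 1) :=
    fun z hz => (hF z hz).differentiableAt.differentiableWithinAt
  -- `g * exp (-F)` is constant
  have hconst : ∀ z ∈ ball (0:ℂ) 1, g z * exp (-F z) = g 0 * exp (-F 0) := by
    intro z hz
    refine (convex_ball (0:ℂ) 1).is_const_of_fderivWithin_eq_zero (𝕜 := ℂ)
      (f := fun z => g z * exp (-F z)) (hg.1.mul hFd.neg.cexp) ?_ hz h0
    intro w hw
    have hgw : HasDerivAt g (deriv g w) w :=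
      (hg.1.differentiableAt (isOpen_ball.mem_nhds hw)).hasDerivAt
    have h1 : HasDerivAt (fun z => g z * exp (-F z)) 0 w := by
      have := hgw.mul (hF w hw).neg.cexp
      refine this.congr_deriv ?_
      have := hne w hw
      field_simp
      ring
    rw [(h1.hasFDerivAt.hasFDerivWithinAt).fderivWithin (isOpen_ball.uniqueDiffWithinAt hw)]
    simp
  have hqc : (q : ℂ) ≠ 0 := by exact_mod_cast hq.ne'
  set c : ℂ := g 0 * exp (-F 0) with hc
  have hc0 : c ≠ 0 := mul_ne_zero (hne 0 h0) (exp_ne_zero _)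
  have hgz : ∀ z ∈ ball (0:ℂ) 1, g z = exp ((F z + log c) / q) ^ q := by
    intro z hz
    rw [← exp_nat_mul, mul_div_cancel₀ _ hqc, exp_add, exp_log hc0, ← hconst z hz, ← mul_assoc,
      mul_comm (exp (F z)), mul_assoc, ← exp_add]
    simp
  refine ⟨fun z => exp ((F z + log c) / q), ⟨?_, ?_⟩, fun z hz => hgz z hz⟩
  · exact ((hFd.add_const _).div_const _).cexp
  · intro z hz
    have h1 := hg.2 z hz
    rw [hgz z hz, norm_pow] at h1
    exact (pow_le_one_iff_of_nonneg (norm_nonneg _) hq.ne').1 h1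

end Pool.Agent.H14.GP
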