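import Pool.Agent.H14.GP.Bl
import Pool.Agent.H14.GP.Fact
import Pool.Agent.H14.GP.Root
import Pool.Agent.H14.GP.Char
import Pool.Agent.H14.GP.GlPart

set_option autoImplicit false

open Complex Metric Set Filter Topology ComplexConjugate MeasureTheory

namespace Pool.Agent.H14.GP

private lemma prime_Ub_Hinf {f : ℂ → ℂ} (hf : f ∈ Ub) : f ∈ Hinf := ⟨hf.1, 1, hf.2⟩

private lemma prime_one_mem : (1 : ℂ → ℂ) ∈ Ub := by
  refine ⟨differentiableOn_const 1, fun z _ => ?_⟩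
  simp

private lemma prime_char_mul {φ : (ℂ → ℂ) → ℂ} (h : IsChar φ) {f g k : ℂ → ℂ} (hf : f ∈ Ub)
    (hg : g ∈ Ub) (hk : k ∈ Ub) (he : EqOn k (f * g) (ball 0 1)) : φ k = φ f * φ g := by
  have hf' := prime_Ub_Hinf hf
  have hg' := prime_Ub_Hinf hg
  have hfg : f * g ∈ Hinf := by
    refine ⟨hf.1.mul hg.1, 1, fun z hz => ?_⟩
    rw [Pi.mul_apply, norm_mul]
    exact mul_le_one₀ (hf.2 z hz) (norm_nonneg _) (hg.2 z hz)
  rw [(h.2.1 k (prime_Ub_Hinf hk) (f * g) hfg).2.2 he]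
  exact (h.2.1 f hf' g hg').2.1

private lemma prime_data_mono {s : ℕ → ℂ} {A A' : Set ℕ} (h : BlData s (ind A)) (hA : A' ⊆ A) :
    BlData s (ind A') := by
  refine ⟨h.1, ?_⟩
  refine Summable.of_nonneg_of_le (fun i => ?_) (fun i => ?_) h.2
  · have := h.1 i
    exact mul_nonneg (Nat.cast_nonneg _) (by linarith)
  · have := h.1 i
    apply mul_le_mul_of_nonneg_right _ (by linarith)
    rw [Nat.cast_le]
    unfold ind
    exact Set.indicator_le_indicator_of_subset hA (fun _ => Nat.zero_le _) i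

private lemma prime_ind_add {A A' : Set ℕ} (hA : A' ⊆ A) : ind A' + ind (A \ A') = ind A := by
  classical
  unfold ind
  funext i
  rw [Pi.add_apply, Set.indicator_apply, Set.indicator_apply, Set.indicator_apply]
  by_cases h1 : i ∈ A'
  · have h2 : i ∈ A := hA h1
    have h3 : i ∉ A \ A' := fun h => h.2 h1
    rw [if_pos h1, if_pos h2, if_neg h3]
    rfl
  · by_cases h2 : i ∈ A
    · have h3 : i ∈ A \ A' := ⟨h2, h1⟩
      rw [if_neg h1, if_pos h2, if_pos h3]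
      rfl
    · have h3 : i ∉ A \ A' := fun h => h2 h.1
      rw [if_neg h1, if_neg h2, if_neg h3, add_zero]

private lemma prime_split {s : ℕ → ℂ} {A A' : Set ℕ} (h : BlData s (ind A)) (hA : A' ⊆ A)
    {φ : (ℂ → ℂ) → ℂ} (hφ : IsChar φ) :
    φ (Bl s (ind A)) = φ (Bl s (ind A')) * φ (Bl s (ind (A \ A'))) := by
  have h1 := prime_data_mono h hA
  have h2 := prime_data_mono h (A' := A \ A') Set.sdiff_subset
  apply prime_char_mul hφ (Bl_mem_Ub h1) (Bl_mem_Ub h2) (Bl_mem_Ub h)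
  rw [← prime_ind_add hA]
  exact Bl_add h1 h2

/-- H1: a Blaschke product that is prime at `φ` -/
theorem prime_blaschke {φ ψ : (ℂ → ℂ) → ℂ} (hφ : IsChar φ) (hψ : IsChar ψ) (hGl : Gl φ ψ)
    (hne : ψ ≠ φ) :
    ∃ (s : ℕ → ℂ) (A : Set ℕ), BlData s (ind A) ∧ φ (Bl s (ind A)) = 0 ∧
      ∀ A' ⊆ A, ¬ (φ (Bl s (ind A')) = 0 ∧ φ (Bl s (ind (A \ A'))) = 0) := by
  -- a function vanishing at `φ` and not at `ψ`
  obtain ⟨f, hf, hf0, hf1⟩ : ∃ f ∈ Ub, φ f = 0 ∧ ψ f ≠ 0 := by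
    obtain ⟨f, hf⟩ : ∃ f, ψ f ≠ φ f := by
      by_contra hcon
      push Not at hcon
      exact hne (funext hcon)
    have hfH : f ∈ Hinf := by
      by_contra hcon
      rw [hφ.2.2.2 f hcon, hψ.2.2.2 f hcon] at hf
      exact hf rfl
    have h1H : (1 : ℂ → ℂ) ∈ Hinf := prime_Ub_Hinf prime_one_mem
    have hcH : ∀ c : ℂ, ∀ g ∈ Hinf, c • g ∈ Hinf := by
      rintro c g ⟨hg1, C, hg2⟩
      refine ⟨hg1.const_smul c, ‖c‖ * C, fun z hz => ?_⟩
      rw [Pi.smul_apply, norm_smul]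
      exact mul_le_mul_of_nonneg_left (hg2 z hz) (norm_nonneg c)
    have haH : ∀ g ∈ Hinf, ∀ k ∈ Hinf, g + k ∈ Hinf := by
      rintro g ⟨hg1, C, hg2⟩ k ⟨hk1, C', hk2⟩
      refine ⟨hg1.add hk1, C + C', fun z hz => ?_⟩
      rw [Pi.add_apply]
      exact (norm_add_le _ _).trans (add_le_add (hg2 z hz) (hk2 z hz))
    have hg := haH f hfH ((-φ f) • (1 : ℂ → ℂ)) (hcH _ _ h1H)
    have hval : ∀ χ : (ℂ → ℂ) → ℂ, IsChar χ → χ (f + (-φ f) • (1 : ℂ → ℂ)) = χ f - φ f := by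
      intro χ hχ
      rw [(hχ.2.1 f hfH _ (hcH _ _ h1H)).1, hχ.2.2.1 _ _ h1H, hχ.1]
      ring
    obtain ⟨hg1, C, hg2⟩ := hg
    set g := f + (-φ f) • (1 : ℂ → ℂ) with hgdef
    have hgH : g ∈ Hinf := ⟨hg1, C, hg2⟩
    have hC : 0 ≤ C := (norm_nonneg _).trans (hg2 0 (by simp))
    refine ⟨((1 / (C + 1) : ℝ) : ℂ) • g, ⟨hg1.const_smul _, fun z hz => ?_⟩, ?_, ?_⟩
    · rw [Pi.smul_apply, norm_smul, Complex.norm_real, Real.norm_of_nonneg (by positivity)]
      rw [div_mul_eq_mul_div, one_mul, div_le_one (by positivity)]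
      linarith [hg2 z hz]
    · rw [hφ.2.2.1 _ _ hgH, hval φ hφ, sub_self, mul_zero]
    · rw [hψ.2.2.1 _ _ hgH, hval ψ hψ]
      apply mul_ne_zero
      · rw [Complex.ofReal_ne_zero]; positivity
      · exact sub_ne_zero.2 hf
  have hnz : ∃ z ∈ ball (0:ℂ) 1, f z ≠ 0 := by
    by_contra hcon
    push Not at hcon
    apply hf1
    have h0 : (0 : ℂ) • (1 : ℂ → ℂ) ∈ Hinf := by
      refine ⟨?_, 0, fun z _ => ?_⟩
      · rw [zero_smul]; exact differentiableOn_const 0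
      · simp
    rw [(hψ.2.1 f (prime_Ub_Hinf hf) _ h0).2.2 (by
      intro z hz
      rw [hcon z hz]; simp)]
    rw [hψ.2.2.1 0 1 (prime_Ub_Hinf prime_one_mem), zero_mul]
  obtain ⟨s, A, hA, g, hg, hgnz, hfac⟩ := exists_blaschke_factor hf hnz
  have hB := Bl_mem_Ub hA
  have hφf := prime_char_mul hφ hB hg hf hfac
  have hψf := prime_char_mul hψ hB hg hf hfac
  have hψg : ψ g ≠ 0 := by
    intro h; rw [h, mul_zero] at hψf; exact hf1 hψf
  have hψB : ψ (Bl s (ind A)) ≠ 0 := by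
    intro h; rw [h, zero_mul] at hψf; exact hf1 hψf
  have hφg : φ g ≠ 0 := by
    intro h
    apply hψg
    apply Gl_eq_zero hφ hψ hGl
    intro q hq
    obtain ⟨k, hk, hk2⟩ := exists_root hg hgnz q hq
    refine ⟨k, hk, 1, prime_one_mem, ?_, ?_⟩
    · intro z hz
      rw [hk2 hz]
      simp
    · -- `φ k ^ q = φ g = 0`
      have hpow : ∀ n : ℕ, ∀ u ∈ Ub, EqOn u (fun z => k z ^ n) (ball 0 1) → φ u = φ k ^ n := by
        intro n
        induction n with
        | zero =>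
          intro u hu he
          rw [pow_zero, ← hφ.1]
          refine (hφ.2.1 u (prime_Ub_Hinf hu) 1 (prime_Ub_Hinf prime_one_mem)).2.2 ?_
          intro z hz
          rw [he hz]; simp
        | succ n ih =>
          intro u hu he
          have hpk : (fun z => k z ^ n) ∈ Ub := by
            refine ⟨hk.1.pow n, fun z hz => ?_⟩
            rw [norm_pow]
            exact pow_le_one₀ (norm_nonneg _) (hk.2 z hz)
          rw [pow_succ, ← ih _ hpk (fun z _ => rfl)]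
          apply prime_char_mul hφ hpk hk hu
          intro z hz
          rw [he hz, Pi.mul_apply]
          exact pow_succ _ _
      have := hpow q g hg hk2
      rw [h] at this
      exact eq_zero_of_pow_eq_zero this.symm
  have hφB : φ (Bl s (ind A)) = 0 := by
    rw [hf0] at hφf
    rcases mul_eq_zero.1 hφf.symm with h | h
    · exact h
    · exact absurd h hφg
  obtain ⟨ρ, hρ, hρb⟩ := Gl_exists_rho hφ hψ hGl
  have hρ0 : 0 ≤ ρ := (norm_nonneg _).trans (hρb _ hB hφB)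
  by_contra hcon
  push Not at hcon
  have key : ∀ n : ℕ, ∀ A0 ⊆ A, φ (Bl s (ind A0)) = 0 → ‖ψ (Bl s (ind A0))‖ ≤ ρ ^ n := by
    intro n
    induction n with
    | zero =>
      intro A0 hA0 h0
      rw [pow_zero]
      exact (hρb _ (Bl_mem_Ub (prime_data_mono hA hA0)) h0).trans hρ.le
    | succ n ih =>
      intro A0 hA0 h0
      have hd := prime_data_mono hA hA0
      obtain ⟨A', hA', h1, h2⟩ := hcon s A0 hd h0
      rw [prime_split hd hA' hψ, norm_mul, pow_succ]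
      apply mul_le_mul (ih A' (hA'.trans hA0) h1) _ (norm_nonneg _) (by positivity)
      exact hρb _ (Bl_mem_Ub (prime_data_mono hd Set.sdiff_subset)) h2
  have hlim : Tendsto (fun n : ℕ => ρ ^ n) atTop (𝓝 0) := tendsto_pow_atTop_nhds_zero_of_lt_one hρ0 hρ
  have hle : ‖ψ (Bl s (ind A))‖ ≤ 0 := ge_of_tendsto' hlim (fun n => key n A Subset.rfl hφB)
  exact hψB (norm_le_zero_iff.1 hle)

end Pool.Agent.H14.GP
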