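import Pool.Agent.H14.GP.Bl
import Pool.Agent.H14.GP.Split
import Pool.Agent.H14.GP.Char
import Pool.Agent.H14.GP.ClAux

set_option autoImplicit false

open Complex Metric Set Filter Topology ComplexConjugate MeasureTheory

namespace Pool.Agent.H14.GP

/-- greedy colouring: the least colour not used by smaller neighbours -/
noncomputable def thinGreedy (adj : ℕ → ℕ → Prop) (i : ℕ) : ℕ :=
  sInf {c | ∀ j, (h : j < i) → adj j i → thinGreedy adj j ≠ c}
termination_by i
decreasing_by exact h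

lemma thinGreedy_spec (adj : ℕ → ℕ → Prop) (M : ℕ) (i : ℕ) (T : Finset ℕ)
    (hT : ∀ j, j < i → adj j i → j ∈ T) (hM : T.card ≤ M) :
    thinGreedy adj i ≤ M ∧ ∀ j, j < i → adj j i → thinGreedy adj j ≠ thinGreedy adj i := by
  classical
  have hne : ∃ c ≤ M, c ∈ {c | ∀ j, (h : j < i) → adj j i → thinGreedy adj j ≠ c} := by
    by_contra hcon
    push Not at hcon
    have h1 : Finset.range (M + 1) ⊆ T.image (thinGreedy adj) := by
      intro c hc
      have h2 := hcon c (by simpa [Nat.lt_succ_iff] using hc)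
      simp only [mem_setOf_eq, not_forall, not_not] at h2
      obtain ⟨j, hj, hadj, hc'⟩ := h2
      exact Finset.mem_image.2 ⟨j, hT j hj hadj, hc'⟩
    have h2 := (Finset.card_le_card h1).trans Finset.card_image_le
    rw [Finset.card_range] at h2
    omega
  obtain ⟨c, hcM, hc⟩ := hne
  have e : thinGreedy adj i = sInf {c | ∀ j, (h : j < i) → adj j i → thinGreedy adj j ≠ c} := by
    rw [thinGreedy]
  rw [e]
  refine ⟨(Nat.sInf_le hc).trans hcM, ?_⟩
  intro j hj hadj
  exact (Nat.sInf_mem ⟨c, hc⟩) j hj hadj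

/-- if the sums of `Ke` at `s i` are at most `K`, then a small value of the product forces a near
neighbour -/
lemma thin_near {s : ℕ → ℂ} {A : Set ℕ} (h : BlData s (ind A)) {K : ℝ} {M : ℕ}
    (hM : 4 * K / 3 ≤ M) {i : ℕ}
    (hu : ∑' k, (ind (A \ {i}) k : ℝ) * Ke (s i) (s k) ≤ K) :
    ∃ T : Finset ℕ, T.card ≤ M ∧ (∀ k, k ∈ A → k ≠ i → rho (s i) (s k) < 1 / 2 → k ∈ T) ∧
      ∀ ε : ℝ, 0 < ε → ε < 1 → ‖Bl s (ind (A \ {i})) (s i)‖ < ε ^ M * Real.exp (-2 * K) →
        ∃ k ∈ A, k ≠ i ∧ rho (s i) (s k) < ε := by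
  classical
  have hB : BlData s (ind (A \ {i})) := clAux_blData_mono h sdiff_subset
  have hz := h.1 i
  have hsum := summable_Ke hB hz
  have hterm : ∀ k, 0 ≤ (ind (A \ {i}) k : ℝ) * Ke (s i) (s k) := fun k =>
    mul_nonneg (Nat.cast_nonneg _) (Ke_pos hz (h.1 k)).le
  -- the near points
  set Tn : Set ℕ := {k | k ∈ A \ {i} ∧ rho (s i) (s k) < 1 / 2} with hTn
  have hlow : ∀ k ∈ Tn, (3 / 4 : ℝ) ≤ (ind (A \ {i}) k : ℝ) * Ke (s i) (s k) := by
    intro k hk
    rw [clAux_ind_of_mem hk.1, Ke_eq hz (h.1 k)]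
    have := rho_nonneg (s i) (s k)
    have := hk.2
    push_cast
    nlinarith
  have hfin : ∀ F : Finset ℕ, (↑F : Set ℕ) ⊆ Tn → F.card ≤ M := by
    intro F hF
    have h1 : ∑ k ∈ F, (3 / 4 : ℝ) ≤ ∑ k ∈ F, (ind (A \ {i}) k : ℝ) * Ke (s i) (s k) :=
      Finset.sum_le_sum fun k hk => hlow k (hF hk)
    have h2 := hsum.sum_le_tsum F (fun k _ => hterm k)
    rw [Finset.sum_const, nsmul_eq_mul] at h1
    have h3 : (F.card : ℝ) ≤ M := by linarith
    exact_mod_cast h3
  have hTfin : Tn.Finite := by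
    by_contra hinf
    obtain ⟨F, hF, hFc⟩ := Set.Infinite.exists_subset_card_eq hinf (M + 1)
    have := hfin F hF
    omega
  set T : Finset ℕ := hTfin.toFinset with hT
  have hTc : T.card ≤ M := hfin T (by rw [hT]; simp)
  refine ⟨T, hTc, ?_, ?_⟩
  · intro k hk hki hr
    rw [hT, Set.Finite.mem_toFinset]
    exact ⟨⟨hk, hki⟩, hr⟩
  · intro ε hε hε1 hD
    by_contra hcon
    push Not at hcon
    rw [norm_Bl_eq_prod_mul hB hz T] at hD
    have hprod : ε ^ M ≤ ∏ k ∈ T, rho (s i) (s k) ^ ind (A \ {i}) k := by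
      have h1 : ∏ k ∈ T, ε ≤ ∏ k ∈ T, rho (s i) (s k) ^ ind (A \ {i}) k := by
        refine Finset.prod_le_prod (fun _ _ => hε.le) fun k hk => ?_
        rw [hT, Set.Finite.mem_toFinset] at hk
        rw [clAux_ind_of_mem hk.1, pow_one]
        exact hcon k hk.1.1 hk.1.2
      rw [Finset.prod_const] at h1
      exact (pow_le_pow_of_le_one hε.le hε1.le hTc).trans h1
    have hB2 : BlData s (fun k => if k ∈ T then 0 else ind (A \ {i}) k) := by
      refine ⟨h.1, Summable.of_nonneg_of_le (fun k => ?_) (fun k => ?_) hB.2⟩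
      · have := h.1 k
        have : 0 ≤ 1 - ‖s k‖ := by linarith
        positivity
      · have := h.1 k
        refine mul_le_mul_of_nonneg_right ?_ (by linarith)
        show ((if k ∈ T then 0 else ind (A \ {i}) k : ℕ) : ℝ) ≤ ind (A \ {i}) k
        split_ifs <;> simp
    have hrest : Real.exp (-2 * K) ≤
        ‖Bl s (fun k => if k ∈ T then 0 else ind (A \ {i}) k) (s i)‖ := by
      have h1 := exp_le_norm_Bl hB2 hz (c := 1 / 2) (by norm_num) (by
        intro k hk
        by_contra hlt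
        push Not at hlt
        apply hk
        by_cases hkA : k ∈ A \ {i}
        · have : k ∈ T := by
            rw [hT, Set.Finite.mem_toFinset]
            exact ⟨hkA, hlt⟩
          simp [this]
        · simp [clAux_ind_of_not_mem hkA])
      refine le_trans (Real.exp_le_exp.2 ?_) h1
      have h2 : ∑' k, ((if k ∈ T then 0 else ind (A \ {i}) k : ℕ) : ℝ) * Ke (s i) (s k) ≤ K := by
        refine le_trans ?_ hu
        refine Summable.tsum_le_tsum (fun k => ?_) (summable_Ke hB2 hz) hsum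
        refine mul_le_mul_of_nonneg_right ?_ (Ke_pos hz (h.1 k)).le
        split_ifs <;> simp
      have e1 : -(1 / (2 * (1 / 2 : ℝ) ^ 2)) = -2 := by norm_num
      rw [e1]
      linarith
    have h3 : ε ^ M * Real.exp (-2 * K) ≤
        (∏ k ∈ T, rho (s i) (s k) ^ ind (A \ {i}) k) *
          ‖Bl s (fun k => if k ∈ T then 0 else ind (A \ {i}) k) (s i)‖ :=
      mul_le_mul hprod hrest (Real.exp_pos _).le
        (Finset.prod_nonneg fun k _ => pow_nonneg (rho_nonneg _ _) _)
    linarith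

/-- H3: the zeros near `φ` are uniformly separated from the other ones, in the Blaschke sense -/
theorem thin {φ : (ℂ → ℂ) → ℂ} (hφ : IsChar φ) {s : ℕ → ℂ} {A : Set ℕ}
    (h : BlData s (ind A))
    (hp : ∀ A' ⊆ A, ¬ (φ (Bl s (ind A')) = 0 ∧ φ (Bl s (ind (A \ A'))) = 0))
    {ω : Ultrafilter ℕ} (hA : A ∈ ω) (hω : ∀ f ∈ Hinf, Tendsto (fun i => f (s i)) ω (𝓝 (φ f))) :
    ∃ δ > (0:ℝ), {i | i ∈ A ∧ δ ≤ ‖Bl s (ind (A \ {i})) (s i)‖} ∈ ω := by
  classical
  by_contra hcon
  push Not at hcon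
  have hsm : ∀ δ > (0:ℝ), ∀ᶠ i in (ω : Filter ℕ), ‖Bl s (ind (A \ {i})) (s i)‖ < δ := by
    intro δ hδ
    have h1 := hcon δ hδ
    rw [← Ultrafilter.compl_mem_iff_notMem] at h1
    filter_upwards [hA, h1] with i hi1 hi2
    by_contra h3
    exact hi2 ⟨hi1, not_lt.1 h3⟩
  have hzz : ∀ᶠ i in (ω : Filter ℕ), ‖s i‖ < 1 := Eventually.of_forall h.1
  by_cases hcase : ∀ K : ℝ, ∀ᶠ i in (ω : Filter ℕ),
      K ≤ ∑' k, (ind (A \ {i}) k : ℝ) * Ke (s i) (s k)
  · -- case 1
    refine clAux_split_contra (l := (ω : Filter ℕ)) (z := s) hzz hω h hp ?_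
    rw [Filter.tendsto_atTop]
    intro K
    filter_upwards [hcase K] with i hi
    refine hi.trans ?_
    refine Summable.tsum_le_tsum (fun k => ?_)
      (summable_Ke (clAux_blData_mono h sdiff_subset) (h.1 i)) (summable_Ke h (h.1 i))
    exact mul_le_mul_of_nonneg_right (clAux_ind_mono sdiff_subset k) (Ke_pos (h.1 i) (h.1 k)).le
  · push Not at hcase
    obtain ⟨K, hK⟩ := hcase
    obtain ⟨M, hM⟩ := exists_nat_ge (4 * K / 3)
    -- the good index set
    set AK : Set ℕ := {i | i ∈ A ∧ ∑' k, (ind (A \ {i}) k : ℝ) * Ke (s i) (s k) ≤ K} with hAK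
    have hAKω : AK ∈ ω := by
      have : ∀ᶠ i in (ω : Filter ℕ), i ∈ AK := by
        filter_upwards [hA, hK] with i hi1 hi2
        exact ⟨hi1, hi2.le⟩
      exact this
    set adj : ℕ → ℕ → Prop := fun j i => j ∈ AK ∧ i ∈ AK ∧ j ≠ i ∧ rho (s j) (s i) < 1 / 2
      with hadj
    have hgood : ∀ i ∈ AK, thinGreedy adj i ≤ M ∧
        ∀ j, j < i → adj j i → thinGreedy adj j ≠ thinGreedy adj i := by
      intro i hi
      obtain ⟨T, hTc, hT, -⟩ := thin_near h hM hi.2
      refine thinGreedy_spec adj M i T ?_ hTc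
      intro j hj hji
      refine hT j hji.1.1 hji.2.2.1 ?_
      rw [rho_comm]
      exact hji.2.2.2
    have hcol : ∃ c, {i | i ∈ AK ∧ thinGreedy adj i = c} ∈ ω := by
      by_contra hno
      push Not at hno
      have h1 : ∀ c, ∀ᶠ i in (ω : Filter ℕ), ¬ (i ∈ AK ∧ thinGreedy adj i = c) := by
        intro c
        rw [Ultrafilter.eventually_not]
        exact hno c
      have h2 : ∀ᶠ i in (ω : Filter ℕ), ∀ c ∈ Finset.range (M + 1),
          ¬ (i ∈ AK ∧ thinGreedy adj i = c) :=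
        (Finset.eventually_all _).2 fun c _ => h1 c
      have h3 : ∀ᶠ i in (ω : Filter ℕ), False := by
        filter_upwards [h2, hAKω] with i hi1 hi2
        refine hi1 (thinGreedy adj i) ?_ ⟨hi2, rfl⟩
        have := (hgood i hi2).1
        simp only [Finset.mem_range]
        omega
      exact h3.exists.elim fun _ hf => hf
    obtain ⟨c, hc⟩ := hcol
    set A' : Set ℕ := {i | i ∈ AK ∧ thinGreedy adj i = c} with hA'
    have hA'A : A' ⊆ A := fun i hi => hi.1.1
    refine hp A' hA'A ⟨?_, ?_⟩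
    · have hB' := clAux_blData_mono h hA'A
      refine tendsto_nhds_unique (hω _ (clAux_mem_Hinf hB')) ?_
      refine tendsto_const_nhds.congr' ?_
      filter_upwards [hc] with i hi
      exact (Bl_zero_of hB' (by rw [clAux_ind_of_mem hi]; norm_num)).symm
    · have hB' : BlData s (ind (A \ A')) := clAux_blData_mono h sdiff_subset
      refine tendsto_nhds_unique (hω _ (clAux_mem_Hinf hB')) ?_
      rw [Metric.tendsto_nhds]
      intro ε hε
      set ε' : ℝ := min ε (1 / 4) with hε'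
      have hε'0 : 0 < ε' := lt_min hε (by norm_num)
      have hε'1 : ε' < 1 := lt_of_le_of_lt (min_le_right _ _) (by norm_num)
      have hε'2 : ε' < 1 / 2 := lt_of_le_of_lt (min_le_right _ _) (by norm_num)
      filter_upwards [hc, hsm (ε' ^ M * Real.exp (-2 * K)) (by positivity)] with i hi hD
      obtain ⟨T, hTc, hT, hnear⟩ := thin_near h hM hi.1.2
      obtain ⟨k, hkA, hki, hk⟩ := hnear ε' hε'0 hε'1 hD
      have hkA' : k ∉ A' := by
        intro hkA'
        have hadjik : ∀ a b, a = i ∧ b = k ∨ a = k ∧ b = i → a < b →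
            thinGreedy adj a ≠ thinGreedy adj b := by
          intro a b hab hlt
          have hbAK : b ∈ AK := by
            rcases hab with ⟨rfl, rfl⟩ | ⟨rfl, rfl⟩
            · exact hkA'.1
            · exact hi.1
          refine (hgood b hbAK).2 a hlt ?_
          rcases hab with ⟨rfl, rfl⟩ | ⟨rfl, rfl⟩
          · exact ⟨hi.1, hkA'.1, hlt.ne, hk.trans hε'2⟩
          · refine ⟨hkA'.1, hi.1, hlt.ne, ?_⟩
            rw [rho_comm]
            exact hk.trans hε'2
        rcases lt_or_gt_of_ne hki with hlt | hgt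
        · exact hadjik k i (Or.inr ⟨rfl, rfl⟩) hlt (hkA'.2.trans hi.2.symm)
        · exact hadjik i k (Or.inl ⟨rfl, rfl⟩) hgt (hi.2.trans hkA'.2.symm)
      have h5 := norm_Bl_le_pow hB' (h.1 i) k
      rw [clAux_ind_of_mem (show k ∈ A \ A' from ⟨hkA, hkA'⟩), pow_one] at h5
      rw [dist_zero_right]
      exact lt_of_le_of_lt h5 (lt_of_lt_of_le hk (min_le_left _ _))

end Pool.Agent.H14.GP
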