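import Pool.Agent.H14.GP.Bl
import Pool.Agent.H14.GP.Pack
import Pool.Agent.H14.GP.Char
import Pool.Agent.H14.GP.Prime
import Pool.Agent.H14.GP.Cluster
import Pool.Agent.H14.GP.Thin

set_option autoImplicit false

open Complex Metric Set Filter Topology ComplexConjugate MeasureTheory

namespace Pool.Agent.H14.GP

/-! ## Module H: `Hoff.lean` -/

private lemma hoff_BlData_mono {s : ℕ → ℂ} {A B : Set ℕ} (h : BlData s (ind A)) (hB : B ⊆ A) :
    BlData s (ind B) := by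
  refine ⟨h.1, Summable.of_nonneg_of_le (fun i => ?_) (fun i => ?_) h.2⟩
  · exact mul_nonneg (Nat.cast_nonneg _) (by linarith [h.1 i])
  · refine mul_le_mul_of_nonneg_right ?_ (by linarith [h.1 i])
    have : ind B i ≤ ind A i := by
      unfold ind
      exact Set.indicator_le_indicator_of_subset hB (fun _ => Nat.zero_le _) i
    exact_mod_cast this

private lemma hoff_sum_le {s : ℕ → ℂ} {A : Set ℕ} (h : BlData s (ind A)) {δ : ℝ} (hδ : 0 < δ)
    {i : ℕ} (hi : δ ≤ ‖Bl s (ind (A \ {i})) (s i)‖) (F : Finset ℕ) (hF : (↑F : Set ℕ) ⊆ A) :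
    ∑ k ∈ F, Ke (s i) (s k) ≤ 1 - 2 * Real.log δ := by
  classical
  have hd : BlData s (ind (A \ {i})) := hoff_BlData_mono h diff_subset
  have h1 := norm_Bl_le_exp hd (h.1 i)
  have h2 : Real.log δ ≤ -(1 / 2) * ∑' k, (ind (A \ {i}) k : ℝ) * Ke (s i) (s k) := by
    rw [← Real.log_exp (-(1 / 2) * ∑' k, (ind (A \ {i}) k : ℝ) * Ke (s i) (s k))]
    exact Real.log_le_log hδ (hi.trans h1)
  have h3 : ∑ k ∈ F.erase i, Ke (s i) (s k) ≤
      ∑' k, (ind (A \ {i}) k : ℝ) * Ke (s i) (s k) := by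
    refine le_trans (le_of_eq ?_) ((summable_Ke hd (h.1 i)).sum_le_tsum (F.erase i)
      fun k _ => mul_nonneg (Nat.cast_nonneg _) (Ke_pos (h.1 i) (h.1 k)).le)
    refine Finset.sum_congr rfl fun k hk => ?_
    rw [Finset.mem_erase] at hk
    have h4 : k ∈ A \ {i} := ⟨hF hk.2, hk.1⟩
    simp [ind, Set.indicator_of_mem h4]
  have h5 : ∑ k ∈ F, Ke (s i) (s k) ≤ ∑ k ∈ F.erase i, Ke (s i) (s k) + 1 := by
    by_cases hiF : i ∈ F
    · rw [← Finset.sum_erase_add _ _ hiF, Ke_self (h.1 i)]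
    · rw [Finset.erase_eq_of_notMem hiF]
      linarith
  linarith

theorem hoffman {φ ψ : (ℂ → ℂ) → ℂ} (hφ : IsChar φ) (hψ : IsChar ψ) (hGl : Gl φ ψ) (hne : ψ ≠ φ)
    (hD : ∀ z ∈ ball (0:ℂ) 1, ∃ f ∈ Hinf, φ f ≠ f z) :
    ∃ (s : ℕ → ℂ) (ω : Ultrafilter ℕ) (C : ℝ), (∀ i, ‖s i‖ < 1) ∧
      (∀ z : ℂ, ‖z‖ < 1 → ∀ F : Finset ℕ, ∑ k ∈ F, Ke z (s k) ≤ C) ∧
      ∀ f ∈ Hinf, Tendsto (fun i => f (s i)) ω (𝓝 (φ f)) := by
  classical
  obtain ⟨s, A, hBl, h0, hp⟩ := prime_blaschke hφ hψ hGl hne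
  obtain ⟨ω, hA, hω⟩ := cluster hφ hBl h0 hp
  obtain ⟨δ, hδ, hB⟩ := thin hφ hBl hp hA hω
  set B : Set ℕ := {i | i ∈ A ∧ δ ≤ ‖Bl s (ind (A \ {i})) (s i)‖} with hBdef
  have hBA : B ⊆ A := fun i hi => hi.1
  obtain ⟨C, hC⟩ := packing (A := B) hBl.1 (Λ := 1 - 2 * Real.log δ)
    (fun i hi F hF => hoff_sum_le hBl hδ hi.2 F (hF.trans hBA))
  have hinf : B.Infinite := by
    intro hfin
    obtain ⟨i, _, hi⟩ := (Ultrafilter.finite_sUnion_mem_iff
      (s := (fun i => ({i} : Set ℕ)) '' B) (hfin.image _)).1 (by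
        have : ⋃₀ ((fun i => ({i} : Set ℕ)) '' B) = B := by
          ext x
          simp
        rw [this]
        exact hB)
    obtain ⟨i, hiB, rfl⟩ : ∃ j ∈ B, ({j} : Set ℕ) = i := by assumption
    obtain ⟨f, hf, hfne⟩ := hD (s i) (by rw [mem_ball_zero_iff]; exact hBl.1 i)
    apply hfne
    have h1 : Tendsto (fun j => f (s j)) ω (𝓝 (f (s i))) := by
      refine tendsto_nhds_of_eventually_eq ?_
      filter_upwards [hi] with j hj
      rw [Set.mem_singleton_iff.1 hj]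
    exact tendsto_nhds_unique (hω f hf) h1
  let e : ℕ → ℕ := Nat.nth (· ∈ B)
  have hinf' : (setOf (· ∈ B)).Infinite := hinf
  have he_inj : Function.Injective e := Nat.nth_injective hinf'
  have he_range : range e = B := Nat.range_nth_of_infinite hinf'
  have he_mem : ∀ i, e i ∈ B := fun i => he_range ▸ mem_range_self i
  have hlarge : range e ∈ ω := by
    rw [he_range]
    exact hB
  refine ⟨fun i => s (e i), ω.comap he_inj hlarge, C, fun i => hBl.1 _, fun z hz F => ?_,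
    fun f hf => ?_⟩
  · have h1 := hC z hz (F.map ⟨e, he_inj⟩) (by
      intro x hx
      rw [Finset.coe_map] at hx
      obtain ⟨i, _, rfl⟩ := hx
      exact he_mem i)
    rw [Finset.sum_map] at h1
    exact h1
  · exact (hω f hf).comp (by
      rw [Ultrafilter.coe_comap]
      exact tendsto_comap)

end Pool.Agent.H14.GP
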