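import Pool.Agent.H14.GP.Defs

set_option autoImplicit false

open Complex Metric Set Filter Topology ComplexConjugate MeasureTheory

namespace Pool.Agent.H14.GP

/-! ## Module A: `Mob.lean` (helper14) -/
section A
variable {z a w s : ℂ}

lemma one_sub_conj_mul_ne (hz : ‖z‖ < 1) (ha : ‖a‖ < 1) : 1 - conj a * z ≠ 0 := by
  intro h
  have h1 : conj a * z = 1 := by linear_combination -h
  have h2 : ‖conj a * z‖ = 1 := by rw [h1]; simp
  rw [norm_mul, RCLike.norm_conj] at h2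
  have : ‖a‖ * ‖z‖ < 1 := by
    nlinarith [norm_nonneg a, norm_nonneg z]
  linarith

private lemma nsq (u : ℂ) : ((‖u‖ ^ 2 : ℝ) : ℂ) = u * conj u := by
  rw [Complex.mul_conj, Complex.normSq_eq_norm_sq]

/-- the basic identity -/
lemma norm_sub_sq_identity (z a : ℂ) :
    ‖1 - conj a * z‖ ^ 2 - ‖z - a‖ ^ 2 = (1 - ‖z‖ ^ 2) * (1 - ‖a‖ ^ 2) := by
  have : ((‖1 - conj a * z‖ ^ 2 - ‖z - a‖ ^ 2 : ℝ) : ℂ) = ((1 - ‖z‖ ^ 2) * (1 - ‖a‖ ^ 2) : ℝ) := by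
    push_cast
    have e1 := nsq (1 - conj a * z)
    have e2 := nsq (z - a)
    have e3 := nsq z
    have e4 := nsq a
    push_cast at e1 e2 e3 e4
    rw [e1, e2, e3, e4]
    simp only [map_sub, map_mul, map_one, Complex.conj_conj]
    ring
  exact_mod_cast this

lemma rho_nonneg (z a : ℂ) : 0 ≤ rho z a := norm_nonneg _

lemma Ke_eq (hz : ‖z‖ < 1) (ha : ‖a‖ < 1) : Ke z a = 1 - rho z a ^ 2 := by
  have h0 : ‖1 - conj a * z‖ ≠ 0 := norm_ne_zero_iff.2 (one_sub_conj_mul_ne hz ha)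
  unfold Ke rho mob
  rw [norm_div, div_pow, ← norm_sub_sq_identity]
  field_simp

lemma Ke_pos (hz : ‖z‖ < 1) (ha : ‖a‖ < 1) : 0 < Ke z a := by
  have h0 : 0 < ‖1 - conj a * z‖ := norm_pos_iff.2 (one_sub_conj_mul_ne hz ha)
  unfold Ke
  have h1 : 0 < 1 - ‖z‖ ^ 2 := by nlinarith [norm_nonneg z]
  have h2 : 0 < 1 - ‖a‖ ^ 2 := by nlinarith [norm_nonneg a]
  positivity

lemma Ke_le_one (hz : ‖z‖ < 1) (ha : ‖a‖ < 1) : Ke z a ≤ 1 := by
  rw [Ke_eq hz ha]; nlinarith [sq_nonneg (rho z a)]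

private lemma norm_one_sub_comm (z a : ℂ) : ‖1 - conj a * z‖ = ‖1 - conj z * a‖ := by
  rw [← RCLike.norm_conj (1 - conj a * z)]
  simp only [map_sub, map_mul, map_one, Complex.conj_conj]
  rw [mul_comm]

lemma Ke_comm (z a : ℂ) : Ke z a = Ke a z := by
  unfold Ke
  rw [norm_one_sub_comm z a]
  ring

lemma Ke_self (hz : ‖z‖ < 1) : Ke z z = 1 := by
  rw [Ke_eq hz hz]; unfold rho mob; simp

lemma rho_comm (z a : ℂ) : rho z a = rho a z := by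
  unfold rho mob
  rw [norm_div, norm_div, norm_one_sub_comm z a, norm_sub_rev]

lemma rho_self (z : ℂ) : rho z z = 0 := by unfold rho mob; simp

lemma rho_eq_zero_iff (hz : ‖z‖ < 1) (ha : ‖a‖ < 1) : rho z a = 0 ↔ z = a := by
  unfold rho mob
  rw [norm_eq_zero, div_eq_zero_iff, or_iff_left (one_sub_conj_mul_ne hz ha), sub_eq_zero]

lemma rho_lt_one (hz : ‖z‖ < 1) (ha : ‖a‖ < 1) : rho z a < 1 := by
  have h := Ke_pos hz ha
  rw [Ke_eq hz ha] at h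
  nlinarith [rho_nonneg z a]

lemma norm_mob_lt (hz : ‖z‖ < 1) (ha : ‖a‖ < 1) : ‖mob a z‖ < 1 := rho_lt_one hz ha

lemma Lm_eq_mob (a w : ℂ) : Lm a w = mob (-a) w := by
  unfold Lm mob; simp

lemma norm_Lm_lt (hw : ‖w‖ < 1) (ha : ‖a‖ < 1) : ‖Lm a w‖ < 1 := by
  rw [Lm_eq_mob]; exact norm_mob_lt hw (by rwa [norm_neg])

private lemma one_add_ne (hw : ‖w‖ < 1) (ha : ‖a‖ < 1) : 1 + conj a * w ≠ 0 := by
  have := one_sub_conj_mul_ne hw (a := -a) (by rwa [norm_neg])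
  simpa using this

private lemma one_sub_conj_self_ne (ha : ‖a‖ < 1) : 1 - conj a * a ≠ 0 := one_sub_conj_mul_ne ha ha

lemma mob_Lm (hw : ‖w‖ < 1) (ha : ‖a‖ < 1) : mob a (Lm a w) = w := by
  have h1 := one_add_ne hw ha
  have h2 := one_sub_conj_self_ne ha
  have e1 : Lm a w - a = w * (1 - conj a * a) / (1 + conj a * w) := by
    unfold Lm
    rw [eq_div_iff h1, sub_mul, div_mul_cancel₀ _ h1]
    ring
  have e2 : 1 - conj a * Lm a w = (1 - conj a * a) / (1 + conj a * w) := by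
    unfold Lm
    rw [eq_div_iff h1, sub_mul, mul_assoc, div_mul_cancel₀ _ h1]
    ring
  unfold mob
  rw [e1, e2, div_div_div_cancel_right₀ h1, mul_div_assoc, div_self h2, mul_one]

lemma Lm_mob (hz : ‖z‖ < 1) (ha : ‖a‖ < 1) : Lm a (mob a z) = z := by
  have h1 := one_sub_conj_mul_ne hz ha
  have h2 := one_sub_conj_self_ne ha
  have e1 : mob a z + a = z * (1 - conj a * a) / (1 - conj a * z) := by
    unfold mob
    rw [eq_div_iff h1, add_mul, div_mul_cancel₀ _ h1]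
    ring
  have e2 : 1 + conj a * mob a z = (1 - conj a * a) / (1 - conj a * z) := by
    unfold mob
    rw [eq_div_iff h1, add_mul, mul_assoc, div_mul_cancel₀ _ h1]
    ring
  unfold Lm
  rw [e1, e2, div_div_div_cancel_right₀ h1, mul_div_assoc, div_self h2, mul_one]

lemma rho_Lm (hw : ‖w‖ < 1) (ha : ‖a‖ < 1) : rho (Lm a w) a = ‖w‖ := by
  unfold rho; rw [mob_Lm hw ha]

/-- invariance of `rho` -/
lemma rho_Lm_Lm (hw : ‖w‖ < 1) (hs : ‖s‖ < 1) (ha : ‖a‖ < 1) :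
    rho (Lm a w) (Lm a s) = rho w s := by
  have h1 := one_add_ne hw ha
  have h2 := one_add_ne hs ha
  have h3 := one_sub_conj_self_ne ha
  have h4 := one_sub_conj_mul_ne hw hs
  have h2' : 1 + a * conj s ≠ 0 := by
    intro h
    apply h2
    have := congrArg conj h
    simpa using this
  have e1 : Lm a w - Lm a s = (w - s) * (1 - conj a * a) / ((1 + conj a * w) * (1 + conj a * s)) := by
    unfold Lm
    rw [div_sub_div _ _ h1 h2]
    congr 1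
    ring
  have e2 : 1 - conj (Lm a s) * Lm a w =
      (1 - conj s * w) * (1 - conj a * a) / ((1 + conj a * w) * (1 + a * conj s)) := by
    unfold Lm
    simp only [map_div₀, map_add, map_mul, map_one, Complex.conj_conj]
    rw [div_mul_div_comm, eq_div_iff (mul_ne_zero h1 h2'), sub_mul,
      mul_comm (1 + conj a * w) (1 + a * conj s), div_mul_cancel₀ _ (mul_ne_zero h2' h1)]
    ring
  have e3 : ‖1 + a * conj s‖ = ‖1 + conj a * s‖ := by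
    rw [← RCLike.norm_conj]
    simp
  unfold rho mob
  rw [e1, e2]
  simp only [norm_div, norm_mul]
  rw [e3]
  have n1 : ‖1 + conj a * w‖ ≠ 0 := norm_ne_zero_iff.2 h1
  have n2 : ‖1 + conj a * s‖ ≠ 0 := norm_ne_zero_iff.2 h2
  have n3 : ‖1 - conj a * a‖ ≠ 0 := norm_ne_zero_iff.2 h3
  have n4 : ‖1 - conj s * w‖ ≠ 0 := norm_ne_zero_iff.2 h4
  generalize ‖1 + conj a * w‖ = x1 at *
  generalize ‖1 + conj a * s‖ = x2 at *
  generalize ‖1 - conj a * a‖ = x3 at *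
  generalize ‖1 - conj s * w‖ = x4 at *
  field_simp

lemma rho_Lm_left (hw : ‖w‖ < 1) (ha : ‖a‖ < 1) (hs : ‖s‖ < 1) :
    rho (Lm a w) s = rho w (mob a s) := by
  conv_lhs => rw [← Lm_mob hs ha]
  exact rho_Lm_Lm hw (norm_mob_lt hs ha) ha

lemma Ke_Lm_left (hw : ‖w‖ < 1) (ha : ‖a‖ < 1) (hs : ‖s‖ < 1) :
    Ke (Lm a w) s = Ke w (mob a s) := by
  rw [Ke_eq (norm_Lm_lt hw ha) hs, Ke_eq hw (norm_mob_lt hs ha), rho_Lm_left hw ha hs]

/-- `rho w 0 = ‖w‖` -/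
lemma rho_zero_right (w : ℂ) : rho w 0 = ‖w‖ := by unfold rho mob; simp

/-- bounds for `rho` by norms -/
lemma rho_le_add (hz : ‖z‖ < 1) (hw : ‖w‖ < 1) :
    rho z w ≤ (‖z‖ + ‖w‖) / (1 + ‖z‖ * ‖w‖) := by
  have hz0 := norm_nonneg z
  have hw0 := norm_nonneg w
  have hr := rho_lt_one hz hw
  have hr0 := rho_nonneg z w
  have hKe : (1 - ‖z‖ ^ 2) * (1 - ‖w‖ ^ 2) / (1 + ‖z‖ * ‖w‖) ^ 2 ≤ Ke z w := by
    unfold Ke
    have hp : 0 < ‖1 - conj w * z‖ := norm_pos_iff.2 (one_sub_conj_mul_ne hz hw)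
    have hle : ‖1 - conj w * z‖ ≤ 1 + ‖z‖ * ‖w‖ := by
      calc ‖1 - conj w * z‖ ≤ ‖(1:ℂ)‖ + ‖conj w * z‖ := norm_sub_le _ _
        _ = 1 + ‖z‖ * ‖w‖ := by rw [norm_mul, RCLike.norm_conj, norm_one]; ring
    apply div_le_div_of_nonneg_left _ (by positivity)
    · exact pow_le_pow_left₀ hp.le hle 2
    · have h1 : 0 ≤ 1 - ‖z‖ ^ 2 := by nlinarith
      have h2 : 0 ≤ 1 - ‖w‖ ^ 2 := by nlinarith
      positivity
  rw [Ke_eq hz hw] at hKe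
  have hpos : 0 < 1 + ‖z‖ * ‖w‖ := by positivity
  have key : rho z w ^ 2 ≤ ((‖z‖ + ‖w‖) / (1 + ‖z‖ * ‖w‖)) ^ 2 := by
    have e : 1 - (1 - ‖z‖ ^ 2) * (1 - ‖w‖ ^ 2) / (1 + ‖z‖ * ‖w‖) ^ 2 =
        ((‖z‖ + ‖w‖) / (1 + ‖z‖ * ‖w‖)) ^ 2 := by
      field_simp
      ring
    linarith
  exact (pow_le_pow_iff_left₀ hr0 (by positivity) two_ne_zero).1 key

lemma rho_triangle (hz : ‖z‖ < 1) (ha : ‖a‖ < 1) (hw : ‖w‖ < 1) :
    rho z w ≤ rho z a + rho a w := by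
  have h := rho_le_add (norm_mob_lt hz ha) (norm_mob_lt hw ha)
  rw [← rho_Lm_Lm (norm_mob_lt hz ha) (norm_mob_lt hw ha) ha, Lm_mob hz ha, Lm_mob hw ha] at h
  change rho z w ≤ (rho z a + rho w a) / (1 + rho z a * rho w a) at h
  rw [rho_comm w a] at h
  refine h.trans ?_
  have h1 := rho_nonneg z a
  have h2 := rho_nonneg a w
  rw [div_le_iff₀ (by positivity)]
  nlinarith [mul_nonneg h1 h2, mul_nonneg (add_nonneg h1 h2) (mul_nonneg h1 h2)]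

/-- the strong triangle inequality -/
lemma rho_strong (hz : ‖z‖ < 1) (ha : ‖a‖ < 1) (hw : ‖w‖ < 1) :
    rho z w ≤ (rho z a + rho a w) / (1 + rho z a * rho a w) := by
  have h := rho_le_add (norm_mob_lt hz ha) (norm_mob_lt hw ha)
  rw [← rho_Lm_Lm (norm_mob_lt hz ha) (norm_mob_lt hw ha) ha, Lm_mob hz ha, Lm_mob hw ha] at h
  change rho z w ≤ (rho z a + rho w a) / (1 + rho z a * rho w a) at h
  rwa [rho_comm w a] at h

/-- `Ke` in terms of Moebius images -/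
lemma Ke_mob_mob (hz : ‖z‖ < 1) (ha : ‖a‖ < 1) (hs : ‖s‖ < 1) :
    Ke z s = Ke (mob a z) (mob a s) := by
  conv_lhs => rw [← Lm_mob hz ha]
  exact Ke_Lm_left (norm_mob_lt hz ha) ha hs

/-- quasi-triangle inequality -/
lemma Ke_quasi (hz : ‖z‖ < 1) (ha : ‖a‖ < 1) (hs : ‖s‖ < 1) :
    Ke z s ≤ Ke z a * Ke a s / (1 - rho s a) ^ 2 := by
  rw [Ke_mob_mob hz ha hs, Ke_eq hz ha, Ke_comm a s, Ke_eq hs ha]
  have hu := norm_mob_lt hz ha
  have hv := norm_mob_lt hs ha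
  change Ke (mob a z) (mob a s) ≤ (1 - ‖mob a z‖ ^ 2) * (1 - ‖mob a s‖ ^ 2) / (1 - ‖mob a s‖) ^ 2
  set u := mob a z
  set v := mob a s
  unfold Ke
  have h0 : 0 ≤ (1 - ‖u‖ ^ 2) * (1 - ‖v‖ ^ 2) := by
    have h1 : 0 ≤ 1 - ‖u‖ ^ 2 := by nlinarith [norm_nonneg u]
    have h2 : 0 ≤ 1 - ‖v‖ ^ 2 := by nlinarith [norm_nonneg v]
    positivity
  have hlow : 1 - ‖v‖ ≤ ‖1 - conj v * u‖ := by
    calc 1 - ‖v‖ ≤ 1 - ‖v‖ * ‖u‖ := by nlinarith [norm_nonneg u, norm_nonneg v]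
      _ = ‖(1:ℂ)‖ - ‖conj v * u‖ := by rw [norm_mul, RCLike.norm_conj, norm_one]
      _ ≤ ‖1 - conj v * u‖ := norm_sub_norm_le _ _
  have hpos : 0 < 1 - ‖v‖ := by linarith
  exact div_le_div_of_nonneg_left h0 (by positivity) (pow_le_pow_left₀ hpos.le hlow 2)

lemma Ke_le_left (hz : ‖z‖ < 1) (ha : ‖a‖ < 1) :
    Ke z a ≤ 4 * (1 - ‖z‖) / (1 - ‖a‖) := by
  unfold Ke
  have hz0 := norm_nonneg z
  have ha0 := norm_nonneg a
  have hlow : 1 - ‖a‖ ≤ ‖1 - conj a * z‖ := by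
    calc 1 - ‖a‖ ≤ 1 - ‖a‖ * ‖z‖ := by nlinarith
      _ = ‖(1:ℂ)‖ - ‖conj a * z‖ := by rw [norm_mul, RCLike.norm_conj, norm_one]
      _ ≤ ‖1 - conj a * z‖ := norm_sub_norm_le _ _
  have hpos : 0 < 1 - ‖a‖ := by linarith
  have hp : 0 < ‖1 - conj a * z‖ := lt_of_lt_of_le hpos hlow
  have h1 : 0 ≤ 1 - ‖z‖ ^ 2 := by nlinarith
  have h2 : 0 ≤ 1 - ‖a‖ ^ 2 := by nlinarith
  calc (1 - ‖z‖ ^ 2) * (1 - ‖a‖ ^ 2) / ‖1 - conj a * z‖ ^ 2
      ≤ (1 - ‖z‖ ^ 2) * (1 - ‖a‖ ^ 2) / (1 - ‖a‖) ^ 2 :=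
        div_le_div_of_nonneg_left (by positivity) (by positivity) (pow_le_pow_left₀ hpos.le hlow 2)
    _ = (1 - ‖z‖ ^ 2) * (1 + ‖a‖) / (1 - ‖a‖) := by field_simp; ring
    _ ≤ 4 * (1 - ‖z‖) / (1 - ‖a‖) := by
        apply div_le_div_of_nonneg_right _ hpos.le
        have : 1 - ‖z‖ ^ 2 ≤ 2 * (1 - ‖z‖) := by nlinarith
        nlinarith

lemma Ke_le_right (hz : ‖z‖ < 1) (ha : ‖a‖ < 1) :
    Ke z a ≤ 4 * (1 - ‖a‖) / (1 - ‖z‖) := by
  rw [Ke_comm]; exact Ke_le_left ha hz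

lemma one_sub_le_Ke (hz : ‖z‖ < 1) (ha : ‖a‖ < 1) :
    (1 - ‖z‖) * (1 - ‖a‖) / 4 ≤ Ke z a := by
  unfold Ke
  have hz0 := norm_nonneg z
  have ha0 := norm_nonneg a
  have hp : 0 < ‖1 - conj a * z‖ := norm_pos_iff.2 (one_sub_conj_mul_ne hz ha)
  have hle : ‖1 - conj a * z‖ ≤ 2 := by
    calc ‖1 - conj a * z‖ ≤ ‖(1:ℂ)‖ + ‖conj a * z‖ := norm_sub_le _ _
      _ = 1 + ‖a‖ * ‖z‖ := by rw [norm_mul, RCLike.norm_conj, norm_one]
      _ ≤ 2 := by nlinarith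
  have h1 : 0 ≤ 1 - ‖z‖ ^ 2 := by nlinarith
  have h2 : 0 ≤ 1 - ‖a‖ ^ 2 := by nlinarith
  have h3 : 1 - ‖z‖ ≤ 1 - ‖z‖ ^ 2 := by nlinarith
  have h4 : 1 - ‖a‖ ≤ 1 - ‖a‖ ^ 2 := by nlinarith
  calc (1 - ‖z‖) * (1 - ‖a‖) / 4 ≤ (1 - ‖z‖ ^ 2) * (1 - ‖a‖ ^ 2) / 4 := by
        apply div_le_div_of_nonneg_right _ (by norm_num)
        exact mul_le_mul h3 h4 (by linarith) h1
    _ ≤ (1 - ‖z‖ ^ 2) * (1 - ‖a‖ ^ 2) / ‖1 - conj a * z‖ ^ 2 := by
        apply div_le_div_of_nonneg_left (by positivity) (by positivity)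
        nlinarith

lemma rho_pos_of_ne (hz : ‖z‖ < 1) (ha : ‖a‖ < 1) (hne : z ≠ a) : 0 < rho z a :=
  lt_of_le_of_ne (rho_nonneg z a) fun h => hne ((rho_eq_zero_iff hz ha).1 h.symm)

lemma half_Ke_le (hz : ‖z‖ < 1) (ha : ‖a‖ < 1) (hne : z ≠ a) :
    Ke z a / 2 ≤ - Real.log (rho z a) := by
  have hr := rho_pos_of_ne hz ha hne
  have h := Real.log_le_sub_one_of_pos (pow_pos hr 2)
  rw [Real.log_pow] at h
  rw [Ke_eq hz ha]
  push_cast at h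
  linarith

lemma neg_log_rho_le {c : ℝ} (hc : 0 < c) (hz : ‖z‖ < 1) (ha : ‖a‖ < 1) (h : c ≤ rho z a) :
    - Real.log (rho z a) ≤ Ke z a / (2 * c ^ 2) := by
  have hr : 0 < rho z a := lt_of_lt_of_le hc h
  have h1 := Real.one_sub_inv_le_log_of_pos (pow_pos hr 2)
  rw [Real.log_pow] at h1
  push_cast at h1
  have h2 : (rho z a ^ 2)⁻¹ - 1 = Ke z a / rho z a ^ 2 := by
    rw [Ke_eq hz ha]; field_simp
  have h3 : Ke z a / rho z a ^ 2 ≤ Ke z a / c ^ 2 :=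
    div_le_div_of_nonneg_left (Ke_pos hz ha).le (by positivity) (pow_le_pow_left₀ hc.le h 2)
  have h4 : Ke z a / (2 * c ^ 2) = (Ke z a / c ^ 2) / 2 := by field_simp
  rw [h4]
  linarith

lemma norm_bf (hz : ‖z‖ < 1) (ha : ‖a‖ < 1) : ‖bf a z‖ = rho z a := by
  unfold bf rho mob
  split_ifs with h
  · subst h; simp
  · rw [norm_mul, norm_div, norm_div, norm_div, Complex.norm_real, norm_norm,
      div_self (norm_ne_zero_iff.2 h), one_mul, norm_sub_rev]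

/-- Schwarz's lemma for maps of the disc into the closed disc -/
lemma schwarz_zero {f : ℂ → ℂ} (hf : f ∈ Ub) (hz : ‖z‖ < 1) : ‖f z - f 0‖ ≤ 2 * ‖z‖ := by
  have := Complex.dist_le_div_mul_dist_of_mapsTo_ball (f := f) (c := 0) (R₁ := 1) (R₂ := 2)
      (z := z) hf.1 ?_ (by simpa using hz)
  · simpa [dist_eq_norm] using this
  · intro w hw
    rw [mem_closedBall, dist_eq_norm]
    calc ‖f w - f 0‖ ≤ ‖f w‖ + ‖f 0‖ := norm_sub_le _ _
      _ ≤ 2 := by linarith [hf.2 w hw, hf.2 0 (by simp)]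

lemma differentiableOn_Lm (ha : ‖a‖ < 1) : DifferentiableOn ℂ (Lm a) (ball 0 1) := by
  intro w hw
  have h1 := one_add_ne (w := w) (by simpa using hw) ha
  unfold Lm
  have d1 : DifferentiableAt ℂ (fun w : ℂ => w + a) w := by fun_prop
  have d2 : DifferentiableAt ℂ (fun w : ℂ => 1 + conj a * w) w := by fun_prop
  exact (d1.div d2 h1).differentiableWithinAt

lemma differentiableOn_mob (ha : ‖a‖ < 1) : DifferentiableOn ℂ (mob a) (ball 0 1) := by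
  intro w hw
  have h1 := one_sub_conj_mul_ne (z := w) (by simpa using hw) ha
  unfold mob
  have d1 : DifferentiableAt ℂ (fun w : ℂ => w - a) w := by fun_prop
  have d2 : DifferentiableAt ℂ (fun w : ℂ => 1 - conj a * w) w := by fun_prop
  exact (d1.div d2 h1).differentiableWithinAt

/-- Schwarz-Pick -/
lemma schwarz_pick {f : ℂ → ℂ} (hf : f ∈ Ub) (hz : ‖z‖ < 1) (hw : ‖w‖ < 1) :
    ‖f z - f w‖ ≤ 2 * rho z w := by
  have hg : (fun u => f (Lm w u)) ∈ Ub := by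
    refine ⟨hf.1.comp (differentiableOn_Lm hw) ?_, ?_⟩
    · intro u hu
      have := norm_Lm_lt (a := w) (by simpa using hu) hw
      simpa using this
    · intro u hu
      exact hf.2 _ (by simpa using norm_Lm_lt (a := w) (by simpa using hu) hw)
  have h := schwarz_zero hg (norm_mob_lt hz hw)
  rw [Lm_mob hz hw] at h
  have e0 : Lm w 0 = w := by unfold Lm; simp
  rw [e0] at h
  exact h

end A

end Pool.Agent.H14.GP
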